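import Pool.Agent.Lib.Eln.Fld

set_option autoImplicit false

/-!
The block: paths in `BB` with prescribed forms of the end points.
-/

open scoped InnerProductSpace BoundedContinuousFunction unitInterval

namespace Pool.Agent.Lib.Eln

open Pool.Agent.Lib.P81d4f5 (S3)

/-- fields of the form `V_e c(a) V_e^*` -/
def InB0 (f : BB) : Prop :=
  ∃ c : (ℕ → S3) → Op, ∀ x, f.fn x = V ee * c (pa x) * star (V ee)

/-- fields of the form `V_ζ c(b) V_ζ^*`, `ζ` being the special coordinate -/
def InB1 (f : BB) : Prop :=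
  ∃ c : (ℕ → S3) → Op, ∀ x, f.fn x = V (x none) * c (pb x) * star (V (x none))

theorem VcV_mul (ζ : S3) (c d : Op) :
    V ζ * c * star (V ζ) * (V ζ * d * star (V ζ)) = V ζ * (c * d) * star (V ζ) := by
  have : V ζ * c * star (V ζ) * (V ζ * d * star (V ζ)) =
      V ζ * c * (star (V ζ) * V ζ) * d * star (V ζ) := by noncomm_ring
  rw [this, star_V_mul_V]; noncomm_ring

theorem star_V_VcV_V (ζ : S3) (c : Op) : star (V ζ) * (V ζ * c * star (V ζ)) * V ζ = c := by
  have : star (V ζ) * (V ζ * c * star (V ζ)) * V ζ =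
      (star (V ζ) * V ζ) * c * (star (V ζ) * V ζ) := by noncomm_ring
  rw [this, star_V_mul_V]; simp

/-- the coefficient field of the first kind -/
noncomputable def cf0 (f : BB) (a : ℕ → S3) : Op :=
  star (V ee) * f.fn (mkx a (fun _ => ee) ee) * V ee

/-- the coefficient field of the second kind -/
noncomputable def cf1 (f : BB) (b : ℕ → S3) : Op :=
  star (V ee) * f.fn (mkx (fun _ => ee) b ee) * V ee

theorem InB0.eq {f : BB} (h : InB0 f) (x : XX) : f.fn x = V ee * cf0 f (pa x) * star (V ee) := by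
  obtain ⟨c, hc⟩ := h
  rw [cf0, hc, hc, pa_mkx, star_V_VcV_V]

theorem InB1.eq {f : BB} (h : InB1 f) (x : XX) :
    f.fn x = V (x none) * cf1 f (pb x) * star (V (x none)) := by
  obtain ⟨c, hc⟩ := h
  rw [cf1, hc, hc, pb_mkx, mkx_none, star_V_VcV_V]

theorem InB0.iff (f : BB) : InB0 f ↔ ∀ x, f.fn x = V ee * cf0 f (pa x) * star (V ee) :=
  ⟨InB0.eq, fun h => ⟨_, h⟩⟩

theorem InB1.iff (f : BB) :
    InB1 f ↔ ∀ x, f.fn x = V (x none) * cf1 f (pb x) * star (V (x none)) :=
  ⟨InB1.eq, fun h => ⟨_, h⟩⟩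

theorem InB0.add {f g : BB} (hf : InB0 f) (hg : InB0 g) : InB0 (f + g) := by
  obtain ⟨c, hc⟩ := hf
  obtain ⟨d, hd⟩ := hg
  exact ⟨fun a => c a + d a, fun x => by rw [BB.fn_add, hc, hd]; noncomm_ring⟩

theorem InB0.mul {f g : BB} (hf : InB0 f) (hg : InB0 g) : InB0 (f * g) := by
  obtain ⟨c, hc⟩ := hf
  obtain ⟨d, hd⟩ := hg
  exact ⟨fun a => c a * d a, fun x => by rw [BB.fn_mul, hc, hd, VcV_mul]⟩

theorem InB0.smul {f : BB} (hf : InB0 f) (z : ℂ) : InB0 (z • f) := by
  obtain ⟨c, hc⟩ := hf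
  exact ⟨fun a => z • c a, fun x => by rw [BB.fn_smul, hc]; simp⟩

theorem InB0.star {f : BB} (hf : InB0 f) : InB0 (star f) := by
  obtain ⟨c, hc⟩ := hf
  exact ⟨fun a => Star.star (c a), fun x => by rw [BB.fn_star, hc]; simp [mul_assoc]⟩

theorem InB0.zero : InB0 0 := ⟨fun _ => 0, fun x => by simp⟩

theorem InB1.add {f g : BB} (hf : InB1 f) (hg : InB1 g) : InB1 (f + g) := by
  obtain ⟨c, hc⟩ := hf
  obtain ⟨d, hd⟩ := hg
  exact ⟨fun a => c a + d a, fun x => by rw [BB.fn_add, hc, hd]; noncomm_ring⟩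

theorem InB1.mul {f g : BB} (hf : InB1 f) (hg : InB1 g) : InB1 (f * g) := by
  obtain ⟨c, hc⟩ := hf
  obtain ⟨d, hd⟩ := hg
  exact ⟨fun a => c a * d a, fun x => by rw [BB.fn_mul, hc, hd, VcV_mul]⟩

theorem InB1.smul {f : BB} (hf : InB1 f) (z : ℂ) : InB1 (z • f) := by
  obtain ⟨c, hc⟩ := hf
  exact ⟨fun a => z • c a, fun x => by rw [BB.fn_smul, hc]; simp⟩

theorem InB1.star {f : BB} (hf : InB1 f) : InB1 (star f) := by
  obtain ⟨c, hc⟩ := hf
  exact ⟨fun a => Star.star (c a), fun x => by rw [BB.fn_star, hc]; simp [mul_assoc]⟩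

theorem InB1.zero : InB1 0 := ⟨fun _ => 0, fun x => by simp⟩

theorem continuous_fn (x : XX) : Continuous fun f : BB => f.fn x := by
  have h : LipschitzWith 1 fun f : BB => f.fn x := LipschitzWith.of_dist_le_mul fun f g => by
    rw [NNReal.coe_one, one_mul, dist_eq_norm, dist_eq_norm]
    exact BB.norm_fn_le (f - g) x
  exact h.continuous

theorem continuous_cf0 (a : ℕ → S3) : Continuous fun f : BB => cf0 f a :=
  (continuous_const.mul (continuous_fn _)).mul continuous_const

theorem continuous_cf1 (a : ℕ → S3) : Continuous fun f : BB => cf1 f a :=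
  (continuous_const.mul (continuous_fn _)).mul continuous_const

theorem isClosed_InB0 : IsClosed {f : BB | InB0 f} := by
  have : {f : BB | InB0 f} =
      ⋂ x, {f : BB | f.fn x = V ee * cf0 f (pa x) * star (V ee)} := by
    ext f; simp [InB0.iff]
  rw [this]
  exact isClosed_iInter fun x => isClosed_eq (continuous_fn x)
    ((continuous_const.mul (continuous_cf0 _)).mul continuous_const)

theorem isClosed_InB1 : IsClosed {f : BB | InB1 f} := by
  have : {f : BB | InB1 f} =
      ⋂ x, {f : BB | f.fn x = V (x none) * cf1 f (pb x) * star (V (x none))} := by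
    ext f; simp [InB1.iff]
  rw [this]
  exact isClosed_iInter fun x => isClosed_eq (continuous_fn x)
    ((continuous_const.mul (continuous_cf1 _)).mul continuous_const)

/-- norm continuous paths in `BB` -/
abbrev MM : Type := C(I, BB)

/-- the block, as a subalgebra of `MM` -/
noncomputable def Isub : NonUnitalStarSubalgebra ℂ MM where
  carrier := {g | InB0 (g 0) ∧ InB1 (g 1)}
  add_mem' h h' := ⟨h.1.add h'.1, h.2.add h'.2⟩
  zero_mem' := ⟨InB0.zero, InB1.zero⟩
  mul_mem' h h' := ⟨h.1.mul h'.1, h.2.mul h'.2⟩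
  smul_mem' z _ h := ⟨h.1.smul z, h.2.smul z⟩
  star_mem' h := ⟨h.1.star, h.2.star⟩

theorem mem_Isub {g : MM} : g ∈ Isub ↔ InB0 (g 0) ∧ InB1 (g 1) := Iff.rfl

theorem isClosed_Isub : IsClosed (Isub : Set MM) := by
  have h1 : IsClosed {g : MM | InB0 (g 0)} :=
    isClosed_InB0.preimage (continuous_eval_const (0 : I))
  have h2 : IsClosed {g : MM | InB1 (g 1)} :=
    isClosed_InB1.preimage (continuous_eval_const (1 : I))
  exact h1.inter h2

/-- the block algebra -/
def II : Type := Isub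

noncomputable instance : NonUnitalCStarAlgebra II :=
  haveI : IsClosed (Isub : Set MM) := isClosed_Isub
  inferInstanceAs (NonUnitalCStarAlgebra Isub)

namespace II

/-- value at a time -/
noncomputable def at' (g : II) (t : I) : BB := g.1 t

/-- the underlying path -/
noncomputable def toMM (g : II) : MM := g.1

theorem toMM_apply (g : II) (t : I) : g.toMM t = g.at' t := rfl

theorem mem0 (g : II) : InB0 (g.at' 0) := g.2.1
theorem mem1 (g : II) : InB1 (g.at' 1) := g.2.2

theorem continuous_at' (g : II) : Continuous g.at' := g.1.continuous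

/-- constructor -/
noncomputable def mk (f : I → BB) (hf : Continuous f) (h0 : InB0 (f 0)) (h1 : InB1 (f 1)) : II :=
  ⟨⟨f, hf⟩, h0, h1⟩

@[simp] theorem at'_mk (f : I → BB) (hf : Continuous f) (h0 : InB0 (f 0)) (h1 : InB1 (f 1))
    (t : I) : (mk f hf h0 h1).at' t = f t := rfl

@[ext] theorem ext {f g : II} (h : ∀ t, f.at' t = g.at' t) : f = g :=
  Subtype.ext (ContinuousMap.ext h)

@[simp] theorem at'_add (f g : II) (t : I) : (f + g).at' t = f.at' t + g.at' t := rfl
@[simp] theorem at'_sub (f g : II) (t : I) : (f - g).at' t = f.at' t - g.at' t := rfl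
@[simp] theorem at'_neg (f : II) (t : I) : (-f).at' t = -f.at' t := rfl
@[simp] theorem at'_mul (f g : II) (t : I) : (f * g).at' t = f.at' t * g.at' t := rfl
@[simp] theorem at'_star (f : II) (t : I) : (star f).at' t = star (f.at' t) := rfl
@[simp] theorem at'_smul (c : ℂ) (f : II) (t : I) : (c • f).at' t = c • f.at' t := rfl
@[simp] theorem at'_zero (t : I) : (0 : II).at' t = 0 := rfl

theorem norm_at'_le (g : II) (t : I) : ‖g.at' t‖ ≤ ‖g‖ :=
  ContinuousMap.norm_coe_le_norm g.1 t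

theorem norm_le {g : II} {C : ℝ} (hC : 0 ≤ C) (h : ∀ t, ‖g.at' t‖ ≤ C) : ‖g‖ ≤ C :=
  (ContinuousMap.norm_le _ hC).2 h

end II

end Pool.Agent.Lib.Eln
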