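import Pool.Agent.Lib.Eln.NucDefs

set_option autoImplicit false

/-!
MODULE Eln.CPcomp (pure C*-algebra theory; uses NucDefs only).

`IsCP.comp`: compositions of completely positive maps are completely positive.

PROOF.  Let a_i ∈ A, c_i ∈ C (i < n).  The matrix X = (φ(a_i^* a_j))_{ij} over B satisfies
∑_ij b_i^* X_ij b_j ≥ 0 for all b.  It follows that X is positive in the C*-algebra
CStarMatrix (Fin n) (Fin n) B (Mathlib: Mathlib/Analysis/CStarAlgebra/CStarMatrix.lean,
Mathlib/Analysis/CStarAlgebra/Module/...; search for `nonneg` / `toCLM` there; a criterion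
like: M is positive iff ⟪v, M v⟫ ≥ 0 for all v in the Hilbert module C⋆ᵐᵒᵈ(B, Fin n → B) may exist or be
proved by the standard trick: X is self adjoint, X = X⁺ - X⁻, take the columns b of X⁻ * (anything):
(X⁻ X X⁻)_{ll} = ∑_ij (X⁻)_{li} X_ij (X⁻)_{jl} ≥ 0 (with b_j = (X⁻)_{jl}), but X⁻ X X⁻ = -(X⁻)^3 whose
diagonal entries are ≤ 0, so they are 0; (X⁻)^3 = Z^* Z has zero diagonal entries ∑_i Z_il^* Z_il = 0,
so Z = 0 and X⁻ = 0).  Self adjointness of X: X_ij^* = X_ji: φ is star preserving (a completely
positive map is: φ(a^* a) ≥ 0-type elements; from `IsCP` with n = 1 one gets b^* φ(a^* a) b ≥ 0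
for all b, so by an approximate unit of B, or by the lemma below, φ(a^* a) is self adjoint; then polarise:
a_i^* a_j = 1/4 ∑_k i^k (a_j + i^k a_i)^* (a_j + i^k a_i) up to order, so φ(a_i^* a_j)^* = φ(a_j^* a_i)).
Lemma: if y ∈ B and b^* y b is self adjoint for all b then y is self adjoint: z = y - y^*
satisfies b^* z b = 0 for all b, polarisation gives b^* z b' = 0, so z^* z z^* z = (z)^* z (z^* z) = 0
with b = z, b' = z^* z, hence z = 0.
So X = Y^* Y (positive elements are squares: `CStarAlgebra.nonneg_iff_eq_star_mul_self`), i.e.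
φ(a_i^* a_j) = ∑_l Y_li^* Y_lj, and
∑_ij c_i^* χ(φ(a_i^* a_j)) c_j = ∑_l ∑_ij c_i^* χ(Y_li^* Y_lj) c_j is a finite sum of elements of the form
d^* d, hence of this form (positive elements of C: sum of nonneg is nonneg).
Order instances: `CStarAlgebra.spectralOrder`, `CStarAlgebra.spectralOrderedRing` (also for
NonUnitalCStarAlgebra).
-/

namespace Pool.Agent.Lib.Eln

namespace CPcompAux

variable {A B : Type} [NonUnitalCStarAlgebra A] [NonUnitalCStarAlgebra B]

theorem sum_sq {ι : Type} [Fintype ι] (c : ι → A) :
    ∃ d : A, ∑ i, star (c i) * c i = star d * d := by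
  let _ : PartialOrder A := CStarAlgebra.spectralOrder A
  have _ : StarOrderedRing A := CStarAlgebra.spectralOrderedRing A
  have h : 0 ≤ ∑ i, star (c i) * c i := Finset.sum_nonneg fun i _ => star_mul_self_nonneg _
  exact CStarAlgebra.nonneg_iff_eq_star_mul_self.mp h

/-- an element all of whose compressions are self adjoint is self adjoint -/
theorem sa_of_compr (y : B) (h : ∀ b : B, star (star b * y * b) = star b * y * b) : star y = y := by
  set z : B := y - star y with hz
  have h0 : ∀ b : B, star b * z * b = 0 := by
    intro b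
    have h1 := h b
    rw [star_mul, star_mul, star_star] at h1
    rw [hz, mul_sub, sub_mul, sub_eq_zero, ← h1, mul_assoc]
  have h2 : ∀ b b' : B, star b * z * b' = 0 := by
    intro b b'
    have h3 : star b * z * b' + star b' * z * b = 0 := by
      have h4 := h0 (b + b')
      rw [star_add, add_mul, add_mul, mul_add, mul_add, h0 b, h0 b', zero_add, add_zero] at h4
      exact h4
    have h5 : star b * z * b' - star b' * z * b = 0 := by
      have h4 := h0 (b + Complex.I • b')
      have h6 := h0 (Complex.I • b')
      rw [star_add, add_mul, add_mul, mul_add, mul_add, h0 b, h6, zero_add, add_zero, star_smul,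
        mul_smul_comm, smul_mul_assoc, smul_mul_assoc, Complex.star_def, Complex.conj_I,
        neg_smul, ← sub_eq_add_neg, ← smul_sub] at h4
      exact (smul_eq_zero.1 h4).resolve_left Complex.I_ne_zero
    have h7 : (2 : ℂ) • (star b * z * b') = 0 := by
      rw [two_smul]
      calc star b * z * b' + star b * z * b' =
          (star b * z * b' + star b' * z * b) + (star b * z * b' - star b' * z * b) := by abel
        _ = 0 := by rw [h3, h5, add_zero]
    exact (smul_eq_zero.1 h7).resolve_left two_ne_zero
  have h8 : star (star z * z) * (star z * z) = 0 := by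
    rw [star_mul, star_star]
    exact h2 z (star z * z)
  have h9 : star z * z = 0 := (CStarRing.star_mul_self_eq_zero_iff _).1 h8
  have h10 : z = 0 := (CStarRing.star_mul_self_eq_zero_iff _).1 h9
  exact (sub_eq_zero.1 h10).symm

theorem star_map {φ : A →ₗ[ℂ] B} (hφ : IsCP φ) (a a' : A) :
    star (φ (star a * a')) = φ (star a' * a) := by
  have h1 : ∀ u : A, star (φ (star u * u)) = φ (star u * u) := by
    intro u
    apply sa_of_compr
    intro b
    obtain ⟨c, hc⟩ := hφ 1 (fun _ => u) (fun _ => b)
    simp only [Finset.univ_unique, Finset.sum_const, Finset.card_singleton, one_smul] at hc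
    rw [hc, star_mul, star_star]
  set p := φ (star a * a') with hp
  set q := φ (star a' * a) with hq
  have h2 : star p + star q = p + q := by
    have h3 := h1 (a + a')
    have h4 : φ (star (a + a') * (a + a')) = φ (star a * a) + φ (star a' * a') + (p + q) := by
      rw [hp, hq, ← map_add, ← map_add, ← map_add]
      congr 1
      rw [star_add, add_mul, mul_add, mul_add]
      abel
    rw [h4, star_add, star_add, star_add, h1 a, h1 a'] at h3
    exact add_left_cancel h3
  have h5 : star p - star q = q - p := by
    have h3 := h1 (a + Complex.I • a')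
    have h6 := h1 (Complex.I • a')
    have h4 : φ (star (a + Complex.I • a') * (a + Complex.I • a')) =
        φ (star a * a) + φ (star (Complex.I • a') * (Complex.I • a')) +
          Complex.I • (p - q) := by
      rw [hp, hq, ← map_sub, ← map_smul, ← map_add, ← map_add]
      congr 1
      have e : star (Complex.I • a') = -(Complex.I • star a') := by
        rw [star_smul, Complex.star_def, Complex.conj_I, neg_smul]
      simp only [star_add, e, add_mul, mul_add, mul_smul_comm, neg_mul, smul_mul_assoc, smul_sub,
        smul_add, smul_neg]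
      abel
    rw [h4, star_add, star_add, h1 a, h6] at h3
    have h7 := add_left_cancel h3
    rw [star_smul, Complex.star_def, Complex.conj_I, neg_smul, ← smul_neg, star_sub, neg_sub] at h7
    have h8 : Complex.I • (star q - star p) = Complex.I • (p - q) := h7
    have h9 : star q - star p = p - q := by
      have := congrArg (fun w => (-Complex.I) • w) h8
      simpa [smul_smul] using this
    rw [← neg_sub, h9, neg_sub]
  have h10 : (2 : ℂ) • star p = (2 : ℂ) • q := by
    rw [two_smul, two_smul]
    calc star p + star p = (star p + star q) + (star p - star q) := by abel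
      _ = q + q := by rw [h2, h5]; abel
  exact smul_right_injective _ (two_ne_zero' ℂ) h10

/-- decomposition of a self adjoint element -/
theorem sa_dec {D : Type} [NonUnitalCStarAlgebra D] (M : D) (hM : star M = M) :
    ∃ E F : D, M = star F * F - star E * E ∧ star E * E * (star F * F) = 0 := by
  let _ : PartialOrder D := CStarAlgebra.spectralOrder D
  have _ : StarOrderedRing D := CStarAlgebra.spectralOrderedRing D
  obtain ⟨E, hE⟩ := CStarAlgebra.nonneg_iff_eq_star_mul_self.mp (CFC.negPart_nonneg M)
  obtain ⟨F, hF⟩ := CStarAlgebra.nonneg_iff_eq_star_mul_self.mp (CFC.posPart_nonneg M)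
  refine ⟨E, F, ?_, ?_⟩
  · rw [← hE, ← hF]
    exact (CFC.posPart_sub_negPart M hM).symm
  · rw [← hE, ← hF]
    exact CFC.negPart_mul_posPart M

/-- a matrix with nonnegative quadratic form is of the form `Y^* Y` -/
theorem exists_factor {n : ℕ} (X : Fin n → Fin n → B) (hsa : ∀ i j, star (X i j) = X j i)
    (hpos : ∀ b : Fin n → B, ∃ c : B, ∑ i, ∑ j, star (b i) * X i j * b j = star c * c) :
    ∃ Y : Fin n → Fin n → B, ∀ i j, X i j = ∑ l, star (Y l i) * Y l j := by
  let _ : PartialOrder B := CStarAlgebra.spectralOrder B
  have _ : StarOrderedRing B := CStarAlgebra.spectralOrderedRing B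
  set M : CStarMatrix (Fin n) (Fin n) B := CStarMatrix.ofMatrix X with hM
  have hMa : ∀ i j, M i j = X i j := fun i j => rfl
  have hMsa : star M = M := by
    ext i j
    rw [CStarMatrix.star_apply, hMa, hMa, hsa]
  obtain ⟨E, F, hdec, horth⟩ := sa_dec M hMsa
  obtain ⟨N, hE⟩ : ∃ N, N = star E * E := ⟨_, rfl⟩
  obtain ⟨P, hP⟩ : ∃ P, P = star F * F := ⟨_, rfl⟩
  rw [← hE, ← hP] at hdec horth
  have hNsa : star N = N := by rw [hE, star_mul, star_star]
  have h1 : N * M * N = - (star (E * N) * (E * N)) := by
    calc N * M * N = (N * P - N * N) * N := by rw [← mul_sub, ← hdec]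
      _ = - (N * N * N) := by rw [horth, zero_sub, neg_mul]
      _ = - (star (E * N) * (E * N)) := by
          rw [star_mul, hNsa]
          congr 1
          calc N * N * N = N * (star E * E) * N := by rw [← hE]
            _ = N * star E * (E * N) := by simp only [mul_assoc]
  have h4 : ∀ l, ∑ m, star ((E * N) m l) * (E * N) m l = 0 := by
    intro l
    obtain ⟨c, hc⟩ := hpos (fun i => N i l)
    have h5 : (N * M * N) l l = star c * c := by
      rw [← hc, CStarMatrix.mul_apply]
      have h6 : ∀ j, (N * M) l j = ∑ i, star (N i l) * X i j := by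
        intro j
        rw [CStarMatrix.mul_apply]
        refine Finset.sum_congr rfl fun i _ => ?_
        rw [← CStarMatrix.star_apply, hNsa, hMa]
      rw [Finset.sum_comm]
      refine Finset.sum_congr rfl fun j _ => ?_
      rw [h6, Finset.sum_mul]
    have h7 : (star (E * N) * (E * N)) l l = ∑ m, star ((E * N) m l) * (E * N) m l := by
      rw [CStarMatrix.mul_apply]
      refine Finset.sum_congr rfl fun m _ => ?_
      rw [CStarMatrix.star_apply]
    have h8 : star c * c + ∑ m, star ((E * N) m l) * (E * N) m l = 0 := by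
      rw [← h5, ← h7, h1, CStarMatrix.neg_apply, neg_add_cancel]
    exact ((add_eq_zero_iff_of_nonneg (star_mul_self_nonneg _)
      (Finset.sum_nonneg fun m _ => star_mul_self_nonneg _)).1 h8).2
  have h9 : E * N = 0 := by
    ext m l
    have h10 := (Finset.sum_eq_zero_iff_of_nonneg
      (fun m _ => star_mul_self_nonneg ((E * N) m l))).1 (h4 l) m (Finset.mem_univ m)
    rw [CStarMatrix.zero_apply]
    exact (CStarRing.star_mul_self_eq_zero_iff _).1 h10
  have h11 : N = 0 := by
    apply (CStarRing.star_mul_self_eq_zero_iff N).1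
    rw [hNsa]
    calc N * N = star E * E * N := by rw [← hE]
      _ = star E * (E * N) := by rw [mul_assoc]
      _ = 0 := by rw [h9, mul_zero]
  have hY : M = star F * F := by
    rw [hdec, h11, sub_zero, hP]
  refine ⟨fun l i => F l i, fun i j => ?_⟩
  rw [← hMa, hY, CStarMatrix.mul_apply]
  refine Finset.sum_congr rfl fun l _ => ?_
  rw [CStarMatrix.star_apply]

end CPcompAux

open CPcompAux in
/-- compositions of completely positive maps -/
theorem IsCP.comp {A B C : Type} [NonUnitalCStarAlgebra A] [NonUnitalCStarAlgebra B]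
    [NonUnitalCStarAlgebra C] {φ : A →ₗ[ℂ] B} {χ : B →ₗ[ℂ] C} (hχ : IsCP χ) (hφ : IsCP φ) :
    IsCP (χ ∘ₗ φ) := by
  intro n a c
  obtain ⟨Y, hY⟩ := exists_factor (fun i j => φ (star (a i) * a j))
    (fun i j => star_map hφ (a i) (a j)) (fun b => hφ n a b)
  choose d hd using fun l => hχ n (fun i => Y l i) c
  obtain ⟨e, he⟩ := sum_sq d
  refine ⟨e, ?_⟩
  rw [← he, Finset.sum_congr rfl fun l _ => (hd l).symm]
  conv_rhs => rw [Finset.sum_comm]
  refine Finset.sum_congr rfl fun i _ => ?_
  conv_rhs => rw [Finset.sum_comm]
  refine Finset.sum_congr rfl fun j _ => ?_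
  rw [LinearMap.comp_apply, hY i j, map_sum, Finset.mul_sum, Finset.sum_mul]

end Pool.Agent.Lib.Eln
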