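import Pool.Agent.Lib.Eln.NucDefs

set_option autoImplicit false

/-!
MODULE Eln.CPlib (pure C*-algebra theory; uses NucDefs.lean only).

(1) `exists_sum_sq`: a finite sum of elements c* c of a (non-unital) C*-algebra is of the form
  c* c.  PROOF: it is positive (order instances: `CStarAlgebra.spectralOrder`,
  `spectralOrderedRing` for NonUnitalCStarAlgebra; `star_mul_self_nonneg`, `Finset.sum_nonneg`), and
  positive elements are squares (`CStarAlgebra.nonneg_iff_eq_star_mul_self` or the square root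
  `CFC.sqrt`).

(2) `nuclear_of_family`: a family of maps to M_W(ℂ), indexed by a finite set Λ, is combined to one
  map into M_(Λ × W)(ℂ) ≅ M_d(ℂ).
  PROOF. ι_l : ℂ^W → ℂ^(Λ × W) the isometric inclusions (e_w ↦ e_(l,w)), ∑_l ι_l ι_l^† = 1,
  ι_l^† ι_l' = δ.  φ'(a) = ∑_l ι_l φ_l(a) ι_l^† : linear, contractive (block diagonal:
  ‖φ'(a) ξ‖² = ∑_l ‖φ_l(a) ι_l^† ξ‖² ≤ ‖a‖² ∑_l ‖ι_l^† ξ‖² = ‖a‖²‖ξ‖²); completely positive: for
  b_i ∈ M_(Λ × W) and a vector ξ, ⟪ξ, ∑_ij b_i^* φ'(a_i^* a_j) b_j ξ⟫ =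
  ∑_l ∑_ij ⟪ι_l^† b_i ξ, φ_l(a_i^* a_j) ι_l^† b_j ξ⟫ ≥ 0, and positive operators of a finite
  dimensional Hilbert space are of the form c^* c (ContinuousLinearMap.IsPositive / nonneg, (1)).
  ψ'(M) = ψ(l ↦ ι_l^† M ι_l): contractive since ‖ι_l^† M ι_l‖ ≤ ‖M‖; completely positive since
  ι_l^† (M_i^* M_j) ι_l = ∑_l' (ι_l'^† M_i ι_l)^* (ι_l'^† M_j ι_l), so that
  ∑_ij b_i^* ψ'(M_i^* M_j) b_j is the sum over l' of expressions as in the third hypothesis; use (1).
  ψ'(φ'(a)) = ψ(l ↦ φ_l(a)).  Finally reindex Λ × W ≃ Fin d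
  (`Fintype.equivFin`, `LinearIsometryEquiv.piLpCongrLeft`; or work with Fin d from the beginning:
  e : Λ × W ≃ Fin d, ι_l e_w = e_(e (l, w))).
-/

open scoped InnerProductSpace

namespace Pool.Agent.Lib.Eln

theorem exists_sum_sq {A : Type} [NonUnitalCStarAlgebra A] {ι : Type} [Fintype ι] (c : ι → A) :
    ∃ d : A, ∑ i, star (c i) * c i = star d * d := by
  let _ : PartialOrder A := CStarAlgebra.spectralOrder A
  have _ : StarOrderedRing A := CStarAlgebra.spectralOrderedRing A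
  have h : 0 ≤ ∑ i, star (c i) * c i := Finset.sum_nonneg fun i _ => star_mul_self_nonneg _
  exact CStarAlgebra.nonneg_iff_eq_star_mul_self.mp h

namespace CPlibAux

variable {Λ W : Type} [Fintype Λ] [Fintype W] {d : ℕ}

/-- the projection on the block `l` -/
noncomputable def Pr (e : Λ × W ≃ Fin d) (l : Λ) :
    EuclideanSpace ℂ (Fin d) →L[ℂ] EuclideanSpace ℂ W :=
  LinearMap.toContinuousLinearMap
    { toFun := fun y => WithLp.toLp 2 (fun w => y (e (l, w)))
      map_add' := fun x y => by ext w; simp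
      map_smul' := fun c x => by ext w; simp }

lemma Pr_apply (e : Λ × W ≃ Fin d) (l : Λ) (y : EuclideanSpace ℂ (Fin d)) (w : W) :
    Pr e l y w = y (e (l, w)) := rfl

open Classical in
/-- the inclusion of the block `l` -/
noncomputable def In (e : Λ × W ≃ Fin d) (l : Λ) :
    EuclideanSpace ℂ W →L[ℂ] EuclideanSpace ℂ (Fin d) :=
  LinearMap.toContinuousLinearMap
    { toFun := fun x => WithLp.toLp 2 (fun k => if (e.symm k).1 = l then x (e.symm k).2 else 0)
      map_add' := fun x y => by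
        ext k
        by_cases h : (e.symm k).1 = l <;> simp [h]
      map_smul' := fun c x => by
        ext k
        by_cases h : (e.symm k).1 = l <;> simp [h] }

open Classical in
lemma In_apply (e : Λ × W ≃ Fin d) (l : Λ) (x : EuclideanSpace ℂ W) (k : Fin d) :
    In e l x k = if (e.symm k).1 = l then x (e.symm k).2 else 0 := rfl

lemma sum_e (e : Λ × W ≃ Fin d) {M : Type*} [AddCommMonoid M] (f : Fin d → M) :
    ∑ k, f k = ∑ l, ∑ w, f (e (l, w)) := by
  rw [← Equiv.sum_comp e, Fintype.sum_prod_type]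

lemma In_eq (e : Λ × W ≃ Fin d) (l : Λ) : In e l = ContinuousLinearMap.adjoint (Pr e l) := by
  classical
  rw [ContinuousLinearMap.eq_adjoint_iff]
  intro x y
  rw [PiLp.inner_apply, PiLp.inner_apply, sum_e e]
  rw [Finset.sum_eq_single l]
  · refine Finset.sum_congr rfl fun w _ => ?_
    rw [In_apply, e.symm_apply_apply, if_pos rfl, Pr_apply]
  · intro l' _ hl'
    refine Finset.sum_eq_zero fun w _ => ?_
    rw [In_apply, e.symm_apply_apply, if_neg hl', inner_zero_left]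
  · intro h; exact absurd (Finset.mem_univ l) h

lemma adj_In (e : Λ × W ≃ Fin d) (l : Λ) : ContinuousLinearMap.adjoint (In e l) = Pr e l := by
  rw [In_eq, ContinuousLinearMap.adjoint_adjoint]

lemma Pr_In_same (e : Λ × W ≃ Fin d) (l : Λ) (x : EuclideanSpace ℂ W) : Pr e l (In e l x) = x := by
  ext w
  rw [Pr_apply, In_apply, e.symm_apply_apply, if_pos rfl]

lemma Pr_In_ne (e : Λ × W ≃ Fin d) {l l' : Λ} (h : l' ≠ l) (x : EuclideanSpace ℂ W) :
    Pr e l (In e l' x) = 0 := by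
  ext w
  rw [Pr_apply, In_apply, e.symm_apply_apply, if_neg h.symm]
  rfl

lemma sum_In_Pr (e : Λ × W ≃ Fin d) (y : EuclideanSpace ℂ (Fin d)) :
    ∑ l, In e l (Pr e l y) = y := by
  ext k
  rw [WithLp.ofLp_sum, Finset.sum_apply, Finset.sum_eq_single (e.symm k).1]
  · rw [In_apply, if_pos rfl, Pr_apply, Prod.mk.eta, e.apply_symm_apply]
  · intro l _ hl
    rw [In_apply, if_neg hl.symm]
  · intro h; exact absurd (Finset.mem_univ _) h

lemma norm_sq (e : Λ × W ≃ Fin d) (y : EuclideanSpace ℂ (Fin d)) :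
    ‖y‖ ^ 2 = ∑ l, ‖Pr e l y‖ ^ 2 := by
  rw [EuclideanSpace.norm_sq_eq, sum_e e]
  refine Finset.sum_congr rfl fun l _ => ?_
  rw [EuclideanSpace.norm_sq_eq]
  rfl

lemma norm_Pr_le (e : Λ × W ≃ Fin d) (l : Λ) : ‖Pr e l‖ ≤ 1 := by
  refine ContinuousLinearMap.opNorm_le_bound _ zero_le_one fun y => ?_
  rw [one_mul]
  have h1 : ‖Pr e l y‖ ^ 2 ≤ ‖y‖ ^ 2 := by
    rw [norm_sq e y]
    exact Finset.single_le_sum (f := fun l => ‖Pr e l y‖ ^ 2) (fun _ _ => by positivity)
      (Finset.mem_univ l)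
  exact (sq_le_sq₀ (norm_nonneg _) (norm_nonneg _)).1 h1

lemma norm_In_le (e : Λ × W ≃ Fin d) (l : Λ) : ‖In e l‖ ≤ 1 := by
  rw [In_eq, LinearIsometryEquiv.norm_map]
  exact norm_Pr_le e l

/-- A positive operator is a square. -/
lemma exists_sq_of_pos {ι : Type} [Fintype ι] (T : MatC ι)
    (h : ∀ ξ : EuclideanSpace ℂ ι, ∃ r : ℝ, 0 ≤ r ∧ ⟪ξ, T ξ⟫_ℂ = (r : ℂ)) :
    ∃ c : MatC ι, T = star c * c := by
  have h1 : T.IsPositive := by
    rw [ContinuousLinearMap.isPositive_iff_complex]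
    intro x
    obtain ⟨r, hr, hr'⟩ := h x
    have h2 : ⟪T x, x⟫_ℂ = (r : ℂ) := by
      rw [← inner_conj_symm, hr', Complex.conj_ofReal]
    rw [h2]
    exact ⟨by simp, by simpa using hr⟩
  have h3 : (0 : EuclideanSpace ℂ ι →L[ℂ] EuclideanSpace ℂ ι) ≤ T :=
    (ContinuousLinearMap.nonneg_iff_isPositive T).2 h1
  exact CStarAlgebra.nonneg_iff_eq_star_mul_self.mp h3

end CPlibAux

open CPlibAux in
theorem nuclear_of_family {A : Type} [NonUnitalCStarAlgebra A]
    (h : ∀ (F : Finset A) (ε : ℝ), 0 < ε → ∃ (Λ : Type) (_ : Fintype Λ) (W : Type) (_ : Fintype W)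
      (φ : Λ → A →ₗ[ℂ] MatC W) (ψ : (Λ → MatC W) →ₗ[ℂ] A),
      (∀ l (n : ℕ) (a : Fin n → A) (ξ : Fin n → EuclideanSpace ℂ W), ∃ r : ℝ, 0 ≤ r ∧
        ∑ i, ∑ j, ⟪ξ i, φ l (star (a i) * a j) (ξ j)⟫_ℂ = (r : ℂ)) ∧
      (∀ l a, ‖φ l a‖ ≤ ‖a‖) ∧
      (∀ (n : ℕ) (m : Fin n → Λ → MatC W) (b : Fin n → A), ∃ c : A,
        ∑ i, ∑ j, star (b i) * ψ (fun l => star (m i l) * m j l) * b j = star c * c) ∧
      (∀ (m : Λ → MatC W) (C : ℝ), 0 ≤ C → (∀ l, ‖m l‖ ≤ C) → ‖ψ m‖ ≤ C) ∧
      ∀ a ∈ F, ‖ψ (fun l => φ l a) - a‖ < ε) : Nuclear A := by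
  intro F ε hε
  obtain ⟨Λ, iΛ, W, iW, φ, ψ, h1, h2, h3, h4, h5⟩ := h F ε hε
  classical
  let e : Λ × W ≃ Fin (Fintype.card (Λ × W)) := Fintype.equivFin (Λ × W)
  set d := Fintype.card (Λ × W) with hd
  let φ' : A →ₗ[ℂ] MatC (Fin d) :=
    { toFun := fun a => ∑ l, (In e l) ∘L (φ l a) ∘L (Pr e l)
      map_add' := fun a b => by
        rw [← Finset.sum_add_distrib]
        refine Finset.sum_congr rfl fun l _ => ?_
        rw [map_add, ContinuousLinearMap.add_comp, ContinuousLinearMap.comp_add]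
      map_smul' := fun c a => by
        rw [Finset.smul_sum]
        refine Finset.sum_congr rfl fun l _ => ?_
        rw [map_smul, RingHom.id_apply, ContinuousLinearMap.smul_comp,
          ContinuousLinearMap.comp_smul] }
  let ψ' : MatC (Fin d) →ₗ[ℂ] A :=
    { toFun := fun M => ψ (fun l => (Pr e l) ∘L M ∘L (In e l))
      map_add' := fun a b => by
        rw [← map_add]
        refine congrArg ψ (funext fun l => ?_)
        rw [Pi.add_apply, ContinuousLinearMap.add_comp, ContinuousLinearMap.comp_add]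
      map_smul' := fun c a => by
        rw [RingHom.id_apply, ← map_smul]
        refine congrArg ψ (funext fun l => ?_)
        rw [Pi.smul_apply, ContinuousLinearMap.smul_comp, ContinuousLinearMap.comp_smul] }
  have hφ' : ∀ a ξ, φ' a ξ = ∑ l, In e l (φ l a (Pr e l ξ)) := by
    intro a ξ
    change (∑ l, (In e l) ∘L (φ l a) ∘L (Pr e l)) ξ = _
    rw [_root_.sum_apply]
    rfl
  have hPrφ : ∀ a ξ l, Pr e l (φ' a ξ) = φ l a (Pr e l ξ) := by
    intro a ξ l
    rw [hφ', map_sum, Finset.sum_eq_single l]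
    · rw [Pr_In_same]
    · intro l' _ hl'
      rw [Pr_In_ne e hl']
    · intro h; exact absurd (Finset.mem_univ l) h
  refine ⟨d, φ', ψ', ?_, ?_, ?_, ?_, ?_⟩
  · -- complete positivity of `φ'`
    intro n a b
    apply exists_sq_of_pos
    intro ξ
    choose r hr hr' using fun l => h1 l n a (fun i => Pr e l (b i ξ))
    refine ⟨∑ l, r l, Finset.sum_nonneg fun l _ => hr l, ?_⟩
    have e1 : (∑ i, ∑ j, star (b i) * φ' (star (a i) * a j) * b j) ξ =
        ∑ i, ∑ j, ContinuousLinearMap.adjoint (b i) (φ' (star (a i) * a j) (b j ξ)) := by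
      simp only [_root_.sum_apply]
      rfl
    rw [e1, inner_sum]
    have e2 : ∀ i, ⟪ξ, ∑ j, ContinuousLinearMap.adjoint (b i) (φ' (star (a i) * a j) (b j ξ))⟫_ℂ =
        ∑ l, ∑ j, ⟪Pr e l (b i ξ), φ l (star (a i) * a j) (Pr e l (b j ξ))⟫_ℂ := by
      intro i
      rw [inner_sum, Finset.sum_comm]
      refine Finset.sum_congr rfl fun j _ => ?_
      rw [ContinuousLinearMap.adjoint_inner_right, hφ', inner_sum]
      refine Finset.sum_congr rfl fun l _ => ?_
      rw [← adj_In e l, ContinuousLinearMap.adjoint_inner_left]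
    rw [Finset.sum_congr rfl fun i _ => e2 i, Finset.sum_comm]
    rw [Finset.sum_congr rfl fun l _ => hr' l]
    push_cast
    rfl
  · -- complete positivity of `ψ'`
    intro n M b
    choose c hc using fun l' => h3 n (fun i l => (Pr e l') ∘L M i ∘L (In e l)) b
    obtain ⟨dd, hdd⟩ := exists_sum_sq c
    refine ⟨dd, ?_⟩
    rw [← hdd]
    have e1 : ∀ i j, ψ' (star (M i) * M j) = ∑ l', ψ (fun l =>
        star ((Pr e l') ∘L M i ∘L (In e l)) * ((Pr e l') ∘L M j ∘L (In e l))) := by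
      intro i j
      rw [← map_sum]
      change ψ _ = ψ _
      congr 1
      funext l
      rw [Finset.sum_apply]
      ext1 x
      rw [_root_.sum_apply]
      change Pr e l (ContinuousLinearMap.adjoint (M i) (M j (In e l x))) =
        ∑ l', (ContinuousLinearMap.adjoint ((Pr e l') ∘L M i ∘L (In e l)))
          (Pr e l' (M j (In e l x)))
      have e2 : ∀ l', (ContinuousLinearMap.adjoint ((Pr e l') ∘L M i ∘L (In e l)))
          (Pr e l' (M j (In e l x))) =
          Pr e l (ContinuousLinearMap.adjoint (M i) (In e l' (Pr e l' (M j (In e l x))))) := by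
        intro l'
        rw [ContinuousLinearMap.adjoint_comp, ContinuousLinearMap.adjoint_comp, adj_In, ← In_eq]
        rfl
      rw [Finset.sum_congr rfl fun l' _ => e2 l', ← map_sum, ← map_sum, sum_In_Pr]
    have e3 : ∀ i j, star (b i) * ψ' (star (M i) * M j) * b j =
        ∑ l', star (b i) * ψ (fun l =>
        star ((Pr e l') ∘L M i ∘L (In e l)) * ((Pr e l') ∘L M j ∘L (In e l))) * b j := by
      intro i j
      rw [e1, Finset.mul_sum, Finset.sum_mul]
    rw [Finset.sum_congr rfl fun l' _ => (hc l').symm]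
    conv_rhs => rw [Finset.sum_comm]
    refine Finset.sum_congr rfl fun i _ => ?_
    conv_rhs => rw [Finset.sum_comm]
    refine Finset.sum_congr rfl fun j _ => ?_
    rw [e3]
  · intro a
    refine ContinuousLinearMap.opNorm_le_bound _ (norm_nonneg _) fun ξ => ?_
    have e1 : ‖φ' a ξ‖ ^ 2 ≤ (‖a‖ * ‖ξ‖) ^ 2 := by
      rw [norm_sq e, mul_pow, norm_sq e ξ, Finset.mul_sum]
      refine Finset.sum_le_sum fun l _ => ?_
      rw [hPrφ, ← mul_pow]
      refine pow_le_pow_left₀ (norm_nonneg _) ?_ 2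
      exact ((φ l a).le_opNorm _).trans (mul_le_mul_of_nonneg_right (h2 l a) (norm_nonneg _))
    exact (sq_le_sq₀ (norm_nonneg _) (by positivity)).1 e1
  · intro M
    apply h4 _ _ (norm_nonneg _)
    intro l
    calc ‖(Pr e l) ∘L M ∘L (In e l)‖ ≤ ‖Pr e l‖ * ‖M ∘L (In e l)‖ :=
          ContinuousLinearMap.opNorm_comp_le _ _
      _ ≤ 1 * (‖M‖ * 1) := by
          refine mul_le_mul (norm_Pr_le e l) ?_ (norm_nonneg _) zero_le_one
          exact (ContinuousLinearMap.opNorm_comp_le _ _).trans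
            (mul_le_mul_of_nonneg_left (norm_In_le e l) (norm_nonneg _))
      _ = ‖M‖ := by ring
  · intro a ha
    have e1 : ψ' (φ' a) = ψ (fun l => φ l a) := by
      change ψ _ = ψ _
      congr 1
      funext l
      ext1 x
      change Pr e l (φ' a (In e l x)) = φ l a x
      rw [hPrφ, Pr_In_same]
    rw [e1]
    exact h5 a ha

end Pool.Agent.Lib.Eln
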