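import Pool.Agent.Lib.Eln.FP

set_option autoImplicit false

/-!
The constant isometries `T' i = s 1 ^ i * s 0` and `C i = ∑ j, s j * T' i * (s j)^*`.
-/

open scoped InnerProductSpace BoundedContinuousFunction unitInterval

namespace Pool.Agent.Lib.Eln

open Pool.Agent.Lib.P81d4f5 (S3)

/-- isometries with orthogonal ranges -/
noncomputable def T' : ℕ → Op
  | 0 => s 0
  | i + 1 => s 1 * T' i

theorem star_T'_mul (i j : ℕ) : star (T' i) * T' j = if i = j then 1 else 0 := by
  induction i generalizing j with
  | zero =>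
    rcases j with _ | j
    · rw [if_pos rfl]; exact star_s_mul_self 0
    · rw [if_neg (by simp), T', T', ← mul_assoc, star_s_mul_of_ne (by decide), zero_mul]
  | succ i ih =>
    rcases j with _ | j
    · rw [if_neg (by simp), T', T', star_mul, mul_assoc, star_s_mul_of_ne (by decide), mul_zero]
    · rw [T', T', star_mul, mul_assoc, ← mul_assoc (star (s 1)), star_s_mul_self, one_mul, ih]
      simp

theorem FP_T' (i : ℕ) : FP (i + 1) (T' i) := by
  induction i with
  | zero => exact FP.s 0
  | succ i ih => exact ((FP.s 1).mul ih).mono (by omega)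

/-- isometries with orthogonal ranges, compatible with the isometries `s j` -/
noncomputable def C (i : ℕ) : Op := s 0 * T' i * star (s 0) + s 1 * T' i * star (s 1)

theorem FP_C (i : ℕ) : FP (i + 3) (C i) := by
  have h : ∀ j, FP (i + 3) (s j * T' i * star (s j)) := fun j =>
    (((FP.s j).mul (FP_T' i)).mul (FP.s j).star).mono (by omega)
  exact (h 0).add (h 1)

theorem C_mul_s (n : ℕ) (j : Fin 2) : C n * s j = s j * T' n := by
  rw [C, add_mul, mul_assoc _ (star (s 0)), mul_assoc _ (star (s 1)), star_s_mul, star_s_mul]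
  fin_cases j <;> simp

theorem star_s_mul_C (n : ℕ) (j : Fin 2) : star (s j) * C n = T' n * star (s j) := by
  rw [C, mul_add, mul_assoc, mul_assoc, ← mul_assoc (star (s j)), ← mul_assoc (star (s j)),
    star_s_mul, star_s_mul]
  fin_cases j <;> simp

theorem star_C_mul_s (n : ℕ) (j : Fin 2) : star (C n) * s j = s j * star (T' n) := by
  have := congrArg star (star_s_mul_C n j)
  simpa using this

theorem star_C_mul (n m : ℕ) : star (C n) * C m = if n = m then 1 else 0 := by
  apply ext_s
  intro j
  rw [mul_assoc, C_mul_s, ← mul_assoc, star_C_mul_s, mul_assoc, star_T'_mul]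
  split_ifs <;> simp

@[simp] theorem star_C_mul_self (n : ℕ) : star (C n) * C n = 1 := by
  rw [star_C_mul, if_pos rfl]

theorem star_C_mul_of_ne {n m : ℕ} (h : n ≠ m) : star (C n) * C m = 0 := by
  rw [star_C_mul, if_neg h]

theorem norm_C (n : ℕ) (f : Hb) : ‖C n f‖ = ‖f‖ := norm_of_star_mul_self (star_C_mul_self n) f

theorem C_mul_V (ζ : S3) (n : ℕ) : C n * V ζ = V ζ * T' n := by
  simp only [V, add_mul, mul_add, smul_mul_assoc, mul_smul_comm, C_mul_s]

theorem star_V_mul_C (ζ : S3) (n : ℕ) : star (V ζ) * C n = T' n * star (V ζ) := by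
  simp only [star_V, add_mul, mul_add, smul_mul_assoc, mul_smul_comm, star_s_mul_C]

theorem star_C_mul_V (ζ : S3) (n : ℕ) : star (C n) * V ζ = V ζ * star (T' n) := by
  have := congrArg star (star_V_mul_C ζ n)
  simpa using this

theorem star_V_mul_star_C (ζ : S3) (n : ℕ) :
    star (V ζ) * star (C n) = star (T' n) * star (V ζ) := by
  have := congrArg star (C_mul_V ζ n)
  simpa using this

end Pool.Agent.Lib.Eln
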