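import Pool.Agent.Lib.Eln.Fld

set_option autoImplicit false

/-!
Operators and fields of finite propagation on the binary tree.
-/

open scoped InnerProductSpace BoundedContinuousFunction unitInterval

namespace Pool.Agent.Lib.Eln

open Pool.Agent.Lib.P81d4f5 (S3)

/-- the relation of being near: `v = α ++ u`, `w = β ++ u` with short `α`, `β` -/
def Nr (R : ℕ) (v w : Tr) : Prop :=
  ∃ α β u : Tr, α.length ≤ R ∧ β.length ≤ R ∧ v = α ++ u ∧ w = β ++ u

theorem Nr.symm {R : ℕ} {v w : Tr} (h : Nr R v w) : Nr R w v := by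
  obtain ⟨α, β, u, h1, h2, h3, h4⟩ := h
  exact ⟨β, α, u, h2, h1, h4, h3⟩

theorem Nr.mono {R R' : ℕ} {v w : Tr} (h : Nr R v w) (hR : R ≤ R') : Nr R' v w := by
  obtain ⟨α, β, u, h1, h2, h3, h4⟩ := h
  exact ⟨α, β, u, h1.trans hR, h2.trans hR, h3, h4⟩

theorem Nr.refl (R : ℕ) (v : Tr) : Nr R v v := ⟨[], [], v, Nat.zero_le _, Nat.zero_le _, rfl, rfl⟩

theorem Nr.trans {R R' : ℕ} {v w z : Tr} (h : Nr R v w) (h' : Nr R' w z) : Nr (R + R') v z := by
  obtain ⟨α, β, u, h1, h2, h3, h4⟩ := h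
  obtain ⟨β', γ, u', h5, h6, h7, h8⟩ := h'
  rw [h4] at h7
  rcases List.append_eq_append_iff.1 h7 with ⟨a, ha, hb⟩ | ⟨c, hc, hd⟩
  · refine ⟨α ++ a, γ, u', ?_, h6.trans (by omega), by rw [h3, hb, List.append_assoc], h8⟩
    have : a.length ≤ R' := by
      have := congrArg List.length ha
      rw [List.length_append] at this
      omega
    rw [List.length_append]
    omega
  · refine ⟨α, γ ++ c, u, h1.trans (by omega), ?_, h3, by rw [h8, hd, List.append_assoc]⟩
    have : c.length ≤ R := by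
      have := congrArg List.length hc
      rw [List.length_append] at this
      omega
    rw [List.length_append]
    omega

/-- all words of bounded length are near -/
theorem Nr.of_length {R : ℕ} {v w : Tr} (hv : v.length ≤ R) (hw : w.length ≤ R) : Nr R v w :=
  ⟨v, w, [], hv, hw, by simp, by simp⟩

/-- operators of finite propagation -/
def FP (R : ℕ) (A : Op) : Prop := ∀ v w, ¬ Nr R v w → ⟪eb v, A (eb w)⟫_ℂ = 0

theorem FP.mono {R R' : ℕ} {A : Op} (h : FP R A) (hR : R ≤ R') : FP R' A :=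
  fun v w hn => h v w fun h' => hn (h'.mono hR)

theorem FP.zero (R : ℕ) : FP R 0 := fun v w _ => by
  change ⟪eb v, (0 : Hb)⟫_ℂ = 0
  rw [inner_zero_right]

theorem FP.one (R : ℕ) : FP R 1 := fun v w hn => by
  change ⟪eb v, eb w⟫_ℂ = 0
  rw [inner_eb_eb, if_neg]
  rintro rfl
  exact hn (Nr.refl _ _)

theorem FP.add {R : ℕ} {A B : Op} (hA : FP R A) (hB : FP R B) : FP R (A + B) := fun v w hn => by
  change ⟪eb v, A (eb w) + B (eb w)⟫_ℂ = 0
  rw [inner_add_right, hA v w hn, hB v w hn, add_zero]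

theorem FP.smul {R : ℕ} {A : Op} (hA : FP R A) (c : ℂ) : FP R (c • A) := fun v w hn => by
  change ⟪eb v, c • A (eb w)⟫_ℂ = 0
  rw [inner_smul_right, hA v w hn, mul_zero]

theorem FP.neg {R : ℕ} {A : Op} (hA : FP R A) : FP R (-A) := by
  have := hA.smul (-1)
  simpa using this

theorem FP.sub {R : ℕ} {A B : Op} (hA : FP R A) (hB : FP R B) : FP R (A - B) := by
  rw [sub_eq_add_neg]; exact hA.add hB.neg

theorem FP.star {R : ℕ} {A : Op} (hA : FP R A) : FP R (star A) := fun v w hn => by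
  rw [inner_star_right, ← inner_conj_symm, hA w v fun h => hn h.symm, map_zero]

theorem FP.mul {R R' : ℕ} {A B : Op} (hA : FP R A) (hB : FP R' B) : FP (R + R') (A * B) := by
  intro v w hn
  have h1 := ((hasSum_eb (B (eb w))).mapL A).mapL (innerSL ℂ (eb v))
  have h2 : (fun u => (innerSL ℂ (eb v)) (A (⟪eb u, B (eb w)⟫_ℂ • eb u))) = fun _ => 0 := by
    funext u
    rw [map_smul, map_smul, innerSL_apply_apply]
    by_cases h3 : Nr R v u
    · have h4 : ¬ Nr R' u w := fun h4 => hn (h3.trans h4)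
      rw [hB u w h4, zero_smul]
    · rw [hA v u h3, smul_zero]
  rw [h2] at h1
  exact h1.unique hasSum_zero

theorem FP.sum {ι : Type*} (t : Finset ι) {R : ℕ} {A : ι → Op} (hA : ∀ i ∈ t, FP R (A i)) :
    FP R (∑ i ∈ t, A i) := by
  classical
  induction t using Finset.induction_on with
  | empty => simpa using FP.zero R
  | insert i t hi ih =>
    rw [Finset.sum_insert hi]
    exact (hA i (Finset.mem_insert_self _ _)).add (ih fun j hj => hA j (Finset.mem_insert_of_mem hj))

theorem FP.pm {R : ℕ} {f : Tr → Tr} (hf : Function.Injective f) (h : ∀ v, Nr R (f v) v) :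
    FP R (Eln.pm f hf) := fun v w hn => by
  rw [pm_eb, inner_eb_eb, if_neg]
  rintro rfl
  exact hn (h w)

theorem FP.s (j : Fin 2) : FP 1 (Eln.s j) := by
  apply FP.pm
  intro v
  fin_cases j
  · change Nr 1 (sf 0 v) v
    by_cases h : az v
    · rw [sf_zero_of h]; exact Nr.refl _ _
    · rw [sf_zero_of_not h]; exact ⟨[false], [], v, by simp, by simp, rfl, rfl⟩
  · change Nr 1 (sf 1 v) v
    rw [sf_one]; exact ⟨[true], [], v, by simp, by simp, rfl, rfl⟩

/-- rank one operators between basis vectors -/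
theorem FP.rankOne {R : ℕ} {v w : Tr} (hv : v.length ≤ R) (hw : w.length ≤ R) :
    FP R ((innerSL ℂ (eb w)).smulRight (eb v)) := fun v' w' hn => by
  change ⟪eb v', ⟪eb w, eb w'⟫_ℂ • eb v⟫_ℂ = 0
  rw [inner_smul_right, inner_eb_eb, inner_eb_eb]
  by_cases h1 : w = w'
  · by_cases h2 : v' = v
    · subst h1 h2
      exact absurd (Nr.of_length hv hw) hn
    · rw [if_neg h2, mul_zero]
  · rw [if_neg h1, zero_mul]

theorem Nr.Sf {R : ℕ} {v w : Tr} (h : Nr R v w) (n : ℕ) : Nr (2 * R) (Eln.Sf n v) (Eln.Sf n w) := by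
  obtain ⟨α, β, u, h1, h2, rfl, rfl⟩ := h
  refine ⟨dbl α, dbl β, dbl u ++ jx n, by rw [length_dbl]; omega, by rw [length_dbl]; omega, ?_, ?_⟩
  · rw [Eln.Sf, dbl_append, List.append_assoc]
  · rw [Eln.Sf, dbl_append, List.append_assoc]

theorem FP.dsum' {R : ℕ} {T : ℕ → Op} (hu : UB T) (h : ∀ n, FP R (T n)) :
    FP (2 * R) (Eln.dsum' T) := by
  intro v w hn
  obtain ⟨n, v', rfl⟩ := exists_Sf v
  obtain ⟨m, w', rfl⟩ := exists_Sf w
  have h1 : Eln.dsum' T (eb (Eln.Sf m w')) = S' m (T m (eb w')) := by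
    rw [← S'_eb]
    exact congrArg (fun A : Op => A (eb w')) (dsum'_mul_S' hu m)
  rw [h1, ← S'_eb, inner_S'_S']
  split_ifs with hnm
  · subst hnm
    exact h n v' w' fun h' => hn (h'.Sf n)
  · rfl

theorem dsum_eq {T : ℕ → Op} (hu : UB T) :
    dsum T = ∑ j : Fin 2, ∑ k : Fin 2,
      s j * dsum' (fun n => star (s j) * T n * s k) * star (s k) := by
  have hu' : ∀ j k, UB fun n => star (s j) * T n * s k := fun j k =>
    ((UB.const _).mul hu).mul (UB.const _)
  apply ext_S
  intro n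
  rw [dsum_mul_S hu, Finset.sum_mul]
  have h1 : ∀ j k, s j * dsum' (fun n => star (s j) * T n * s k) * star (s k) * S n =
      S n * (s j * star (s j) * T n * (s k * star (s k))) := by
    intro j k
    calc s j * dsum' (fun n => star (s j) * T n * s k) * star (s k) * S n
        = s j * dsum' (fun n => star (s j) * T n * s k) * (star (s k) * S n) := by
          simp only [mul_assoc]
      _ = s j * (dsum' (fun n => star (s j) * T n * s k) * S' n) * star (s k) := by
          rw [star_s_mul_S]; simp only [mul_assoc]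
      _ = s j * S' n * (star (s j) * T n * s k) * star (s k) := by
          rw [dsum'_mul_S' (hu' j k)]; simp only [mul_assoc]
      _ = _ := by rw [← S_mul_s]; simp only [mul_assoc]
  simp only [Fin.sum_univ_two, add_mul, h1]
  have h2 := sum_s_mul_star
  calc S n * T n = S n * ((s 0 * star (s 0) + s 1 * star (s 1)) * T n *
        (s 0 * star (s 0) + s 1 * star (s 1))) := by rw [h2, one_mul, mul_one]
    _ = _ := by noncomm_ring

theorem FP.dsum {R : ℕ} {T : ℕ → Op} (hu : UB T) (h : ∀ n, FP R (T n)) :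
    FP (2 * R + 6) (Eln.dsum T) := by
  rw [dsum_eq hu]
  refine FP.sum _ fun j _ => FP.sum _ fun k _ => ?_
  have hu' : UB fun n => Star.star (Eln.s j) * T n * Eln.s k :=
    ((UB.const _).mul hu).mul (UB.const _)
  have h1 := FP.dsum' hu' fun n => ((FP.s j).star.mul (h n)).mul (FP.s k)
  have h2 := ((FP.s j).mul h1).mul (FP.s k).star
  exact h2.mono (by omega)

theorem FP.V (ζ : S3) : FP 1 (Eln.V ζ) := ((FP.s 0).smul _).add ((FP.s 1).smul _)

/-! ### fields of finite propagation and their limits -/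

/-- limits of fields of finite propagation -/
def InN (f : BB) : Prop :=
  ∀ ε : ℝ, 0 < ε → ∃ (R : ℕ) (g : BB), (∀ x, FP R (g.fn x)) ∧ ‖f - g‖ ≤ ε

theorem InN.of_FP {R : ℕ} {f : BB} (h : ∀ x, FP R (f.fn x)) : InN f := fun ε hε =>
  ⟨R, f, h, by rw [sub_self, norm_zero]; exact hε.le⟩

theorem InN.zero : InN 0 := InN.of_FP (R := 0) fun _ => FP.zero 0

theorem InN.one : InN 1 := InN.of_FP (R := 0) fun _ => FP.one 0

theorem InN.cst {R : ℕ} {A : Op} (h : FP R A) : InN (BB.cst A) := InN.of_FP fun _ => h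

theorem InN.add {f g : BB} (hf : InN f) (hg : InN g) : InN (f + g) := by
  intro ε hε
  obtain ⟨R, f', h1, h2⟩ := hf (ε / 2) (by positivity)
  obtain ⟨R', g', h3, h4⟩ := hg (ε / 2) (by positivity)
  refine ⟨max R R', f' + g', fun x => ((h1 x).mono (le_max_left _ _)).add
    ((h3 x).mono (le_max_right _ _)), ?_⟩
  rw [show f + g - (f' + g') = (f - f') + (g - g') by abel]
  exact (norm_add_le _ _).trans (by linarith)

theorem InN.star {f : BB} (hf : InN f) : InN (star f) := by
  intro ε hε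
  obtain ⟨R, f', h1, h2⟩ := hf ε hε
  exact ⟨R, Star.star f', fun x => (h1 x).star, by rw [← star_sub, norm_star]; exact h2⟩

theorem InN.smul {f : BB} (hf : InN f) (c : ℂ) : InN (c • f) := by
  intro ε hε
  obtain ⟨R, f', h1, h2⟩ := hf (ε / (‖c‖ + 1)) (by positivity)
  refine ⟨R, c • f', fun x => (h1 x).smul c, ?_⟩
  rw [← smul_sub, norm_smul]
  calc ‖c‖ * ‖f - f'‖ ≤ (‖c‖ + 1) * (ε / (‖c‖ + 1)) := by gcongr; linarith
    _ = ε := by field_simp

theorem InN.neg {f : BB} (hf : InN f) : InN (-f) := by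
  have := hf.smul (-1)
  simpa using this

theorem InN.sub {f g : BB} (hf : InN f) (hg : InN g) : InN (f - g) := by
  rw [sub_eq_add_neg]; exact hf.add hg.neg

theorem InN.mul {f g : BB} (hf : InN f) (hg : InN g) : InN (f * g) := by
  intro ε hε
  obtain ⟨R, f', h1, h2⟩ := hf (min 1 (ε / (2 * (‖g‖ + 1)))) (by positivity)
  obtain ⟨R', g', h3, h4⟩ := hg (ε / (2 * (‖f‖ + 1))) (by positivity)
  refine ⟨R + R', f' * g', fun x => (h1 x).mul (h3 x), ?_⟩
  have h5 : f * g - f' * g' = (f - f') * g + f' * (g - g') := by noncomm_ring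
  have h6 : ‖f'‖ ≤ ‖f‖ + 1 := by
    have := norm_sub_norm_le f' f
    rw [← norm_neg, neg_sub] at h2
    linarith [h2.trans (min_le_left _ _)]
  rw [h5]
  calc ‖(f - f') * g + f' * (g - g')‖ ≤ ‖f - f'‖ * ‖g‖ + ‖f'‖ * ‖g - g'‖ :=
        (norm_add_le _ _).trans (add_le_add (norm_mul_le _ _) (norm_mul_le _ _))
    _ ≤ (ε / (2 * (‖g‖ + 1))) * (‖g‖ + 1) + (‖f‖ + 1) * (ε / (2 * (‖f‖ + 1))) := by
        gcongr
        · exact h2.trans (min_le_right _ _)
        · linarith
    _ = ε := by field_simp; ring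

theorem InN.of_lim {f : BB} (h : ∀ ε : ℝ, 0 < ε → ∃ g, InN g ∧ ‖f - g‖ ≤ ε) : InN f := by
  intro ε hε
  obtain ⟨g, hg, h1⟩ := h (ε / 2) (by positivity)
  obtain ⟨R, g', h2, h3⟩ := hg (ε / 2) (by positivity)
  refine ⟨R, g', h2, ?_⟩
  rw [show f - g' = (f - g) + (g - g') by abel]
  exact (norm_add_le _ _).trans (by linarith)

theorem InN.sum {ι : Type*} (t : Finset ι) {f : ι → BB} (h : ∀ i ∈ t, InN (f i)) :
    InN (∑ i ∈ t, f i) := by
  classical
  induction t using Finset.induction_on with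
  | empty => simpa using InN.zero
  | insert i t hi ih =>
    rw [Finset.sum_insert hi]
    exact (h i (Finset.mem_insert_self _ _)).add (ih fun j hj => h j (Finset.mem_insert_of_mem hj))

/-- uniform approximation of a path -/
theorem InN.path {g : I → BB} (hg : Continuous g) (h : ∀ t, InN (g t)) {ε : ℝ} (hε : 0 < ε) :
    ∃ R, ∀ t, ∃ f : BB, (∀ x, FP R (f.fn x)) ∧ ‖g t - f‖ ≤ ε := by
  have huc : UniformContinuous g := CompactSpace.uniformContinuous_of_continuous hg
  obtain ⟨δ, hδ, hd⟩ := Metric.uniformContinuous_iff.1 huc (ε / 2) (by positivity)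
  obtain ⟨T, hT⟩ := finite_cover_balls_of_compact (isCompact_univ (X := I)) hδ
  choose R f hf1 hf2 using fun t => h t (ε / 2) (by positivity)
  obtain ⟨hTf, hcov⟩ := hT.2
  refine ⟨hTf.toFinset.sup R, fun t => ?_⟩
  have ht := hcov (Set.mem_univ t)
  simp only [Set.mem_iUnion] at ht
  obtain ⟨t', ht', htt⟩ := ht
  refine ⟨f t', fun x => (hf1 t' x).mono (Finset.le_sup (hTf.mem_toFinset.2 ht')), ?_⟩
  have h1 := hd (Metric.mem_ball.1 htt)
  rw [dist_eq_norm] at h1
  rw [show g t - f t' = (g t - g t') + (g t' - f t') by abel]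
  exact (norm_add_le _ _).trans (by linarith [hf2 t'])

end Pool.Agent.Lib.Eln
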