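import Pool.Agent.Lib.Eln.States

set_option autoImplicit false

/-!
The flip unitary and its amplifications.
-/

open scoped InnerProductSpace BoundedContinuousFunction unitInterval

namespace Pool.Agent.Lib.Eln

open Pool.Agent.Lib.P81d4f5 (S3)

/-- the flip -/
noncomputable def Fl : Op :=
  ∑ i : Fin 2, ∑ j : Fin 2, s j * s i * star (s j) * star (s i)

theorem Fl_mul (i j : Fin 2) : Fl * (s i * s j) = s j * s i := by
  unfold Fl
  rw [Finset.sum_mul, Finset.sum_eq_single i, Finset.sum_mul, Finset.sum_eq_single j]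
  · have : s j * s i * star (s j) * star (s i) * (s i * s j) =
        s j * s i * (star (s j) * (star (s i) * s i) * s j) := by noncomm_ring
    rw [this, star_s_mul_self, mul_one, star_s_mul_self, mul_one]
  · intro k _ hk
    have : s k * s i * star (s k) * star (s i) * (s i * s j) =
        s k * s i * (star (s k) * (star (s i) * s i) * s j) := by noncomm_ring
    rw [this, star_s_mul_self, mul_one, star_s_mul_of_ne hk, mul_zero]
  · intro h; exact absurd (Finset.mem_univ _) h
  · intro k _ hk
    rw [Finset.sum_mul]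
    apply Finset.sum_eq_zero
    intro l _
    have : s l * s k * star (s l) * star (s k) * (s i * s j) =
        s l * s k * (star (s l) * (star (s k) * s i) * s j) := by noncomm_ring
    rw [this, star_s_mul_of_ne hk]; simp
  · intro h; exact absurd (Finset.mem_univ _) h

theorem Fl_mul_Fl : Fl * Fl = 1 := by
  apply ext_s; intro i
  apply ext_s; intro j
  rw [mul_assoc, mul_assoc, mul_assoc, Fl_mul, Fl_mul, one_mul]

theorem star_Fl : star Fl = Fl := by
  unfold Fl
  simp only [Fin.sum_univ_two, star_add, star_mul, star_star]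
  simp only [mul_assoc]
  abel

theorem Fl_mul_V (ζ η : S3) : Fl * (V ζ * V η) = V η * V ζ := by
  have h1 : V ζ * V η = (S3.co 0 ζ * S3.co 0 η) • (s 0 * s 0) + (S3.co 0 ζ * S3.co 1 η) •
      (s 0 * s 1) + ((S3.co 1 ζ * S3.co 0 η) • (s 1 * s 0) + (S3.co 1 ζ * S3.co 1 η) •
      (s 1 * s 1)) := by
    simp only [V, add_mul, mul_add, smul_mul_smul_comm]
    abel
  have h2 : V η * V ζ = (S3.co 0 ζ * S3.co 0 η) • (s 0 * s 0) + (S3.co 0 ζ * S3.co 1 η) •
      (s 1 * s 0) + ((S3.co 1 ζ * S3.co 0 η) • (s 0 * s 1) + (S3.co 1 ζ * S3.co 1 η) •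
      (s 1 * s 1)) := by
    simp only [V, add_mul, mul_add, smul_mul_smul_comm]
    simp only [mul_comm (S3.co _ η)]
  rw [h1, h2]
  simp only [mul_add, mul_smul_comm, Fl_mul]

/-- the path of unitaries from `1` to the flip -/
noncomputable def Fz (z : ℂ) : Op := ((1 + z) / 2) • (1 : Op) + ((1 - z) / 2) • Fl

theorem Fz_one : Fz 1 = 1 := by
  simp [Fz]

theorem Fz_neg_one : Fz (-1) = Fl := by
  simp [Fz]

theorem continuous_Fz : Continuous Fz := by
  unfold Fz
  fun_prop

theorem star_Fz_mul {z : ℂ} (hz : star z * z = 1) : star (Fz z) * Fz z = 1 := by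
  have hz' : (starRingEnd ℂ) z * z = 1 := hz
  unfold Fz
  rw [star_add, star_smul, star_smul, star_Fl, star_one]
  simp only [add_mul, mul_add, smul_mul_smul_comm, one_mul, mul_one, Fl_mul_Fl]
  rw [show ∀ a b c d : ℂ, a • (1 : Op) + b • Fl + (c • Fl + d • (1 : Op)) =
    (a + d) • (1 : Op) + (b + c) • Fl by intro a b c d; simp only [add_smul]; abel]
  rw [add_comm (star ((1 - z) / 2) * ((1 + z) / 2))]
  have h1 : star ((1 + z) / 2) * ((1 + z) / 2) + star ((1 - z) / 2) * ((1 - z) / 2) = 1 := by
    simp only [RCLike.star_def, map_div₀, map_add, map_sub, map_one, map_ofNat]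
    linear_combination (1 / 2) * hz'
  have h2 : star ((1 + z) / 2) * ((1 - z) / 2) + star ((1 - z) / 2) * ((1 + z) / 2) = 0 := by
    simp only [RCLike.star_def, map_div₀, map_add, map_sub, map_one, map_ofNat]
    linear_combination (-1 / 2) * hz'
  rw [h1, h2, one_smul, zero_smul, add_zero]

/-- amplification -/
noncomputable def Th : ℕ → Op → Op
  | 0, x => x
  | d + 1, x => s 0 * Th d x * star (s 0) + s 1 * Th d x * star (s 1)

theorem continuous_Th (d : ℕ) : Continuous (Th d) := by
  induction d with
  | zero => exact continuous_id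
  | succ d ih =>
    exact ((continuous_const.mul ih).mul continuous_const).add
      ((continuous_const.mul ih).mul continuous_const)

theorem Th_one (d : ℕ) : Th d 1 = 1 := by
  induction d with
  | zero => rfl
  | succ d ih => rw [Th, ih, mul_one, mul_one, sum_s_mul_star]

theorem Th_mul_s (d : ℕ) (x : Op) (j : Fin 2) : Th (d + 1) x * s j = s j * Th d x := by
  rw [Th]
  fin_cases j
  · have : (s 0 * Th d x * star (s 0) + s 1 * Th d x * star (s 1)) * s 0 =
      s 0 * Th d x * (star (s 0) * s 0) + s 1 * Th d x * (star (s 1) * s 0) := by noncomm_ring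
    change (s 0 * Th d x * star (s 0) + s 1 * Th d x * star (s 1)) * s 0 = s 0 * Th d x
    rw [this, star_s_mul_self, star_s_mul_of_ne (by decide)]; simp
  · have : (s 0 * Th d x * star (s 0) + s 1 * Th d x * star (s 1)) * s 1 =
      s 0 * Th d x * (star (s 0) * s 1) + s 1 * Th d x * (star (s 1) * s 1) := by noncomm_ring
    change (s 0 * Th d x * star (s 0) + s 1 * Th d x * star (s 1)) * s 1 = s 1 * Th d x
    rw [this, star_s_mul_self, star_s_mul_of_ne (by decide)]; simp

theorem Th_mul_V (d : ℕ) (x : Op) (ζ : S3) : Th (d + 1) x * V ζ = V ζ * Th d x := by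
  simp only [V, mul_add, add_mul, mul_smul_comm, smul_mul_assoc, Th_mul_s]

theorem Th_mul (d : ℕ) (x y : Op) : Th d x * Th d y = Th d (x * y) := by
  induction d with
  | zero => rfl
  | succ d ih =>
    apply ext_s; intro j
    rw [mul_assoc, Th_mul_s, ← mul_assoc, Th_mul_s, mul_assoc, ih, Th_mul_s]

theorem star_Th (d : ℕ) (x : Op) : star (Th d x) = Th d (star x) := by
  induction d with
  | zero => rfl
  | succ d ih => simp [Th, ih, mul_assoc]

theorem star_Th_mul {x : Op} (h : star x * x = 1) (d : ℕ) : star (Th d x) * Th d x = 1 := by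
  rw [star_Th, Th_mul, h, Th_one]

namespace Par

variable (P : Par)

theorem Th_mul_Wd (n : ℕ) (L : List Ent) (d : ℕ) (x : Op) (y : XX) :
    Th (L.length + d) x * P.Wd n L y = P.Wd n L y * Th d x := by
  induction L with
  | nil => simp
  | cons e L ih =>
    rw [List.length_cons, Wd_cons, ← mul_assoc,
      show L.length + 1 + d = L.length + d + 1 by ring, Th_mul_V, mul_assoc, ih, mul_assoc]

theorem Th_Fl_mul_Wd (n : ℕ) (L L' : List Ent) (u w : Ent) (y : XX) :
    Th L.length Fl * P.Wd n (L ++ u :: w :: L') y = P.Wd n (L ++ w :: u :: L') y := by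
  rw [Wd_append, Wd_append, ← mul_assoc]
  have h := P.Th_mul_Wd n L 0 Fl y
  rw [add_zero] at h
  rw [h, Wd_cons, Wd_cons, Wd_cons, Wd_cons, Th, mul_assoc, ← mul_assoc (V _) (V _),
    ← mul_assoc (V _) (V _), ← mul_assoc Fl, Fl_mul_V]

/-- flipping two neighbours -/
theorem cmp_flip (th : Bool → Bool) (η : Ent) (L L' : List Ent) (u w : Ent) (τ : I) (n : ℕ)
    (g : II) (x : XX) :
    P.cmp th η (L ++ u :: w :: L') (Th L.length Fl) τ n g x =
      P.cmp th η (L ++ w :: u :: L') 1 τ n g x := by
  rw [cmp, cmp, Th_Fl_mul_Wd, one_mul]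

theorem conj_conj (A B c : Op) : A * (B * c * star B) * star A = (A * B) * c * star (A * B) := by
  simp only [star_mul, mul_assoc]

/-- at the final time the last letter can be exchanged with the special coordinate -/
theorem cmp_flip_last (th : Bool → Bool) (η w : Ent) (L : List Ent) (n : ℕ)
    (g : II) (x : XX) :
    P.cmp th η (L ++ [w]) (Th L.length Fl) 1 n g x =
      P.cmp th w (L ++ [η]) 1 1 n g x := by
  rw [cmp, cmp, g.mem1.eq, g.mem1.eq]
  have h1 : P.xi th η n x none = P.ev n η x := rfl
  have h2 : P.xi th w n x none = P.ev n w x := rfl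
  have h3 : pb (P.xi th η n x) = pb (P.xi th w n x) := rfl
  rw [h1, h2, h3]
  have h4 : Th L.length Fl * P.Wd n (L ++ [w]) x * V (P.ev n η x) =
      1 * P.Wd n (L ++ [η]) x * V (P.ev n w x) := by
    have h5 := P.Th_Fl_mul_Wd n L [] w η x
    rw [show L ++ [w, η] = (L ++ [w]) ++ [η] by simp,
      show L ++ [η, w] = (L ++ [η]) ++ [w] by simp, Wd_append _ _ (L ++ [w]),
      Wd_append _ _ (L ++ [η])] at h5
    simp only [Wd_cons, Wd_nil, mul_one] at h5
    rw [mul_assoc, h5, one_mul]
  rw [conj_conj, conj_conj, h4]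

/-- at the initial time only the coordinates of the first kind matter -/
theorem cmp_zero_congr {th th' : Bool → Bool} (h : th false = th' false) (η η' : Ent)
    (L : List Ent) (U : Op) (n : ℕ) (g : II) (x : XX) :
    P.cmp th η L U 0 n g x = P.cmp th' η' L U 0 n g x := by
  rw [cmp, cmp, g.mem0.eq, g.mem0.eq (P.xi th' η' n x)]
  have h3 : pa (P.xi th η n x) = pa (P.xi th' η' n x) := by
    funext i
    change pick (P.xsrc th η n (some (false, i))) _ x = pick (P.xsrc th' η' n (some (false, i))) _ x
    simp only [xsrc, h]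
    rfl
  rw [h3]

/-- at the final time only the coordinates of the second kind and the special one matter -/
theorem cmp_one_congr {th th' : Bool → Bool} (h : th true = th' true) (η : Ent)
    (L : List Ent) (U : Op) (n : ℕ) (g : II) (x : XX) :
    P.cmp th η L U 1 n g x = P.cmp th' η L U 1 n g x := by
  rw [cmp, cmp, g.mem1.eq, g.mem1.eq (P.xi th' η n x)]
  have h3 : pb (P.xi th η n x) = pb (P.xi th' η n x) := by
    funext i
    change pick (P.xsrc th η n (some (true, i))) _ x = pick (P.xsrc th' η n (some (true, i))) _ x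
    simp only [xsrc, h]
  have h2 : P.xi th η n x none = P.xi th' η n x none := rfl
  rw [h3, h2]

end Par

end Pool.Agent.Lib.Eln
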