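import Pool.Agent.Lib.Eln.Moves

set_option autoImplicit false

/-!
The end forms of the homotopy, and rules for good fields.
-/

open scoped InnerProductSpace BoundedContinuousFunction unitInterval

namespace Pool.Agent.Lib.Eln

open Pool.Agent.Lib.P81d4f5 (S3)

namespace Par

variable (P : Par)

/-- the core of the end forms -/
noncomputable def rho (θ : Bool) (K : ℕ) : II →⋆ₙₐ[ℂ] BB :=
  P.st' (fun _ => θ) Ent.yy (frs θ K) 1 (by simp) P.tau

theorem inN_rho (θ : Bool) (K : ℕ) {g : II} (hg : InM g) : InN (P.rho θ K g) :=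
  P.inN_stG lip_famA _ _ _ (by simp) (FP.one 0) _ hg

theorem Wd_frs_congr {θ : Bool} {x x' : XX} (h : ∀ i, x (some (θ, i)) = x' (some (θ, i)))
    (n K : ℕ) : P.Wd n (frs θ K) x = P.Wd n (frs θ K) x' := by
  have : ∀ l : List ℕ, P.Wd n (l.map fun j => Ent.fr j θ) x =
      P.Wd n (l.map fun j => Ent.fr j θ) x' := by
    intro l
    induction l with
    | nil => rfl
    | cons j l ih =>
      rw [List.map_cons, Wd_cons, Wd_cons, ih]
      congr 2
      exact h _
  exact this _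

theorem xi_congr {θ : Bool} {x x' : XX} (h : ∀ i, x (some (θ, i)) = x' (some (θ, i)))
    (n : ℕ) : P.xi (fun _ => θ) Ent.yy n x = P.xi (fun _ => θ) Ent.yy n x' := by
  funext d
  rcases d with _ | κ
  · rfl
  · simp only [xi, pull, xsrc]
    split_ifs
    · rfl
    · exact h _

theorem rho_congr {θ : Bool} {x x' : XX} (h : ∀ i, x (some (θ, i)) = x' (some (θ, i)))
    (K : ℕ) (g : II) : (P.rho θ K g).fn x = (P.rho θ K g).fn x' := by
  rw [rho, fn_st', fn_st']
  congr 1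
  funext n
  rw [cmp, cmp, P.Wd_frs_congr h, P.xi_congr h]

theorem sta_cons {e : Ent} {x : XX} {w : S3} (he : ∀ n, P.ev n e x = w) (th : Bool → Bool)
    (η : Ent) (L : List Ent) (τ : ℕ → I) (g : II) :
    (P.sta th η (e :: L) τ g).fn x = V w * (P.st' th η L 1 (by simp) τ g).fn x * star (V w) := by
  have h1 : ‖(1 : Op)‖ ≤ 1 := norm_le_one_of (by simp)
  rw [sta, fn_st, fn_st', ← dsum_V (P.ub_cmp th η L h1 τ g x)]
  congr 1
  funext n
  simp only [cmp, one_mul, Wd_cons, he, star_mul, mul_assoc]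

end Par

/-! ### rules for good fields -/

theorem GoodIn.mono {D D' : Set (Bool × ℕ)} {h : XX → Op} (hg : GoodIn D h) (hD : D ⊆ D') :
    GoodIn D' h := by
  obtain ⟨ι, ℓ, ω, r, h1, h2, h3, h4, h5, h6⟩ := hg
  exact ⟨ι, ℓ, ω, r, h1, h2, h3, fun i => hD (h4 i), h5, h6⟩

theorem GoodIn.add {D D' : Set (Bool × ℕ)} {h h' : XX → Op} (hg : GoodIn D h)
    (hg' : GoodIn D' h') (hD : Disjoint D D') : GoodIn (D ∪ D') fun x => h x + h' x := by
  classical
  obtain ⟨ι, ℓ, ω, r, h1, h2, h3, h4, h5, h6⟩ := hg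
  obtain ⟨ι', ℓ', ω', r', h1', h2', h3', h4', h5', h6'⟩ := hg'
  refine ⟨ι ⊕ ι', fun i => Sum.elim ℓ ℓ' i, fun i => Sum.elim ω ω' i,
    fun i => Sum.elim r r' i, ?_, ?_, ?_, ?_, ?_, ?_⟩
  · rintro (i | i)
    · exact h1 i
    · exact h1' i
  · rintro (i | i)
    · exact h2 i
    · exact h2' i
  · rintro (i | i) (j | j) hij
    · exact congrArg Sum.inl (h3 hij)
    · have hij' : r i = r' j := hij
      exact (Set.disjoint_left.1 hD (h4 i) (hij' ▸ h4' j)).elim
    · have hij' : r' i = r j := hij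
      exact (Set.disjoint_left.1 hD (h4 j) (hij' ▸ h4' i)).elim
    · exact congrArg Sum.inr (h3' hij)
  · rintro (i | i)
    · exact Or.inl (h4 i)
    · exact Or.inr (h4' i)
  · rintro (i | i)
    · exact h5 i
    · exact h5' i
  · intro x f ε hε
    obtain ⟨J, hJ⟩ := h6 x f (ε / 2) (by positivity)
    obtain ⟨J', hJ'⟩ := h6' x f (ε / 2) (by positivity)
    refine ⟨J.disjSum J', ?_⟩
    rw [Finset.sum_disjSum]
    have : (⟪f, (h x + h' x) f⟫_ℂ).re = (⟪f, h x f⟫_ℂ).re + (⟪f, h' x f⟫_ℂ).re := by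
      rw [add_apply, inner_add_right, Complex.add_re]
    rw [this]
    simp only [Sum.elim_inl, Sum.elim_inr]
    linarith

theorem GoodIn.conj {D : Set (Bool × ℕ)} {h : XX → Op} (hg : GoodIn D h) {y : XX → Op}
    (hy : IsF y) : GoodIn D fun x => y x * h x * star (y x) := by
  obtain ⟨ι, ℓ, ω, r, h1, h2, h3, h4, h5, h6⟩ := hg
  refine ⟨ι, fun i x => y x (ℓ i x), ω, r, fun i => hy.sc.apply (h1 i),
    fun i => (h2 i).apply hy.inv, h3, h4, h5, fun x f ε hε => ?_⟩
  obtain ⟨J, hJ⟩ := h6 x (star (y x) f) ε hε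
  refine ⟨J, ?_⟩
  have : (⟪f, (y x * h x * star (y x)) f⟫_ℂ).re =
      (⟪star (y x) f, h x (star (y x) f)⟫_ℂ).re := by
    rw [inner_star_left]; rfl
  beta_reduce
  rw [this]
  refine hJ.trans (le_of_eq ?_)
  congr 1
  refine Finset.sum_congr rfl fun i _ => ?_
  rw [inner_star_right]

theorem GoodIn.pull {D : Set (Bool × ℕ)} {h : XX → Op} (hg : GoodIn D h)
    {src : Ix → Option Ix} (hs : InjSrc src) (cs : Ix → S3) (m : Bool × ℕ → Bool × ℕ)
    (hm : ∀ κ, src (some κ) = some (some (m κ))) {D' : Set (Bool × ℕ)}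
    (hD : ∀ κ ∈ D, m κ ∈ D') : GoodIn D' fun x => h (pull src cs x) := by
  obtain ⟨ι, ℓ, ω, r, h1, h2, h3, h4, h5, h6⟩ := hg
  refine ⟨ι, fun i x => ℓ i (Eln.pull src cs x), fun i => pw src (ω i), fun i => m (r i),
    fun i => (h1 i).comp (continuous_pull _ _), fun i => (h2 i).pull hs cs, ?_,
    fun i => hD _ (h4 i), fun i => ?_, fun x f ε hε => h6 _ f ε hε⟩
  · intro i j hij
    beta_reduce at hij
    apply h3
    have hi := hm (r i)
    have hj := hm (r j)
    rw [hij] at hi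
    have := hs _ _ _ hi hj
    exact Option.some_injective _ this
  · beta_reduce
    rw [pw_of_some hs (ω i) (hm (r i))]
    exact h5 i

end Pool.Agent.Lib.Eln
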