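import Pool.Agent.Lib.Eln.Fld
import Pool.Agent.Lib.P81d4f5.Obstruct

set_option autoImplicit false

/-!
(Copy of Ell/Rank.lean.)

A finite rank trivial bundle is not isomorphic to a finite multiple of the Hopf line bundle.

PROOF.  For each ζ the unitary U ζ maps the range V_e c₀ H onto the range of V_ζ c₁ H, so
G(ζ) = V_ζ^* U(ζ) V_e restricts to a surjective isometry c₀ H → c₁ H; so c₁ ≠ 0, and the ranges of
c₀ and c₁ are both finite or both infinite dimensional.
* If the range K₀ of c₀ is finite dimensional: take an orthonormal basis f_1..f_r of K₀ (r ≥ 1 since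
  c₀ ≠ 0) and put N_{ij}(ζ) = ⟪G(ee) f_i, G(ζ) f_j⟫, an r × r matrix which is unitary (G(ee), G(ζ)
  are unitaries K₀ → K₁), depends continuously on ζ, and N(rot z ζ) = conj(z) N(ζ) because
  V (rot z ζ) = z V ζ and U (rot z ζ) = U ζ.  So F = star (det N) : S3 → ℂ is continuous, nowhere
  zero and F (rot z ζ) = z^r F ζ.  This contradicts
  `Pool.Agent.Lib.P81d4f5.exists_common_zero` for κ = Unit (weights w = fun _ _ => r ≥ 1).
* So both ranges are infinite dimensional closed subspaces of Hb; a closed subspace K of infinite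
  dimension contains an orthonormal sequence (e.g. `exists_hilbertBasis` for K: its index set is
  infinite), reindex it by ℕ × ℕ and let j = `isoOf` of it (Hilb.lean): star j * j = 1, c * j = j.
-/

open scoped InnerProductSpace unitInterval

namespace Pool.Agent.Lib.Eln

open Pool.Agent.Lib.P81d4f5 (S3)

/-- the range of a projection -/
noncomputable def rg (c : Op) : Submodule ℂ Hb := LinearMap.ker (c - 1 : Op).toLinearMap

theorem mem_rg {c : Op} {f : Hb} : f ∈ rg c ↔ c f = f := by
  rw [rg, LinearMap.mem_ker]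
  change c f - f = 0 ↔ _
  exact sub_eq_zero

theorem isClosed_rg (c : Op) : IsClosed (rg c : Set Hb) := (c - 1 : Op).isClosed_ker

/-- an infinite dimensional range contains the range of an isometry -/
theorem exists_iso_of_infinite (c : Op) (h : ¬ FiniteDimensional ℂ (rg c)) :
    ∃ j : Op, star j * j = 1 ∧ c * j = j := by
  have : CompleteSpace (rg c) := (isClosed_rg c).completeSpace_coe
  obtain ⟨w, b, -⟩ := exists_hilbertBasis ℂ (rg c)
  have hw : Infinite w := by
    by_contra hcon
    rw [not_infinite_iff_finite] at hcon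
    have := Fintype.ofFinite w
    exact h (Module.Finite.of_basis b.toOrthonormalBasis.toBasis)
  let g : Tr → w := fun i => Infinite.natEmbedding w (Encodable.encode i)
  have hg : Function.Injective g :=
    (Infinite.natEmbedding w).injective.comp Encodable.encode_injective
  have hv : Orthonormal ℂ fun i => ((b (g i) : rg c) : Hb) :=
    (b.orthonormal.comp g hg).comp_linearIsometry (rg c).subtypeₗᵢ
  refine ⟨isoOf _ hv, star_isoOf_mul _ _, ?_⟩
  apply op_ext
  intro i
  rw [mul_apply', isoOf_eb]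
  exact mem_rg.1 (b (g i)).2

theorem rank_infinite (c₀ c₁ : Op) (hc₀ : IsStarProjection c₀) (hc₁ : IsStarProjection c₁)
    (h0 : c₀ ≠ 0) (U : S3 → Op) (hU : ∀ h, Continuous fun ζ => U ζ h)
    (hinv : ∀ (z : Circle) (ζ : S3), U (S3.rot z ζ) = U ζ) (hu : ∀ ζ, U ζ ∈ unitary Op)
    (hint : ∀ ζ, U ζ * (V ee * c₀ * star (V ee)) * star (U ζ) = V ζ * c₁ * star (V ζ)) :
    (∃ j : Op, star j * j = 1 ∧ c₀ * j = j) ∧ (∃ j : Op, star j * j = 1 ∧ c₁ * j = j) := by
  have hus : ∀ ζ, star (U ζ) * U ζ = 1 := fun ζ => Unitary.star_mul_self_of_mem (hu ζ)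
  have hc0 : c₀ * c₀ = c₀ := hc₀.isIdempotentElem.eq
  have hc0' : star c₀ = c₀ := hc₀.isSelfAdjoint
  have hc1 : c₁ * c₁ = c₁ := hc₁.isIdempotentElem.eq
  -- the partial isometries
  let W : S3 → Op := fun ζ => star (V ζ) * U ζ * V ee * c₀
  have hVW : ∀ ζ, V ζ * W ζ = U ζ * V ee * c₀ := by
    intro ζ
    have e : U ζ * V ee * c₀ = V ζ * c₁ * star (V ζ) * (U ζ * V ee) := by
      rw [← hint]
      calc U ζ * V ee * c₀ = U ζ * V ee * c₀ * 1 * 1 := by noncomm_ring
        _ = U ζ * V ee * c₀ * (star (V ee) * 1 * V ee) := by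
            rw [mul_one (star (V ee)), star_V_mul_V]; noncomm_ring
        _ = U ζ * V ee * c₀ * (star (V ee) * (star (U ζ) * U ζ) * V ee) := by rw [hus]
        _ = _ := by noncomm_ring
    calc V ζ * W ζ = V ζ * star (V ζ) * (U ζ * V ee * c₀) := by simp only [W]; noncomm_ring
      _ = V ζ * (star (V ζ) * V ζ) * c₁ * star (V ζ) * (U ζ * V ee) := by rw [e]; noncomm_ring
      _ = V ζ * c₁ * star (V ζ) * (U ζ * V ee) := by rw [star_V_mul_V]; noncomm_ring
      _ = _ := e.symm
  have hWW : ∀ ζ, star (W ζ) * W ζ = c₀ := by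
    intro ζ
    calc star (W ζ) * W ζ = star (W ζ) * 1 * W ζ := by noncomm_ring
      _ = star (W ζ) * (star (V ζ) * V ζ) * W ζ := by rw [star_V_mul_V]
      _ = star (V ζ * W ζ) * (V ζ * W ζ) := by rw [star_mul (V ζ)]; simp only [mul_assoc]
      _ = star (U ζ * V ee * c₀) * (U ζ * V ee * c₀) := by rw [hVW]
      _ = star c₀ * (star (V ee) * (star (U ζ) * U ζ) * V ee) * c₀ := by
          simp only [star_mul]; noncomm_ring
      _ = star c₀ * (star (V ee) * V ee) * c₀ := by rw [hus]; noncomm_ring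
      _ = c₀ := by rw [star_V_mul_V, hc0', mul_one, hc0]
  have hWW' : ∀ ζ, W ζ * star (W ζ) = c₁ := by
    intro ζ
    calc W ζ * star (W ζ) = star (V ζ) * (U ζ * (V ee * (c₀ * star c₀) * star (V ee)) *
          star (U ζ)) * V ζ := by
          simp only [W, star_mul, star_star]; noncomm_ring
      _ = star (V ζ) * (V ζ * c₁ * star (V ζ)) * V ζ := by rw [hc0', hc0, hint]
      _ = (star (V ζ) * V ζ) * c₁ * (star (V ζ) * V ζ) := by noncomm_ring
      _ = c₁ := by rw [star_V_mul_V]; noncomm_ring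
  have hWc : ∀ ζ, W ζ * c₀ = W ζ := by
    intro ζ
    simp only [W, mul_assoc, hc0]
  have hcW : ∀ ζ, c₁ * W ζ = W ζ := by
    intro ζ
    rw [← hWW' ζ, mul_assoc, hWW, hWc]
  have hcont : ∀ h, Continuous fun ζ => W ζ h := by
    intro h
    have h1 : Continuous fun ζ => star (V ζ) (U ζ (V ee (c₀ h))) :=
      (continuous_star.comp continuous_V).clm_apply (hU _)
    exact h1
  have hrot : ∀ (z : Circle) (ζ : S3), W (S3.rot z ζ) = star (z : ℂ) • W ζ := by
    intro z ζ
    simp only [W, V_rot, hinv, star_smul, smul_mul_assoc]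
  -- the range of `c₀` is infinite dimensional
  have hinf : ¬ FiniteDimensional ℂ (rg c₀) := by
    intro hfin
    let r := Module.finrank ℂ (rg c₀)
    let f : OrthonormalBasis (Fin r) ℂ (rg c₀) := stdOrthonormalBasis ℂ (rg c₀)
    have hr : 1 ≤ r := by
      obtain ⟨g, hg⟩ : ∃ g, c₀ g ≠ 0 := by
        by_contra hcon
        push Not at hcon
        exact h0 (by ext1 g; exact hcon g)
      have : Nontrivial (rg c₀) :=
        ⟨⟨⟨c₀ g, mem_rg.2 (by rw [← mul_apply', hc0])⟩, 0, fun h => hg (congrArg Subtype.val h)⟩⟩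
      exact Module.finrank_pos
    let A : S3 → Op := fun ζ => star (W ee) * W ζ
    have hA : ∀ ζ, star (A ζ) * A ζ = c₀ := by
      intro ζ
      calc star (A ζ) * A ζ = star (W ζ) * (W ee * star (W ee)) * W ζ := by
            simp only [A, star_mul, star_star]; noncomm_ring
        _ = star (W ζ) * (c₁ * W ζ) := by rw [hWW']; noncomm_ring
        _ = c₀ := by rw [hcW, hWW]
    have hcA : ∀ ζ, c₀ * A ζ = A ζ := by
      intro ζ
      have : c₀ * star (W ee) = star (W ee) := by
        have := congrArg star (hWc ee)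
        rw [star_mul, hc0'] at this
        exact this
      calc c₀ * A ζ = c₀ * star (W ee) * W ζ := by simp only [A]; noncomm_ring
        _ = _ := by rw [this]
    let N : S3 → Matrix (Fin r) (Fin r) ℂ := fun ζ =>
      Matrix.of fun i k => ⟪(f i : Hb), A ζ (f k : Hb)⟫_ℂ
    have hNN : ∀ ζ, (N ζ).conjTranspose * N ζ = 1 := by
      intro ζ
      ext i k
      rw [Matrix.mul_apply, Matrix.one_apply]
      let Ai : Fin r → rg c₀ := fun i => ⟨A ζ (f i : Hb), mem_rg.2 (by rw [← mul_apply', hcA])⟩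
      have h1 : ∀ l, (N ζ).conjTranspose i l * N ζ l k = ⟪Ai i, f l⟫_ℂ * ⟪f l, Ai k⟫_ℂ := by
        intro l
        rw [Matrix.conjTranspose_apply]
        have e1 : star (N ζ l i) = ⟪Ai i, f l⟫_ℂ := by
          change (starRingEnd ℂ) ⟪(f l : Hb), A ζ (f i : Hb)⟫_ℂ = ⟪A ζ (f i : Hb), (f l : Hb)⟫_ℂ
          rw [inner_conj_symm]
        rw [e1]
        rfl
      rw [Finset.sum_congr rfl fun l _ => h1 l, f.sum_inner_mul_inner]
      change ⟪A ζ (f i : Hb), A ζ (f k : Hb)⟫_ℂ = _
      rw [← inner_star_left, inner_star_left, ← inner_star_right, ← mul_apply', hA,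
        mem_rg.1 (f k).2]
      have := orthonormal_iff_ite.1 f.orthonormal i k
      exact this
    have hdet : ∀ ζ, (N ζ).det ≠ 0 := by
      intro ζ h
      have h1 := congrArg Matrix.det (hNN ζ)
      rw [Matrix.det_mul, h, mul_zero, Matrix.det_one] at h1
      exact zero_ne_one h1
    have hNc : Continuous N := by
      apply continuous_matrix
      intro i k
      have h1 : Continuous fun ζ => star (W ee) (W ζ (f k : Hb)) :=
        (star (W ee)).continuous.comp (hcont _)
      exact continuous_const.inner h1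
    have hNrot : ∀ (z : Circle) (ζ : S3), N (S3.rot z ζ) = star (z : ℂ) • N ζ := by
      intro z ζ
      ext i k
      simp only [N, A, hrot, Matrix.of_apply, Matrix.smul_apply, smul_eq_mul, mul_smul_comm]
      change ⟪(f i : Hb), star (z : ℂ) • ((star (W ee) * W ζ) (f k : Hb))⟫_ℂ = _
      rw [inner_smul_right]
    let F : C(Unit → S3, ℂ) := ⟨fun x => star (N (x ())).det,
      continuous_star.comp ((hNc.comp (continuous_apply ())).matrix_det)⟩
    obtain ⟨x, hx⟩ := Pool.Agent.Lib.P81d4f5.exists_common_zero (κ := Unit) (fun _ _ => r)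
      (fun _ => hr) (fun _ => F) (by
        intro _ c x
        change star (N (S3.rot (c ()) (x ()))).det = (∏ s, (c s : ℂ) ^ ((r : ℕ) : ℤ)) *
          star (N (x ())).det
        rw [hNrot, Matrix.det_smul, Fintype.card_fin, star_mul, star_pow, star_star]
        simp [mul_comm])
    have h2 := hx ()
    change star (N (x ())).det = 0 at h2
    exact hdet _ (star_eq_zero.1 h2)
  obtain ⟨j, hj, hj'⟩ := exists_iso_of_infinite c₀ hinf
  refine ⟨⟨j, hj, hj'⟩, W ee * j, ?_, ?_⟩
  · rw [star_mul]
    calc star j * star (W ee) * (W ee * j) = star j * (star (W ee) * W ee) * j := by noncomm_ring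
      _ = star j * (c₀ * j) := by rw [hWW]; noncomm_ring
      _ = 1 := by rw [hj', hj]
  · rw [← mul_assoc, hcW]

end Pool.Agent.Lib.Eln
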