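import Pool.Agent.Lib.Eln.Blk
import Pool.Agent.Lib.Eln.Rank
import Pool.Agent.Lib.Ell.ProjHom

set_option autoImplicit false

/-!
Frames of the non-zero projections of the block.
-/

open scoped InnerProductSpace unitInterval

namespace Pool.Agent.Lib.Eln

open Pool.Agent.Lib.P81d4f5 (S3)
open Pool.Agent.Lib.Ell (lift_path)

/-- transport of an isometry through an intertwining unitary -/
theorem inter_left {R : Type*} [Ring R] [StarRing R] {a b c d w j : R} (ha : star a * a = 1)
    (hb : star b * b = 1) (hw : star w * w = 1)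
    (h : w * (a * c * star a) * star w = b * d * star b) (hj : d * j = j) :
    a * (star a * star w * b * j) = star w * b * j ∧
      c * (star a * star w * b * j) = star a * star w * b * j := by
  have h1 : star w * b * j = a * c * star a * (star w * b * j) := by
    calc star w * b * j = star w * b * (d * j) := by rw [hj]
      _ = star w * (b * d * star b) * b * j := by
          calc star w * b * (d * j) = star w * b * d * 1 * j := by noncomm_ring
            _ = star w * b * d * (star b * b) * j := by rw [hb]
            _ = _ := by noncomm_ring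
      _ = star w * (w * (a * c * star a) * star w) * b * j := by rw [h]
      _ = (star w * w) * (a * c * star a) * star w * b * j := by noncomm_ring
      _ = _ := by rw [hw]; noncomm_ring
  constructor
  · calc a * (star a * star w * b * j) = a * star a * (star w * b * j) := by noncomm_ring
      _ = a * star a * (a * c * star a * (star w * b * j)) := by rw [← h1]
      _ = a * (star a * a) * c * star a * (star w * b * j) := by noncomm_ring
      _ = a * c * star a * (star w * b * j) := by rw [ha]; noncomm_ring
      _ = _ := h1.symm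
  · calc c * (star a * star w * b * j) = 1 * c * star a * (star w * b * j) := by noncomm_ring
      _ = (star a * a) * c * star a * (star w * b * j) := by rw [ha]
      _ = star a * (a * c * star a * (star w * b * j)) := by noncomm_ring
      _ = star a * (star w * b * j) := by rw [← h1]
      _ = _ := by noncomm_ring

theorem inter_iso {R : Type*} [Ring R] [StarRing R] {a b c d w j k : R} (ha : star a * a = 1)
    (hb : star b * b = 1) (hw : star w * w = 1) (hw' : w * star w = 1)
    (h : w * (a * c * star a) * star w = b * d * star b) (hj : d * j = j) (hk : d * k = k) :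
    star (star a * star w * b * k) * (star a * star w * b * j) = star k * j := by
  obtain ⟨h1, -⟩ := inter_left ha hb hw h hj
  obtain ⟨h2, -⟩ := inter_left ha hb hw h hk
  calc star (star a * star w * b * k) * (star a * star w * b * j)
      = star (star a * star w * b * k) * 1 * (star a * star w * b * j) := by noncomm_ring
    _ = star (star a * star w * b * k) * (star a * a) * (star a * star w * b * j) := by rw [ha]
    _ = star (a * (star a * star w * b * k)) * (a * (star a * star w * b * j)) := by
        rw [star_mul a]; noncomm_ring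
    _ = star (star w * b * k) * (star w * b * j) := by rw [h1, h2]
    _ = star k * star b * (w * star w) * b * j := by
        simp only [star_mul, star_star]; noncomm_ring
    _ = star k * (star b * b) * j := by rw [hw']; noncomm_ring
    _ = star k * j := by rw [hb]; noncomm_ring

/-- the field depending on the first coordinates only -/
noncomputable def fa (f : BB) : BB := BB.mk (fun x => f.fn (mkx (pa x) (fun _ => ee) ee))
  ⟨f.scont.comp (continuous_mkx continuous_pa continuous_const continuous_const), by
    intro c z x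
    rcases c with _ | ⟨_ | _, i⟩
    · congr 1
    · have : mkx (pa (rotAt (some (false, i)) z x)) (fun _ => ee) ee =
          rotAt (some (false, i)) z (mkx (pa x) (fun _ => ee) ee) := by
        funext d
        by_cases hd : d = some (false, i)
        · subst hd
          rw [rotAt_self]
          simp [mkx, pa, rotAt]
        · rw [rotAt_of_ne hd]
          rcases d with _ | ⟨_ | _, k⟩
          · rfl
          · simp [mkx, pa, rotAt_of_ne hd]
          · rfl
      rw [this, f.inv]
    · congr 1⟩

theorem fa_fn (f : BB) (x : XX) : (fa f).fn x = f.fn (mkx (pa x) (fun _ => ee) ee) := rfl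

theorem proj_comp {V' c : Op} (hV : star V' * V' = 1)
    (h : IsStarProjection (V' * c * star V')) : IsStarProjection c := by
  have e : star V' * (V' * c * star V') * V' = c := by
    calc star V' * (V' * c * star V') * V' = (star V' * V') * c * (star V' * V') := by noncomm_ring
      _ = c := by rw [hV]; noncomm_ring
  constructor
  · have h1 := h.isIdempotentElem.eq
    change c * c = c
    calc c * c = (star V' * V') * c * (star V' * V') * c * (star V' * V') := by rw [hV]; noncomm_ring
      _ = star V' * ((V' * c * star V') * (V' * c * star V')) * V' := by noncomm_ring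
      _ = star V' * (V' * c * star V') * V' := by rw [h1]
      _ = c := e
  · have h1 : star (V' * c * star V') = V' * c * star V' := h.isSelfAdjoint
    change star c = c
    calc star c = star (star V' * (V' * c * star V') * V') := by rw [e]
      _ = star V' * star (V' * c * star V') * V' := by simp only [star_mul, star_star]; noncomm_ring
      _ = star V' * (V' * c * star V') * V' := by rw [h1]
      _ = c := e

theorem eq_zero_of_VcV {V' c : Op} (hV : star V' * V' = 1) (h : V' * c * star V' = 0) : c = 0 := by
  calc c = (star V' * V') * c * (star V' * V') := by rw [hV]; noncomm_ring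
    _ = star V' * (V' * c * star V') * V' := by noncomm_ring
    _ = 0 := by rw [h]; noncomm_ring

/-- the unitary and the isometries under the coefficient projections -/
theorem exists_data (p : II) (hp : IsStarProjection p) (hne : p ≠ 0) :
    ∃ u : C(I, BB), (∀ t, u t ∈ unitary BB) ∧ u 0 = 1 ∧
      (∀ t, u t * p.at' 0 * star (u t) = p.at' t) ∧
      ∃ j₀ j₁ : Op, star j₀ * j₀ = 1 ∧ star j₁ * j₁ = 1 ∧
        cf0 (p.at' 0) (fun _ => ee) * j₀ = j₀ ∧ cf1 (p.at' 1) (fun _ => ee) * j₁ = j₁ := by
  have hpt : ∀ t, IsStarProjection (p.at' t) := by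
    intro t
    constructor
    · exact congrArg (fun g : II => g.at' t) hp.isIdempotentElem.eq
    · exact congrArg (fun g : II => g.at' t) hp.isSelfAdjoint
  obtain ⟨u, hu, hu0, hup⟩ := lift_path p.toMM hpt
  have hup' : ∀ t, u t * p.at' 0 * star (u t) = p.at' t := hup
  have hfn : ∀ t x, IsStarProjection ((p.at' t).fn x) := by
    intro t x
    constructor
    · exact congrArg (fun g : BB => g.fn x) (hpt t).isIdempotentElem.eq
    · exact congrArg (fun g : BB => g.fn x) (hpt t).isSelfAdjoint
  have hu1 : star (u 1) * u 1 = 1 := Unitary.star_mul_self_of_mem (hu 1)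
  have hu2 : u 1 * star (u 1) = 1 := Unitary.mul_star_self_of_mem (hu 1)
  have hx : ∀ x, (u 1).fn x * (V ee * cf0 (p.at' 0) (pa x) * star (V ee)) * star ((u 1).fn x) =
      V (x none) * cf1 (p.at' 1) (pb x) * star (V (x none)) := by
    intro x
    rw [← p.mem0.eq x, ← p.mem1.eq x, ← hup' 1]
    rfl
  have hx' : ∀ x, star ((u 1).fn x) * (V (x none) * cf1 (p.at' 1) (pb x) * star (V (x none))) *
      (u 1).fn x = V ee * cf0 (p.at' 0) (pa x) * star (V ee) := by
    intro x
    have e1 : star ((u 1).fn x) * (u 1).fn x = 1 := congrArg (fun g : BB => g.fn x) hu1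
    rw [← hx x]
    calc _ = (star ((u 1).fn x) * (u 1).fn x) * (V ee * cf0 (p.at' 0) (pa x) * star (V ee)) *
          (star ((u 1).fn x) * (u 1).fn x) := by noncomm_ring
      _ = _ := by rw [e1]; noncomm_ring
  -- some coefficient of the first kind is non-zero
  have h1 : ∃ a, cf0 (p.at' 0) a ≠ 0 := by
    by_contra hcon
    push Not at hcon
    apply hne
    have h0 : p.at' 0 = 0 := by
      ext1 x
      rw [p.mem0.eq x, hcon]
      simp
    apply II.ext
    intro t
    rw [← hup' t, h0]
    simp
  obtain ⟨a, ha⟩ := h1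
  have h2 : ∀ b, cf1 (p.at' 1) b ≠ 0 := by
    intro b hb
    have h3 := hx' (mkx a b ee)
    simp only [pa_mkx, pb_mkx, mkx_none, hb, mul_zero, zero_mul] at h3
    exact ha (eq_zero_of_VcV (star_V_mul_V _) h3.symm)
  have h3 : ∀ a, cf0 (p.at' 0) a ≠ 0 := by
    intro a' ha'
    have h3 := hx (mkx a' (fun _ => ee) ee)
    simp only [pa_mkx, pb_mkx, mkx_none, ha', mul_zero, zero_mul] at h3
    exact h2 _ (eq_zero_of_VcV (star_V_mul_V _) h3.symm)
  have hc0 : IsStarProjection (cf0 (p.at' 0) (fun _ => ee)) := by
    have := hfn 0 (mkx (fun _ => ee) (fun _ => ee) ee)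
    rw [p.mem0.eq, pa_mkx] at this
    exact proj_comp (star_V_mul_V _) this
  have hc1 : IsStarProjection (cf1 (p.at' 1) (fun _ => ee)) := by
    have := hfn 1 (mkx (fun _ => ee) (fun _ => ee) ee)
    rw [p.mem1.eq, pb_mkx] at this
    exact proj_comp (star_V_mul_V _) this
  obtain ⟨⟨j₀, hj0, hj0'⟩, ⟨j₁, hj1, hj1'⟩⟩ :=
    rank_infinite (cf0 (p.at' 0) (fun _ => ee)) (cf1 (p.at' 1) (fun _ => ee)) hc0 hc1 (h3 _)
    (fun ζ => (u 1).fn (mkx (fun _ => ee) (fun _ => ee) ζ))
    (fun h => ((u 1).scont.cont h).comp
      (continuous_mkx continuous_const continuous_const continuous_id))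
    (by
      intro z ζ
      have e : mkx (fun _ => ee) (fun _ => ee) (S3.rot z ζ) =
          rotAt none z (mkx (fun _ => ee) (fun _ => ee) ζ) := by
        funext d
        rcases d with _ | ⟨_ | _, k⟩
        · rw [rotAt_self]; rfl
        · rw [rotAt_of_ne (by simp)]; rfl
        · rw [rotAt_of_ne (by simp)]; rfl
      rw [e, (u 1).inv])
    (by
      intro ζ
      rw [Unitary.mem_iff]
      exact ⟨congrArg (fun g : BB => g.fn (mkx (fun _ => ee) (fun _ => ee) ζ)) hu1,
        congrArg (fun g : BB => g.fn (mkx (fun _ => ee) (fun _ => ee) ζ)) hu2⟩)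
    (by
      intro ζ
      exact hx (mkx (fun _ => ee) (fun _ => ee) ζ))
  exact ⟨u, hu, hu0, hup', j₀, j₁, hj0, hj1, hj0', hj1'⟩


theorem continuous_joint_BB {g : I → BB} (hg : Continuous g) {v : XX → Hb} (hv : Continuous v) :
    Continuous fun p : I × XX => (g p.1).fn p.2 (v p.2) := by
  rw [continuous_iff_continuousAt]
  rintro ⟨t₀, x₀⟩
  have h1 : Filter.Tendsto (fun p : I × XX => (g t₀).fn p.2 (v p.2)) (nhds (t₀, x₀))
      (nhds ((g t₀).fn x₀ (v x₀))) :=
    (((g t₀).scont.apply hv).comp continuous_snd).continuousAt (x := (t₀, x₀))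
  have h2 : Filter.Tendsto (fun p : I × XX => (g p.1).fn p.2 (v p.2) - (g t₀).fn p.2 (v p.2))
      (nhds (t₀, x₀)) (nhds 0) := by
    rw [tendsto_zero_iff_norm_tendsto_zero]
    have h3 : Filter.Tendsto (fun p : I × XX => ‖g p.1 - g t₀‖ * ‖v p.2‖)
        (nhds (t₀, x₀)) (nhds 0) := by
      have h4 : Filter.Tendsto (fun p : I × XX => ‖g p.1 - g t₀‖)
          (nhds (t₀, x₀)) (nhds 0) :=
        tendsto_iff_norm_sub_tendsto_zero.1
          ((hg.comp continuous_fst).continuousAt (x := (t₀, x₀)))
      have h5 : Filter.Tendsto (fun p : I × XX => ‖v p.2‖) (nhds (t₀, x₀)) (nhds ‖v x₀‖) :=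
        ((hv.comp continuous_snd).norm).continuousAt (x := (t₀, x₀))
      simpa using h4.mul h5
    refine squeeze_zero (fun _ => norm_nonneg _) (fun p => ?_) h3
    have h5 : (g p.1).fn p.2 (v p.2) - (g t₀).fn p.2 (v p.2) = (g p.1 - g t₀).fn p.2 (v p.2) := rfl
    rw [h5]
    exact ((g p.1 - g t₀).fn p.2).le_of_opNorm_le (BB.norm_fn_le _ _) _
  have h5 := h2.add h1
  simp only [sub_add_cancel, zero_add] at h5
  exact h5

/-- an orthonormal sequence -/
noncomputable def ebn (i : ℕ) : Hb := eb (List.replicate i true)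

theorem inner_ebn (i j : ℕ) : ⟪ebn i, ebn j⟫_ℂ = if i = j then 1 else 0 := by
  rw [ebn, ebn, inner_eb_eb]
  by_cases h : i = j
  · rw [if_pos h, if_pos (by rw [h])]
  · rw [if_neg h, if_neg]
    intro h'
    have := congrArg List.length h'
    simp only [List.length_replicate] at this
    exact h this

theorem exists_frame {p : II} (hp : IsStarProjection p) (hp0 : p ≠ 0) (m : ℕ) :
    ∃ F : Fin m → I × XX → Hb, (∀ i, Continuous (F i)) ∧
      (∀ i t c (z : Circle) x, F i (t, rotAt c z x) = F i (t, x)) ∧
      (∀ i t x, (p.at' t).fn x (F i (t, x)) = F i (t, x)) ∧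
      ∀ i j t x, ⟪F i (t, x), F j (t, x)⟫_ℂ = if i = j then 1 else 0 := by
  obtain ⟨u, hu, hu0, hup, j₀, j₁, hj0, hj1, hj0', hj1'⟩ := exists_data p hp hp0
  have hus : ∀ t, star (u t) * u t = 1 := fun t => Unitary.star_mul_self_of_mem (hu t)
  have hus' : ∀ t, u t * star (u t) = 1 := fun t => Unitary.mul_star_self_of_mem (hu t)
  set w : BB := u 1 with hw
  have hwx : ∀ x, star (w.fn x) * w.fn x = 1 := fun x => congrArg (fun g : BB => g.fn x) (hus 1)
  have hwx' : ∀ x, w.fn x * star (w.fn x) = 1 := fun x => congrArg (fun g : BB => g.fn x) (hus' 1)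
  have hx : ∀ x, w.fn x * (V ee * cf0 (p.at' 0) (pa x) * star (V ee)) * star (w.fn x) =
      V (x none) * cf1 (p.at' 1) (pb x) * star (V (x none)) := by
    intro x
    rw [← p.mem0.eq x, ← p.mem1.eq x, ← hup 1]
    rfl
  set θ₀ : BB := BB.cst (star (V ee)) * star (fa w) * BB.cst (V ee) * BB.cst j₁ with hθ₀
  have hθ₀fn : ∀ x, θ₀.fn x = star (V ee) * star (w.fn (mkx (pa x) (fun _ => ee) ee)) * V ee * j₁ :=
    fun x => rfl
  have h0iso : ∀ x, star (θ₀.fn x) * θ₀.fn x = 1 := by
    intro x
    rw [hθ₀fn, inter_iso (star_V_mul_V ee) (star_V_mul_V ee) (hwx _) (hwx' _)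
      (hx (mkx (pa x) (fun _ => ee) ee)) hj1' hj1', hj1]
  have h0c : ∀ x, cf0 (p.at' 0) (pa x) * θ₀.fn x = θ₀.fn x := by
    intro x
    rw [hθ₀fn]
    exact (inter_left (star_V_mul_V ee) (star_V_mul_V ee) (hwx _)
      (hx (mkx (pa x) (fun _ => ee) ee)) hj1').2
  -- the field of isometries
  let T : I → BB := fun t => u t * (BB.cst (V ee) * θ₀)
  have hT : Continuous T := by fun_prop
  have hTfn : ∀ t x, (T t).fn x = (u t).fn x * (V ee * θ₀.fn x) := fun t x => rfl
  have hTT : ∀ t x, star ((T t).fn x) * (T t).fn x = 1 := by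
    intro t x
    have h1 : star ((u t).fn x) * (u t).fn x = 1 := congrArg (fun g : BB => g.fn x) (hus t)
    rw [hTfn]
    calc _ = star (θ₀.fn x) * (star (V ee) * (star ((u t).fn x) * (u t).fn x) * V ee) *
          θ₀.fn x := by simp only [star_mul]; noncomm_ring
      _ = star (θ₀.fn x) * (star (V ee) * V ee) * θ₀.fn x := by rw [h1]; noncomm_ring
      _ = 1 := by rw [star_V_mul_V, mul_one, h0iso]
  have hpT : ∀ t x, (p.at' t).fn x * (T t).fn x = (T t).fn x := by
    intro t x
    have h1 : star ((u t).fn x) * (u t).fn x = 1 := congrArg (fun g : BB => g.fn x) (hus t)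
    have h2 : (p.at' t).fn x = (u t).fn x * (V ee * cf0 (p.at' 0) (pa x) * star (V ee)) *
        star ((u t).fn x) := by
      rw [← p.mem0.eq x, ← hup t]; rfl
    rw [hTfn, h2]
    calc _ = (u t).fn x * (V ee * cf0 (p.at' 0) (pa x) * star (V ee)) *
          (star ((u t).fn x) * (u t).fn x) * (V ee * θ₀.fn x) := by noncomm_ring
      _ = (u t).fn x * (V ee * cf0 (p.at' 0) (pa x) * (star (V ee) * V ee) * θ₀.fn x) := by
          rw [h1]; noncomm_ring
      _ = (u t).fn x * (V ee * (cf0 (p.at' 0) (pa x) * θ₀.fn x)) := by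
          rw [star_V_mul_V]; noncomm_ring
      _ = _ := by rw [h0c]
  refine ⟨fun i tx => (T tx.1).fn tx.2 (ebn i), fun i => ?_, fun i t c z x => ?_,
    fun i t x => ?_, fun i j t x => ?_⟩
  · exact continuous_joint_BB hT (v := fun _ => ebn i) continuous_const
  · change (T t).fn (rotAt c z x) (ebn i) = (T t).fn x (ebn i)
    rw [(T t).inv]
  · change (p.at' t).fn x ((T t).fn x (ebn i)) = (T t).fn x (ebn i)
    rw [← mul_apply', hpT]
  · change ⟪(T t).fn x (ebn i), (T t).fn x (ebn j)⟫_ℂ = if i = j then 1 else 0
    rw [← inner_star_right, ← mul_apply', hTT]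
    change ⟪ebn i, ebn j⟫_ℂ = _
    rw [inner_ebn]
    simp only [Fin.ext_iff]

end Pool.Agent.Lib.Eln
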