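import Pool.Agent.Lib.Eln.StN

set_option autoImplicit false

/-!
Constant operators of finite propagation testing the isometries of the words.
-/

open scoped InnerProductSpace BoundedContinuousFunction unitInterval

namespace Pool.Agent.Lib.Eln

open Pool.Agent.Lib.P81d4f5 (S3)

theorem star_V_mul_s (ζ : S3) (i : Fin 2) :
    star (V ζ) * s i = (starRingEnd ℂ) (S3.co i ζ) • (1 : Op) := by
  rw [star_V]
  fin_cases i
  · simp [add_mul, star_s_mul]
  · simp [add_mul, star_s_mul]

theorem exists_words (P : Par) (L : List Ent) :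
    ∃ (ι : Type) (_ : Fintype ι) (A : ι → Op), (∀ w, FP L.length (A w)) ∧
      ∀ n x, ∃ c : ι → ℂ,
      (∀ w, star (P.Wd n L x) * A w = c w • (1 : Op)) ∧ ∑ w, ‖c w‖ ^ 2 = 1 := by
  induction L with
  | nil => exact ⟨Unit, inferInstance, fun _ => 1, fun _ => FP.one 0,
      fun n x => ⟨fun _ => 1, by simp, by simp⟩⟩
  | cons e L ih =>
    obtain ⟨ι, hι, A, hA0, hA⟩ := ih
    refine ⟨Fin 2 × ι, inferInstance, fun iw => s iw.1 * A iw.2, fun iw => ?_, fun n x => ?_⟩
    · rw [List.length_cons]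
      exact ((FP.s iw.1).mul (hA0 iw.2)).mono (by omega)
    obtain ⟨c, hc, hc1⟩ := hA n x
    refine ⟨fun iw => (starRingEnd ℂ) (S3.co iw.1 (P.ev n e x)) * c iw.2, fun iw => ?_, ?_⟩
    · rw [Par.Wd_cons, star_mul, mul_assoc, ← mul_assoc (star (V _)), star_V_mul_s,
        smul_mul_assoc, one_mul, mul_smul_comm, hc, smul_smul]
    · rw [Fintype.sum_prod_type]
      simp only [norm_mul, mul_pow, ← Finset.mul_sum, hc1, mul_one, RCLike.norm_conj]
      exact S3.sum_sq' _

end Pool.Agent.Lib.Eln
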