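import Pool.Agent.Lib.Eln.Forms
import Pool.Agent.Lib.Eln.Words

set_option autoImplicit false

/-!
If `‖g(τ_n)(ξ_n(x)) e_v‖ ≥ δ` for infinitely many components n = N l (l ∈ Tr), where
jx (N l) = γ ++ l, then there are finitely many elements X_w of BB, limits of fields of finite
propagation, with ∑ (X_w)^* rho(g)^* rho(g) X_w = 1.  (Adapted from Ell/XEl.lean.)
-/

open scoped InnerProductSpace BoundedContinuousFunction unitInterval

namespace Pool.Agent.Lib.Eln

open Pool.Agent.Lib.P81d4f5 (S3)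

theorem exists_X (P : Par) (θ : Bool) (K : ℕ) (g : II) (v₀ : Tr) {δ : ℝ} (hδ : 0 < δ)
    (γ : Tr) (N : Tr → ℕ) (hNγ : ∀ l, jx (N l) = γ ++ l)
    (h : ∀ l x, δ ≤ ‖(g.at' (P.tau (N l))).fn (P.xi (fun _ => θ) Ent.yy (N l) x) (eb v₀)‖) :
    ∃ (m : ℕ) (X : Fin m → BB), (∀ w, InN (X w)) ∧
      (∀ w x x', (∀ i, x (some (θ, i)) = x' (some (θ, i))) → (X w).fn x = (X w).fn x') ∧
      ∑ w, star (X w) * star (P.rho θ K g) * P.rho θ K g * X w = 1 := by
  classical
  have hN : Function.Injective N := fun l l' hl => by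
    have h1 := hNγ l
    rw [hl, hNγ l'] at h1
    exact (List.append_cancel_left h1).symm
  set v : Hb := eb v₀ with hv
  obtain ⟨ι, hι, A, hA0, hA⟩ := exists_words P (Par.frs θ K)
  let L : List Ent := Par.frs θ K
  let G : ℕ → XX → Op := fun n x =>
    (g.at' (P.tau n)).fn (P.xi (fun _ => θ) Ent.yy n x)
  have hGF : ∀ n, IsF (G n) := fun n =>
    (g.at' (P.tau n)).isF.pull (P.injSrc_xsrc (fun _ => θ) Ent.yy n) _
  have hWF : ∀ n, IsF fun x => P.Wd n L x * star (P.Wd n L x) := fun n =>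
    ⟨(P.scont_Wd n L).mul (P.scont_Wd n L).star, fun c z x => by
      rw [Par.Wd_rot, star_smul, smul_mul_smul_comm, circle_pow_mul_star, one_smul]⟩
  let e0 : Hb := eb []
  let E : Op := (innerSL ℂ e0).smulRight v
  have hE : E e0 = v := by
    change ⟪e0, e0⟫_ℂ • v = v
    rw [show ⟪e0, e0⟫_ℂ = 1 by rw [inner_eb_eb]; simp, one_smul]
  let sc : ℕ → XX → ℂ := fun n x => ((‖G n x v‖⁻¹ : ℝ) : ℂ)
  have hGδ : ∀ n ∈ Set.range N, ∀ x, δ ≤ ‖G n x v‖ := by
    rintro n ⟨l, rfl⟩ x
    exact h l x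
  have hscc : ∀ n ∈ Set.range N, Continuous (sc n) := fun n hn => by
    refine Complex.continuous_ofReal.comp ?_
    refine Continuous.inv₀ ((hGF n).sc.cont v).norm fun x => ?_
    exact (hδ.trans_le (hGδ n hn x)).ne'
  have hscb : ∀ n ∈ Set.range N, ∀ x, ‖sc n x‖ ≤ δ⁻¹ := fun n hn x => by
    have h1 := hGδ n hn x
    change ‖((‖G n x v‖⁻¹ : ℝ) : ℂ)‖ ≤ δ⁻¹
    rw [Complex.norm_real, Real.norm_of_nonneg (by positivity)]
    exact inv_anti₀ hδ h1
  let T : ι → ℕ → XX → Op := fun w n x =>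
    if n ∈ Set.range N then sc n x • (P.Wd n L x * star (P.Wd n L x) * (A w * E)) else 0
  have hTpos : ∀ w n, n ∈ Set.range N → T w n = fun x =>
      sc n x • (P.Wd n L x * star (P.Wd n L x) * (A w * E)) := fun w n hn => by
    funext x
    exact if_pos hn
  have hTneg : ∀ w n, n ∉ Set.range N → T w n = fun _ => 0 := fun w n hn => by
    funext x
    exact if_neg hn
  have hTF : ∀ w n, IsF (T w n) := fun w n => by
    by_cases hn : n ∈ Set.range N
    · rw [hTpos w n hn]
      refine ⟨((hWF n).sc.mul (SCont.const _)).smul (hscc n hn) ⟨_, hscb n hn⟩,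
        fun c z x => ?_⟩
      have h1 := (hWF n).inv c z x
      have h2 := (hGF n).inv c z x
      beta_reduce at h1 h2 ⊢
      rw [h1]
      change ((‖G n (rotAt c z x) v‖⁻¹ : ℝ) : ℂ) • _ = ((‖G n x v‖⁻¹ : ℝ) : ℂ) • _
      rw [h2]
    · rw [hTneg w n hn]
      exact IsF.const 0
  have hTb : ∀ w n x, ‖T w n x‖ ≤ δ⁻¹ * ‖A w * E‖ := fun w n x => by
    by_cases hn : n ∈ Set.range N
    · rw [hTpos w n hn]
      beta_reduce
      rw [norm_smul]
      refine mul_le_mul (hscb n hn x) ?_ (norm_nonneg _) (by positivity)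
      have h1 := P.norm_Wd_le n L x
      calc ‖P.Wd n L x * star (P.Wd n L x) * (A w * E)‖
          ≤ ‖P.Wd n L x * star (P.Wd n L x)‖ * ‖A w * E‖ := norm_mul_le _ _
        _ ≤ (‖P.Wd n L x‖ * ‖star (P.Wd n L x)‖) * ‖A w * E‖ := by
            gcongr; exact norm_mul_le _ _
        _ ≤ (1 * 1) * ‖A w * E‖ := by
            gcongr
            rw [norm_star]; exact h1
        _ = ‖A w * E‖ := by ring
    · rw [hTneg w n hn]
      simp only [norm_zero]
      positivity
  have hγi : Function.Injective fun l : Tr => γ ++ l := fun l l' hl => List.append_cancel_left hl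
  let R : Op := pm (fun l : Tr => γ ++ l) hγi
  have hR : ∀ l, R (eb l) = S' (N l) e0 := by
    intro l
    change pm _ _ (eb l) = S' (N l) (eb [])
    rw [pm_eb, S'_eb]
    congr 1
    change γ ++ l = dbl [] ++ jx (N l)
    rw [hNγ]
    rfl
  have hXF : ∀ w, IsF fun x => dsum' (fun n => T w n x) * R := fun w =>
    IsF.mul ⟨SCont.dsum' (fun n => (hTF w n).sc) ⟨_, fun n x => hTb w n x⟩, fun c z x => by
      congr 1; funext n; exact (hTF w n).inv c z x⟩ (IsF.const R)
  let X : ι → BB := fun w => BB.mk _ (hXF w)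
  have hXe : ∀ w x, (X w).fn x = dsum' (fun n => T w n x) * R := fun w x => rfl
  have hub : ∀ w x, UB fun n => T w n x := fun w x => ⟨_, fun n => hTb w n x⟩
  have hdep : ∀ w x x', (∀ i, x (some (θ, i)) = x' (some (θ, i))) →
      (X w).fn x = (X w).fn x' := by
    intro w x x' hx
    rw [hXe, hXe]
    congr 2
    funext n
    by_cases hn : n ∈ Set.range N
    · rw [hTpos w n hn]
      beta_reduce
      have h1 : P.Wd n L x = P.Wd n L x' := P.Wd_frs_congr hx n K
      have h2 : G n x = G n x' := by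
        change (g.at' (P.tau n)).fn _ = (g.at' (P.tau n)).fn _
        rw [P.xi_congr hx]
      rw [h1]
      change ((‖G n x v‖⁻¹ : ℝ) : ℂ) • _ = ((‖G n x' v‖⁻¹ : ℝ) : ℂ) • _
      rw [h2]
    · rw [hTneg w n hn]
  have hInN : ∀ w, InN (X w) := by
    intro w
    have hE0 : FP v₀.length E := FP.rankOne le_rfl (by simp)
    refine InN.of_FP (R := 2 * (L.length + L.length + (L.length + v₀.length)) + γ.length)
      fun x => ?_
    rw [hXe]
    refine FP.mul (FP.dsum' (hub w x) fun n => ?_) (FP.pm hγi fun l => ⟨γ, [], l, le_rfl,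
      by simp, rfl, rfl⟩)
    by_cases hn : n ∈ Set.range N
    · rw [hTpos w n hn]
      exact (((P.FP_Wd n L x).mul (P.FP_Wd n L x).star).mul ((hA0 w).mul hE0)).smul _
    · rw [hTneg w n hn]
      exact FP.zero _
  -- the values on basis vectors
  have hval : ∀ x l (c : ι → ℂ), (∀ w, star (P.Wd (N l) L x) * A w = c w • (1 : Op)) →
      ∀ w, (P.rho θ K g).fn x ((X w).fn x (eb l)) =
        S' (N l) ((sc (N l) x * c w) • P.Wd (N l) L x (G (N l) x v)) := by
    intro x l c hc w
    have hn : N l ∈ Set.range N := ⟨l, rfl⟩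
    have h1 : (X w).fn x (eb l) = S' (N l) (T w (N l) x e0) := by
      rw [hXe, mul_apply', hR]
      exact congrArg (fun B : Op => B e0) (dsum'_mul_S' (hub w x) (N l))
    have h2 : T w (N l) x e0 = (sc (N l) x * c w) • P.Wd (N l) L x v := by
      rw [hTpos w (N l) hn]
      beta_reduce
      have h3 : P.Wd (N l) L x * star (P.Wd (N l) L x) * (A w * E) =
          c w • (P.Wd (N l) L x * E) := by
        rw [mul_assoc, ← mul_assoc (star _), hc, smul_mul_assoc, one_mul, mul_smul_comm]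
      rw [h3, smul_smul]
      change (sc (N l) x * c w) • (P.Wd (N l) L x (E e0)) = _
      rw [hE]
    have h4 : ((P.rho θ K g).fn x) * S' (N l) =
        S' (N l) * P.cmp (fun _ => θ) Ent.yy L 1 (P.tau (N l)) (N l) g x := by
      rw [Par.rho, Par.fn_st']
      exact dsum'_mul_S' (P.ub_cmp (fun _ => θ) Ent.yy L (Par.norm_le_one_of (by simp))
        P.tau g x) (N l)
    rw [h1, h2, ← mul_apply', h4, mul_apply', Par.cmp, one_mul]
    congr 1
    rw [map_smul]
    congr 1
    change (P.Wd (N l) L x * G (N l) x * star (P.Wd (N l) L x)) (P.Wd (N l) L x v) = _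
    rw [← mul_apply', mul_assoc, P.star_Wd_mul, mul_one]
    rfl
  have hone : ∀ x, ∑ w, star ((X w).fn x) * star ((P.rho θ K g).fn x) *
      (P.rho θ K g).fn x * (X w).fn x = 1 := by
    intro x
    apply op_ext
    intro l
    apply vec_ext
    intro l'
    obtain ⟨c, hc, hc1⟩ := hA (N l) x
    obtain ⟨c', hc', hc1'⟩ := hA (N l') x
    rw [sum_apply, inner_sum]
    have h1 : ∀ w, ⟪eb l', (star ((X w).fn x) * star ((P.rho θ K g).fn x) *
        (P.rho θ K g).fn x * (X w).fn x) (eb l)⟫_ℂ =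
        ⟪(P.rho θ K g).fn x ((X w).fn x (eb l')), (P.rho θ K g).fn x ((X w).fn x (eb l))⟫_ℂ := by
      intro w
      rw [mul_apply', mul_apply', mul_apply', inner_star_right, inner_star_right]
    simp only [h1]
    change _ = ⟪eb l', eb l⟫_ℂ
    rw [inner_eb_eb]
    by_cases hl : l' = l
    · subst hl
      rw [if_pos rfl]
      have h2 : ∀ w, ⟪(P.rho θ K g).fn x ((X w).fn x (eb l')),
          (P.rho θ K g).fn x ((X w).fn x (eb l'))⟫_ℂ = ((‖c w‖ ^ 2 : ℝ) : ℂ) := by
        intro w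
        rw [hval x l' c hc w, inner_self_eq_norm_sq_to_K, norm_S', norm_smul,
          norm_of_star_mul_self (P.star_Wd_mul (N l') L x), norm_mul]
        have h3 : ‖sc (N l') x‖ = ‖G (N l') x v‖⁻¹ := by
          change ‖((‖G (N l') x v‖⁻¹ : ℝ) : ℂ)‖ = _
          rw [Complex.norm_real, Real.norm_of_nonneg (by positivity)]
        have h4 : ‖G (N l') x v‖ ≠ 0 := (hδ.trans_le (hGδ _ ⟨l', rfl⟩ x)).ne'
        rw [h3, show ‖G (N l') x v‖⁻¹ * ‖c w‖ * ‖G (N l') x v‖ = ‖c w‖ by
          field_simp]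
        norm_cast
      simp only [h2]
      rw [← Complex.ofReal_sum, hc1, Complex.ofReal_one]
    · rw [if_neg hl]
      refine Finset.sum_eq_zero fun w _ => ?_
      rw [hval x l c hc w, hval x l' c' hc' w, inner_S'_S', if_neg fun h' => hl (hN h')]
  -- conversion of the index set
  let eι : ι ≃ Fin (Fintype.card ι) := Fintype.equivFin ι
  refine ⟨Fintype.card ι, fun w => X (eι.symm w), fun w => hInN _,
    fun w x x' hx => hdep _ x x' hx, ?_⟩
  rw [Equiv.sum_comp eι.symm (fun w => star (X w) * star (P.rho θ K g) * P.rho θ K g * X w)]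
  ext x : 1
  rw [BB.fn_one, ← hone x]
  have h5 : ∀ F : ι → BB, (∑ w, F w).fn x = ∑ w, (F w).fn x := fun F =>
    map_sum (BB.evh x) F Finset.univ
  rw [h5]
  rfl

end Pool.Agent.Lib.Eln
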