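import Pool.Agent.Lib.Eln.States

set_option autoImplicit false

/-!
Good fields are mapped to good fields by the homomorphisms `st`, provided the word contains
sufficiently many fresh entries.
-/

open scoped InnerProductSpace BoundedContinuousFunction unitInterval

namespace Pool.Agent.Lib.Eln

open Pool.Agent.Lib.P81d4f5 (S3)

namespace Par

variable (P : Par)

/-- the word contains sufficiently many fresh entries -/
def Enough (L : List Ent) : Prop :=
  ∃ T : Finset ℕ, (∀ n, (P.F n).card ≤ T.card) ∧ ∀ j ∈ T, ∃ θ, Ent.fr j θ ∈ L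

variable {P}

theorem Enough.mono {L L' : List Ent} (h : P.Enough L) (h' : ∀ e ∈ L, e ∈ L') : P.Enough L' := by
  obtain ⟨T, h1, h2⟩ := h
  refine ⟨T, h1, fun j hj => ?_⟩
  obtain ⟨θ, hθ⟩ := h2 j hj
  exact ⟨θ, h' _ hθ⟩

theorem Enough.exists_fun {L : List Ent} (h : P.Enough L) (n : ℕ) :
    ∃ f : Bool × ℕ → ℕ × Bool, (∀ κ ∈ P.F n, Ent.fr (f κ).1 (f κ).2 ∈ L) ∧
      ∀ κ ∈ P.F n, ∀ κ' ∈ P.F n, (f κ).1 = (f κ').1 → κ = κ' := by
  classical
  obtain ⟨T, h1, h2⟩ := h
  choose! θ hθ using h2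
  have h3 : Fintype.card (P.F n) ≤ Fintype.card T := by simpa using h1 n
  obtain ⟨e⟩ := Function.Embedding.nonempty_of_card_le h3
  refine ⟨fun κ => if hκ : κ ∈ P.F n then ((e ⟨κ, hκ⟩ : ℕ), θ (e ⟨κ, hκ⟩)) else (0, false),
    fun κ hκ => ?_, fun κ hκ κ' hκ' he => ?_⟩
  · beta_reduce
    rw [dif_pos hκ]
    exact hθ _ (e ⟨κ, hκ⟩).2
  · beta_reduce at he
    rw [dif_pos hκ, dif_pos hκ'] at he
    have := e.injective (Subtype.ext he)
    exact congrArg Subtype.val this

variable (P)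

theorem good_st {th : Bool → Bool} {η : Ent} {L : List Ent} {U : Op} (hU : star U * U = 1)
    (τ : ℕ → I) (hL : P.Enough L) {h : II} (hh : ∀ t, GoodIn Set.univ (h.at' t).fn) :
    GoodIn {d | d.2 ∈ Set.range P.J} (P.st th η L U hU τ h).fn := by
  classical
  choose ι ℓ ω r hcont hW hinj _ hpos hdom using fun n => hh (τ n)
  choose f hf1 hf2 using hL.exists_fun
  have hscUW : ∀ n, SCont fun x => U * P.Wd n L x :=
    fun n => (SCont.const U).mul (P.scont_Wd n L)
  refine ⟨Σ n, ι n, fun p x => S p.1 ((U * P.Wd p.1 L x) (ℓ p.1 p.2 (P.xi th η p.1 x))),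
    fun p c => P.lw p.1 L c + pw (P.xsrc th η p.1) (ω p.1 p.2) c,
    fun p => if r p.1 p.2 ∈ P.F p.1 then
      ((f p.1 (r p.1 p.2)).2, P.J (p.1, Sum.inr (f p.1 (r p.1 p.2)).1))
      else (th (r p.1 p.2).1, P.J (p.1, Sum.inl (r p.1 p.2))), ?_, ?_, ?_, ?_, ?_, ?_⟩
  · rintro ⟨n, i⟩
    exact (S n).continuous.comp ((hscUW n).apply ((hcont n i).comp (continuous_pull _ _)))
  · rintro ⟨n, i⟩ c z x
    have h1 := (hW n i).pull (P.injSrc_xsrc th η n) (P.xcst η n) c z x
    beta_reduce at h1 ⊢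
    rw [xi, h1, Wd_rot, map_smul, map_smul, mul_smul_comm, smul_apply,
      map_smul, smul_smul, pow_add]
    congr 1
    ring
  · rintro ⟨n, i⟩ ⟨n', i'⟩ he
    beta_reduce at he
    have key : n = n' → r n i = r n i → (⟨n, i⟩ : Σ n, ι n) = ⟨n, i⟩ := fun _ _ => rfl
    by_cases h1 : r n i ∈ P.F n <;> by_cases h2 : r n' i' ∈ P.F n'
    · rw [if_pos h1, if_pos h2] at he
      have h3 := P.hJ (congrArg Prod.snd he)
      simp only [Prod.mk.injEq, Sum.inr.injEq] at h3
      obtain ⟨rfl, h4⟩ := h3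
      have h5 := hf2 n _ h1 _ h2 h4
      rw [hinj n h5]
    · rw [if_pos h1, if_neg h2] at he
      have h3 := P.hJ (congrArg Prod.snd he)
      simp at h3
    · rw [if_neg h1, if_pos h2] at he
      have h3 := P.hJ (congrArg Prod.snd he)
      simp at h3
    · rw [if_neg h1, if_neg h2] at he
      have h3 := P.hJ (congrArg Prod.snd he)
      simp only [Prod.mk.injEq, Sum.inl.injEq] at h3
      obtain ⟨rfl, h4⟩ := h3
      rw [hinj n h4]
  · rintro ⟨n, i⟩
    beta_reduce
    split_ifs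
    · exact ⟨_, rfl⟩
    · exact ⟨_, rfl⟩
  · rintro ⟨n, i⟩
    beta_reduce
    split_ifs with h1
    · exact (P.lw_pos n (hf1 n _ h1)).trans (Nat.le_add_right _ _)
    · have h2 : P.xsrc th η n (some (r n i)) =
          some (some (th (r n i).1, P.J (n, Sum.inl (r n i)))) := by
        simp only [xsrc, if_neg h1]
      have h3 := pw_of_some (P.injSrc_xsrc th η n) (ω n i) h2
      refine le_trans ?_ (Nat.le_add_left _ _)
      rw [h3]
      exact hpos n i
  · intro x v ε hε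
    have hs := hasSum_inner_dsum (P.ub_cmp th η L (norm_le_one_of hU) τ h x) v
    have hs2 := Complex.hasSum_re hs
    obtain ⟨N, hN⟩ : ∃ N : Finset ℕ, (⟪v, dsum (fun n => P.cmp th η L U (τ n) n h x) v⟫_ℂ).re -
        ε / 2 < ∑ n ∈ N, (⟪star (S n) v, P.cmp th η L U (τ n) n h x (star (S n) v)⟫_ℂ).re := by
      have h1 := hs2.eventually (lt_mem_nhds (show
        (⟪v, dsum (fun n => P.cmp th η L U (τ n) n h x) v⟫_ℂ).re - ε / 2 < _ by
          exact sub_lt_self _ (by positivity)))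
      exact h1.exists
    have hδ : 0 < ε / (2 * (N.card + 1)) := by positivity
    choose J hJ using fun n => hdom n (P.xi th η n x)
      (star (U * P.Wd n L x) (star (S n) v)) _ hδ
    refine ⟨N.sigma J, ?_⟩
    rw [Finset.sum_sigma, fn_st]
    have h2 : ∀ n, (⟪star (S n) v, P.cmp th η L U (τ n) n h x (star (S n) v)⟫_ℂ).re ≤
        ∑ i ∈ J n, ‖⟪S n ((U * P.Wd n L x) (ℓ n i (P.xi th η n x))), v⟫_ℂ‖ ^ 2 +
          ε / (2 * (N.card + 1)) := by
      intro n
      have h3 := hJ n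
      have h4 : ⟪star (S n) v, P.cmp th η L U (τ n) n h x (star (S n) v)⟫_ℂ =
          ⟪star (U * P.Wd n L x) (star (S n) v), (h.at' (τ n)).fn (P.xi th η n x)
            (star (U * P.Wd n L x) (star (S n) v))⟫_ℂ := by
        rw [inner_star_left (U * P.Wd n L x)]
        rfl
      rw [h4]
      refine h3.trans (le_of_eq ?_)
      congr 1
      refine Finset.sum_congr rfl fun i _ => ?_
      rw [inner_star_right, inner_star_right]
    have h5 : ∑ n ∈ N, (⟪star (S n) v, P.cmp th η L U (τ n) n h x (star (S n) v)⟫_ℂ).re ≤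
        ∑ n ∈ N, ∑ i ∈ J n, ‖⟪S n ((U * P.Wd n L x) (ℓ n i (P.xi th η n x))), v⟫_ℂ‖ ^ 2 +
          ε / 2 := by
      refine (Finset.sum_le_sum fun n _ => h2 n).trans ?_
      rw [Finset.sum_add_distrib, Finset.sum_const, nsmul_eq_mul]
      have h6 : (N.card : ℝ) * (ε / (2 * (N.card + 1))) ≤ ε / 2 := by
        rw [mul_div_assoc', div_le_div_iff₀ (by positivity) (by positivity)]
        nlinarith
      linarith
    linarith

end Par

end Pool.Agent.Lib.Eln
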