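import Mathlib

set_option autoImplicit false

/-!
The Hilbert space `Hb` over the vertices of the binary tree `Tr` (words in two letters), two
isometries `s j` of finite propagation which add up to one, the isometries `S' n`
(`w ↦ dbl w ++ jx n`, every vertex is of this form in a unique way) and
`S n = ∑ j, s j * S' n * (s j)^*`, so that `S n * s j = s j * S' n`, and infinite direct sums.
-/

open scoped InnerProductSpace

namespace Pool.Agent.Lib.Eln

/-- The vertices of the tree. -/
abbrev Tr : Type := List Bool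

/-- The Hilbert space. -/
abbrev Hb : Type := lp (fun _ : Tr => ℂ) 2

/-- Bounded operators. -/
abbrev Op : Type := Hb →L[ℂ] Hb

noncomputable instance : CStarAlgebra Op where

/-- the standard Hilbert basis -/
noncomputable def bas : HilbertBasis (Tr) ℂ Hb := ⟨LinearIsometryEquiv.refl ℂ Hb⟩

/-- basis vectors -/
noncomputable def eb (i : Tr) : Hb := bas i

theorem orthonormal_eb : Orthonormal ℂ eb := bas.orthonormal

theorem norm_eb (i : Tr) : ‖eb i‖ = 1 := orthonormal_eb.1 i

theorem inner_eb_eb (i j : Tr) : ⟪eb i, eb j⟫_ℂ = if i = j then 1 else 0 := by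
  classical
  exact orthonormal_iff_ite.1 orthonormal_eb i j

theorem eb_ne_zero (i : Tr) : eb i ≠ 0 := by
  intro h
  have := norm_eb i
  rw [h, norm_zero] at this
  exact zero_ne_one this

instance : Nontrivial Hb := ⟨⟨eb [], 0, eb_ne_zero _⟩⟩

theorem hasSum_eb (f : Hb) : HasSum (fun i => ⟪eb i, f⟫_ℂ • eb i) f := by
  have h := bas.hasSum_repr f
  simp only [bas.repr_apply_apply] at h
  exact h

theorem vec_ext {f g : Hb} (h : ∀ i, ⟪eb i, f⟫_ℂ = ⟪eb i, g⟫_ℂ) : f = g := by
  have h1 := hasSum_eb f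
  have h2 := hasSum_eb g
  simp only [h] at h1
  exact h1.unique h2

theorem op_ext {A B : Op} (h : ∀ i, A (eb i) = B (eb i)) : A = B := by
  ext1 f
  have h1 := (hasSum_eb f).mapL A
  have h2 := (hasSum_eb f).mapL B
  simp only [map_smul, h] at h1
  simp only [map_smul] at h2
  exact h1.unique h2

theorem inner_star_left (A : Op) (f g : Hb) : ⟪star A f, g⟫_ℂ = ⟪f, A g⟫_ℂ :=
  ContinuousLinearMap.adjoint_inner_left A g f

theorem inner_star_right (A : Op) (f g : Hb) : ⟪f, star A g⟫_ℂ = ⟪A f, g⟫_ℂ :=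
  ContinuousLinearMap.adjoint_inner_right A f g

theorem mul_apply' (A B : Op) (f : Hb) : (A * B) f = A (B f) := rfl

/-- the isometry with `eb i ↦ v i` -/
noncomputable def isoOf (v : Tr → Hb) (hv : Orthonormal ℂ v) : Op :=
  hv.orthogonalFamily.linearIsometry.toContinuousLinearMap

theorem isoOf_eb (v : Tr → Hb) (hv : Orthonormal ℂ v) (i : Tr) :
    isoOf v hv (eb i) = v i := by
  classical
  have h1 : eb i = lp.single 2 i (1 : ℂ) := by
    rw [eb, bas]
    exact (HilbertBasis.repr_symm_single (⟨LinearIsometryEquiv.refl ℂ Hb⟩ :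
      HilbertBasis (Tr) ℂ Hb) i).symm
  rw [h1]
  have := hv.orthogonalFamily.linearIsometry_apply_single (i := i) (1 : ℂ)
  simp [isoOf, this]

theorem norm_isoOf (v : Tr → Hb) (hv : Orthonormal ℂ v) (f : Hb) : ‖isoOf v hv f‖ = ‖f‖ :=
  hv.orthogonalFamily.linearIsometry.norm_map f

theorem star_mul_self_of_norm {A : Op} (h : ∀ f, ‖A f‖ = ‖f‖) : star A * A = 1 := by
  have h1 := (ContinuousLinearMap.norm_map_iff_adjoint_comp_self A).1 h
  exact h1

theorem norm_of_star_mul_self {A : Op} (h : star A * A = 1) (f : Hb) : ‖A f‖ = ‖f‖ :=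
  (ContinuousLinearMap.norm_map_iff_adjoint_comp_self A).2 h f

theorem star_isoOf_mul (v : Tr → Hb) (hv : Orthonormal ℂ v) :
    star (isoOf v hv) * isoOf v hv = 1 :=
  star_mul_self_of_norm (norm_isoOf v hv)

/-- the isometry permuting basis vectors along an injection -/
noncomputable def pm (f : Tr → Tr) (hf : Function.Injective f) : Op :=
  isoOf (fun i => eb (f i)) (orthonormal_eb.comp f hf)

theorem pm_eb (f : Tr → Tr) (hf : Function.Injective f) (i : Tr) :
    pm f hf (eb i) = eb (f i) := isoOf_eb _ _ i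

theorem star_pm_mul (f : Tr → Tr) (hf : Function.Injective f) :
    star (pm f hf) * pm f hf = 1 := star_isoOf_mul _ _

theorem star_pm_eb (f : Tr → Tr) (hf : Function.Injective f) (i : Tr) :
    star (pm f hf) (eb (f i)) = eb i := by
  rw [← pm_eb f hf i, ← mul_apply', star_pm_mul]; rfl

theorem star_pm_eb_of_notMem (f : Tr → Tr) (hf : Function.Injective f) {j : Tr}
    (hj : ∀ i, f i ≠ j) : star (pm f hf) (eb j) = 0 := by
  apply vec_ext
  intro i
  rw [inner_star_right, pm_eb, inner_eb_eb, if_neg (hj i), inner_zero_right]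

/-! ### the isometries `s j` -/

/-- words consisting of `false` only -/
def az (v : Tr) : Prop := ∀ b ∈ v, b = false

instance (v : Tr) : Decidable (az v) := inferInstanceAs (Decidable (∀ b ∈ v, b = false))

theorem az_nil : az [] := by intro b hb; simp at hb

theorem az_cons {b : Bool} {v : Tr} : az (b :: v) ↔ b = false ∧ az v := by
  simp [az]

/-- the injection behind `s j` -/
def sf (j : Fin 2) (v : Tr) : Tr := if j = 0 then (if az v then v else false :: v) else true :: v

theorem sf_zero_of {v : Tr} (h : az v) : sf 0 v = v := by simp [sf, h]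

theorem sf_zero_of_not {v : Tr} (h : ¬ az v) : sf 0 v = false :: v := by simp [sf, h]

theorem sf_one (v : Tr) : sf 1 v = true :: v := by simp [sf]

theorem sf_injective (j : Fin 2) : Function.Injective (sf j) := by
  intro v w h
  fin_cases j
  · change sf 0 v = sf 0 w at h
    by_cases hv : az v <;> by_cases hw : az w
    · rwa [sf_zero_of hv, sf_zero_of hw] at h
    · rw [sf_zero_of hv, sf_zero_of_not hw] at h
      rw [h, az_cons] at hv
      exact absurd hv.2 hw
    · rw [sf_zero_of_not hv, sf_zero_of hw] at h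
      rw [← h, az_cons] at hw
      exact absurd hw.2 hv
    · rw [sf_zero_of_not hv, sf_zero_of_not hw] at h
      exact (List.cons.inj h).2
  · change sf 1 v = sf 1 w at h
    rw [sf_one, sf_one] at h
    exact (List.cons.inj h).2

theorem sf_ne (v w : Tr) : sf 0 v ≠ sf 1 w := by
  intro h
  rw [sf_one] at h
  by_cases hv : az v
  · rw [sf_zero_of hv] at h
    rw [h, az_cons] at hv
    exact absurd hv.1 (by decide)
  · rw [sf_zero_of_not hv] at h
    exact absurd (List.cons.inj h).1 (by decide)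

theorem exists_sf (v : Tr) : ∃ j w, sf j w = v := by
  rcases v with _ | ⟨b, v⟩
  · exact ⟨0, [], sf_zero_of az_nil⟩
  · rcases b with _ | _
    · by_cases h : az v
      · exact ⟨0, false :: v, sf_zero_of (az_cons.2 ⟨rfl, h⟩)⟩
      · exact ⟨0, v, sf_zero_of_not h⟩
    · exact ⟨1, v, sf_one v⟩

/-- two isometries with orthogonal ranges which add up to one -/
noncomputable def s (j : Fin 2) : Op := pm (sf j) (sf_injective j)

theorem s_eb (j : Fin 2) (i : Tr) : s j (eb i) = eb (sf j i) := pm_eb _ _ i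

@[simp] theorem star_s_mul_self (j : Fin 2) : star (s j) * s j = 1 := star_pm_mul _ _

theorem sf_ne' {i j : Fin 2} (h : i ≠ j) (v w : Tr) : sf i v ≠ sf j w := by
  fin_cases i <;> fin_cases j
  · exact absurd rfl h
  · exact sf_ne v w
  · exact fun h' => sf_ne w v h'.symm
  · exact absurd rfl h

theorem star_s_mul_of_ne {i j : Fin 2} (h : i ≠ j) : star (s i) * s j = 0 := by
  apply op_ext
  intro k
  rw [mul_apply', s_eb, s, star_pm_eb_of_notMem]
  · rfl
  · intro l
    exact sf_ne' h l k

theorem star_s_mul (i j : Fin 2) : star (s i) * s j = if i = j then 1 else 0 := by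
  split_ifs with h
  · subst h; exact star_s_mul_self i
  · exact star_s_mul_of_ne h

theorem sum_s_mul_star : s 0 * star (s 0) + s 1 * star (s 1) = 1 := by
  apply op_ext
  intro v
  obtain ⟨j, w, rfl⟩ := exists_sf v
  have h1 : ∀ i, (s i * star (s i)) (eb (sf j w)) = if i = j then eb (sf j w) else 0 := by
    intro i
    rw [← s_eb j w, ← mul_apply', mul_assoc, star_s_mul]
    split_ifs with h
    · subst h; simp
    · simp
  change (s 0 * star (s 0)) _ + (s 1 * star (s 1)) _ = _
  rw [h1, h1]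
  fin_cases j <;> simp

theorem ext_s {A B : Op} (h : ∀ j, A * s j = B * s j) : A = B := by
  have h1 : A = A * (s 0 * star (s 0) + s 1 * star (s 1)) := by rw [sum_s_mul_star, mul_one]
  have h2 : B = B * (s 0 * star (s 0) + s 1 * star (s 1)) := by rw [sum_s_mul_star, mul_one]
  rw [h1, h2, mul_add, mul_add, ← mul_assoc, ← mul_assoc, ← mul_assoc, ← mul_assoc, h, h]

/-! ### the decomposition of the tree -/

/-- doubling the letters -/
def dbl : Tr → Tr
  | [] => []
  | a :: w => false :: a :: dbl w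

theorem dbl_append (v w : Tr) : dbl (v ++ w) = dbl v ++ dbl w := by
  induction v with
  | nil => rfl
  | cons a v ih => simp [dbl, ih]

theorem length_dbl (v : Tr) : (dbl v).length = 2 * v.length := by
  induction v with
  | nil => rfl
  | cons a v ih => simp [dbl, ih]; ring

/-- the words which do not begin with a doubled letter -/
def IsJ (j : Tr) : Prop := ∀ a w, j ≠ false :: a :: w

theorem isJ_true (w : Tr) : IsJ (true :: w) := by
  intro a w' h
  exact absurd (List.cons.inj h).1 (by decide)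

theorem isJ_nil : IsJ [] := by
  intro a w' h
  exact absurd h (by simp)

theorem isJ_false : IsJ [false] := by
  intro a w' h
  exact absurd (List.cons.inj h).2 (by simp)

theorem exists_dbl : ∀ v : Tr, ∃ w j, IsJ j ∧ v = dbl w ++ j
  | [] => ⟨[], [], isJ_nil, rfl⟩
  | true :: v => ⟨[], true :: v, isJ_true v, rfl⟩
  | [false] => ⟨[], [false], isJ_false, rfl⟩
  | false :: a :: v => by
    obtain ⟨w, j, hj, h⟩ := exists_dbl v
    exact ⟨a :: w, j, hj, by rw [h]; rfl⟩

theorem dbl_append_inj : ∀ {w w' j j' : Tr}, IsJ j → IsJ j' → dbl w ++ j = dbl w' ++ j' →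
    w = w' ∧ j = j'
  | [], [], j, j', _, _, h => ⟨rfl, h⟩
  | [], a :: w', j, j', hj, _, h => by
    exfalso
    exact hj a (dbl w' ++ j') h
  | a :: w, [], j, j', _, hj', h => by
    exfalso
    exact hj' a (dbl w ++ j) h.symm
  | a :: w, a' :: w', j, j', hj, hj', h => by
    have h1 : false :: a :: (dbl w ++ j) = false :: a' :: (dbl w' ++ j') := h
    simp only [List.cons.injEq, true_and] at h1
    obtain ⟨h2, h3⟩ := dbl_append_inj hj hj' h1.2
    exact ⟨by rw [h1.1, h2], h3⟩

instance : Infinite {j : Tr // IsJ j} :=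
  Infinite.of_injective (fun n : ℕ => (⟨true :: List.replicate n true, isJ_true _⟩ :
    {j : Tr // IsJ j})) (by
      intro n m h
      have h1 := congrArg (fun x : {j : Tr // IsJ j} => x.1.length) h
      simpa using h1)

/-- enumeration of the remainders -/
noncomputable def jeq : ℕ ≃ {j : Tr // IsJ j} :=
  (nonempty_equiv_of_countable (α := ℕ) (β := {j : Tr // IsJ j})).some

/-- the remainders -/
noncomputable def jx (n : ℕ) : Tr := (jeq n).1

theorem isJ_jx (n : ℕ) : IsJ (jx n) := (jeq n).2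

theorem jx_injective : Function.Injective jx := by
  intro n m h
  exact jeq.injective (Subtype.ext h)

theorem exists_jx {j : Tr} (hj : IsJ j) : ∃ n, jx n = j :=
  ⟨jeq.symm ⟨j, hj⟩, by rw [jx, Equiv.apply_symm_apply]⟩

/-- the injection behind `S' n` -/
noncomputable def Sf (n : ℕ) (w : Tr) : Tr := dbl w ++ jx n

theorem Sf_inj {n m : ℕ} {v w : Tr} (h : Sf n v = Sf m w) : n = m ∧ v = w := by
  obtain ⟨h1, h2⟩ := dbl_append_inj (isJ_jx n) (isJ_jx m) h
  exact ⟨jx_injective h2, h1⟩

theorem Sf_injective (n : ℕ) : Function.Injective (Sf n) := fun _ _ h => (Sf_inj h).2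

theorem exists_Sf (v : Tr) : ∃ n w, Sf n w = v := by
  obtain ⟨w, j, hj, h⟩ := exists_dbl v
  obtain ⟨n, rfl⟩ := exists_jx hj
  exact ⟨n, w, h.symm⟩

/-- infinitely many isometries with orthogonal ranges -/
noncomputable def S' (n : ℕ) : Op := pm (Sf n) (Sf_injective n)

theorem S'_eb (n : ℕ) (i : Tr) : S' n (eb i) = eb (Sf n i) := pm_eb _ _ i

theorem star_S'_mul_self (n : ℕ) : star (S' n) * S' n = 1 := star_pm_mul _ _

theorem star_S'_mul_of_ne {n m : ℕ} (h : n ≠ m) : star (S' n) * S' m = 0 := by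
  apply op_ext
  intro i
  rw [mul_apply', S'_eb]
  rw [S', star_pm_eb_of_notMem]
  · rfl
  · intro k hk
    exact h (Sf_inj hk).1

theorem star_S'_mul (n m : ℕ) : star (S' n) * S' m = if n = m then 1 else 0 := by
  split_ifs with h
  · subst h; exact star_S'_mul_self n
  · exact star_S'_mul_of_ne h

/-! ### families of isometries and infinite direct sums -/

/-- complete families of isometries with orthogonal ranges -/
structure Fam where
  /-- the isometries -/
  S : ℕ → Op
  /-- orthogonality -/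
  star_S_mul : ∀ n m, star (S n) * S m = if n = m then 1 else 0
  /-- completeness -/
  hasSum_S : ∀ f : Hb, HasSum (fun n => S n (star (S n) f)) f

/-- uniformly bounded families -/
def UB (T : ℕ → Op) : Prop := ∃ C, ∀ n, ‖T n‖ ≤ C

namespace Fam

variable (F : Fam)

theorem star_S_mul_self (n : ℕ) : star (F.S n) * F.S n = 1 := by rw [F.star_S_mul, if_pos rfl]

theorem star_S_mul_of_ne {n m : ℕ} (h : n ≠ m) : star (F.S n) * F.S m = 0 := by
  rw [F.star_S_mul, if_neg h]

theorem inner_S_S (n m : ℕ) (f g : Hb) :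
    ⟪F.S n f, F.S m g⟫_ℂ = if n = m then ⟪f, g⟫_ℂ else 0 := by
  rw [← inner_star_right, ← mul_apply', F.star_S_mul]
  split_ifs
  · rfl
  · change ⟪f, (0 : Hb)⟫_ℂ = 0
    rw [inner_zero_right]

theorem norm_S (n : ℕ) (f : Hb) : ‖F.S n f‖ = ‖f‖ :=
  norm_of_star_mul_self (F.star_S_mul_self n) f

/-- `S n` as a linear isometry -/
noncomputable def Siso (n : ℕ) : Hb →ₗᵢ[ℂ] Hb where
  toLinearMap := (F.S n).toLinearMap
  norm_map' := F.norm_S n

theorem Siso_apply (n : ℕ) (f : Hb) : F.Siso n f = F.S n f := rfl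

theorem orthogonalFamily_S : OrthogonalFamily ℂ (fun _ : ℕ => Hb) F.Siso := by
  intro n m hnm f g
  rw [Siso_apply, Siso_apply, inner_S_S, if_neg hnm]

theorem hasSum_norm_sq_S (f : Hb) : HasSum (fun n => ‖star (F.S n) f‖ ^ 2) (‖f‖ ^ 2) := by
  have h := (F.hasSum_S f).mapL (innerSL ℂ f)
  have h2 := Complex.hasSum_re h
  simp only [innerSL_apply_apply] at h2
  rw [inner_self_eq_norm_sq_to_K] at h2
  have h3 : (fun n => (⟪f, F.S n (star (F.S n) f)⟫_ℂ).re) = fun n => ‖star (F.S n) f‖ ^ 2 := by
    funext n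
    rw [← inner_star_left, inner_self_eq_norm_sq_to_K]
    norm_cast
  rw [h3] at h2
  convert h2 using 1
  norm_cast

theorem ext_S {A B : Op} (h : ∀ n, A * F.S n = B * F.S n) : A = B := by
  ext1 f
  have h1 := (F.hasSum_S f).mapL A
  have h2 := (F.hasSum_S f).mapL B
  have h3 : (fun n => A (F.S n (star (F.S n) f))) = fun n => B (F.S n (star (F.S n) f)) := by
    funext n
    exact congrArg (fun T : Op => T (star (F.S n) f)) (h n)
  rw [h3] at h1
  exact h1.unique h2

theorem summable_S {g : ℕ → Hb} (hg : Summable fun n => ‖g n‖ ^ 2) :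
    Summable fun n => F.S n (g n) := by
  have := (F.orthogonalFamily_S.summable_iff_norm_sq_summable g).2 hg
  exact this

theorem norm_sq_tsum_S {g : ℕ → Hb} (hg : Summable fun n => ‖g n‖ ^ 2) :
    ‖∑' n, F.S n (g n)‖ ^ 2 = ∑' n, ‖g n‖ ^ 2 := by
  set f := ∑' n, F.S n (g n) with hf
  have h1 : ∀ m, star (F.S m) f = g m := by
    intro m
    have h2 := (F.summable_S hg).hasSum.mapL (star (F.S m))
    have h3 : ∀ n, n ≠ m → star (F.S m) (F.S n (g n)) = 0 := by
      intro n hn
      rw [← mul_apply', F.star_S_mul_of_ne (Ne.symm hn)]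
      rfl
    have h4 := hasSum_single (f := fun n => star (F.S m) (F.S n (g n))) m h3
    rw [h2.unique h4, ← mul_apply', F.star_S_mul_self]
    rfl
  rw [← (F.hasSum_norm_sq_S f).tsum_eq]
  simp only [h1]

end Fam

theorem Fam.ub_summable (F : Fam) {T : ℕ → Op} (hT : UB T) (f : Hb) :
    Summable fun n => ‖T n (star (F.S n) f)‖ ^ 2 := by
  obtain ⟨C, hC⟩ := hT
  have hC0 : 0 ≤ C := (norm_nonneg _).trans (hC 0)
  refine Summable.of_nonneg_of_le (fun _ => sq_nonneg _) (fun n => ?_)
    ((F.hasSum_norm_sq_S f).summable.mul_left (C ^ 2))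
  rw [← mul_pow]
  exact pow_le_pow_left₀ (norm_nonneg _) ((T n).le_of_opNorm_le (hC n) _) 2

namespace Fam

variable (F : Fam)

open Classical in
/-- the direct sum `∑ S n (T n) (S n)^*` -/
noncomputable def dsum (T : ℕ → Op) : Op :=
  if h : UB T then
    LinearMap.mkContinuous
      { toFun := fun f => ∑' n, F.S n (T n (star (F.S n) f))
        map_add' := fun f g => by
          simp only [map_add]
          exact (F.summable_S (F.ub_summable h f)).tsum_add (F.summable_S (F.ub_summable h g))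
        map_smul' := fun c f => by
          simp only [map_smul, RingHom.id_apply]
          exact (F.summable_S (F.ub_summable h f)).tsum_const_smul c } h.choose (fun f => by
        have hC := h.choose_spec
        have hC0 : 0 ≤ h.choose := (norm_nonneg _).trans (hC 0)
        have h1 : ‖∑' n, F.S n (T n (star (F.S n) f))‖ ^ 2 ≤ (h.choose * ‖f‖) ^ 2 := by
          rw [F.norm_sq_tsum_S (F.ub_summable h f), mul_pow, ← (F.hasSum_norm_sq_S f).tsum_eq,
            ← tsum_mul_left]
          refine (F.ub_summable h f).tsum_le_tsum (fun n => ?_)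
            ((F.hasSum_norm_sq_S f).summable.mul_left _)
          rw [← mul_pow]
          exact pow_le_pow_left₀ (norm_nonneg _) ((T n).le_of_opNorm_le (hC n) _) 2
        exact (abs_le_of_sq_le_sq' h1 (by positivity)).2)
  else 0

theorem dsum_apply {T : ℕ → Op} (h : UB T) (f : Hb) :
    F.dsum T f = ∑' n, F.S n (T n (star (F.S n) f)) := by
  rw [dsum, dif_pos h]; rfl

theorem hasSum_dsum {T : ℕ → Op} (h : UB T) (f : Hb) :
    HasSum (fun n => F.S n (T n (star (F.S n) f))) (F.dsum T f) := by
  rw [F.dsum_apply h]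
  exact (F.summable_S (F.ub_summable h f)).hasSum

theorem dsum_mul_S {T : ℕ → Op} (h : UB T) (n : ℕ) : F.dsum T * F.S n = F.S n * T n := by
  ext1 f
  have h1 := F.hasSum_dsum h (F.S n f)
  have h3 : ∀ m, m ≠ n → F.S m (T m (star (F.S m) (F.S n f))) = 0 := by
    intro m hm
    rw [← mul_apply' (star (F.S m)), F.star_S_mul_of_ne hm]
    simp
  have h4 := hasSum_single (f := fun m => F.S m (T m (star (F.S m) (F.S n f)))) n h3
  rw [mul_apply', h1.unique h4, ← mul_apply' (star (F.S n)), F.star_S_mul_self]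
  rfl

theorem norm_dsum_le {T : ℕ → Op} {C : ℝ} (hC0 : 0 ≤ C) (hC : ∀ n, ‖T n‖ ≤ C) :
    ‖F.dsum T‖ ≤ C := by
  have h : UB T := ⟨C, hC⟩
  apply ContinuousLinearMap.opNorm_le_bound _ hC0
  intro f
  rw [F.dsum_apply h]
  have h1 : ‖∑' n, F.S n (T n (star (F.S n) f))‖ ^ 2 ≤ (C * ‖f‖) ^ 2 := by
    rw [F.norm_sq_tsum_S (F.ub_summable h f), mul_pow, ← (F.hasSum_norm_sq_S f).tsum_eq,
      ← tsum_mul_left]
    refine (F.ub_summable h f).tsum_le_tsum (fun n => ?_)
      ((F.hasSum_norm_sq_S f).summable.mul_left _)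
    rw [← mul_pow]
    exact pow_le_pow_left₀ (norm_nonneg _) ((T n).le_of_opNorm_le (hC n) _) 2
  exact (abs_le_of_sq_le_sq' h1 (by positivity)).2

end Fam

theorem UB.star {T : ℕ → Op} (h : UB T) : UB fun n => star (T n) := by
  obtain ⟨C, hC⟩ := h
  exact ⟨C, fun n => by rw [norm_star]; exact hC n⟩

theorem UB.mul {T T' : ℕ → Op} (h : UB T) (h' : UB T') : UB fun n => T n * T' n := by
  obtain ⟨C, hC⟩ := h
  obtain ⟨C', hC'⟩ := h'
  exact ⟨C * C', fun n => (norm_mul_le _ _).trans
    (mul_le_mul (hC n) (hC' n) (norm_nonneg _) ((norm_nonneg _).trans (hC n)))⟩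

theorem UB.add {T T' : ℕ → Op} (h : UB T) (h' : UB T') : UB fun n => T n + T' n := by
  obtain ⟨C, hC⟩ := h
  obtain ⟨C', hC'⟩ := h'
  exact ⟨C + C', fun n => (norm_add_le _ _).trans (add_le_add (hC n) (hC' n))⟩

theorem UB.sub {T T' : ℕ → Op} (h : UB T) (h' : UB T') : UB fun n => T n - T' n := by
  obtain ⟨C, hC⟩ := h
  obtain ⟨C', hC'⟩ := h'
  exact ⟨C + C', fun n => (norm_sub_le _ _).trans (add_le_add (hC n) (hC' n))⟩

theorem UB.smul {T : ℕ → Op} (h : UB T) (c : ℂ) : UB fun n => c • T n := by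
  obtain ⟨C, hC⟩ := h
  exact ⟨‖c‖ * C, fun n => by rw [norm_smul]; gcongr; exact hC n⟩

theorem UB.const (A : Op) : UB fun _ => A := ⟨‖A‖, fun _ => le_rfl⟩


namespace Fam

variable (F : Fam)

theorem dsum_mul {T T' : ℕ → Op} (h : UB T) (h' : UB T') :
    F.dsum T * F.dsum T' = F.dsum fun n => T n * T' n := by
  apply F.ext_S
  intro n
  rw [mul_assoc, F.dsum_mul_S h', ← mul_assoc, F.dsum_mul_S h, F.dsum_mul_S (h.mul h'), mul_assoc]

theorem dsum_add {T T' : ℕ → Op} (h : UB T) (h' : UB T') :
    F.dsum T + F.dsum T' = F.dsum fun n => T n + T' n := by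
  apply F.ext_S
  intro n
  rw [add_mul, F.dsum_mul_S h', F.dsum_mul_S h, F.dsum_mul_S (h.add h'), mul_add]

theorem dsum_sub {T T' : ℕ → Op} (h : UB T) (h' : UB T') :
    F.dsum T - F.dsum T' = F.dsum fun n => T n - T' n := by
  apply F.ext_S
  intro n
  rw [sub_mul, F.dsum_mul_S h', F.dsum_mul_S h, F.dsum_mul_S (h.sub h'), mul_sub]

theorem dsum_smul {T : ℕ → Op} (h : UB T) (c : ℂ) :
    c • F.dsum T = F.dsum fun n => c • T n := by
  apply F.ext_S
  intro n
  rw [smul_mul_assoc, F.dsum_mul_S h, F.dsum_mul_S (h.smul c), mul_smul_comm]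

theorem dsum_one : (F.dsum fun _ => 1) = 1 := by
  apply F.ext_S
  intro n
  rw [F.dsum_mul_S (UB.const 1)]
  simp

theorem dsum_zero : (F.dsum fun _ => 0) = 0 := by
  apply F.ext_S
  intro n
  rw [F.dsum_mul_S (UB.const 0)]
  simp

theorem dsum_star {T : ℕ → Op} (h : UB T) : star (F.dsum T) = F.dsum fun n => star (T n) := by
  apply F.ext_S
  intro n
  rw [F.dsum_mul_S h.star]
  -- compare after multiplying by `star (F.S m)` on the left
  have h1 : ∀ m, star (F.S m) * (star (F.dsum T) * F.S n) = star (F.S m) * (F.S n * star (T n)) := by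
    intro m
    rw [← mul_assoc, ← star_mul, F.dsum_mul_S h, star_mul, mul_assoc, F.star_S_mul, ← mul_assoc,
      F.star_S_mul]
    split_ifs with hmn
    · subst hmn; simp
    · simp
  have h2 : star (star (F.dsum T) * F.S n) = star (F.S n * star (T n)) := by
    apply F.ext_S
    intro m
    have := congrArg star (h1 m)
    rw [star_mul, star_star, star_mul _ (F.S n * star (T n)), star_star] at this
    exact this
  exact star_injective h2

theorem star_S_mul_dsum {T : ℕ → Op} (h : UB T) (n : ℕ) :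
    star (F.S n) * F.dsum T = T n * star (F.S n) := by
  have h1 := congrArg star (F.dsum_mul_S h.star n)
  rw [star_mul, star_mul, ← F.dsum_star h, star_star, star_star] at h1
  exact h1

theorem dsum_injective {T T' : ℕ → Op} (h : UB T) (h' : UB T') (he : F.dsum T = F.dsum T') (n : ℕ) :
    T n = T' n := by
  have h1 := congrArg (fun A => star (F.S n) * (A * F.S n)) he
  simp only [F.dsum_mul_S h, F.dsum_mul_S h', ← mul_assoc, F.star_S_mul_self, one_mul] at h1
  exact h1

/-- the quadratic form of a direct sum -/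
theorem hasSum_inner_dsum {T : ℕ → Op} (h : UB T) (f : Hb) :
    HasSum (fun n => ⟪star (F.S n) f, T n (star (F.S n) f)⟫_ℂ) ⟪f, F.dsum T f⟫_ℂ := by
  have h1 := (F.hasSum_dsum h f).mapL (innerSL ℂ f)
  simp only [innerSL_apply_apply] at h1
  have h3 : (fun n => ⟪f, F.S n (T n (star (F.S n) f))⟫_ℂ) =
      fun n => ⟪star (F.S n) f, T n (star (F.S n) f)⟫_ℂ := by
    funext n
    rw [inner_star_left]
  rw [h3] at h1
  exact h1

end Fam

/-! ### the two families -/

/-- the family `S'` -/
noncomputable def famA : Fam where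
  S := S'
  star_S_mul := star_S'_mul
  hasSum_S := by
    let Siso : ℕ → Hb →ₗᵢ[ℂ] Hb := fun n =>
      { toLinearMap := (S' n).toLinearMap
        norm_map' := norm_of_star_mul_self (star_S'_mul_self n) }
    have hS : ∀ n f, Siso n f = S' n f := fun _ _ => rfl
    have horth : OrthogonalFamily ℂ (fun _ : ℕ => Hb) Siso := by
      intro n m hnm f g
      rw [hS, hS, ← inner_star_right, ← mul_apply', star_S'_mul, if_neg hnm]
      change ⟪f, (0 : Hb)⟫_ℂ = 0
      rw [inner_zero_right]
    have hsum : IsHilbertSum ℂ (fun _ : ℕ => Hb) Siso := by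
      apply IsHilbertSum.mk (𝕜 := ℂ) horth
      rw [← bas.dense_span]
      apply Submodule.topologicalClosure_mono
      rw [Submodule.span_le]
      rintro _ ⟨v, rfl⟩
      obtain ⟨n, w, rfl⟩ := exists_Sf v
      apply Submodule.mem_iSup_of_mem n
      exact ⟨eb w, S'_eb n w⟩
    intro f
    let U := hsum.linearIsometryEquiv
    have hUs : ∀ n g, U.symm (lp.single 2 n g) = S' n g := fun n g => by
      classical
      exact IsHilbertSum.linearIsometryEquiv_symm_apply_single hsum (i := n) g
    have hU : ∀ n g, U (S' n g) = lp.single 2 n g := fun n g => by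
      rw [← hUs, LinearIsometryEquiv.apply_symm_apply]
    have hUa : ∀ n, (U f : ∀ _ : ℕ, Hb) n = star (S' n) f := fun n => by
      classical
      apply ext_inner_left ℂ
      intro g
      have h1 : ⟪g, star (S' n) f⟫_ℂ = ⟪U (S' n g), U f⟫_ℂ := by
        rw [inner_star_right, LinearIsometryEquiv.inner_map_map]
      rw [h1, hU, lp.inner_single_left]
    have h := hsum.hasSum_linearIsometryEquiv_symm (U f)
    have h2 : hsum.linearIsometryEquiv.symm (U f) = f := by
      change U.symm (U f) = f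
      simp
    rw [h2] at h
    have h3 : (fun n => S' n (star (S' n) f)) = fun n => Siso n ((U f : ∀ _ : ℕ, Hb) n) := by
      funext n
      rw [hUa]
      rfl
    rw [h3]
    exact h

/-- the isometries with `S n * s j = s j * S' n` -/
noncomputable def S (n : ℕ) : Op := s 0 * S' n * star (s 0) + s 1 * S' n * star (s 1)

theorem S_mul_s (n : ℕ) (j : Fin 2) : S n * s j = s j * S' n := by
  rw [S, add_mul, mul_assoc _ (star (s 0)), mul_assoc _ (star (s 1)), star_s_mul, star_s_mul]
  fin_cases j <;> simp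

theorem star_s_mul_S (n : ℕ) (j : Fin 2) : star (s j) * S n = S' n * star (s j) := by
  rw [S, mul_add, mul_assoc, mul_assoc, ← mul_assoc (star (s j)), ← mul_assoc (star (s j)),
    star_s_mul, star_s_mul]
  fin_cases j <;> simp

theorem star_S_mul_s (n : ℕ) (j : Fin 2) : star (S n) * s j = s j * star (S' n) := by
  have := congrArg star (star_s_mul_S n j)
  simpa using this

theorem star_S_mul (n m : ℕ) : star (S n) * S m = if n = m then 1 else 0 := by
  apply ext_s
  intro j
  rw [mul_assoc, S_mul_s, ← mul_assoc, star_S_mul_s, mul_assoc, star_S'_mul]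
  split_ifs <;> simp

/-- the family `S` -/
noncomputable def famB : Fam where
  S := S
  star_S_mul := star_S_mul
  hasSum_S := by
    intro f
    have h0 := (famA.hasSum_S (star (s 0) f)).mapL (s 0)
    have h1 := (famA.hasSum_S (star (s 1) f)).mapL (s 1)
    have h2 := h0.add h1
    have h3 : s 0 (star (s 0) f) + s 1 (star (s 1) f) = f := by
      have := congrArg (fun T : Op => T f) sum_s_mul_star
      exact this
    rw [h3] at h2
    have h4 : (fun n => S n (star (S n) f)) = fun n =>
        s 0 (famA.S n (star (famA.S n) (star (s 0) f))) +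
          s 1 (famA.S n (star (famA.S n) (star (s 1) f))) := by
      funext n
      have h5 : S n * star (S n) = s 0 * (S' n * (star (S' n) * star (s 0))) +
          s 1 * (S' n * (star (S' n) * star (s 1))) := by
        have h6 : star (S n) = s 0 * star (S' n) * star (s 0) + s 1 * star (S' n) * star (s 1) := by
          simp [S, mul_assoc]
        rw [h6, mul_add, ← mul_assoc, ← mul_assoc, ← mul_assoc, ← mul_assoc, S_mul_s, S_mul_s]
        simp only [mul_assoc]
      exact congrArg (fun T : Op => T f) h5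
    rw [h4]
    exact h2

@[simp] theorem star_S_mul_self (n : ℕ) : star (S n) * S n = 1 := famB.star_S_mul_self n

theorem star_S_mul_of_ne {n m : ℕ} (h : n ≠ m) : star (S n) * S m = 0 := famB.star_S_mul_of_ne h

theorem inner_S_S (n m : ℕ) (f g : Hb) :
    ⟪S n f, S m g⟫_ℂ = if n = m then ⟪f, g⟫_ℂ else 0 := famB.inner_S_S n m f g

theorem norm_S (n : ℕ) (f : Hb) : ‖S n f‖ = ‖f‖ := famB.norm_S n f

theorem hasSum_S (f : Hb) : HasSum (fun n => S n (star (S n) f)) f := famB.hasSum_S f

theorem ext_S {A B : Op} (h : ∀ n, A * S n = B * S n) : A = B := famB.ext_S h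

/-- the direct sum along the family `S` -/
noncomputable def dsum (T : ℕ → Op) : Op := famB.dsum T

/-- the direct sum along the family `S'` -/
noncomputable def dsum' (T : ℕ → Op) : Op := famA.dsum T

theorem hasSum_dsum {T : ℕ → Op} (h : UB T) (f : Hb) :
    HasSum (fun n => S n (T n (star (S n) f))) (dsum T f) := famB.hasSum_dsum h f

theorem dsum_mul_S {T : ℕ → Op} (h : UB T) (n : ℕ) : dsum T * S n = S n * T n :=
  famB.dsum_mul_S h n

theorem norm_dsum_le {T : ℕ → Op} {C : ℝ} (hC0 : 0 ≤ C) (hC : ∀ n, ‖T n‖ ≤ C) :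
    ‖dsum T‖ ≤ C := famB.norm_dsum_le hC0 hC

theorem dsum_mul {T T' : ℕ → Op} (h : UB T) (h' : UB T') :
    dsum T * dsum T' = dsum fun n => T n * T' n := famB.dsum_mul h h'

theorem dsum_add {T T' : ℕ → Op} (h : UB T) (h' : UB T') :
    dsum T + dsum T' = dsum fun n => T n + T' n := famB.dsum_add h h'

theorem dsum_sub {T T' : ℕ → Op} (h : UB T) (h' : UB T') :
    dsum T - dsum T' = dsum fun n => T n - T' n := famB.dsum_sub h h'

theorem dsum_smul {T : ℕ → Op} (h : UB T) (c : ℂ) :
    c • dsum T = dsum fun n => c • T n := famB.dsum_smul h c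

theorem dsum_one : (dsum fun _ => 1) = 1 := famB.dsum_one

theorem dsum_zero : (dsum fun _ => 0) = 0 := famB.dsum_zero

theorem dsum_star {T : ℕ → Op} (h : UB T) : star (dsum T) = dsum fun n => star (T n) :=
  famB.dsum_star h

theorem star_S_mul_dsum {T : ℕ → Op} (h : UB T) (n : ℕ) :
    star (S n) * dsum T = T n * star (S n) := famB.star_S_mul_dsum h n

theorem dsum_injective {T T' : ℕ → Op} (h : UB T) (h' : UB T') (he : dsum T = dsum T') (n : ℕ) :
    T n = T' n := famB.dsum_injective h h' he n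

theorem hasSum_inner_dsum {T : ℕ → Op} (h : UB T) (f : Hb) :
    HasSum (fun n => ⟪star (S n) f, T n (star (S n) f)⟫_ℂ) ⟪f, dsum T f⟫_ℂ :=
  famB.hasSum_inner_dsum h f

/-! the same for the family `S'` -/

theorem inner_S'_S' (n m : ℕ) (f g : Hb) :
    ⟪S' n f, S' m g⟫_ℂ = if n = m then ⟪f, g⟫_ℂ else 0 := famA.inner_S_S n m f g

theorem norm_S' (n : ℕ) (f : Hb) : ‖S' n f‖ = ‖f‖ := famA.norm_S n f

theorem hasSum_S' (f : Hb) : HasSum (fun n => S' n (star (S' n) f)) f := famA.hasSum_S f

theorem ext_S' {A B : Op} (h : ∀ n, A * S' n = B * S' n) : A = B := famA.ext_S h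

theorem dsum'_mul_S' {T : ℕ → Op} (h : UB T) (n : ℕ) : dsum' T * S' n = S' n * T n :=
  famA.dsum_mul_S h n

theorem norm_dsum'_le {T : ℕ → Op} {C : ℝ} (hC0 : 0 ≤ C) (hC : ∀ n, ‖T n‖ ≤ C) :
    ‖dsum' T‖ ≤ C := famA.norm_dsum_le hC0 hC

theorem dsum'_mul {T T' : ℕ → Op} (h : UB T) (h' : UB T') :
    dsum' T * dsum' T' = dsum' fun n => T n * T' n := famA.dsum_mul h h'

theorem dsum'_add {T T' : ℕ → Op} (h : UB T) (h' : UB T') :
    dsum' T + dsum' T' = dsum' fun n => T n + T' n := famA.dsum_add h h'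

theorem dsum'_sub {T T' : ℕ → Op} (h : UB T) (h' : UB T') :
    dsum' T - dsum' T' = dsum' fun n => T n - T' n := famA.dsum_sub h h'

theorem dsum'_smul {T : ℕ → Op} (h : UB T) (c : ℂ) :
    c • dsum' T = dsum' fun n => c • T n := famA.dsum_smul h c

theorem dsum'_zero : (dsum' fun _ => 0) = 0 := famA.dsum_zero

theorem dsum'_one : (dsum' fun _ => 1) = 1 := famA.dsum_one

theorem dsum'_star {T : ℕ → Op} (h : UB T) : star (dsum' T) = dsum' fun n => star (T n) :=
  famA.dsum_star h

theorem star_S'_mul_dsum' {T : ℕ → Op} (h : UB T) (n : ℕ) :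
    star (S' n) * dsum' T = T n * star (S' n) := famA.star_S_mul_dsum h n

theorem hasSum_inner_dsum' {T : ℕ → Op} (h : UB T) (f : Hb) :
    HasSum (fun n => ⟪star (S' n) f, T n (star (S' n) f)⟫_ℂ) ⟪f, dsum' T f⟫_ℂ :=
  famA.hasSum_inner_dsum h f

end Pool.Agent.Lib.Eln
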