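import Pool.Agent.Lib.Eln.Forms
import Pool.Agent.Lib.Eln.Words
import Pool.Agent.Lib.Eln.Frame

set_option autoImplicit false

/-!
MODULE Eln.XP (uses Frame (black box `exists_frame`), Words (`exists_words`), Forms and what they
import).

For a non-zero projection p of the nuclear block there are elements X_i of BB, limits of fields of
finite propagation, with X_i^* rho(p) X_j = δ_ij.  (The proof is similar to `exists_X` in
Pool/Agent/Lib/Ell/XEl.lean (older version of this project, with Hilbert basis indexed by ℕ × ℕ),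
from which large parts can be copied.)

PROOF.  L := Par.frs θ K, W_n(x) := P.Wd n L x, ξ_n(x) := P.xi (fun _ => θ) Ent.yy n x, τ_n := P.tau n,
G_n(x) := (p.val.at' τ_n).fn (ξ_n x) a projection.  (ι, A, hFP, hA) from `exists_words P L`.
Take frames F : Fin m × ι → I × XX → Hb from `exists_frame` (reindex Fin (m * card ι)).
* e₀ := eb [], for a vector v let E_v := the rank one operator h ↦ ⟪e₀, h⟫ • v, i.e.
  (innerSL ℂ e₀).smulRight v.
* T_i n x := ∑_w W_n(x) * star (W_n(x)) * (A w * E_(F (i,w) (τ_n, ξ_n x))).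
  SCont (W W* is SCont, E_v depends norm continuously on v), uniformly bounded, rotation
  invariant (`Wd_rot` for W W*: phases cancel; ξ_n(rotAt c z x) is ξ_n x or a rotation of it: cf. the proof
  of `IsF.pull` in Pull.lean and `injSrc_xsrc`, and F is invariant).
* R := pm (fun v => true :: v) _ : R (eb v) = eb (true :: v) = S' (N v) e₀ where N v is the index with
  jx (N v) = true :: v (`exists_jx (isJ_true v)`; S'_eb, Sf n [] = dbl [] ++ jx n = jx n).  R is FP 1 (`FP.pm`).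
* X_i := BB.mk (fun x => dsum' (fun n => T_i n x) * R) (SCont.dsum', `IsF.mul`, IsF.const).
  Dependence only on the coordinates some (θ, i): Wd_frs_congr, xi_congr.
* Algebra: (rho p).fn x = dsum' (fun n => W_n * G_n * star W_n) (fn_st', cmp with U = 1), so by dsum'_star, dsum'_mul
  star X_i * rho p * X_j = star R * dsum' (fun n => star (T_i n) * (W_n G_n W_n^*) * T_j n) * R, and
  star (T_i n) * W_n G_n W_n^* * T_j n = δ_ij E₀, where E₀ = E_(e₀) the projection on e₀: star W_n * T_i n =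
  ∑_w c_w • E_(F (i,w)) (W* W = 1, W* A w = c_w • 1), G_n F = F, orthonormality of the frame and
  ∑_w |c_w|² = 1.  Finally star R * dsum' (fun _ => E₀) * R = 1: on eb v: dsum' (E₀) S'_(N v) e₀ = S'_(N v) E₀ e₀ =
  S'_(N v) e₀ = R eb v (`dsum'_mul_S'`), and star R * R = 1.
* InN (X_i): given ε > 0.  The set C = ⋃_{i,w} range (F (i, w)) is compact (I × XX is compact), so there is M such that
  ‖v - Q_M v‖ ≤ ε' for all v ∈ C, where Q_M v = ∑_{|u| ≤ M} ⟪eb u, v⟫ • eb u (finite sum; Q_M v → v for each v by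
  `hasSum_eb`, Q_M contractive, hence uniformly on compact sets: finite ε'/3-net; or a Dini/equicontinuity
  argument).  Let X_i' be defined as X_i with Q_M F instead of F.  X_i' ∈ BB, it has FP: E_v for v in the span of the
  eb u with |u| ≤ M is FP M (`FP.rankOne`, e₀ = eb []), W_n: `FP_Wd`, A w: FP, dsum': `FP.dsum'`, R: FP 1.
  ‖X_i - X_i'‖ ≤ card ι * max_w ‖A w‖ * ε' ≤ ε (norm_dsum'_le, dsum'_sub).
-/

open scoped InnerProductSpace BoundedContinuousFunction unitInterval

namespace Pool.Agent.Lib.Eln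

open Pool.Agent.Lib.P81d4f5 (S3)

namespace XPAux

/-! ### rank one operators and truncations -/

/-- the rank one operator `h ↦ ⟪e₀, h⟫ v` -/
noncomputable def EE (v : Hb) : Op := (innerSL ℂ (eb [])).smulRight v

theorem EE_apply (v h : Hb) : EE v h = ⟪eb [], h⟫_ℂ • v := rfl

theorem EE_e0 (v : Hb) : EE v (eb []) = v := by
  rw [EE_apply, inner_eb_eb, if_pos rfl, one_smul]

theorem norm_EE_le (v : Hb) : ‖EE v‖ ≤ ‖v‖ := by
  refine ContinuousLinearMap.opNorm_le_bound _ (norm_nonneg v) fun h => ?_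
  rw [EE_apply, norm_smul, mul_comm]
  have := norm_inner_le_norm (𝕜 := ℂ) (eb ([] : Tr)) h
  rw [norm_eb, one_mul] at this
  exact mul_le_mul_of_nonneg_left this (norm_nonneg v)

theorem EE_sub (v w : Hb) : EE (v - w) = EE v - EE w := by
  ext1 h
  change ⟪eb [], h⟫_ℂ • (v - w) = ⟪eb [], h⟫_ℂ • v - ⟪eb [], h⟫_ℂ • w
  rw [smul_sub]

theorem continuous_EE : Continuous EE := by
  have h : LipschitzWith 1 EE := LipschitzWith.of_dist_le_mul fun v w => by
    rw [NNReal.coe_one, one_mul, dist_eq_norm, dist_eq_norm, ← EE_sub]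
    exact norm_EE_le _
  exact h.continuous

/-- truncation -/
noncomputable def tru (S : Finset Tr) : Op := ∑ u ∈ S, (innerSL ℂ (eb u)).smulRight (eb u)

theorem tru_apply (S : Finset Tr) (v : Hb) : tru S v = ∑ u ∈ S, ⟪eb u, v⟫_ℂ • eb u := by
  rw [tru, sum_apply]
  rfl

theorem inner_eb_tru (S : Finset Tr) (v : Hb) {u : Tr} (hu : u ∈ S) :
    ⟪eb u, tru S v⟫_ℂ = ⟪eb u, v⟫_ℂ := by
  rw [tru_apply, inner_sum, Finset.sum_eq_single u]
  · rw [inner_smul_right, inner_eb_eb, if_pos rfl, mul_one]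
  · intro w _ hw
    rw [inner_smul_right, inner_eb_eb, if_neg (Ne.symm hw), mul_zero]
  · intro h
    exact absurd hu h

theorem norm_tru_le (S : Finset Tr) (v : Hb) : ‖tru S v‖ ≤ ‖v‖ := by
  have h1 : ⟪tru S v, tru S v⟫_ℂ = ⟪tru S v, v⟫_ℂ := by
    nth_rw 1 [tru_apply]
    nth_rw 2 [tru_apply]
    rw [sum_inner, sum_inner]
    refine Finset.sum_congr rfl fun u hu => ?_
    rw [inner_smul_left, inner_smul_left, inner_eb_tru S v hu]
  have h2 : ‖tru S v‖ ^ 2 ≤ ‖tru S v‖ * ‖v‖ := by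
    have h3 : ‖⟪tru S v, tru S v⟫_ℂ‖ ≤ ‖tru S v‖ * ‖v‖ := by
      rw [h1]
      exact norm_inner_le_norm _ _
    rw [inner_self_eq_norm_sq_to_K] at h3
    simpa using h3
  by_contra hcon
  push Not at hcon
  have h4 : 0 < ‖tru S v‖ := (norm_nonneg v).trans_lt hcon
  nlinarith

theorem tendsto_tru (v : Hb) : Filter.Tendsto (fun S => tru S v) Filter.atTop (nhds v) := by
  have h : (fun S => tru S v) = fun S : Finset Tr => ∑ u ∈ S, ⟪eb u, v⟫_ℂ • eb u :=
    funext fun S => tru_apply S v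
  rw [h]
  exact hasSum_eb v

theorem compact_tru {C : Set Hb} (hC : IsCompact C) {ε : ℝ} (hε : 0 < ε) :
    ∃ S : Finset Tr, ∀ v ∈ C, ‖v - tru S v‖ ≤ ε := by
  obtain ⟨t, _, htf, hcov⟩ := hC.finite_cover_balls (show 0 < ε / 3 by positivity)
  have h1 : ∀ᶠ S in Filter.atTop, ∀ y ∈ t, ‖y - tru S y‖ < ε / 3 := by
    rw [Filter.eventually_all_finite htf]
    intro y _
    have h2 := (tendsto_const_nhds (x := y)).sub (tendsto_tru y)
    rw [sub_self] at h2
    have h3 := h2.norm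
    rw [norm_zero] at h3
    exact h3.eventually_lt_const (by positivity)
  obtain ⟨S, hS⟩ := h1.exists
  refine ⟨S, fun v hv => ?_⟩
  have h2 := hcov hv
  simp only [Set.mem_iUnion] at h2
  obtain ⟨y, hy, hvy⟩ := h2
  rw [Metric.mem_ball, dist_eq_norm] at hvy
  have h3 := hS y hy
  have h4 : v - tru S v = (v - y) + (y - tru S y) - tru S (v - y) := by
    rw [map_sub]; abel
  rw [h4]
  have h5 := norm_tru_le S (v - y)
  have h6 := norm_sub_le ((v - y) + (y - tru S y)) (tru S (v - y))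
  have h7 := norm_add_le (v - y) (y - tru S y)
  linarith

theorem EE_sum {ι : Type*} (S : Finset ι) (c : ι → ℂ) (v : ι → Hb) :
    EE (∑ u ∈ S, c u • v u) = ∑ u ∈ S, c u • EE (v u) := by
  ext1 h
  rw [sum_apply, EE_apply, Finset.smul_sum]
  refine Finset.sum_congr rfl fun u _ => ?_
  change _ = c u • (⟪eb [], h⟫_ℂ • v u)
  rw [smul_comm]

theorem FP_EE_tru (S : Finset Tr) (v : Hb) : FP (S.sup List.length) (EE (tru S v)) := by
  rw [tru_apply, EE_sum]
  refine FP.sum _ fun u hu => FP.smul ?_ _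
  exact FP.rankOne (Finset.le_sup (f := List.length) hu) (Nat.zero_le _)

/-! ### the isometry `R` -/

/-- the isometry `v ↦ true v` -/
noncomputable def RR : Op := pm (fun v => true :: v) (List.cons_injective)

theorem RR_eb (v : Tr) : RR (eb v) = eb (true :: v) := pm_eb _ _ v

theorem norm_RR_le : ‖RR‖ ≤ 1 := Par.norm_le_one_of (star_pm_mul _ _)

theorem FP_RR : FP 1 RR := FP.pm _ fun v => ⟨[true], [], v, by simp, by simp, rfl, rfl⟩

theorem exists_NN : ∃ N : Tr → ℕ, Function.Injective N ∧ ∀ v, RR (eb v) = S' (N v) (eb []) := by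
  choose N hN using fun v : Tr => exists_jx (isJ_true v)
  refine ⟨N, fun v w h => ?_, fun v => ?_⟩
  · have h1 := (hN v).symm.trans (congrArg jx h) |>.trans (hN w)
    exact (List.cons.inj h1).2
  · rw [RR_eb, S'_eb, Sf, ← hN v]
    rfl

/-! ### the elements -/

section

variable (P : Par) (θ : Bool) (K : ℕ) {ι : Type} [Fintype ι] (A : ι → Op)

/-- admissible vector fields -/
structure Adm (f : ι → I × XX → Hb) (B : ℝ) : Prop where
  cont : ∀ w, Continuous (f w)
  inv : ∀ w t c (z : Circle) x, f w (t, rotAt c z x) = f w (t, x)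
  bd : ∀ w y, ‖f w y‖ ≤ B

/-- the components -/
noncomputable def TT (f : ι → I × XX → Hb) (n : ℕ) (x : XX) : Op :=
  ∑ w, P.Wd n (Par.frs θ K) x * star (P.Wd n (Par.frs θ K) x) *
    (A w * EE (f w (P.tau n, P.xi (fun _ => θ) Ent.yy n x)))

theorem isF_sum {F : ι → XX → Op} (hF : ∀ w, IsF (F w)) : IsF fun x => ∑ w, F w x :=
  ⟨SCont.sum _ fun w _ => (hF w).sc, fun c z x =>
    Finset.sum_congr rfl fun w _ => (hF w).inv c z x⟩

theorem isF_WW (n : ℕ) (L : List Ent) : IsF fun x => P.Wd n L x * star (P.Wd n L x) :=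
  ⟨(P.scont_Wd n L).mul (P.scont_Wd n L).star, fun c z x => by
    rw [Par.Wd_rot, star_smul, smul_mul_smul_comm, circle_pow_mul_star, one_smul]⟩

theorem norm_WW_le (n : ℕ) (L : List Ent) (x : XX) : ‖P.Wd n L x * star (P.Wd n L x)‖ ≤ 1 := by
  have h1 := P.norm_Wd_le n L x
  calc ‖P.Wd n L x * star (P.Wd n L x)‖ ≤ ‖P.Wd n L x‖ * ‖star (P.Wd n L x)‖ := norm_mul_le _ _
    _ ≤ 1 * 1 := by
        gcongr
        rw [norm_star]; exact h1
    _ = 1 := one_mul 1

theorem isF_EE {g : XX → Hb} (hg : Continuous g) {B : ℝ} (hB : ∀ x, ‖g x‖ ≤ B)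
    (hi : ∀ c (z : Circle) x, g (rotAt c z x) = g x) : IsF fun x => EE (g x) :=
  ⟨SCont.of_norm (continuous_EE.comp hg) ⟨B, fun x => (norm_EE_le _).trans (hB x)⟩,
    fun c z x => by rw [hi]⟩

variable {f : ι → I × XX → Hb} {B : ℝ}

theorem isF_TT (hf : Adm f B) (n : ℕ) : IsF (TT P θ K A f n) := by
  refine isF_sum fun w => (isF_WW P n (Par.frs θ K)).mul ((IsF.const (A w)).mul ?_)
  have h1 : IsF fun x => EE (f w (P.tau n, x)) :=
    isF_EE ((hf.cont w).comp (by fun_prop)) (fun x => hf.bd w _) (fun c z x => hf.inv w _ c z x)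
  exact h1.pull (P.injSrc_xsrc (fun _ => θ) Ent.yy n) _

theorem norm_TT_le (hf : ∀ w y, ‖f w y‖ ≤ B) (n : ℕ) (x : XX) :
    ‖TT P θ K A f n x‖ ≤ (∑ w, ‖A w‖) * B := by
  unfold TT
  rw [Finset.sum_mul]
  refine (norm_sum_le _ _).trans (Finset.sum_le_sum fun w _ => ?_)
  calc _ ≤ ‖P.Wd n (Par.frs θ K) x * star (P.Wd n (Par.frs θ K) x)‖ *
        ‖A w * EE (f w (P.tau n, P.xi (fun _ => θ) Ent.yy n x))‖ := norm_mul_le _ _
    _ ≤ 1 * (‖A w‖ * ‖EE (f w (P.tau n, P.xi (fun _ => θ) Ent.yy n x))‖) := by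
        gcongr
        · exact norm_WW_le P n _ x
        · exact norm_mul_le _ _
    _ ≤ 1 * (‖A w‖ * B) := by
        gcongr
        exact (norm_EE_le _).trans (hf _ _)
    _ = ‖A w‖ * B := one_mul _

theorem ub_TT (hf : ∀ w y, ‖f w y‖ ≤ B) (x : XX) : UB fun n => TT P θ K A f n x :=
  ⟨_, fun n => norm_TT_le P θ K A hf n x⟩

theorem isF_XB (hf : Adm f B) : IsF fun x => dsum' (fun n => TT P θ K A f n x) * RR :=
  IsF.mul ⟨SCont.dsum' (fun n => (isF_TT P θ K A hf n).sc)
    ⟨_, fun n x => norm_TT_le P θ K A hf.bd n x⟩, fun c z x => by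
      congr 1; funext n; exact (isF_TT P θ K A hf n).inv c z x⟩ (IsF.const RR)

/-- the element of `BB` -/
noncomputable def XB (hf : Adm f B) : BB := BB.mk _ (isF_XB P θ K A hf)

theorem fn_XB (hf : Adm f B) (x : XX) :
    (XB P θ K A hf).fn x = dsum' (fun n => TT P θ K A f n x) * RR := rfl

theorem XB_congr (hf : Adm f B) {x x' : XX} (h : ∀ i, x (some (θ, i)) = x' (some (θ, i))) :
    (XB P θ K A hf).fn x = (XB P θ K A hf).fn x' := by
  rw [fn_XB, fn_XB]
  congr 2
  funext n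
  unfold TT
  rw [P.Wd_frs_congr h, P.xi_congr h]

theorem TT_sub (f f' : ι → I × XX → Hb) (n : ℕ) (x : XX) :
    TT P θ K A f n x - TT P θ K A f' n x = TT P θ K A (fun w y => f w y - f' w y) n x := by
  unfold TT
  rw [← Finset.sum_sub_distrib]
  refine Finset.sum_congr rfl fun w _ => ?_
  rw [← mul_sub, ← mul_sub, ← EE_sub]

theorem inN_XB (hA : ∀ w, FP (Par.frs θ K).length (A w)) (hf : Adm f B) :
    InN (XB P θ K A hf) := by
  intro ε hε
  have ha : 0 < ∑ w, ‖A w‖ + 1 := by positivity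
  have hC : IsCompact (⋃ w, Set.range (f w)) := isCompact_iUnion fun w => isCompact_range (hf.cont w)
  obtain ⟨S, hS⟩ := compact_tru hC (show 0 < ε / (∑ w, ‖A w‖ + 1) by positivity)
  have hf' : Adm (fun w y => tru S (f w y)) B :=
    ⟨fun w => (tru S).continuous.comp (hf.cont w), fun w t c z x => by rw [hf.inv],
      fun w y => (norm_tru_le _ _).trans (hf.bd w y)⟩
  let l := (Par.frs θ K).length
  refine ⟨2 * (l + l + (l + S.sup List.length)) + 1, XB P θ K A hf', fun x => ?_, ?_⟩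
  · rw [fn_XB]
    refine (FP.dsum' (ub_TT P θ K A hf'.bd x) fun n => ?_).mul FP_RR
    unfold TT
    refine FP.sum _ fun w _ => ?_
    exact ((P.FP_Wd n (Par.frs θ K) x).mul (P.FP_Wd n (Par.frs θ K) x).star).mul
      ((hA w).mul (FP_EE_tru S _))
  · apply BB.norm_le hε.le
    intro x
    rw [BB.fn_sub, fn_XB, fn_XB, ← sub_mul,
      dsum'_sub (ub_TT P θ K A hf.bd x) (ub_TT P θ K A hf'.bd x)]
    have h1 : ‖dsum' fun n => TT P θ K A f n x - TT P θ K A (fun w y => tru S (f w y)) n x‖ ≤ ε := by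
      apply norm_dsum'_le hε.le
      intro n
      rw [TT_sub]
      have h2 : ∀ w y, ‖f w y - tru S (f w y)‖ ≤ ε / (∑ w, ‖A w‖ + 1) := fun w y =>
        hS _ (Set.mem_iUnion.2 ⟨w, Set.mem_range_self y⟩)
      refine (norm_TT_le P θ K A (f := fun w y => f w y - tru S (f w y)) h2 n x).trans ?_
      rw [mul_div_assoc', div_le_iff₀ ha]
      have : 0 ≤ ∑ w, ‖A w‖ := Finset.sum_nonneg fun w _ => norm_nonneg _
      nlinarith
    calc _ ≤ ‖dsum' fun n => TT P θ K A f n x - TT P θ K A (fun w y => tru S (f w y)) n x‖ *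
          ‖RR‖ := norm_mul_le _ _
      _ ≤ ε * 1 := by
          gcongr
          exact norm_RR_le
      _ = ε := mul_one ε

/-- the value of the component at `e₀` -/
theorem TT_e0 {n : ℕ} {x : XX} {c : ι → ℂ}
    (hc : ∀ w, star (P.Wd n (Par.frs θ K) x) * A w = c w • (1 : Op)) (f : ι → I × XX → Hb) :
    TT P θ K A f n x (eb []) = P.Wd n (Par.frs θ K) x
      (∑ w, c w • f w (P.tau n, P.xi (fun _ => θ) Ent.yy n x)) := by
  unfold TT
  rw [sum_apply, map_sum]
  refine Finset.sum_congr rfl fun w _ => ?_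
  have h3 : P.Wd n (Par.frs θ K) x * star (P.Wd n (Par.frs θ K) x) *
      (A w * EE (f w (P.tau n, P.xi (fun _ => θ) Ent.yy n x))) =
      c w • (P.Wd n (Par.frs θ K) x * EE (f w (P.tau n, P.xi (fun _ => θ) Ent.yy n x))) := by
    rw [mul_assoc, ← mul_assoc (star _), hc, smul_mul_assoc, one_mul, mul_smul_comm]
  rw [h3]
  change c w • (P.Wd n (Par.frs θ K) x (EE _ (eb []))) = _
  rw [EE_e0, map_smul]

theorem XB_eb {N : Tr → ℕ} (hN : ∀ v, RR (eb v) = S' (N v) (eb [])) (hf : Adm f B) (x : XX)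
    (v : Tr) {c : ι → ℂ}
    (hc : ∀ w, star (P.Wd (N v) (Par.frs θ K) x) * A w = c w • (1 : Op)) :
    (XB P θ K A hf).fn x (eb v) = S' (N v) (P.Wd (N v) (Par.frs θ K) x
      (∑ w, c w • f w (P.tau (N v), P.xi (fun _ => θ) Ent.yy (N v) x))) := by
  rw [fn_XB, mul_apply', hN, ← TT_e0 P θ K A hc f]
  exact congrArg (fun B : Op => B (eb [])) (dsum'_mul_S' (ub_TT P θ K A hf.bd x) (N v))

end

end XPAux

open XPAux in
theorem exists_XP (P : Par) (θ : Bool) (K : ℕ) {p : II} (hp : IsStarProjection p)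
    (hp0 : p ≠ 0) (m : ℕ) :
    ∃ X : Fin m → BB, (∀ i, InN (X i)) ∧
      (∀ w x x', (∀ i, x (some (θ, i)) = x' (some (θ, i))) → (X w).fn x = (X w).fn x') ∧
      ∀ i j, star (X i) * P.rho θ K p * X j = if i = j then 1 else 0 := by
  classical
  obtain ⟨ι, hι, A, hA0, hA⟩ := exists_words P (Par.frs θ K)
  obtain ⟨F, hFc, hFi, hFp, hFo⟩ := exists_frame hp hp0 (Fintype.card (Fin m × ι))
  let eq : Fin m × ι ≃ Fin (Fintype.card (Fin m × ι)) := Fintype.equivFin _
  let f : Fin m → ι → I × XX → Hb := fun i w => F (eq (i, w))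
  have hf : ∀ i, Adm (f i) 1 := fun i => ⟨fun w => hFc _, fun w t c z x => hFi _ t c z x,
    fun w y => by
      have h1 := hFo (eq (i, w)) (eq (i, w)) y.1 y.2
      rw [if_pos rfl, inner_self_eq_norm_sq_to_K] at h1
      have h2 : ‖F (eq (i, w)) (y.1, y.2)‖ ^ 2 = 1 := by
        apply Complex.ofReal_injective
        push_cast
        exact h1
      have h3 : ‖F (eq (i, w)) y‖ ^ 2 = 1 := h2
      change ‖F (eq (i, w)) y‖ ≤ 1
      nlinarith [norm_nonneg (F (eq (i, w)) y)]⟩
  obtain ⟨N, hNi, hN⟩ := exists_NN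
  refine ⟨fun i => XB P θ K A (hf i), fun i => inN_XB P θ K A hA0 (hf i),
    fun i x x' h => XB_congr P θ K A (hf i) h, fun i j => ?_⟩
  ext x : 1
  have h1 : ∀ v, (P.rho θ K p).fn x ((XB P θ K A (hf j)).fn x (eb v)) =
      (XB P θ K A (hf j)).fn x (eb v) := by
    intro v
    obtain ⟨c, hc, _⟩ := hA (N v) x
    rw [XB_eb P θ K A hN (hf j) x v hc]
    have h4 : ((P.rho θ K p).fn x) * S' (N v) =
        S' (N v) * P.cmp (fun _ => θ) Ent.yy (Par.frs θ K) 1 (P.tau (N v)) (N v) p x := by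
      rw [Par.rho, Par.fn_st']
      exact dsum'_mul_S' (P.ub_cmp (fun _ => θ) Ent.yy (Par.frs θ K)
        (Par.norm_le_one_of (by simp)) P.tau p x) (N v)
    rw [← mul_apply', h4, mul_apply', Par.cmp, one_mul]
    congr 1
    rw [mul_apply', ← mul_apply' (star _), P.star_Wd_mul]
    rw [mul_apply']
    congr 1
    change ((p.at' (P.tau (N v))).fn (P.xi (fun _ => θ) Ent.yy (N v) x)) (∑ w, c w • _) = _
    rw [map_sum]
    refine Finset.sum_congr rfl fun w _ => ?_
    rw [map_smul]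
    congr 1
    exact hFp (eq (j, w)) (P.tau (N v)) (P.xi (fun _ => θ) Ent.yy (N v) x)
  have h2 : ((if i = j then 1 else 0 : BB)).fn x = if i = j then (1 : Op) else 0 := by
    split_ifs <;> rfl
  rw [h2]
  change star ((XB P θ K A (hf i)).fn x) * (P.rho θ K p).fn x * (XB P θ K A (hf j)).fn x = _
  apply op_ext
  intro v
  apply vec_ext
  intro v'
  rw [mul_apply', mul_apply', inner_star_right, h1]
  obtain ⟨c, hc, hc1⟩ := hA (N v) x
  obtain ⟨c', hc', hc1'⟩ := hA (N v') x
  rw [XB_eb P θ K A hN (hf j) x v hc, XB_eb P θ K A hN (hf i) x v' hc', inner_S'_S']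
  have hR : ⟪eb v', (if i = j then (1 : Op) else 0) (eb v)⟫_ℂ =
      if v' = v then (if i = j then 1 else 0) else 0 := by
    split_ifs with h3 h4 h4
    · change ⟪eb v', eb v⟫_ℂ = 1
      rw [inner_eb_eb, if_pos h4]
    · change ⟪eb v', eb v⟫_ℂ = 0
      rw [inner_eb_eb, if_neg h4]
    · change ⟪eb v', (0 : Hb)⟫_ℂ = 0
      rw [inner_zero_right]
    · change ⟪eb v', (0 : Hb)⟫_ℂ = 0
      rw [inner_zero_right]
  rw [hR]
  by_cases hv : v' = v
  · subst hv
    rw [if_pos rfl, if_pos rfl]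
    have hcc : c' = c := by
      funext w
      have h5 := (hc' w).symm.trans (hc w)
      have h6 := congrArg (fun B : Op => ⟪eb [], B (eb [])⟫_ℂ) h5
      change ⟪eb [], c' w • eb []⟫_ℂ = ⟪eb [], c w • eb []⟫_ℂ at h6
      rw [inner_smul_right, inner_smul_right, inner_eb_eb, if_pos rfl, mul_one, mul_one] at h6
      exact h6
    subst hcc
    rw [← inner_star_left, ← mul_apply', P.star_Wd_mul]
    change ⟪∑ w, c' w • f i w _, ∑ w, c' w • f j w _⟫_ℂ = _
    rw [sum_inner]
    have h7 : ∀ w, ⟪c' w • f i w (P.tau (N v'), P.xi (fun _ => θ) Ent.yy (N v') x),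
        ∑ w', c' w' • f j w' (P.tau (N v'), P.xi (fun _ => θ) Ent.yy (N v') x)⟫_ℂ =
        if i = j then ((‖c' w‖ ^ 2 : ℝ) : ℂ) else 0 := by
      intro w
      rw [inner_sum]
      have h8 : ∀ w', ⟪c' w • f i w (P.tau (N v'), P.xi (fun _ => θ) Ent.yy (N v') x),
          c' w' • f j w' (P.tau (N v'), P.xi (fun _ => θ) Ent.yy (N v') x)⟫_ℂ =
          if i = j ∧ w = w' then (starRingEnd ℂ) (c' w) * c' w' else 0 := by
        intro w'
        rw [inner_smul_left, inner_smul_right]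
        have h9 := hFo (eq (i, w)) (eq (j, w')) (P.tau (N v'))
          (P.xi (fun _ => θ) Ent.yy (N v') x)
        change (starRingEnd ℂ) (c' w) * (c' w' * ⟪F (eq (i, w)) _, F (eq (j, w')) _⟫_ℂ) = _
        rw [h9]
        have h10 : eq (i, w) = eq (j, w') ↔ (i = j ∧ w = w') := by
          rw [eq.injective.eq_iff, Prod.mk.injEq]
        by_cases h11 : i = j ∧ w = w'
        · rw [if_pos (h10.2 h11), if_pos h11, mul_one]
        · rw [if_neg (fun h => h11 (h10.1 h)), if_neg h11, mul_zero, mul_zero]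
      simp only [h8]
      by_cases hij : i = j
      · rw [if_pos hij]
        rw [Finset.sum_eq_single w]
        · rw [if_pos ⟨hij, rfl⟩, ← Complex.normSq_eq_conj_mul_self, Complex.normSq_eq_norm_sq]
        · intro w' _ hw
          rw [if_neg (fun h => hw h.2.symm)]
        · intro h
          exact absurd (Finset.mem_univ _) h
      · rw [if_neg hij]
        exact Finset.sum_eq_zero fun w' _ => if_neg fun h => hij h.1
    simp only [h7]
    by_cases hij : i = j
    · simp only [if_pos hij]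
      rw [← Complex.ofReal_sum, hc1', Complex.ofReal_one]
    · simp only [if_neg hij, Finset.sum_const_zero]
  · rw [if_neg hv, if_neg (fun h => hv (hNi h))]

end Pool.Agent.Lib.Eln
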