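import Pool.Agent.Lib.Eln.Full
import Pool.Agent.Lib.Eln.XP

set_option autoImplicit false

/-!
The image of a non-zero projection p under a connecting homomorphism dominates, up to a small error,
two orthogonal copies of any projection Q of the nuclear block.
-/

open scoped InnerProductSpace BoundedContinuousFunction unitInterval

namespace Pool.Agent.Lib.Eln

open Pool.Agent.Lib.P81d4f5 (S3)

section pieces

variable {k : ℕ} {g : II}

theorem Phi_C2 (t : I) (x : XX) (Y Z : Op) :
    star (C 2 * Y) * ((Phi k g).at' t).fn x * (C 2 * Z) =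
      star Y * (psiH k true (la2 t) g).fn x * Z := by
  have h1 : star (C 2 * Y) * ((Phi k g).at' t).fn x * (C 2 * Z) =
      star Y * star (C 2) * (((Phi k g).at' t).fn x * C 2) * Z := by
    simp only [star_mul, mul_assoc]
  rw [h1, fn_Phi_mul_C2]
  have h2 : star Y * star (C 2) * (C 2 * (psiH k true (la2 t) g).fn x) * Z =
      star Y * (star (C 2) * C 2) * (psiH k true (la2 t) g).fn x * Z := by
    simp only [mul_assoc]
  rw [h2, star_C_mul_self, mul_one]

theorem Phi_C1 (t : I) (x : XX) (Y Z : Op) :
    star (C 1 * Y) * ((Phi k g).at' t).fn x * (C 1 * Z) =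
      star Y * (psiH k false (la1 t) g).fn x * Z := by
  have h1 : star (C 1 * Y) * ((Phi k g).at' t).fn x * (C 1 * Z) =
      star Y * star (C 1) * (((Phi k g).at' t).fn x * C 1) * Z := by
    simp only [star_mul, mul_assoc]
  rw [h1, fn_Phi_mul_C1]
  have h2 : star Y * star (C 1) * (C 1 * (psiH k false (la1 t) g).fn x) * Z =
      star Y * (star (C 1) * C 1) * (psiH k false (la1 t) g).fn x * Z := by
    simp only [mul_assoc]
  rw [h2, star_C_mul_self, mul_one]

theorem Phi_C12 (t : I) (x : XX) (Y Z : Op) :
    star (C 1 * Y) * ((Phi k g).at' t).fn x * (C 2 * Z) = 0 := by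
  have h1 : star (C 1 * Y) * ((Phi k g).at' t).fn x * (C 2 * Z) =
      star Y * star (C 1) * (((Phi k g).at' t).fn x * C 2) * Z := by
    simp only [star_mul, mul_assoc]
  rw [h1, fn_Phi_mul_C2]
  have h2 : star Y * star (C 1) * (C 2 * (psiH k true (la2 t) g).fn x) * Z =
      star Y * (star (C 1) * C 2) * (psiH k true (la2 t) g).fn x * Z := by
    simp only [mul_assoc]
  rw [h2, star_C_mul_of_ne (by decide)]
  simp

theorem Phi_C21 (t : I) (x : XX) (Y Z : Op) :
    star (C 2 * Y) * ((Phi k g).at' t).fn x * (C 1 * Z) = 0 := by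
  have h1 : star (C 2 * Y) * ((Phi k g).at' t).fn x * (C 1 * Z) =
      star Y * star (C 2) * (((Phi k g).at' t).fn x * C 1) * Z := by
    simp only [star_mul, mul_assoc]
  rw [h1, fn_Phi_mul_C1]
  have h2 : star Y * star (C 2) * (C 1 * (psiH k false (la1 t) g).fn x) * Z =
      star Y * (star (C 2) * C 1) * (psiH k false (la1 t) g).fn x * Z := by
    simp only [mul_assoc]
  rw [h2, star_C_mul_of_ne (by decide)]
  simp

theorem Phi_C2V {t : I} (ht : la2 t = 0) (x : XX) (Y Z : Op) :
    star (C 2 * (V ee * Y)) * ((Phi k g).at' t).fn x * (C 2 * (V ee * Z)) =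
      star Y * ((par k true).rho false (k + 1) g).fn x * Z := by
  rw [Phi_C2, ht, psiH_zero]
  have : star (V ee * Y) * (V ee * ((par k true).rho false (k + 1) g).fn x * star (V ee)) *
      (V ee * Z) = star Y * (star (V ee) * V ee) * ((par k true).rho false (k + 1) g).fn x *
        (star (V ee) * V ee) * Z := by
    simp only [star_mul, mul_assoc]
  rw [this, star_V_mul_V]
  simp only [mul_one]

theorem Phi_C1V {t : I} (ht : la1 t = 1) (x : XX) (Y Z : Op) :
    star (C 1 * (V (x none) * Y)) * ((Phi k g).at' t).fn x * (C 1 * (V (x none) * Z)) =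
      star Y * ((par k false).rho true (k + 1) g).fn x * Z := by
  rw [Phi_C1, ht, psiH_one]
  have : star (V (x none) * Y) * (V (x none) * ((par k false).rho true (k + 1) g).fn x *
      star (V (x none))) * (V (x none) * Z) = star Y * (star (V (x none)) * V (x none)) *
        ((par k false).rho true (k + 1) g).fn x * (star (V (x none)) * V (x none)) * Z := by
    simp only [star_mul, mul_assoc]
  rw [this, star_V_mul_V]
  simp only [mul_one]

end pieces

/-- the middle isometries -/
noncomputable def mid (X : Fin 2 × Fin 3 → BB) (i : Fin 2) : BB :=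
  VC 0 * X (i, 0) + VC 1 * X (i, 1)

theorem fn_mid (X : Fin 2 × Fin 3 → BB) (i : Fin 2) (x : XX) : (mid X i).fn x =
    V (x none) * ((starRingEnd ℂ) (S3.co 0 (x none)) • (X (i, 0)).fn x +
      (starRingEnd ℂ) (S3.co 1 (x none)) • (X (i, 1)).fn x) := by
  rw [mid, BB.fn_add, BB.fn_mul, BB.fn_mul, fn_VC, fn_VC]
  simp only [smul_mul_assoc, mul_add, mul_smul_comm]

theorem exists_Y_II (k : ℕ) {p : II} (hp : IsStarProjection p) (hp0 : p ≠ 0)
    {Q : II} (hQ : IsStarProjection Q) (hQM : InM Q) {ε : ℝ} (hε : 0 < ε) :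
    ∃ Y : Fin 2 → II, (∀ i, InM (Y i)) ∧ (∀ i, Y i * Q = Y i) ∧
      ∀ i j, ‖star (Y i) * Phi k p * Y j - (if i = j then Q else 0)‖ ≤ ε := by
  obtain ⟨X0, hX0N, hX0, hX0s⟩ := exists_XP (par k true) false (k + 1) hp hp0 2
  obtain ⟨X1', hX1N', hX1', hX1s'⟩ := exists_XP (par k false) true (k + 1) hp hp0 6
  -- reindexing
  let e6 : Fin 2 × Fin 3 ≃ Fin 6 := finProdFinEquiv
  let X1 : Fin 2 × Fin 3 → BB := fun a => X1' (e6 a)
  have hX1N : ∀ a, InN (X1 a) := fun a => hX1N' _
  have hX1 : ∀ w x x', (∀ i, x (some (true, i)) = x' (some (true, i))) →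
      (X1 w).fn x = (X1 w).fn x' := fun w x x' h => hX1' _ x x' h
  have hX1s : ∀ a b x, star ((X1 a).fn x) * ((par k false).rho true (k + 1) p).fn x *
      (X1 b).fn x = if a = b then 1 else 0 := by
    intro a b x
    have h := congrArg (fun f : BB => f.fn x) (hX1s' (e6 a) (e6 b))
    simp only [e6.injective.eq_iff] at h
    change star ((X1 a).fn x) * ((par k false).rho true (k + 1) p).fn x * (X1 b).fn x =
      BB.fn (if a = b then 1 else 0) x at h
    rw [h]
    split_ifs <;> rfl
  have hX0s' : ∀ a b x, star ((X0 a).fn x) * ((par k true).rho false (k + 1) p).fn x *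
      (X0 b).fn x = if a = b then 1 else 0 := by
    intro a b x
    have h := congrArg (fun f : BB => f.fn x) (hX0s a b)
    change star ((X0 a).fn x) * ((par k true).rho false (k + 1) p).fn x * (X0 b).fn x =
      BB.fn (if a = b then 1 else 0) x at h
    rw [h]
    split_ifs <;> rfl
  have hQQ : Q * Q = Q := hQ.isIdempotentElem
  have hQs : star Q = Q := hQ.isSelfAdjoint.star_eq
  -- the neighbourhood of the final time
  have hcont : Continuous fun t : I => ‖Q.at' t - Vc 1 * Q.at' t‖ :=
    (Q.continuous_at'.sub (continuous_const.mul Q.continuous_at')).norm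
  have hone : ‖Q.at' 1 - Vc 1 * Q.at' 1‖ = 0 := by
    rw [norm_eq_zero, sub_eq_zero]
    ext x : 1
    obtain ⟨c, hc⟩ := Q.mem1
    rw [BB.fn_mul, fn_Vc, hc, BB.fn_one, mul_one]
    have : V (x none) * star (V (x none)) * (V (x none) * c (pb x) * star (V (x none))) =
        V (x none) * (star (V (x none)) * V (x none)) * c (pb x) * star (V (x none)) := by
      simp only [mul_assoc]
    rw [this, star_V_mul_V, mul_one]
  obtain ⟨d, hd, hd3, hdQ⟩ : ∃ d : ℝ, 0 < d ∧ d ≤ 1 / 3 ∧ ∀ t : I, 1 - d ≤ (t : ℝ) →
      ‖Q.at' t - Vc 1 * Q.at' t‖ ≤ ε := by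
    have h1 := hcont.tendsto 1
    rw [hone] at h1
    have h2 := h1.eventually (gt_mem_nhds hε)
    obtain ⟨η, hη, h3⟩ := Metric.eventually_nhds_iff.1 h2
    refine ⟨min (η / 2) (1 / 3), by positivity, min_le_right _ _, fun t ht => (h3 ?_).le⟩
    rw [Subtype.dist_eq, Real.dist_eq, Set.Icc.coe_one]
    have h4 := t.2.2
    have h5 := min_le_left (η / 2) (1 / 3 : ℝ)
    rw [abs_lt]
    constructor <;> linarith
  -- the weights
  let h0 : I → ℝ := fun t => √(u0 t)
  let hm : I → ℝ := fun t => √(1 - u0 t - u1 d t)
  let h1 : I → ℝ := fun t => √(u1 d t)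
  have hc0 : Continuous h0 := continuous_u0.sqrt
  have hcm : Continuous hm := ((continuous_const.sub continuous_u0).sub (continuous_u1 d)).sqrt
  have hc1 : Continuous h1 := (continuous_u1 d).sqrt
  have h0sq : ∀ t, h0 t * h0 t = u0 t := fun t => Real.mul_self_sqrt (rc_nonneg _)
  have h1sq : ∀ t, h1 t * h1 t = u1 d t := fun t => Real.mul_self_sqrt (rc_nonneg _)
  have hmsq : ∀ t, hm t * hm t = 1 - u0 t - u1 d t := fun t =>
    Real.mul_self_sqrt (um_nonneg hd hd3 t)
  have v00 : h0 1 = 0 := by
    change √(u0 1) = 0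
    rw [u0_eq_zero (by rw [Set.Icc.coe_one]; norm_num), Real.sqrt_zero]
  have vm0 : hm 0 = 0 := by
    change √(1 - u0 0 - u1 d 0) = 0
    rw [um_eq_zero hd hd3 (by rw [Set.Icc.coe_zero]; norm_num), Real.sqrt_zero]
  have vm1 : hm 1 = 0 := by
    change √(1 - u0 1 - u1 d 1) = 0
    rw [u0_eq_zero (by rw [Set.Icc.coe_one]; norm_num), u1_one hd]
    simp
  have v10 : h1 0 = 0 := by
    change √(u1 d 0) = 0
    rw [u1_eq_zero hd (by rw [Set.Icc.coe_zero]; linarith), Real.sqrt_zero]
  -- the elements
  let A0 : Fin 2 → BB := fun i => BB.cst (C 2) * (BB.cst (V ee) * X0 i)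
  let Am : Fin 2 → BB := fun i => BB.cst (C 1) * mid X1 i
  let A1 : Fin 2 → BB := fun i => BB.cst (C 1) * Vc (X1 (i, 2))
  have e00 : ∀ w, InB0 ((h0 0 : ℂ) • (A0 w * Q.at' 0)) := by
    intro w
    apply InB0.smul
    obtain ⟨c, hc⟩ := Q.mem0
    refine ⟨fun a => T' 2 * (X0 w).fn (mkx a (fun _ => ee) ee) * V ee * c a, fun x => ?_⟩
    rw [BB.fn_mul, hc]
    change C 2 * (V ee * (X0 w).fn x) * (V ee * c (pa x) * star (V ee)) = _
    rw [hX0 w x (mkx (pa x) (fun _ => ee) ee) (fun i => rfl), ← mul_assoc (C 2), C_mul_V]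
    simp only [mul_assoc]
  have e01 : ∀ w, InB1 ((h0 1 : ℂ) • (A0 w * Q.at' 1)) := fun w => by
    rw [v00]; exact inB1_zero_smul _
  have em0 : ∀ p, InB0 ((hm 0 : ℂ) • (Am p * Q.at' 0)) := fun w => by
    rw [vm0]; exact inB0_zero_smul _
  have em1 : ∀ p, InB1 ((hm 1 : ℂ) • (Am p * Q.at' 1)) := fun w => by
    rw [vm1]; exact inB1_zero_smul _
  have e10 : ∀ w, InB0 ((h1 0 : ℂ) • (A1 w * Q.at' 0)) := fun w => by
    rw [v10]; exact inB0_zero_smul _
  have e11 : ∀ w, InB1 ((h1 1 : ℂ) • (A1 w * Q.at' 1)) := by
    intro w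
    apply InB1.smul
    obtain ⟨c, hc⟩ := Q.mem1
    refine ⟨fun b => T' 1 * (X1 (w, 2)).fn (mkx (fun _ => ee) b ee) * c b, fun x => ?_⟩
    rw [BB.fn_mul, hc]
    change C 1 * (V (x none) * (X1 (w, 2)).fn x * star (V (x none))) *
      (V (x none) * c (pb x) * star (V (x none))) = _
    rw [hX1 (w, 2) x (mkx (fun _ => ee) (pb x) ee) (fun i => rfl)]
    set Z := (X1 (w, 2)).fn (mkx (fun _ => ee) (pb x) ee) with hZ
    have : C 1 * (V (x none) * Z * star (V (x none))) *
        (V (x none) * c (pb x) * star (V (x none))) =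
        (C 1 * V (x none)) * Z * (star (V (x none)) * V (x none)) * c (pb x) *
          star (V (x none)) := by simp only [mul_assoc]
    rw [this, star_V_mul_V, C_mul_V, hZ]
    simp only [mul_assoc, one_mul]
  let Y0 : Fin 2 → II := fun w => mkY h0 hc0 (A0 w) Q (e00 w) (e01 w)
  let Ym : Fin 2 → II := fun p => mkY hm hcm (Am p) Q (em0 p) (em1 p)
  let Y1 : Fin 2 → II := fun w => mkY h1 hc1 (A1 w) Q (e10 w) (e11 w)
  have hmidN : ∀ i, InN (mid X1 i) := fun i =>
    ((inN_VC 0).mul (hX1N _)).add ((inN_VC 1).mul (hX1N _))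
  refine ⟨fun i => Y0 i + Ym i + Y1 i, fun i t => ?_, fun i => ?_, fun i j => ?_⟩
  · have a1 : InM (Y0 i) := inM_mkY h0 hc0 (e00 i) (e01 i)
      ((InN.cst (FP_C 2)).mul ((InN.cst (FP.V ee)).mul (hX0N i))) hQM
    have a2 : InM (Ym i) := inM_mkY hm hcm (em0 i) (em1 i)
      ((InN.cst (FP_C 1)).mul (hmidN i)) hQM
    have a3 : InM (Y1 i) := inM_mkY h1 hc1 (e10 i) (e11 i)
      ((InN.cst (FP_C 1)).mul (inN_Vc (hX1N _))) hQM
    exact ((a1 t).add (a2 t)).add (a3 t)
  · have a1 : Y0 i * Q = Y0 i := mkY_mul h0 hc0 (A0 i) Q (e00 i) (e01 i) hQQ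
    have a2 : Ym i * Q = Ym i := mkY_mul hm hcm (Am i) Q (em0 i) (em1 i) hQQ
    have a3 : Y1 i * Q = Y1 i := mkY_mul h1 hc1 (A1 i) Q (e10 i) (e11 i) hQQ
    rw [add_mul, add_mul, a1, a2, a3]
  · apply II.norm_le hε.le
    intro t
    have hqt : star (Q.at' t) = Q.at' t := congrArg (fun g : II => g.at' t) hQs
    have hqq : Q.at' t * Q.at' t = Q.at' t := congrArg (fun g : II => g.at' t) hQQ
    have hqn : ‖Q.at' t‖ ≤ 1 := norm_proj_le ⟨hqq, hqt⟩
    -- the total
    let B : Fin 2 → BB := fun i => (h0 t : ℂ) • A0 i + (hm t : ℂ) • Am i + (h1 t : ℂ) • A1 i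
    have hY : ∀ i, (Y0 i + Ym i + Y1 i).at' t = B i * Q.at' t := by
      intro i
      change (h0 t : ℂ) • (A0 i * Q.at' t) + (hm t : ℂ) • (Am i * Q.at' t) +
        (h1 t : ℂ) • (A1 i * Q.at' t) = _
      simp only [B, add_mul, smul_mul_assoc]
    set G : BB := (Phi k p).at' t with hG
    have hBB : star (B i) * G * B j = if i = j then
        ((u0 t : ℝ) : ℂ) • (1 : BB) + ((1 - u0 t - u1 d t : ℝ) : ℂ) • (1 : BB) +
          ((u1 d t : ℝ) : ℂ) • Vc 1 else 0 := by
      -- single products
      have p00 : ((h0 t * h0 t : ℝ) : ℂ) • (star (A0 i) * G * A0 j) =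
          if i = j then ((u0 t : ℝ) : ℂ) • (1 : BB) else 0 := by
        rw [h0sq]
        by_cases hz : u0 t = 0
        · rw [hz]; simp
        · have ht : (t : ℝ) ≤ 2 / 3 := by
            by_contra hcon
            exact hz (u0_eq_zero (by linarith))
          have h : star (A0 i) * G * A0 j = if i = j then 1 else 0 := by
            ext x : 1
            have h2 := Phi_C2V (k := k) (g := p) (la2_eq_zero ht) x ((X0 i).fn x) ((X0 j).fn x)
            rw [hX0s'] at h2
            refine h2.trans ?_
            split_ifs <;> rfl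
          rw [h]
          split_ifs <;> simp
      have pmm : ((hm t * hm t : ℝ) : ℂ) • (star (Am i) * G * Am j) =
          if i = j then ((1 - u0 t - u1 d t : ℝ) : ℂ) • (1 : BB) else 0 := by
        rw [hmsq]
        by_cases hz : 1 - u0 t - u1 d t = 0
        · rw [hz]; simp
        · have ht : 1 / 3 ≤ (t : ℝ) := by
            by_contra hcon
            exact hz (um_eq_zero hd hd3 (by linarith))
          have h : star (Am i) * G * Am j = if i = j then 1 else 0 := by
            ext x : 1
            have h2 := Phi_C1V (k := k) (g := p) (la1_eq_one ht) x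
              ((starRingEnd ℂ) (S3.co 0 (x none)) • (X1 (i, 0)).fn x +
                (starRingEnd ℂ) (S3.co 1 (x none)) • (X1 (i, 1)).fn x)
              ((starRingEnd ℂ) (S3.co 0 (x none)) • (X1 (j, 0)).fn x +
                (starRingEnd ℂ) (S3.co 1 (x none)) • (X1 (j, 1)).fn x)
            rw [← fn_mid, ← fn_mid] at h2
            refine h2.trans ?_
            have h3 := S3.sum_conj (x none)
            rw [Fin.sum_univ_two] at h3
            simp only [star_add, star_smul, add_mul, mul_add, smul_mul_assoc, mul_smul_comm,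
              hX1s, RCLike.star_def, Complex.conj_conj, Prod.mk.injEq]
            by_cases hij : i = j
            · subst hij
              simp only [true_and, if_true]
              rw [if_neg (by decide), if_neg (by decide)]
              simp only [smul_zero, add_zero, zero_add, smul_smul, ← add_smul]
              rw [mul_comm ((starRingEnd ℂ) (S3.co 0 (x none))),
                mul_comm ((starRingEnd ℂ) (S3.co 1 (x none))), h3, one_smul]
              rfl
            · simp only [hij, false_and, if_false, smul_zero, add_zero]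
              rfl
          rw [h]
          split_ifs <;> simp
      have p11 : ((h1 t * h1 t : ℝ) : ℂ) • (star (A1 i) * G * A1 j) =
          if i = j then ((u1 d t : ℝ) : ℂ) • Vc 1 else 0 := by
        rw [h1sq]
        by_cases hz : u1 d t = 0
        · rw [hz]; simp
        · have ht : 1 - d ≤ (t : ℝ) := by
            by_contra hcon
            exact hz (u1_eq_zero hd (by linarith))
          have h : star (A1 i) * G * A1 j = if i = j then Vc 1 else 0 := by
            ext x : 1
            have h2 := Phi_C1V (k := k) (g := p) (la1_eq_one (t := t) (by linarith)) x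
              ((X1 (i, 2)).fn x * star (V (x none))) ((X1 (j, 2)).fn x * star (V (x none)))
            have h3 : (star (A1 i) * G * A1 j).fn x =
                star (C 1 * (V (x none) * ((X1 (i, 2)).fn x * star (V (x none))))) *
                  ((Phi k p).at' t).fn x *
                  (C 1 * (V (x none) * ((X1 (j, 2)).fn x * star (V (x none))))) := by
              simp only [← mul_assoc (V (x none))]
              rfl
            rw [h3, h2]
            have h4 : star ((X1 (i, 2)).fn x * star (V (x none))) *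
                ((par k false).rho true (k + 1) p).fn x *
                ((X1 (j, 2)).fn x * star (V (x none))) = V (x none) *
                (star ((X1 (i, 2)).fn x) * ((par k false).rho true (k + 1) p).fn x *
                (X1 (j, 2)).fn x) * star (V (x none)) := by
              simp only [star_mul, star_star, mul_assoc]
            rw [h4, hX1s]
            by_cases hij : i = j
            · rw [if_pos hij, if_pos (by rw [hij])]
              rfl
            · rw [if_neg hij, if_neg (by simp [hij])]
              simp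
          rw [h]
          split_ifs <;> simp
      have p0m : star (A0 i) * G * Am j = 0 := by
        ext x : 1
        exact Phi_C21 t x _ _
      have pm0 : star (Am i) * G * A0 j = 0 := by
        ext x : 1
        exact Phi_C12 t x _ _
      have p01 : star (A0 i) * G * A1 j = 0 := by
        ext x : 1
        exact Phi_C21 t x _ _
      have p10 : star (A1 i) * G * A0 j = 0 := by
        ext x : 1
        exact Phi_C12 t x _ _
      have pm1 : ((hm t * h1 t : ℝ) : ℂ) • (star (Am i) * G * A1 j) = 0 := by
        by_cases hz : u1 d t = 0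
        · have : h1 t = 0 := by
            change √(u1 d t) = 0
            rw [hz, Real.sqrt_zero]
          rw [this]; simp
        · have ht : 1 - d ≤ (t : ℝ) := by
            by_contra hcon
            exact hz (u1_eq_zero hd (by linarith))
          have h : star (Am i) * G * A1 j = 0 := by
            ext x : 1
            have h2 := Phi_C1V (k := k) (g := p) (la1_eq_one (t := t) (by linarith)) x
              ((starRingEnd ℂ) (S3.co 0 (x none)) • (X1 (i, 0)).fn x +
                (starRingEnd ℂ) (S3.co 1 (x none)) • (X1 (i, 1)).fn x)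
              ((X1 (j, 2)).fn x * star (V (x none)))
            rw [← fn_mid] at h2
            have h3 : (star (Am i) * G * A1 j).fn x = star (C 1 * (mid X1 i).fn x) *
                  ((Phi k p).at' t).fn x *
                  (C 1 * (V (x none) * ((X1 (j, 2)).fn x * star (V (x none))))) := by
              rw [← mul_assoc (V (x none))]
              rfl
            rw [h3, h2]
            have h4 : ∀ Z : Op, Z * ((X1 (j, 2)).fn x * star (V (x none))) =
                Z * (X1 (j, 2)).fn x * star (V (x none)) := fun Z => (mul_assoc _ _ _).symm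
            rw [h4]
            simp only [star_add, star_smul, add_mul, smul_mul_assoc, hX1s, Prod.mk.injEq]
            rw [if_neg (by simp), if_neg (by simp)]
            simp
          rw [h, smul_zero]
      have p1m : ((h1 t * hm t : ℝ) : ℂ) • (star (A1 i) * G * Am j) = 0 := by
        by_cases hz : u1 d t = 0
        · have : h1 t = 0 := by
            change √(u1 d t) = 0
            rw [hz, Real.sqrt_zero]
          rw [this]; simp
        · have ht : 1 - d ≤ (t : ℝ) := by
            by_contra hcon
            exact hz (u1_eq_zero hd (by linarith))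
          have h : star (A1 i) * G * Am j = 0 := by
            ext x : 1
            have h2 := Phi_C1V (k := k) (g := p) (la1_eq_one (t := t) (by linarith)) x
              ((X1 (i, 2)).fn x * star (V (x none)))
              ((starRingEnd ℂ) (S3.co 0 (x none)) • (X1 (j, 0)).fn x +
                (starRingEnd ℂ) (S3.co 1 (x none)) • (X1 (j, 1)).fn x)
            rw [← fn_mid] at h2
            have h3 : (star (A1 i) * G * Am j).fn x =
                star (C 1 * (V (x none) * ((X1 (i, 2)).fn x * star (V (x none))))) *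
                  ((Phi k p).at' t).fn x * (C 1 * (mid X1 j).fn x) := by
              rw [← mul_assoc (V (x none))]
              rfl
            rw [h3, h2]
            have h4 : star ((X1 (i, 2)).fn x * star (V (x none))) = V (x none) *
                star ((X1 (i, 2)).fn x) := by rw [star_mul, star_star]
            rw [h4, mul_assoc (V (x none)), mul_assoc (V (x none))]
            simp only [mul_add, mul_smul_comm, hX1s, Prod.mk.injEq]
            rw [if_neg (by simp), if_neg (by simp)]
            simp
          rw [h, smul_zero]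
      have hexp : star (B i) * G * B j =
          ((h0 t * h0 t : ℝ) : ℂ) • (star (A0 i) * G * A0 j) +
          ((hm t * hm t : ℝ) : ℂ) • (star (Am i) * G * Am j) +
          ((h1 t * h1 t : ℝ) : ℂ) • (star (A1 i) * G * A1 j) +
          ((h0 t * hm t : ℝ) : ℂ) • (star (A0 i) * G * Am j) +
          ((hm t * h0 t : ℝ) : ℂ) • (star (Am i) * G * A0 j) +
          ((h0 t * h1 t : ℝ) : ℂ) • (star (A0 i) * G * A1 j) +
          ((h1 t * h0 t : ℝ) : ℂ) • (star (A1 i) * G * A0 j) +
          ((hm t * h1 t : ℝ) : ℂ) • (star (Am i) * G * A1 j) +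
          ((h1 t * hm t : ℝ) : ℂ) • (star (A1 i) * G * Am j) := by
        simp only [B, star_add, star_smul, add_mul, mul_add, smul_mul_assoc, mul_smul_comm,
          smul_add, smul_smul, RCLike.star_def, Complex.conj_ofReal, Complex.ofReal_mul]
        module
      rw [hexp, p00, pmm, p11, p0m, pm0, p01, p10, pm1, p1m]
      split_ifs <;> simp
    have htot : (star (Y0 i + Ym i + Y1 i) * Phi k p * (Y0 j + Ym j + Y1 j) -
        (if i = j then Q else 0)).at' t =
        if i = j then -(((u1 d t : ℝ) : ℂ) • (Q.at' t * (Q.at' t - Vc 1 * Q.at' t))) else 0 := by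
      rw [II.at'_sub, II.at'_mul, II.at'_mul, II.at'_star, hY, hY, star_mul, hqt]
      have h5 : Q.at' t * star (B i) * (Phi k p).at' t * (B j * Q.at' t) =
          Q.at' t * (star (B i) * G * B j) * Q.at' t := by
        simp only [mul_assoc, hG]
      rw [h5, hBB]
      by_cases hij : i = j
      · simp only [if_pos hij]
        simp only [mul_add, add_mul, mul_smul_comm, smul_mul_assoc, mul_one, hqq, mul_sub,
          smul_sub, ← mul_assoc]
        push_cast
        rw [sub_smul, sub_smul, one_smul]
        abel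
      · simp only [if_neg hij, mul_zero, zero_mul, II.at'_zero, sub_zero]
    rw [htot]
    by_cases hij : i = j
    · rw [if_pos hij, norm_neg, norm_smul, Complex.norm_real,
        Real.norm_of_nonneg (show 0 ≤ u1 d t from rc_nonneg _)]
      by_cases hz : u1 d t = 0
      · rw [hz, zero_mul]; exact hε.le
      · have ht : 1 - d ≤ (t : ℝ) := by
          by_contra hcon
          exact hz (u1_eq_zero hd (by linarith))
        have h5 := hdQ t ht
        have h6 : u1 d t ≤ 1 := rc_le_one _
        have h7 : 0 ≤ u1 d t := rc_nonneg _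
        calc u1 d t * ‖Q.at' t * (Q.at' t - Vc 1 * Q.at' t)‖
            ≤ 1 * (1 * ε) := by
              gcongr
              exact (norm_mul_le _ _).trans (by gcongr)
          _ = ε := by ring
    · rw [if_neg hij, norm_zero]; exact hε.le

theorem exists_Y (k : ℕ) {p : KM} (hp : IsStarProjection p) (hp0 : p ≠ 0) {Q : KM}
    (hQ : IsStarProjection Q) {ε : ℝ} (hε : 0 < ε) :
    ∃ Y : Fin 2 → KM, (∀ i, Y i * Q = Y i) ∧
      ∀ i j, ‖star (Y i) * PhiM k p * Y j - (if i = j then Q else 0)‖ ≤ ε := by
  have hp' : IsStarProjection p.val :=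
    ⟨congrArg KM.val hp.isIdempotentElem, congrArg KM.val hp.isSelfAdjoint⟩
  have hp0' : p.val ≠ 0 := fun h => hp0 (KM.ext h)
  have hQ' : IsStarProjection Q.val :=
    ⟨congrArg KM.val hQ.isIdempotentElem, congrArg KM.val hQ.isSelfAdjoint⟩
  obtain ⟨Y, hY1, hY2, hY3⟩ := exists_Y_II k hp' hp0' hQ' Q.inM hε
  refine ⟨fun i => KM.mk (Y i) (hY1 i), fun i => KM.ext (hY2 i), fun i j => ?_⟩
  refine le_trans (le_of_eq ?_) (hY3 i j)
  rw [← KM.norm_val, KM.val_sub]
  congr 2
  split_ifs <;> rfl

end Pool.Agent.Lib.Eln
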