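import Mathlib

set_option autoImplicit false

/-!
MODULE Eln.SqInj (pure C*-algebra theory).

An element y of a C*-algebra B which becomes of the form c* c in a larger C*-algebra A is already of
this form in B.

PROOF.  Order instances: `CStarAlgebra.spectralOrder`, `CStarAlgebra.spectralOrderedRing` for
NonUnitalCStarAlgebra (use `let _ : PartialOrder B := CStarAlgebra.spectralOrder B` etc).  y is self
adjoint (i injective, i y = star c * c).  Write y = y⁺ - y⁻ (CFC: `posPart`, `negPart`, with
y⁺ * y⁻ = 0, y⁻ * y⁺ = 0, 0 ≤ y⁻, e.g. `CFC.posPart_sub_negPart`, `CFC.posPart_mul_negPart`), and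
y⁻ = star e * e (`CStarAlgebra.nonneg_iff_eq_star_mul_self`).
Then y⁻ * y * y⁻ = - (y⁻)^3 = - star (e * y⁻) * (e * y⁻), and applying i:
star (c * i y⁻) * (c * i y⁻) + star (i (e * y⁻)) * i (e * y⁻) = 0.  Both summands are ≥ 0 in A, so both
vanish: i (e * y⁻) = 0, e * y⁻ = 0, hence y⁻ * y⁻ = star e * (e * y⁻) = 0 and y⁻ = 0.  So y = y⁺ ≥ 0.
-/

namespace Pool.Agent.Lib.Eln

theorem exists_sq_of_injective {A B : Type} [NonUnitalCStarAlgebra A] [NonUnitalCStarAlgebra B]
    (i : B →⋆ₙₐ[ℂ] A) (hi : Function.Injective i) (y : B) (c : A) (h : i y = star c * c) :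
    ∃ d : B, y = star d * d := by
  letI : PartialOrder B := CStarAlgebra.spectralOrder B
  letI : StarOrderedRing B := CStarAlgebra.spectralOrderedRing B
  letI : PartialOrder A := CStarAlgebra.spectralOrder A
  letI : StarOrderedRing A := CStarAlgebra.spectralOrderedRing A
  have hsa : IsSelfAdjoint y := by
    rw [IsSelfAdjoint]
    apply hi
    rw [map_star, h, star_mul, star_star]
  have hdec := CFC.posPart_sub_negPart y hsa
  set z : B := y⁻ with hz
  have hznn : 0 ≤ z := CFC.negPart_nonneg y
  have hzsa : star z = z := hznn.isSelfAdjoint.star_eq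
  obtain ⟨e, he⟩ := CStarAlgebra.nonneg_iff_eq_star_mul_self.mp hznn
  have h1 : z * y * z = - (z * z * z) := by
    have h2 : y = y⁺ - z := hdec.symm
    have h3 : z * y⁺ = 0 := CFC.negPart_mul_posPart y
    calc z * y * z = (z * y⁺ - z * z) * z := by rw [← mul_sub, ← h2]
      _ = - (z * z * z) := by rw [h3, zero_sub, neg_mul]
  have h4 : star (c * i z) * (c * i z) + star (i (e * z)) * i (e * z) = 0 := by
    have h5 : star (c * i z) * (c * i z) = i (z * y * z) := by
      rw [map_mul, map_mul, h, star_mul, ← map_star, hzsa]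
      simp only [mul_assoc]
    have h6 : star (i (e * z)) * i (e * z) = i (z * z * z) := by
      rw [← map_star, ← map_mul, star_mul, hzsa]
      congr 1
      calc z * star e * (e * z) = z * (star e * e) * z := by simp only [mul_assoc]
        _ = z * z * z := by rw [← he]
    rw [h5, h6, h1, map_neg, neg_add_cancel]
  have h7 : star (i (e * z)) * i (e * z) = 0 :=
    ((add_eq_zero_iff_of_nonneg (star_mul_self_nonneg _) (star_mul_self_nonneg _)).1 h4).2
  have h8 : i (e * z) = 0 := CStarRing.star_mul_self_eq_zero_iff _ |>.1 h7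
  have h9 : e * z = 0 := hi (by rw [h8, map_zero])
  have h10 : z * z = 0 := by
    calc z * z = star e * e * z := by rw [← he]
      _ = star e * (e * z) := by rw [mul_assoc]
      _ = 0 := by rw [h9, mul_zero]
  have h11 : z = 0 := by
    apply (CStarRing.star_mul_self_eq_zero_iff z).1
    rw [hzsa, h10]
  have h12 : 0 ≤ y := by
    have h13 : y = y⁺ := by
      have := hdec
      rw [h11, sub_zero] at this
      exact this.symm
    rw [h13]
    exact CFC.posPart_nonneg y
  exact CStarAlgebra.nonneg_iff_eq_star_mul_self.mp h12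

end Pool.Agent.Lib.Eln
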