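import Pool.Agent.Lib.Eln.NucDefs
import Pool.Agent.Lib.Eln.SqInj
import Pool.Agent.Lib.Ell.Corner

set_option autoImplicit false

/-!
MODULE Eln.NucCorner (pure C*-algebra theory; uses NucDefs, SqInj (black box), Ell/Corner.lean).

(1) `IsCP.corner`: compression of a completely positive map.  PROOF: for b_i in the corner,
  b_i^* (q φ(..) q) b_j = b_i^* φ(..) b_j (use q b_j = b_j, b_i^* q = b_i^*), so the value of the sum
  is star c * c for some c ∈ B; apply `exists_sq_of_injective` to the inclusion
  Corner q hq →⋆ₙₐ[ℂ] B (built from Corner.val; see the file Ell/Corner.lean).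
(2) `Nuclear.corner`.  PROOF: given F ⊆ corner and ε apply `hA` to F.image Corner.val.
  φ'(x) = φ(x.val) (IsCP since val is a homomorphism; the matrix side is unchanged),
  ψ'(m) = q ψ(m) q as an element of the corner (as in (1), with A = M_d itself instead of a
  corner of it).  Contractivity is clear (‖q‖ ≤ 1).
  ‖ψ'(φ' a) - a‖ = ‖q (ψ(φ a.val) - a.val) q‖.
-/

open Pool.Agent.Lib.Ell (Corner)

namespace Pool.Agent.Lib.Eln

/-- the compression of a linear map to corners -/
noncomputable def cmpL {A B : Type} [NonUnitalCStarAlgebra A] [NonUnitalCStarAlgebra B]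
    (φ : A →ₗ[ℂ] B) (p : A) (hp : IsStarProjection p) (q : B) (hq : IsStarProjection q) :
    Corner p hp →ₗ[ℂ] Corner q hq where
  toFun x := Corner.mk (q * φ x.val * q)
    (by rw [← mul_assoc, ← mul_assoc, hq.isIdempotentElem.eq])
    (by rw [mul_assoc, hq.isIdempotentElem.eq])
  map_add' x y := Corner.val_injective (by
    change q * φ (x.val + y.val) * q = q * φ x.val * q + q * φ y.val * q
    rw [map_add, mul_add, add_mul])
  map_smul' c x := Corner.val_injective (by
    change q * φ (c • x.val) * q = c • (q * φ x.val * q)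
    rw [map_smul, mul_smul_comm, smul_mul_assoc])

theorem val_cmpL {A B : Type} [NonUnitalCStarAlgebra A] [NonUnitalCStarAlgebra B]
    (φ : A →ₗ[ℂ] B) (p : A) (hp : IsStarProjection p) (q : B) (hq : IsStarProjection q)
    (x : Corner p hp) : (cmpL φ p hp q hq x).val = q * φ x.val * q := rfl

namespace NucCornerAux

/-- the inclusion of a corner -/
noncomputable def vh {B : Type} [NonUnitalCStarAlgebra B] (q : B) (hq : IsStarProjection q) :
    Corner q hq →⋆ₙₐ[ℂ] B where
  toFun := Corner.val
  map_smul' c x := Corner.val_smul c x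
  map_zero' := Corner.val_zero
  map_add' x y := Corner.val_add x y
  map_mul' x y := Corner.val_mul x y
  map_star' x := Corner.val_star x

theorem vh_apply {B : Type} [NonUnitalCStarAlgebra B] (q : B) (hq : IsStarProjection q)
    (x : Corner q hq) : vh q hq x = x.val := rfl

theorem norm_proj_le {B : Type} [NonUnitalCStarAlgebra B] (q : B) (hq : IsStarProjection q) :
    ‖q‖ ≤ 1 := by
  have h : ‖q‖ * ‖q‖ = ‖q‖ := by
    rw [← CStarRing.norm_star_mul_self, hq.isSelfAdjoint.star_eq, hq.isIdempotentElem.eq]
  nlinarith [norm_nonneg q]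

theorem norm_cmp_le {B : Type} [NonUnitalCStarAlgebra B] (q : B) (hq : IsStarProjection q)
    (y : B) : ‖q * y * q‖ ≤ ‖y‖ := by
  have hq1 := norm_proj_le q hq
  calc ‖q * y * q‖ ≤ ‖q * y‖ * ‖q‖ := norm_mul_le _ _
    _ ≤ (‖q‖ * ‖y‖) * ‖q‖ := mul_le_mul_of_nonneg_right (norm_mul_le _ _) (norm_nonneg _)
    _ ≤ (1 * ‖y‖) * 1 := by
        apply mul_le_mul _ hq1 (norm_nonneg _) (by positivity)
        exact mul_le_mul_of_nonneg_right hq1 (norm_nonneg _)
    _ = ‖y‖ := by ring

theorem star_val_mul {B : Type} [NonUnitalCStarAlgebra B] {q : B} {hq : IsStarProjection q}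
    (x y : Corner q hq) (z : B) :
    star x.val * (q * z * q) * y.val = star x.val * z * y.val := by
  have h1 : star x.val * q = star x.val := by
    rw [← Corner.val_star]; exact Corner.val_mul_q _
  have h2 : q * y.val = y.val := Corner.q_mul_val y
  calc star x.val * (q * z * q) * y.val = (star x.val * q) * z * (q * y.val) := by
        simp only [mul_assoc]
    _ = star x.val * z * y.val := by rw [h1, h2]

end NucCornerAux

open NucCornerAux

theorem IsCP.corner {A B : Type} [NonUnitalCStarAlgebra A] [NonUnitalCStarAlgebra B]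
    {φ : A →ₗ[ℂ] B} (hφ : IsCP φ) (p : A) (hp : IsStarProjection p) (q : B)
    (hq : IsStarProjection q) : IsCP (cmpL φ p hp q hq) := by
  intro n a b
  obtain ⟨c, hc⟩ := hφ n (fun i => (a i).val) (fun i => (b i).val)
  refine exists_sq_of_injective (vh q hq) Corner.val_injective _ c ?_
  rw [← hc, map_sum]
  refine Finset.sum_congr rfl fun i _ => ?_
  rw [map_sum]
  refine Finset.sum_congr rfl fun j _ => ?_
  rw [vh_apply, Corner.val_mul, Corner.val_mul, Corner.val_star, val_cmpL, star_val_mul]
  rfl

theorem Nuclear.corner {A : Type} [NonUnitalCStarAlgebra A] (hA : Nuclear A) (q : A)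
    (hq : IsStarProjection q) : Nuclear (Corner q hq) := by
  classical
  intro F ε hε
  obtain ⟨d, φ, ψ, h1, h2, h3, h4, h5⟩ := hA (F.image Corner.val) ε hε
  let φ' : Corner q hq →ₗ[ℂ] MatC (Fin d) :=
    { toFun := fun x => φ x.val
      map_add' := fun x y => by rw [Corner.val_add, map_add]
      map_smul' := fun c x => by rw [Corner.val_smul, map_smul]; rfl }
  let ψ' : MatC (Fin d) →ₗ[ℂ] Corner q hq :=
    { toFun := fun m => Corner.mk (q * ψ m * q)
        (by rw [← mul_assoc, ← mul_assoc, hq.isIdempotentElem.eq])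
        (by rw [mul_assoc, hq.isIdempotentElem.eq])
      map_add' := fun x y => Corner.val_injective (by
        change q * ψ (x + y) * q = q * ψ x * q + q * ψ y * q
        rw [map_add, mul_add, add_mul])
      map_smul' := fun c x => Corner.val_injective (by
        change q * ψ (c • x) * q = c • (q * ψ x * q)
        rw [map_smul, mul_smul_comm, smul_mul_assoc]) }
  have hψ' : ∀ m, (ψ' m).val = q * ψ m * q := fun m => rfl
  have hφ' : ∀ x, φ' x = φ x.val := fun x => rfl
  refine ⟨d, φ', ψ', ?_, ?_, ?_, ?_, ?_⟩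
  · intro n a b
    exact h1 n (fun i => (a i).val) b
  · intro n a b
    obtain ⟨c, hc⟩ := h2 n a (fun i => (b i).val)
    refine exists_sq_of_injective (vh q hq) Corner.val_injective _ c ?_
    rw [← hc, map_sum]
    refine Finset.sum_congr rfl fun i _ => ?_
    rw [map_sum]
    refine Finset.sum_congr rfl fun j _ => ?_
    rw [vh_apply, Corner.val_mul, Corner.val_mul, Corner.val_star, hψ', star_val_mul]
  · intro a
    rw [hφ', ← Corner.norm_val]
    exact h3 a.val
  · intro m
    rw [← Corner.norm_val, hψ']
    exact (norm_cmp_le q hq _).trans (h4 m)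
  · intro a ha
    rw [← Corner.norm_val, Corner.val_sub, hψ', hφ']
    have e1 : q * ψ (φ a.val) * q - a.val = q * (ψ (φ a.val) - a.val) * q := by
      rw [mul_sub, sub_mul, Corner.q_mul_val, Corner.val_mul_q]
    rw [e1]
    exact (norm_cmp_le q hq _).trans_lt (h5 a.val (Finset.mem_image_of_mem _ ha))

end Pool.Agent.Lib.Eln
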