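import Mathlib

set_option autoImplicit false

/-!
MODULE Eln.Samp (elementary).

Sampling of a bounded function with values in a finite dimensional space.

PROOF.  The range of Θ is bounded, hence totally bounded (finite dimension: closure is compact,
`Bornology.IsBounded.isCompact_closure` / `isCompact_closedBall`, `TotallyBounded`), so there are finitely
many points y_l (l in a finite type L) such that every Θ z is within ε / 2 of some Θ (y_l).
Let h_l(e) = max 0 (ε - ‖e - Θ (y_l)‖), H(e) = ∑_l h_l(e), κ_l(e) = h_l(e) / max (H e) (ε / 2).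
These are continuous, ≥ 0; at e = Θ z one has H(e) ≥ ε / 2, so the sum is H/H = 1; κ_l(Θ z) ≠ 0
implies h_l ≠ 0, i.e. ‖Θ z - Θ (y_l)‖ < ε.
(To choose the points in the range: `Metric.totallyBounded_iff`, `exists_finset_...`,
`TotallyBounded.exists_subset`-type lemmas, or `finite_cover_balls_of_compact` for the closure of the
range with radius ε / 4 and then replace the centres by points of the range.)
-/

namespace Pool.Agent.Lib.Eln

theorem exists_sampling {Y E : Type} [NormedAddCommGroup E] [NormedSpace ℝ E]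
    [FiniteDimensional ℝ E] (Θ : Y → E) {B : ℝ} (hB : ∀ y, ‖Θ y‖ ≤ B) {ε : ℝ} (hε : 0 < ε) :
    ∃ (L : Type) (_ : Fintype L) (y : L → Y) (κ : L → E → ℝ),
      (∀ l, Continuous (κ l)) ∧ (∀ l e, 0 ≤ κ l e) ∧ (∀ z, ∑ l, κ l (Θ z) = 1) ∧
      ∀ l z, κ l (Θ z) ≠ 0 → ‖Θ z - Θ (y l)‖ < ε := by
  have hprop : ProperSpace E := FiniteDimensional.proper ℝ E
  have htb : TotallyBounded (Set.range Θ) := by
    refine TotallyBounded.subset ?_ (isCompact_closedBall (0 : E) B).totallyBounded
    rintro _ ⟨y, rfl⟩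
    rw [mem_closedBall_zero_iff]
    exact hB y
  obtain ⟨t, hts, htf, hcov⟩ := Metric.finite_approx_of_totallyBounded htb (ε / 2) (half_pos hε)
  have hft : Fintype t := htf.fintype
  choose y hy using fun l : t => hts l.2
  have hh : ∀ (l : t) (e : E), 0 ≤ max 0 (ε - ‖e - (l : E)‖) := fun l e => le_max_left _ _
  have hden : ∀ e : E, 0 < max (∑ l : t, max 0 (ε - ‖e - (l : E)‖)) (ε / 2) :=
    fun e => lt_of_lt_of_le (half_pos hε) (le_max_right _ _)
  have hcont : ∀ l : t, Continuous fun e : E => max 0 (ε - ‖e - (l : E)‖) := fun l => by fun_prop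
  refine ⟨t, hft, y, fun l e => max 0 (ε - ‖e - (l : E)‖) /
    max (∑ l : t, max 0 (ε - ‖e - (l : E)‖)) (ε / 2), ?_, ?_, ?_, ?_⟩
  · intro l
    refine (hcont l).div ?_ (fun e => (hden e).ne')
    exact (continuous_finsetSum _ fun l _ => hcont l).max continuous_const
  · intro l e
    exact div_nonneg (hh l e) (hden e).le
  · intro z
    rw [← Finset.sum_div]
    obtain ⟨w, hw, hzw⟩ := Set.mem_iUnion₂.1 (hcov (Set.mem_range_self z))
    rw [Metric.mem_ball, dist_eq_norm] at hzw
    have h1 : ε / 2 ≤ ∑ l : t, max 0 (ε - ‖Θ z - (l : E)‖) := by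
      calc ε / 2 ≤ max 0 (ε - ‖Θ z - ((⟨w, hw⟩ : t) : E)‖) :=
            le_trans (by change ε / 2 ≤ ε - ‖Θ z - w‖; linarith) (le_max_right _ _)
        _ ≤ ∑ l : t, max 0 (ε - ‖Θ z - (l : E)‖) :=
            Finset.single_le_sum (f := fun l : t => max 0 (ε - ‖Θ z - (l : E)‖))
              (fun l _ => hh l (Θ z)) (Finset.mem_univ _)
    rw [max_eq_left h1]
    exact div_self (lt_of_lt_of_le (half_pos hε) h1).ne'
  · intro l z hne
    rw [hy l]
    by_contra hlt
    push Not at hlt
    apply hne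
    have h2 : max 0 (ε - ‖Θ z - (l : E)‖) = 0 := max_eq_left (by linarith)
    simp only [h2, zero_div]

end Pool.Agent.Lib.Eln
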