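import Pool.Agent.Lib.Eln.FP

set_option autoImplicit false

/-!
MODULE Eln.Schur (uses Eln/FP.lean, Eln/Hilb.lean).

Operators of finite propagation with small matrix entries have small norm.

PROOF (Schur test).  For fixed w the number of v with Nr R v w is at most K = (R + 1) * 2 ^ (R + 1):
w = β ++ u with |β| ≤ R leaves R + 1 choices for u (the suffixes of w), and v = α ++ u with |α| ≤ R
leaves at most 2^(R+1) choices for α.  By symmetry (`Nr.symm`) the same holds for fixed v.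
For vectors f, g with coefficients f_v = ⟪eb v, f⟫, g_w = ⟪eb w, g⟫:
⟪f, A g⟫ = ∑_v ∑_w conj(f_v) A_vw g_w, where only pairs (v, w) with Nr R v w contribute, so
|⟪f, A g⟫| ≤ δ ∑_{Nr v w} |f_v| |g_w| ≤ δ ∑_{Nr v w} (|f_v|² + |g_w|²)/2 ≤ δ K (‖f‖² + ‖g‖²)/2,
hence ‖A‖ ≤ K δ (unit vectors).
A convenient way to organise it: first for f, g in the span of finitely many basis vectors
(finite sums), then by density (`hasSum_eb`, partial sums converge, A continuous); or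
use ‖A g‖² = ∑_v |∑_w A_vw g_w|² ≤ ∑_v K ∑_{w : Nr v w} δ² |g_w|² ≤ K² δ² ‖g‖² with
`bas.repr`/Parseval (`HilbertBasis.hasSum_inner_mul_inner`, `HasSum` in ℝ≥0∞ to exchange sums).
-/

open scoped InnerProductSpace

namespace Pool.Agent.Lib.Eln

namespace SchurAux

theorem exists_nb (R : ℕ) : ∃ (K : ℕ) (N : Tr → Finset Tr), (∀ v, (N v).card ≤ K) ∧
    ∀ v w, Nr R v w → w ∈ N v := by
  classical
  have hfin : {l : List Bool | l.length ≤ R}.Finite := List.finite_length_le Bool R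
  refine ⟨hfin.toFinset.card * (R + 1), fun v =>
    (hfin.toFinset ×ˢ Finset.range (R + 1)).image (fun p => p.1 ++ v.drop p.2), ?_, ?_⟩
  · intro v
    exact Finset.card_image_le.trans (by rw [Finset.card_product, Finset.card_range])
  · rintro v w ⟨α, β, u, h1, h2, rfl, rfl⟩
    refine Finset.mem_image.2 ⟨(β, α.length), ?_, ?_⟩
    · rw [Finset.mem_product, Set.Finite.mem_toFinset, Finset.mem_range]
      exact ⟨h2, by simp only; omega⟩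
    · simp

theorem hasSum_norm_sq (f : Hb) : HasSum (fun i => ‖⟪eb i, f⟫_ℂ‖ ^ 2) (‖f‖ ^ 2) := by
  have h := (hasSum_eb f).mapL (innerSL ℂ f)
  have h2 := Complex.hasSum_re h
  simp only [innerSL_apply_apply] at h2
  rw [inner_self_eq_norm_sq_to_K] at h2
  have h3 : (fun i => (⟪f, ⟪eb i, f⟫_ℂ • eb i⟫_ℂ).re) = fun i => ‖⟪eb i, f⟫_ℂ‖ ^ 2 := by
    funext i
    rw [inner_smul_right, ← inner_conj_symm f (eb i), Complex.mul_conj, Complex.normSq_eq_norm_sq,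
      Complex.ofReal_re]
  rw [h3] at h2
  convert h2 using 1
  norm_cast

end SchurAux

open SchurAux in
theorem norm_le_of_entries (R : ℕ) : ∃ K : ℝ, 0 ≤ K ∧ ∀ (A : Op) (δ : ℝ), 0 ≤ δ → FP R A →
    (∀ v w, ‖⟪eb v, A (eb w)⟫_ℂ‖ ≤ δ) → ‖A‖ ≤ K * δ := by
  classical
  obtain ⟨K, N, hNc, hN⟩ := exists_nb R
  refine ⟨K, Nat.cast_nonneg K, ?_⟩
  intro A δ hδ hA hent
  set N' : Tr → Finset Tr := fun v => (N v).filter (fun w => Nr R v w) with hN'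
  have hmem : ∀ v w, w ∈ N' v ↔ Nr R v w := by
    intro v w
    rw [hN', Finset.mem_filter]
    exact ⟨fun h => h.2, fun h => ⟨hN v w h, h⟩⟩
  have hcard : ∀ v, ((N' v).card : ℝ) ≤ K := by
    intro v
    exact_mod_cast (Finset.card_filter_le _ _).trans (hNc v)
  refine ContinuousLinearMap.opNorm_le_bound _ (by positivity) fun g => ?_
  -- the coefficients of `A g`
  have hcoef : ∀ v, ⟪eb v, A g⟫_ℂ = ∑ w ∈ N' v, ⟪eb w, g⟫_ℂ * ⟪eb v, A (eb w)⟫_ℂ := by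
    intro v
    have h1 := ((hasSum_eb g).mapL A).mapL (innerSL ℂ (eb v))
    have h2 : (fun w => (innerSL ℂ (eb v)) (A (⟪eb w, g⟫_ℂ • eb w))) =
        fun w => ⟪eb w, g⟫_ℂ * ⟪eb v, A (eb w)⟫_ℂ := by
      funext w
      rw [map_smul, map_smul, innerSL_apply_apply, smul_eq_mul]
    rw [h2] at h1
    have h3 : HasSum (fun w => ⟪eb w, g⟫_ℂ * ⟪eb v, A (eb w)⟫_ℂ)
        (∑ w ∈ N' v, ⟪eb w, g⟫_ℂ * ⟪eb v, A (eb w)⟫_ℂ) := by
      apply hasSum_sum_of_ne_finset_zero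
      intro w hw
      rw [hA v w (fun h => hw ((hmem v w).2 h)), mul_zero]
    exact h1.unique h3
  have hbound : ∀ v, ‖⟪eb v, A g⟫_ℂ‖ ^ 2 ≤ K * δ ^ 2 * ∑ w ∈ N' v, ‖⟪eb w, g⟫_ℂ‖ ^ 2 := by
    intro v
    have h1 : ‖⟪eb v, A g⟫_ℂ‖ ≤ ∑ w ∈ N' v, ‖⟪eb w, g⟫_ℂ‖ * δ := by
      rw [hcoef v]
      refine (norm_sum_le _ _).trans (Finset.sum_le_sum fun w _ => ?_)
      rw [norm_mul]
      exact mul_le_mul_of_nonneg_left (hent v w) (norm_nonneg _)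
    calc ‖⟪eb v, A g⟫_ℂ‖ ^ 2 ≤ (∑ w ∈ N' v, ‖⟪eb w, g⟫_ℂ‖ * δ) ^ 2 :=
          pow_le_pow_left₀ (norm_nonneg _) h1 2
      _ ≤ (N' v).card * ∑ w ∈ N' v, (‖⟪eb w, g⟫_ℂ‖ * δ) ^ 2 := sq_sum_le_card_mul_sum_sq
      _ = (N' v).card * (δ ^ 2 * ∑ w ∈ N' v, ‖⟪eb w, g⟫_ℂ‖ ^ 2) := by
          congr 1
          rw [Finset.mul_sum]
          exact Finset.sum_congr rfl fun w _ => by ring
      _ ≤ K * (δ ^ 2 * ∑ w ∈ N' v, ‖⟪eb w, g⟫_ℂ‖ ^ 2) := by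
          refine mul_le_mul_of_nonneg_right (hcard v) ?_
          exact mul_nonneg (sq_nonneg _) (Finset.sum_nonneg fun _ _ => sq_nonneg _)
      _ = _ := by ring
  have hpart : ∀ t : Finset Tr, ∑ v ∈ t, ‖⟪eb v, A g⟫_ℂ‖ ^ 2 ≤ (K * δ * ‖g‖) ^ 2 := by
    intro t
    set T : Finset Tr := t.biUnion N' with hT
    have h1 : ∀ v ∈ t, ∑ w ∈ N' v, ‖⟪eb w, g⟫_ℂ‖ ^ 2 =
        ∑ w ∈ T, if Nr R v w then ‖⟪eb w, g⟫_ℂ‖ ^ 2 else 0 := by
      intro v hv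
      rw [← Finset.sum_filter]
      refine Finset.sum_congr ?_ fun _ _ => rfl
      ext w
      rw [hmem, Finset.mem_filter]
      constructor
      · intro h
        exact ⟨Finset.mem_biUnion.2 ⟨v, hv, (hmem v w).2 h⟩, h⟩
      · exact fun h => h.2
    have h2 : ∑ v ∈ t, ∑ w ∈ N' v, ‖⟪eb w, g⟫_ℂ‖ ^ 2 ≤ K * ‖g‖ ^ 2 := by
      rw [Finset.sum_congr rfl h1, Finset.sum_comm]
      have h3 : ∀ w ∈ T, (∑ v ∈ t, if Nr R v w then ‖⟪eb w, g⟫_ℂ‖ ^ 2 else 0) ≤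
          K * ‖⟪eb w, g⟫_ℂ‖ ^ 2 := by
        intro w _
        rw [← Finset.sum_filter, Finset.sum_const, nsmul_eq_mul]
        refine mul_le_mul_of_nonneg_right ?_ (sq_nonneg _)
        have h4 : t.filter (fun v => Nr R v w) ⊆ N w := by
          intro v hv
          exact hN w v (Finset.mem_filter.1 hv).2.symm
        exact_mod_cast (Finset.card_le_card h4).trans (hNc w)
      refine (Finset.sum_le_sum h3).trans ?_
      rw [← Finset.mul_sum]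
      exact mul_le_mul_of_nonneg_left (orthonormal_eb.sum_inner_products_le g) (Nat.cast_nonneg K)
    calc ∑ v ∈ t, ‖⟪eb v, A g⟫_ℂ‖ ^ 2 ≤ ∑ v ∈ t, K * δ ^ 2 * ∑ w ∈ N' v, ‖⟪eb w, g⟫_ℂ‖ ^ 2 :=
          Finset.sum_le_sum fun v _ => hbound v
      _ = K * δ ^ 2 * ∑ v ∈ t, ∑ w ∈ N' v, ‖⟪eb w, g⟫_ℂ‖ ^ 2 := by rw [Finset.mul_sum]
      _ ≤ K * δ ^ 2 * (K * ‖g‖ ^ 2) := mul_le_mul_of_nonneg_left h2 (by positivity)
      _ = (K * δ * ‖g‖) ^ 2 := by ring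
  have hsq : ‖A g‖ ^ 2 ≤ (K * δ * ‖g‖) ^ 2 := by
    have h1 := hasSum_norm_sq (A g)
    exact le_of_tendsto h1 (Filter.Eventually.of_forall hpart)
  exact (sq_le_sq₀ (norm_nonneg _) (by positivity)).1 hsq

end Pool.Agent.Lib.Eln
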