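import Pool.Agent.Lib.Eln.Syn
import Pool.Agent.Lib.Eln.Schur

set_option autoImplicit false

/-!
MODULE Eln.SynNear (uses Syn, Schur, SynEx (black boxes), SynDefs, FP).

Approximation of the operators of finite propagation: syn k (cpr k · A) is near A for large k.

PROOFS.
* norm_cpr_le: rhoB k a is an isometry (the vectors eb (α ++ bse a) are orthonormal), ‖rhoB‖ ≤ 1.
  continuous_cpr: the matrix coefficients of cpr k a (F y) (finitely many) are the continuous functions
  ⟪eb (α ++ bse a), F y (eb (β ++ bse a))⟫; e.g. cpr k a (F y) = ∑_αβ coefficient • rank one operator.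
  cpr_pos: ∑_ij ⟪ξ_i, cpr k a (star (A_i) * A_j) ξ_j⟫ = ‖∑_j A_j (rhoB k a ξ_j)‖².
* Schur multiplier: for vertices v, w
  ⟪eb v, syn k (cpr k · A) (eb w)⟫ = s_k(v, w) * ⟪eb v, A (eb w)⟫,
  s_k(v, w) = ∑_{(a, α, β) : v = α ++ bse a, w = β ++ bse a, |α|, |β| < k} wt k a α * wt k a β,
  since R_a^† (eb w) = ∑_{β : w = β ++ bse a} wt k a β e_β, and ⟪e_α, cpr k a A e_β⟫ = ⟪eb v, A (eb w)⟫.
* If Nr R v w then 1 - R/k ≤ s_k(v, w) ≤ 1 (for k > R).  Upper bound: Cauchy-Schwarz and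
  ∑_{(a,α) : α ++ bse a = v} (wt k a α)² = 1 (or `norm_syn_le` applied to suitable A; or use hasSum_RB for
  f = eb v, eb w).  Lower bound: v = α₀ ++ u, w = β₀ ++ u with |α₀|, |β₀| ≤ R, M := max |v| |w|:
  every suffix u' of u with M - |u'| < k gives a common block some u' of weight 1/k; their number is
  min (|u|+1) (|u| + k - M) [|u'| ranges over the naturals ≤ |u| with |u'| > M - k].
  If M ≥ k this is |u| + k - M ≥ k - R, so s ≥ 1 - R/k.  If M < k the number is |u| + 1 and the block none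
  contributes √((k-1-|v|)(k-1-|w|))/k ≥ (k-1-M)/k ≥ (k-1-|u|-R)/k, in total ≥ 1 - R/k.
* near_FP: B = syn k (cpr k · A) - A has FP (max k R), more precisely its entries are
  (s_k(v, w) - 1) A_vw, zero unless Nr R v w (A is FP R), so FP R B; entries ≤ (R/k) ‖A‖;
  `norm_le_of_entries R` gives ‖B‖ ≤ K (R/k) ‖A‖.
* InN.near: approximate f by g with FP R (g.fn x) for all x, ‖f - g‖ ≤ ε/3, ‖g‖ ≤ ‖f‖ + ε;
  syn k (cpr k · ·) is contractive and linear (syn_sub, cpr linear), so
  ‖syn(cpr f) - f‖ ≤ ‖syn(cpr (f - g))‖ + ‖syn(cpr g) - g‖ + ‖g - f‖ ≤ ε for k large.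
-/

open scoped InnerProductSpace

namespace Pool.Agent.Lib.Eln

namespace SynNearAux

theorem orthonormal_blk (k : ℕ) (a : Option Tr) :
    Orthonormal ℂ fun α : Wk k => eb (α.1 ++ bse a) :=
  orthonormal_eb.comp (fun α : Wk k => α.1 ++ bse a) fun α β h => by
    exact Subtype.ext (List.append_cancel_right h)

theorem adj_rhoB (k : ℕ) (a : Option Tr) (ξ : EW k) :
    ContinuousLinearMap.adjoint (rhoB k a) (rhoB k a ξ) = ξ := by
  ext α
  rw [adjoint_rhoB_apply, rhoB_apply]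
  exact (orthonormal_blk k a).inner_right_fintype _ α

theorem norm_rhoB (k : ℕ) (a : Option Tr) (ξ : EW k) : ‖rhoB k a ξ‖ = ‖ξ‖ := by
  have h : ∀ ξ, ‖rhoB k a ξ‖ = ‖ξ‖ := by
    rw [ContinuousLinearMap.norm_map_iff_adjoint_comp_self]
    ext1 ξ
    exact adj_rhoB k a ξ
  exact h ξ

theorem norm_rhoB_le (k : ℕ) (a : Option Tr) : ‖rhoB k a‖ ≤ 1 :=
  ContinuousLinearMap.opNorm_le_bound _ zero_le_one fun ξ => by rw [norm_rhoB, one_mul]

open Classical in
/-- the coefficient of a vertex in a block -/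
noncomputable def cf (k : ℕ) (a : Option Tr) (v : Tr) : ℝ :=
  ∑ α : Wk k, if α.1 ++ bse a = v then wt k a α else 0

theorem wt_nonneg (k : ℕ) (a : Option Tr) (α : Wk k) : 0 ≤ wt k a α := by
  rcases a with _ | u
  · exact Real.sqrt_nonneg _
  · exact Real.sqrt_nonneg _

theorem cf_nonneg (k : ℕ) (a : Option Tr) (v : Tr) : 0 ≤ cf k a v := by
  classical
  refine Finset.sum_nonneg fun α _ => ?_
  split_ifs
  · exact wt_nonneg _ _ _
  · exact le_rfl

theorem cf_eq (k : ℕ) (a : Option Tr) (α : Wk k) : cf k a (α.1 ++ bse a) = wt k a α := by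
  classical
  rw [cf, Finset.sum_eq_single α]
  · rw [if_pos rfl]
  · intro β _ h
    rw [if_neg]
    intro h'
    exact h (Subtype.ext (List.append_cancel_right h'))
  · intro h; exact absurd (Finset.mem_univ _) h

theorem rhoB_adj_RB (k : ℕ) (a : Option Tr) (v : Tr) :
    rhoB k a (ContinuousLinearMap.adjoint (RB k a) (eb v)) = (cf k a v : ℂ) • eb v := by
  classical
  rw [rhoB_apply, cf]
  push_cast
  rw [Finset.sum_smul]
  refine Finset.sum_congr rfl fun α _ => ?_
  rw [adjoint_RB_apply, inner_eb_eb]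
  by_cases h : α.1 ++ bse a = v
  · rw [if_pos h, if_pos h, mul_one, h]
  · rw [if_neg h, if_neg h, mul_zero, zero_smul]
    simp

theorem norm_cpr_le' (k : ℕ) (a : Option Tr) (A : Op) : ‖cpr k a A‖ ≤ ‖A‖ := by
  have h1 := norm_rhoB_le k a
  have h2 : ‖ContinuousLinearMap.adjoint (rhoB k a)‖ ≤ 1 := by
    rw [LinearIsometryEquiv.norm_map]; exact h1
  calc ‖cpr k a A‖ ≤ ‖ContinuousLinearMap.adjoint (rhoB k a)‖ * ‖A.comp (rhoB k a)‖ :=
        ContinuousLinearMap.opNorm_comp_le _ _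
    _ ≤ 1 * (‖A‖ * 1) := by
        refine mul_le_mul h2 ?_ (norm_nonneg _) zero_le_one
        exact (ContinuousLinearMap.opNorm_comp_le _ _).trans
          (mul_le_mul_of_nonneg_left h1 (norm_nonneg _))
    _ = ‖A‖ := by ring

theorem bm_cpr (k : ℕ) (A : Op) : BM fun a => cpr k a A := ⟨‖A‖, fun a => norm_cpr_le' k a A⟩

theorem inner_cpr (k : ℕ) (a : Option Tr) (A : Op) (ξ η : EW k) :
    ⟪ξ, cpr k a A η⟫_ℂ = ⟪rhoB k a ξ, A (rhoB k a η)⟫_ℂ := by
  change ⟪ξ, ContinuousLinearMap.adjoint (rhoB k a) (A (rhoB k a η))⟫_ℂ = _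
  rw [ContinuousLinearMap.adjoint_inner_right]

theorem hasSum_entry {k : ℕ} (hk : 0 < k) (A : Op) (v w : Tr) :
    HasSum (fun a => (((cf k a v * cf k a w : ℝ) : ℂ)) * ⟪eb v, A (eb w)⟫_ℂ)
      ⟪eb v, syn k (fun a => cpr k a A) (eb w)⟫_ℂ := by
  have h := hasSum_syn hk (bm_cpr k A) (eb v) (eb w)
  have h2 : (fun a => ⟪ContinuousLinearMap.adjoint (RB k a) (eb v),
      cpr k a A (ContinuousLinearMap.adjoint (RB k a) (eb w))⟫_ℂ) =
      fun a => (((cf k a v * cf k a w : ℝ) : ℂ)) * ⟪eb v, A (eb w)⟫_ℂ := by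
    funext a
    rw [inner_cpr, rhoB_adj_RB, rhoB_adj_RB, map_smul, inner_smul_left, inner_smul_right,
      Complex.conj_ofReal]
    push_cast
    ring
  rw [h2] at h
  exact h

/-- the Schur multiplier -/
noncomputable def sk (k : ℕ) (v w : Tr) : ℝ := ∑' a, cf k a v * cf k a w

theorem norm_rk1_le (v w : Tr) : ‖((innerSL ℂ (eb w)).smulRight (eb v) : Op)‖ ≤ 1 := by
  refine ContinuousLinearMap.opNorm_le_bound _ zero_le_one fun f => ?_
  change ‖⟪eb w, f⟫_ℂ • eb v‖ ≤ _
  rw [norm_smul, norm_eb, mul_one, one_mul]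
  calc ‖⟪eb w, f⟫_ℂ‖ ≤ ‖eb w‖ * ‖f‖ := norm_inner_le_norm _ _
    _ = ‖f‖ := by rw [norm_eb, one_mul]

theorem sk_aux {k : ℕ} (hk : 0 < k) (v w : Tr) :
    HasSum (fun a => cf k a v * cf k a w) (sk k v w) ∧ |sk k v w| ≤ 1 := by
  set E : Op := (innerSL ℂ (eb w)).smulRight (eb v) with hE
  have h1 := hasSum_entry hk E v w
  have h2 : ⟪eb v, E (eb w)⟫_ℂ = 1 := by
    change ⟪eb v, ⟪eb w, eb w⟫_ℂ • eb v⟫_ℂ = 1
    rw [inner_eb_eb, if_pos rfl, one_smul, inner_eb_eb, if_pos rfl]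
  simp only [h2, mul_one] at h1
  have h3 := Complex.hasSum_re h1
  simp only [Complex.ofReal_re] at h3
  have h4 : sk k v w = (⟪eb v, syn k (fun a => cpr k a E) (eb w)⟫_ℂ).re := h3.tsum_eq
  refine ⟨by rw [h4]; exact h3, ?_⟩
  rw [h4]
  have h5 : ‖syn k (fun a => cpr k a E)‖ ≤ 1 :=
    norm_syn_le hk zero_le_one fun a => (norm_cpr_le' k a E).trans (norm_rk1_le v w)
  calc |(⟪eb v, syn k (fun a => cpr k a E) (eb w)⟫_ℂ).re|
      ≤ ‖⟪eb v, syn k (fun a => cpr k a E) (eb w)⟫_ℂ‖ := Complex.abs_re_le_norm _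
    _ ≤ ‖eb v‖ * ‖syn k (fun a => cpr k a E) (eb w)‖ := norm_inner_le_norm _ _
    _ ≤ 1 * (1 * ‖eb w‖) := by
        rw [norm_eb]
        exact mul_le_mul_of_nonneg_left ((syn k _).le_of_opNorm_le h5 _) zero_le_one
    _ = 1 := by rw [norm_eb]; norm_num

theorem entry_syn {k : ℕ} (hk : 0 < k) (A : Op) (v w : Tr) :
    ⟪eb v, syn k (fun a => cpr k a A) (eb w)⟫_ℂ = (sk k v w : ℂ) * ⟪eb v, A (eb w)⟫_ℂ := by
  have h1 := hasSum_entry hk A v w
  have h2 := ((Complex.hasSum_ofReal.2 (sk_aux hk v w).1)).mul_right ⟪eb v, A (eb w)⟫_ℂ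
  exact h1.unique h2

theorem cf_some {k : ℕ} (u α : Tr) (hα : α.length < k) :
    cf k (some u) (α ++ u) = √(1 / k) := by
  exact cf_eq k (some u) ⟨α, hα⟩

theorem cf_none {k : ℕ} (v : Tr) (hv : v.length < k) :
    cf k none v = √(((k : ℝ) - 1 - v.length) / k) := by
  have := cf_eq k none ⟨v, hv⟩
  simpa [wt] using this

theorem sk_lower {R k : ℕ} (hR : R < k) {v w : Tr} (h : Nr R v w) :
    1 - (R : ℝ) / k ≤ sk k v w := by
  classical
  have hk : 0 < k := by omega
  have hk' : (0 : ℝ) < k := by exact_mod_cast hk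
  obtain ⟨α, β, u, h1, h2, rfl, rfl⟩ := h
  have hs := (sk_aux hk (α ++ u) (β ++ u)).1
  set N := min (u.length + 1) (k - R) with hN
  -- the common blocks
  let S : Finset (Option Tr) := (Finset.range N).image fun j => some (u.drop j)
  have hinj : Set.InjOn (fun j => some (u.drop j)) (Finset.range N : Set ℕ) := by
    intro i hi j hj hij
    have hi' : i < N := Finset.mem_range.1 (Finset.mem_coe.1 hi)
    have hj' : j < N := Finset.mem_range.1 (Finset.mem_coe.1 hj)
    have := congrArg List.length (Option.some.inj hij)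
    rw [List.length_drop, List.length_drop] at this
    omega
  have hterm : ∀ j ∈ Finset.range N,
      cf k (some (u.drop j)) (α ++ u) * cf k (some (u.drop j)) (β ++ u) = 1 / k := by
    intro j hj
    have hj' : j < N := Finset.mem_range.1 hj
    have e1 : α ++ u = (α ++ u.take j) ++ u.drop j := by
      rw [List.append_assoc, List.take_append_drop]
    have e2 : β ++ u = (β ++ u.take j) ++ u.drop j := by
      rw [List.append_assoc, List.take_append_drop]
    have l1 : (α ++ u.take j).length < k := by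
      rw [List.length_append, List.length_take]; omega
    have l2 : (β ++ u.take j).length < k := by
      rw [List.length_append, List.length_take]; omega
    have c1 : cf k (some (u.drop j)) (α ++ u) = √(1 / k) := by
      rw [e1]; exact cf_some _ _ l1
    have c2 : cf k (some (u.drop j)) (β ++ u) = √(1 / k) := by
      rw [e2]; exact cf_some _ _ l2
    rw [c1, c2]
    exact Real.mul_self_sqrt (by positivity)
  have hsum : ∑ a ∈ S, cf k a (α ++ u) * cf k a (β ++ u) = N / k := by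
    rw [Finset.sum_image hinj, Finset.sum_congr rfl hterm, Finset.sum_const, Finset.card_range,
      nsmul_eq_mul]
    ring
  have hnn : ∀ a, 0 ≤ cf k a (α ++ u) * cf k a (β ++ u) := fun a =>
    mul_nonneg (cf_nonneg _ _ _) (cf_nonneg _ _ _)
  by_cases hc : k - R ≤ u.length + 1
  · have hN' : N = k - R := by omega
    have h3 := sum_le_hasSum S (fun a _ => hnn a) hs
    rw [hsum, hN', Nat.cast_sub hR.le] at h3
    calc 1 - (R : ℝ) / k = ((k : ℝ) - R) / k := by field_simp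
      _ ≤ _ := h3
  · have hN' : N = u.length + 1 := by omega
    have hnone : none ∉ S := by simp [S]
    have h3 := sum_le_hasSum (insert none S) (fun a _ => hnn a) hs
    rw [Finset.sum_insert hnone, hsum, hN'] at h3
    have l1 : (α ++ u).length < k := by rw [List.length_append]; omega
    have l2 : (β ++ u).length < k := by rw [List.length_append]; omega
    rw [cf_none _ l1, cf_none _ l2] at h3
    have hx : (0 : ℝ) ≤ (k : ℝ) - 1 - u.length - R := by
      have : u.length + 1 + R ≤ k := by omega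
      have h' : ((u.length + 1 + R : ℕ) : ℝ) ≤ k := by exact_mod_cast this
      push_cast at h'
      linarith
    have h1' : (α.length : ℝ) ≤ R := by exact_mod_cast h1
    have h2' : (β.length : ℝ) ≤ R := by exact_mod_cast h2
    have m1 : √(((k : ℝ) - 1 - u.length - R) / k) ≤ √(((k : ℝ) - 1 - (α ++ u).length) / k) := by
      apply Real.sqrt_le_sqrt
      rw [List.length_append]
      push_cast
      refine div_le_div_of_nonneg_right ?_ hk'.le
      linarith
    have m2 : √(((k : ℝ) - 1 - u.length - R) / k) ≤ √(((k : ℝ) - 1 - (β ++ u).length) / k) := by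
      apply Real.sqrt_le_sqrt
      rw [List.length_append]
      push_cast
      refine div_le_div_of_nonneg_right ?_ hk'.le
      linarith
    have m3 := mul_le_mul m1 m2 (Real.sqrt_nonneg _) (Real.sqrt_nonneg _)
    rw [Real.mul_self_sqrt (by positivity)] at m3
    refine le_trans ?_ (le_trans (add_le_add_left m3 _) h3)
    push_cast
    rw [← add_div]
    apply le_of_eq
    field_simp
    ring

theorem cpr_sub (k : ℕ) (a : Option Tr) (A B : Op) : cpr k a (A - B) = cpr k a A - cpr k a B := by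
  ext1 ξ
  change ContinuousLinearMap.adjoint (rhoB k a) (A (rhoB k a ξ) - B (rhoB k a ξ)) = _
  rw [map_sub]; rfl

end SynNearAux

open SynNearAux

theorem norm_cpr_le (k : ℕ) (a : Option Tr) (A : Op) : ‖cpr k a A‖ ≤ ‖A‖ :=
  norm_cpr_le' k a A

theorem continuous_cpr (k : ℕ) (a : Option Tr) {Y : Type*} [TopologicalSpace Y] {F : Y → Op}
    (hF : SCont F) : Continuous fun y => cpr k a (F y) := by
  rw [continuous_clm_apply]
  intro ξ
  change Continuous fun y => ContinuousLinearMap.adjoint (rhoB k a) (F y (rhoB k a ξ))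
  exact (ContinuousLinearMap.adjoint (rhoB k a)).continuous.comp (hF.cont _)

theorem cpr_pos (k : ℕ) (a : Option Tr) {n : ℕ} (A : Fin n → Op) (ξ : Fin n → EW k) :
    ∑ i, ∑ j, ⟪ξ i, cpr k a (star (A i) * A j) (ξ j)⟫_ℂ =
      ((‖∑ j, A j (rhoB k a (ξ j))‖ ^ 2 : ℝ) : ℂ) := by
  have h1 : ∀ i j, ⟪ξ i, cpr k a (star (A i) * A j) (ξ j)⟫_ℂ =
      ⟪A i (rhoB k a (ξ i)), A j (rhoB k a (ξ j))⟫_ℂ := by
    intro i j
    rw [inner_cpr, mul_apply', inner_star_right]
  simp only [h1, ← inner_sum, ← sum_inner]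
  rw [inner_self_eq_norm_sq_to_K]
  push_cast
  rfl

theorem near_FP (R : ℕ) : ∃ K : ℝ, 0 ≤ K ∧ ∀ (k : ℕ) (A : Op), R < k → FP R A →
    ‖syn k (fun a => cpr k a A) - A‖ ≤ K / k * ‖A‖ := by
  obtain ⟨K, hK, hK'⟩ := norm_le_of_entries R
  refine ⟨K * R, by positivity, fun k A hR hA => ?_⟩
  have hk : 0 < k := by omega
  have hk' : (0 : ℝ) < k := by exact_mod_cast hk
  have he : ∀ v w, ⟪eb v, (syn k (fun a => cpr k a A) - A) (eb w)⟫_ℂ =
      ((sk k v w - 1 : ℝ) : ℂ) * ⟪eb v, A (eb w)⟫_ℂ := by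
    intro v w
    change ⟪eb v, syn k (fun a => cpr k a A) (eb w) - A (eb w)⟫_ℂ = _
    rw [inner_sub_right, entry_syn hk]
    push_cast
    ring
  have h1 : FP R (syn k (fun a => cpr k a A) - A) := by
    intro v w hn
    rw [he, hA v w hn, mul_zero]
  have h2 := hK' _ ((R : ℝ) / k * ‖A‖) (by positivity) h1 fun v w => by
    rw [he]
    by_cases hn : Nr R v w
    · rw [norm_mul, Complex.norm_real, Real.norm_eq_abs]
      have h3 := sk_lower hR hn
      have h4 := (abs_le.1 (sk_aux hk v w).2).2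
      have h5 : |sk k v w - 1| ≤ (R : ℝ) / k := by
        rw [abs_le]
        constructor
        · linarith
        · have : (0 : ℝ) ≤ (R : ℝ) / k := by positivity
          linarith
      refine mul_le_mul h5 ?_ (norm_nonneg _) (by positivity)
      calc ‖⟪eb v, A (eb w)⟫_ℂ‖ ≤ ‖eb v‖ * ‖A (eb w)‖ := norm_inner_le_norm _ _
        _ ≤ 1 * (‖A‖ * ‖eb w‖) := by
            rw [norm_eb]
            exact mul_le_mul_of_nonneg_left (A.le_opNorm _) zero_le_one
        _ = ‖A‖ := by rw [norm_eb]; ring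
    · rw [hA v w hn, mul_zero, norm_zero]
      positivity
  calc ‖syn k (fun a => cpr k a A) - A‖ ≤ K * ((R : ℝ) / k * ‖A‖) := h2
    _ = K * R / k * ‖A‖ := by ring

theorem InN.near {f : BB} (hf : InN f) {ε : ℝ} (hε : 0 < ε) :
    ∃ k₀ : ℕ, ∀ k, k₀ ≤ k → ∀ x, ‖syn k (fun a => cpr k a (f.fn x)) - f.fn x‖ ≤ ε := by
  obtain ⟨R, g, hg, hfg⟩ := hf (ε / 4) (by positivity)
  obtain ⟨K, hK, hK'⟩ := near_FP R
  obtain ⟨k₁, hk₁⟩ := exists_nat_gt (K * ‖g‖ / (ε / 2))
  refine ⟨max (R + 1) k₁, fun k hk x => ?_⟩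
  have hRk : R < k := lt_of_lt_of_le (Nat.lt_succ_self R) ((le_max_left _ _).trans hk)
  have hk0 : 0 < k := by omega
  have hk0' : (0 : ℝ) < k := by exact_mod_cast hk0
  have hk1 : (k₁ : ℝ) ≤ k := by exact_mod_cast (le_max_right _ _).trans hk
  have e1 : syn k (fun a => cpr k a (f.fn x)) =
      syn k (fun a => cpr k a (f.fn x - g.fn x)) + syn k (fun a => cpr k a (g.fn x)) := by
    rw [← syn_add hk0 (bm_cpr k _) (bm_cpr k _)]
    congr 1
    funext a
    rw [cpr_sub]; abel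
  have hx : ‖f.fn x - g.fn x‖ ≤ ε / 4 := by
    rw [← BB.fn_sub]
    exact (BB.norm_fn_le _ x).trans hfg
  have h1 : ‖syn k (fun a => cpr k a (f.fn x - g.fn x))‖ ≤ ε / 4 :=
    norm_syn_le hk0 (by positivity) fun a => (norm_cpr_le' _ _ _).trans hx
  have h2 : ‖syn k (fun a => cpr k a (g.fn x)) - g.fn x‖ ≤ ε / 2 := by
    refine (hK' k _ hRk (hg x)).trans ?_
    have h3 : K * ‖g‖ ≤ k * (ε / 2) := by
      have := (div_lt_iff₀ (by positivity)).1 hk₁
      nlinarith
    calc K / k * ‖g.fn x‖ ≤ K / k * ‖g‖ := by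
          have := BB.norm_fn_le g x
          gcongr
      _ = K * ‖g‖ / k := by ring
      _ ≤ ε / 2 := by
          rw [div_le_iff₀ hk0']
          linarith
  have e2 : syn k (fun a => cpr k a (f.fn x)) - f.fn x =
      syn k (fun a => cpr k a (f.fn x - g.fn x)) +
        (syn k (fun a => cpr k a (g.fn x)) - g.fn x) - (f.fn x - g.fn x) := by
    rw [e1]; abel
  rw [e2]
  calc _ ≤ ‖syn k (fun a => cpr k a (f.fn x - g.fn x)) +
        (syn k (fun a => cpr k a (g.fn x)) - g.fn x)‖ + ‖f.fn x - g.fn x‖ := norm_sub_le _ _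
    _ ≤ (‖syn k (fun a => cpr k a (f.fn x - g.fn x))‖ +
        ‖syn k (fun a => cpr k a (g.fn x)) - g.fn x‖) + ‖f.fn x - g.fn x‖ := by
        gcongr; exact norm_add_le _ _
    _ ≤ ε := by linarith

end Pool.Agent.Lib.Eln
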