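import Pool.Agent.Lib.Eln.NucPsi
import Pool.Agent.Lib.Eln.SynNear
import Pool.Agent.Lib.Eln.Samp
import Pool.Agent.Lib.Eln.CPlib

set_option autoImplicit false

/-!
MODULE Eln.NucKM (uses NucPsi, SynNear, Syn, Samp, CPlib (black boxes), StN and what it imports).

The nuclear block is nuclear.

PROOF.  Apply `nuclear_of_family`.  Let F : Finset KM, ε > 0.
(1) n > 0 with ‖g(t) - g(s)‖ ≤ ε/5 for |t - s| ≤ 1/n and g ∈ F (uniform continuity of g.val.at' on the compact
  I, F finite).  Nodes t_i = i/n ∈ I, i : Fin (n + 1).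
(2) Base fields: bf i g x := star (vv n i x) * (g.val.at' t_i).fn x * vv n i x.  It is (the fn of) an element of
  BB satisfying InN: for i = 0 it is star (cst (V ee)) * g(0) * cst (V ee); for 0 < i < n it is g(t_i); for
  i = n it is x ↦ V(x none)^* g(1)(x) V(x none): SCont, invariant (phases cancel, V_rot), and it is a
  limit of fields of finite propagation as conjugation with V (x none) preserves FP (up to + 2) and is
  contractive.  Moreover vv n i x * bf i g x * star (vv n i x) = g(t_i)(x): for i = 0 by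
  `InB0.eq` (g(0)(x) = V ee * c * star (V ee)) and for i = n by `InB1.eq`; bf 0 g x = cf0 (g(0)) (pa x) depends on
  pa x only, bf n g x = cf1 (g(1)) (pb x) on pb x only.
(3) k from `InN.near` with ε/5 for all the finitely many bf i g, g ∈ F (take the max of the k₀ and 1).
(4) For every i: Θ_i : Option Tr × XX → (F → MatC (Wk k)), Θ_i (a, x) g = cpr k a (bf i g x), bounded; the target
  (functions on the finite type ↥F) is a finite dimensional real normed space.  `exists_sampling` with ε/5 gives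
  L i, points (a_l, x_l), κ' i l.  κ i l a x := κ' i l (Θ_i (a, x)); continuous in x by `continuous_cpr`; the other
  hypotheses of `exists_psi` follow from (2).
(5) Λ = Σ i, L i, W = Wk k, φ ⟨i, l⟩ g = cpr k a_l (bf i g x_l) (linear in g ∈ KM, contractive by `norm_cpr_le`,
  positivity by `cpr_pos` with A_i = a_i(t_i)(x_l) * vv n i x_l), ψ from `exists_psi`.
(6) Estimate for g ∈ F: pointwise at (t, x), using ∑_i hat n i t = 1 (`sum_hat`),
  ‖(ψ φ g)(t)(x) - g(t)(x)‖ ≤ ∑_i hat n i t * ‖vv n i x * syn k (..) * star (vv n i x) - g(t)(x)‖; if hat n i t ≠ 0 then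
  |t - t_i| < 1/n so ‖g(t_i) - g(t)‖ ≤ ε/5; and
  ‖syn k (a ↦ ∑_l κ i l a x • φ ⟨i,l⟩ g) - bf i g x‖ ≤
  ‖syn k (a ↦ ∑_l κ i l a x • (φ ⟨i,l⟩ g - cpr k a (bf i g x)))‖ + ‖syn k (cpr k · (bf i g x)) - bf i g x‖ ≤ ε/5 + ε/5,
  because κ i l a x ≠ 0 implies ‖Θ_i (a, x) - Θ_i (a_l, x_l)‖ < ε/5 (`norm_syn_le`, `syn_sub`).
  So the total is ≤ 3ε/5 < ε (norms: BB.norm_le, II.norm_le, KM.norm_val).
-/

open scoped InnerProductSpace unitInterval

namespace Pool.Agent.Lib.Eln

namespace NucKMAux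

open Pool.Agent.Lib.P81d4f5 (S3)

/-! ### the twisting isometries -/

theorem vv_zero (n : ℕ) (x : XX) : vv n 0 x = V ee := by
  simp [vv]

theorem vv_last {n : ℕ} (hn : 0 < n) (x : XX) : vv n n x = V (x none) := by
  simp [vv, hn.ne']

theorem vv_mid {n i : ℕ} (h0 : i ≠ 0) (hn : i ≠ n) (x : XX) : vv n i x = 1 := by
  simp [vv, h0, hn]

theorem star_vv_mul (n i : ℕ) (x : XX) : star (vv n i x) * vv n i x = 1 := by
  unfold vv
  split_ifs
  · exact star_V_mul_V _
  · exact star_V_mul_V _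
  · simp

theorem norm_vv_le (n i : ℕ) (x : XX) : ‖vv n i x‖ ≤ 1 := Par.norm_le_one_of (star_vv_mul n i x)

theorem scont_vv (n i : ℕ) : SCont fun x => vv n i x := by
  unfold vv
  split_ifs
  · exact SCont.const _
  · exact SCont.V (continuous_apply none)
  · exact SCont.const _

theorem FP_vv (n i : ℕ) (x : XX) : FP 1 (vv n i x) := by
  unfold vv
  split_ifs
  · exact FP.V _
  · exact FP.V _
  · exact FP.one 1

theorem circle_star_mul (z : Circle) : star (z : ℂ) * (z : ℂ) = 1 := by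
  have := circle_pow_mul_star z 1
  rw [pow_one] at this
  rw [mul_comm]
  exact this

theorem conj_rot (n i : ℕ) (c : Ix) (z : Circle) (x : XX) (A : Op) :
    star (vv n i (rotAt c z x)) * A * vv n i (rotAt c z x) = star (vv n i x) * A * vv n i x := by
  unfold vv
  split_ifs
  · rfl
  · by_cases hc : c = none
    · subst hc
      rw [rotAt_self, V_rot, star_smul, smul_mul_assoc, smul_mul_assoc, mul_smul_comm, smul_smul,
        circle_star_mul, one_smul]
    · rw [rotAt_of_ne (Ne.symm hc)]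
  · rfl

theorem isF_cj (n i : ℕ) (f : BB) : IsF fun x => star (vv n i x) * f.fn x * vv n i x :=
  ⟨((scont_vv n i).star.mul f.scont).mul (scont_vv n i), fun c z x => by
    rw [BB.inv, conj_rot]⟩

/-- conjugation with the twisting isometries -/
noncomputable def cj (n i : ℕ) (f : BB) : BB := BB.mk _ (isF_cj n i f)

theorem fn_cj (n i : ℕ) (f : BB) (x : XX) :
    (cj n i f).fn x = star (vv n i x) * f.fn x * vv n i x := rfl

theorem norm_star_conj_le {A B : Op} (hA : ‖A‖ ≤ 1) : ‖star A * B * A‖ ≤ ‖B‖ := by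
  have h : ‖star A‖ ≤ 1 := by rw [norm_star]; exact hA
  have := Par.norm_conj_le (A := star A) (B := B) h
  rwa [star_star] at this

theorem norm_fn_cj_le (n i : ℕ) (f : BB) (x : XX) : ‖(cj n i f).fn x‖ ≤ ‖f‖ := by
  rw [fn_cj]
  exact (norm_star_conj_le (norm_vv_le n i x)).trans (BB.norm_fn_le f x)

theorem inN_cj (n i : ℕ) {f : BB} (hf : InN f) : InN (cj n i f) := by
  intro ε hε
  obtain ⟨R, g, h1, h2⟩ := hf ε hε
  refine ⟨1 + R + 1, cj n i g, fun x => ?_, ?_⟩
  · rw [fn_cj]
    exact ((FP_vv n i x).star.mul (h1 x)).mul (FP_vv n i x)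
  · apply BB.norm_le hε.le
    intro x
    have h3 : (cj n i f - cj n i g).fn x = star (vv n i x) * (f - g).fn x * vv n i x := by
      rw [BB.fn_sub, fn_cj, fn_cj, BB.fn_sub]
      noncomm_ring
    rw [h3]
    exact (norm_star_conj_le (norm_vv_le n i x)).trans ((BB.norm_fn_le _ _).trans h2)

/-- the nodes -/
noncomputable def nd {n : ℕ} (hn : 0 < n) (i : Fin (n + 1)) : I :=
  ⟨(i : ℝ) / n, by positivity, by
    rw [div_le_one (by exact_mod_cast hn)]
    exact_mod_cast Nat.lt_succ_iff.1 i.2⟩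

theorem nd_zero {n : ℕ} (hn : 0 < n) : nd hn 0 = 0 := by
  apply Subtype.ext
  simp [nd]

theorem nd_last {n : ℕ} (hn : 0 < n) : nd hn (Fin.last n) = 1 := by
  apply Subtype.ext
  have : (n : ℝ) ≠ 0 := by exact_mod_cast hn.ne'
  simp [nd, this]

/-- the conjugation is inverted at the nodes -/
theorem conj_cj {n : ℕ} (hn : 0 < n) (i : Fin (n + 1)) (g : II) (x : XX) :
    vv n i x * (cj n i (g.at' (nd hn i))).fn x * star (vv n i x) = (g.at' (nd hn i)).fn x := by
  rw [fn_cj]
  by_cases h0 : (i : ℕ) = 0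
  · have hi : i = 0 := Fin.ext h0
    subst hi
    rw [nd_zero]
    have h1 := g.mem0.eq x
    simp only [Fin.val_zero, vv_zero]
    rw [h1]
    rw [star_V_VcV_V]
  · by_cases hl : (i : ℕ) = n
    · have hi : i = Fin.last n := Fin.ext hl
      subst hi
      rw [nd_last]
      have h1 := g.mem1.eq x
      simp only [Fin.val_last, vv_last hn]
      rw [h1]
      rw [star_V_VcV_V]
    · rw [vv_mid h0 hl]
      simp

theorem cj_zero {n : ℕ} (hn : 0 < n) (g : II) (x : XX) :
    (cj n ((0 : Fin (n + 1)) : ℕ) (g.at' (nd hn 0))).fn x =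
      (cj n ((0 : Fin (n + 1)) : ℕ) (g.at' (nd hn 0))).fn (mkx (pa x) (fun _ => ee) ee) := by
  rw [fn_cj, fn_cj, nd_zero, g.mem0.eq x, g.mem0.eq (mkx (pa x) (fun _ => ee) ee)]
  simp only [Fin.val_zero, vv_zero, pa_mkx]

theorem cj_last {n : ℕ} (hn : 0 < n) (g : II) (x : XX) :
    (cj n ((Fin.last n : Fin (n + 1)) : ℕ) (g.at' (nd hn (Fin.last n)))).fn x =
      (cj n ((Fin.last n : Fin (n + 1)) : ℕ) (g.at' (nd hn (Fin.last n)))).fn
        (mkx (fun _ => ee) (pb x) ee) := by
  rw [fn_cj, fn_cj, nd_last, g.mem1.eq x, g.mem1.eq (mkx (fun _ => ee) (pb x) ee)]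
  simp only [Fin.val_last, vv_last hn, pb_mkx, mkx_none, star_V_VcV_V]

/-- the compression as a linear map -/
noncomputable def ph {n : ℕ} (hn : 0 < n) (k : ℕ) (i : Fin (n + 1)) (ax : Option Tr × XX) :
    KM →ₗ[ℂ] MatC (Wk k) where
  toFun g := cpr k ax.1 ((cj n i (g.val.at' (nd hn i))).fn ax.2)
  map_add' f g := by
    rw [← cpr_add]
    congr 1
    simp only [fn_cj, KM.val_add, II.at'_add, BB.fn_add]
    noncomm_ring
  map_smul' c f := by
    rw [RingHom.id_apply, ← cpr_smul]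
    congr 1
    simp only [fn_cj, KM.val_smul, II.at'_smul, BB.fn_smul, mul_smul_comm, smul_mul_assoc]

theorem ph_apply {n : ℕ} (hn : 0 < n) (k : ℕ) (i : Fin (n + 1)) (ax : Option Tr × XX) (g : KM) :
    ph hn k i ax g = cpr k ax.1 ((cj n i (g.val.at' (nd hn i))).fn ax.2) := rfl

theorem norm_ph_le {n : ℕ} (hn : 0 < n) (k : ℕ) (i : Fin (n + 1)) (ax : Option Tr × XX) (g : KM) :
    ‖ph hn k i ax g‖ ≤ ‖g‖ := by
  rw [ph_apply]
  refine (norm_cpr_le _ _ _).trans ((norm_fn_cj_le _ _ _ _).trans ?_)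
  rw [← KM.norm_val]
  exact II.norm_at'_le _ _

theorem ph_pos {n : ℕ} (hn : 0 < n) (k : ℕ) (i : Fin (n + 1)) (ax : Option Tr × XX)
    {N : ℕ} (a : Fin N → KM) (ξ : Fin N → EuclideanSpace ℂ (Wk k)) : ∃ r : ℝ, 0 ≤ r ∧
      ∑ p, ∑ q, ⟪ξ p, ph hn k i ax (star (a p) * a q) (ξ q)⟫_ℂ = (r : ℂ) := by
  refine ⟨‖∑ q, (((a q).val.at' (nd hn i)).fn ax.2 * vv n i ax.2) (rhoB k ax.1 (ξ q))‖ ^ 2,
    by positivity, ?_⟩
  · have h := cpr_pos k ax.1 (fun p => ((a p).val.at' (nd hn i)).fn ax.2 * vv n i ax.2) ξ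
    refine Eq.trans ?_ h
    refine Finset.sum_congr rfl fun p _ => Finset.sum_congr rfl fun q _ => ?_
    rw [ph_apply]
    congr 4
    simp only [fn_cj, KM.val_mul, KM.val_star, II.at'_mul, II.at'_star, BB.fn_mul, BB.fn_star,
      star_mul]
    simp only [mul_assoc]

/-! ### the approximation at a node -/

theorem node_est {k : ℕ} (hk : 0 < k) {L : Type} [Fintype L] {ε : ℝ}
    (A : Op) (B : L → MatC (Wk k)) (κ : L → Option Tr → ℝ) (h0 : ∀ l a, 0 ≤ κ l a)
    (h1 : ∀ a, ∑ l, κ l a = 1) (hε : 0 ≤ ε)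
    (h2 : ∀ l a, κ l a ≠ 0 → ‖cpr k a A - B l‖ ≤ ε)
    (h3 : ‖syn k (fun a => cpr k a A) - A‖ ≤ ε) :
    ‖syn k (fun a => ∑ l, (κ l a : ℂ) • B l) - A‖ ≤ ε + ε := by
  have hb1 : BM fun a : Option Tr => cpr k a A := ⟨‖A‖, fun a => norm_cpr_le k a A⟩
  have hsum : ∀ a, ∑ l, (κ l a : ℂ) • B l - cpr k a A = ∑ l, (κ l a : ℂ) • (B l - cpr k a A) := by
    intro a
    simp only [smul_sub, Finset.sum_sub_distrib, ← Finset.sum_smul]
    rw [← Complex.ofReal_sum, h1 a, Complex.ofReal_one, one_smul]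
  have hd : ∀ a, ‖∑ l, (κ l a : ℂ) • B l - cpr k a A‖ ≤ ε := by
    intro a
    rw [hsum a]
    calc ‖∑ l, (κ l a : ℂ) • (B l - cpr k a A)‖ ≤ ∑ l, ‖(κ l a : ℂ) • (B l - cpr k a A)‖ :=
          norm_sum_le _ _
      _ ≤ ∑ l, κ l a * ε := by
          refine Finset.sum_le_sum fun l _ => ?_
          rw [norm_smul, Complex.norm_real, Real.norm_eq_abs, abs_of_nonneg (h0 l a)]
          by_cases h : κ l a = 0
          · rw [h, zero_mul, zero_mul]
          · have := h2 l a h
            rw [norm_sub_rev] at this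
            exact mul_le_mul_of_nonneg_left this (h0 l a)
      _ = ε := by rw [← Finset.sum_mul, h1 a, one_mul]
  have hb2 : BM fun a : Option Tr => ∑ l, (κ l a : ℂ) • B l := by
    refine ⟨‖A‖ + ε, fun a => ?_⟩
    have e1 : ∑ l, (κ l a : ℂ) • B l = cpr k a A + (∑ l, (κ l a : ℂ) • B l - cpr k a A) := by abel
    change ‖∑ l, (κ l a : ℂ) • B l‖ ≤ ‖A‖ + ε
    rw [e1]
    exact (norm_add_le _ _).trans (add_le_add (norm_cpr_le k a A) (hd a))
  have e2 : syn k (fun a => ∑ l, (κ l a : ℂ) • B l) - A =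
      syn k (fun a => ∑ l, (κ l a : ℂ) • B l - cpr k a A) +
        (syn k (fun a => cpr k a A) - A) := by
    rw [syn_sub hk hb2 hb1]
    abel
  rw [e2]
  exact (norm_add_le _ _).trans (add_le_add (norm_syn_le hk hε hd) h3)

end NucKMAux

open NucKMAux

theorem nuclear_KM : Nuclear KM := by
  classical
  apply nuclear_of_family
  intro F ε hε
  have hε5 : 0 < ε / 5 := by positivity
  -- (1)
  obtain ⟨n, hn, hunif⟩ : ∃ n : ℕ, 0 < n ∧ ∀ g ∈ F, ∀ t s : I, |(t : ℝ) - s| ≤ 1 / n →
      ‖g.val.at' t - g.val.at' s‖ ≤ ε / 5 := by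
    have h1 : ∀ g ∈ F, ∀ᶠ n : ℕ in Filter.atTop, ∀ t s : I, |(t : ℝ) - s| ≤ 1 / n →
        ‖g.val.at' t - g.val.at' s‖ ≤ ε / 5 := by
      intro g _
      have huc : UniformContinuous g.val.at' :=
        CompactSpace.uniformContinuous_of_continuous g.val.continuous_at'
      obtain ⟨δ, hδ, hd⟩ := Metric.uniformContinuous_iff.1 huc (ε / 5) hε5
      have h2 : ∀ᶠ n : ℕ in Filter.atTop, 1 / (n : ℝ) < δ :=
        (tendsto_one_div_atTop_nhds_zero_nat).eventually_lt_const hδ
      filter_upwards [h2] with n hn t s hts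
      have h3 : dist t s < δ := by
        rw [Subtype.dist_eq, Real.dist_eq]
        exact lt_of_le_of_lt hts hn
      have h4 := hd h3
      rw [dist_eq_norm] at h4
      exact h4.le
    have h2 := (Filter.eventually_all_finset F).2 h1
    obtain ⟨n, h3, h4⟩ := (h2.and (Filter.eventually_gt_atTop 0)).exists
    exact ⟨n, h4, h3⟩
  -- (3)
  obtain ⟨k, hk, hnear⟩ : ∃ k : ℕ, 0 < k ∧ ∀ i : Fin (n + 1), ∀ g ∈ F, ∀ x,
      ‖syn k (fun a => cpr k a ((cj n i (g.val.at' (nd hn i))).fn x)) -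
        (cj n i (g.val.at' (nd hn i))).fn x‖ ≤ ε / 5 := by
    have h1 : ∀ i : Fin (n + 1), ∀ g ∈ F, ∀ᶠ k : ℕ in Filter.atTop, ∀ x,
      ‖syn k (fun a => cpr k a ((cj n i (g.val.at' (nd hn i))).fn x)) -
        (cj n i (g.val.at' (nd hn i))).fn x‖ ≤ ε / 5 := by
      intro i g _
      obtain ⟨k₀, h⟩ := (inN_cj n i (g.inM (nd hn i))).near hε5
      exact Filter.eventually_atTop.2 ⟨k₀, h⟩
    have h2 := Filter.eventually_all.2 fun i => (Filter.eventually_all_finset F).2 (h1 i)
    obtain ⟨k, h3, h4⟩ := (h2.and (Filter.eventually_gt_atTop 0)).exists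
    exact ⟨k, h4, h3⟩
  -- (4)
  let Th : Fin (n + 1) → Option Tr × XX → (F → MatC (Wk k)) := fun i ax g => ph hn k i ax g.1
  have hThB : ∀ i ax, ‖Th i ax‖ ≤ ∑ g ∈ F, ‖g‖ := by
    intro i ax
    rw [pi_norm_le_iff_of_nonneg (Finset.sum_nonneg fun g _ => norm_nonneg g)]
    intro g
    exact (norm_ph_le hn k i ax g.1).trans
      (Finset.single_le_sum (f := fun g : KM => ‖g‖) (fun g _ => norm_nonneg g) g.2)
  have hsamp : ∀ i : Fin (n + 1), ∃ (L : Type) (_ : Fintype L) (y : L → Option Tr × XX)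
      (κ : L → (F → MatC (Wk k)) → ℝ),
      (∀ l, Continuous (κ l)) ∧ (∀ l e, 0 ≤ κ l e) ∧ (∀ z, ∑ l, κ l (Th i z) = 1) ∧
      ∀ l z, κ l (Th i z) ≠ 0 → ‖Th i z - Th i (y l)‖ < ε / 5 := fun i =>
    @exists_sampling (Option Tr × XX) (F → MatC (Wk k)) _ NormedSpace.complexToReal
      (FiniteDimensional.complexToReal _) (Th i) _ (hThB i) _ hε5
  choose L hL y κ' hκc hκ0 hκ1 hκd using hsamp
  let κ : (i : Fin (n + 1)) → L i → Option Tr → XX → ℝ := fun i l a x => κ' i l (Th i (a, x))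
  have hThc : ∀ i a, Continuous fun x => Th i (a, x) := by
    intro i a
    apply continuous_pi
    intro g
    exact continuous_cpr k a (cj n i (g.1.val.at' (nd hn i))).scont
  obtain ⟨ψ, hψ1, hψ2, hψ3⟩ := exists_psi hn hk κ (fun i l a => (hκc i l).comp (hThc i a))
    (fun i l a x => hκ0 i l _) (fun i a x => hκ1 i (a, x))
    (fun i l a c z x => by
      have : Th i (a, rotAt c z x) = Th i (a, x) := by
        funext g
        change cpr k a _ = cpr k a _
        rw [BB.inv]
      change κ' i l _ = κ' i l _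
      rw [this])
    (fun l a x => by
      have : Th 0 (a, x) = Th 0 (a, mkx (pa x) (fun _ => ee) ee) := by
        funext g
        change cpr k a _ = cpr k a _
        rw [cj_zero hn g.1.val x]
      change κ' 0 l _ = κ' 0 l _
      rw [this])
    (fun l a x => by
      have : Th (Fin.last n) (a, x) = Th (Fin.last n) (a, mkx (fun _ => ee) (pb x) ee) := by
        funext g
        change cpr k a _ = cpr k a _
        rw [cj_last hn g.1.val x]
      change κ' (Fin.last n) l _ = κ' (Fin.last n) l _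
      rw [this])
  refine ⟨Σ i, L i, inferInstance, Wk k, inferInstance, fun il => ph hn k il.1 (y il.1 il.2), ψ,
    fun il N a ξ => ph_pos hn k il.1 _ a ξ, fun il a => norm_ph_le hn k il.1 _ a, hψ3, hψ2, ?_⟩
  -- (6)
  intro g hg
  have hmain : ‖ψ (fun il => ph hn k il.1 (y il.1 il.2) g) - g‖ ≤ 3 * (ε / 5) := by
    rw [← KM.norm_val]
    apply II.norm_le (by positivity)
    intro t
    apply BB.norm_le (by positivity)
    intro x
    rw [KM.val_sub, II.at'_sub, BB.fn_sub, hψ1]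
    have e1 : (g.val.at' t).fn x = ∑ i : Fin (n + 1), (hat n i t : ℂ) • (g.val.at' t).fn x := by
      rw [← Finset.sum_smul, ← Complex.ofReal_sum, sum_hat, Complex.ofReal_one, one_smul]
    rw [e1, ← Finset.sum_sub_distrib]
    refine (norm_sum_le _ _).trans ?_
    have h2 : ∀ i : Fin (n + 1), ‖(hat n i t : ℂ) •
        (vv n i x * syn k (fun a => ∑ l, (κ i l a x : ℂ) • ph hn k i (y i l) g) *
          star (vv n i x)) - (hat n i t : ℂ) • (g.val.at' t).fn x‖ ≤ hat n i t * (3 * (ε / 5)) := by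
      intro i
      have h0 : 0 ≤ hat n i t := le_max_left _ _
      rw [← smul_sub, norm_smul, Complex.norm_real, Real.norm_eq_abs, abs_of_nonneg h0]
      by_cases hz : hat n i t = 0
      · rw [hz, zero_mul, zero_mul]
      apply mul_le_mul_of_nonneg_left _ h0
      -- the node is near
      have hnear1 : ‖(g.val.at' (nd hn i)).fn x - (g.val.at' t).fn x‖ ≤ ε / 5 := by
        rw [← BB.fn_sub]
        refine (BB.norm_fn_le _ _).trans (hunif g hg _ _ ?_)
        have hn' : (0 : ℝ) < n := by exact_mod_cast hn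
        have h3 : |(n : ℝ) * t - i| < 1 := by
          by_contra hcon
          apply hz
          unfold hat
          rw [max_eq_left]
          linarith [not_lt.1 hcon]
        have h4 : ((nd hn i : I) : ℝ) - t = -((n : ℝ) * t - i) / n := by
          change (i : ℝ) / n - t = _
          field_simp
          ring
        rw [h4, abs_div, abs_neg, abs_of_pos hn']
        gcongr
      have h5 : ‖syn k (fun a => ∑ l, (κ i l a x : ℂ) • ph hn k i (y i l) g) -
          (cj n i (g.val.at' (nd hn i))).fn x‖ ≤ ε / 5 + ε / 5 := by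
        apply node_est hk _ (fun l => ph hn k i (y i l) g) (fun l a => κ i l a x)
          (fun l a => hκ0 i l _) (fun a => hκ1 i (a, x)) hε5.le
        · intro l a hla
          have h6 := hκd i l (a, x) hla
          have h7 := (norm_le_pi_norm (Th i (a, x) - Th i (y i l)) ⟨g, hg⟩).trans h6.le
          exact h7
        · exact hnear i g hg x
      have h8 : vv n i x * syn k (fun a => ∑ l, (κ i l a x : ℂ) • ph hn k i (y i l) g) *
          star (vv n i x) - (g.val.at' t).fn x =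
          vv n i x * (syn k (fun a => ∑ l, (κ i l a x : ℂ) • ph hn k i (y i l) g) -
            (cj n i (g.val.at' (nd hn i))).fn x) * star (vv n i x) +
          ((g.val.at' (nd hn i)).fn x - (g.val.at' t).fn x) := by
        rw [mul_sub, sub_mul, conj_cj hn i g.val x]
        abel
      rw [h8]
      refine (norm_add_le _ _).trans ?_
      have h9 := Par.norm_conj_le (A := vv n i x)
        (B := syn k (fun a => ∑ l, (κ i l a x : ℂ) • ph hn k i (y i l) g) -
            (cj n i (g.val.at' (nd hn i))).fn x) (norm_vv_le n i x)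
      linarith
    refine (Finset.sum_le_sum fun i _ => h2 i).trans ?_
    rw [← Finset.sum_mul, sum_hat, one_mul]
  linarith

end Pool.Agent.Lib.Eln
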