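import Pool.Agent.Lib.Eln.NucDefs
import Pool.Agent.Lib.Eln.CPcomp
import Pool.Agent.Lib.CStarLim.Limit

set_option autoImplicit false

/-!
MODULE Eln.NucLim (pure C*-algebra theory; uses NucDefs, CPcomp (black box: compositions of
completely positive maps), CStarLim/Limit.lean).

`nuclear_lim`: an inductive limit of nuclear algebras with completely positive contractive left
inverses E n of the connecting maps is nuclear.
PROOF.  For n ≤ k let E_{n,k} = E n ∘ ... ∘ E (k-1) : A k → A n (completely positive by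
`IsCP.comp`, contractive), E_{n,k+1} ∘ map k = E_{n,k}.  For
a ∈ s.Pre the sequence E_{n,k}(a.seq k) is eventually constant; this defines a linear contraction
on s.Pre (‖a‖ is the eventual value of ‖a.seq k‖) which extends to a linear contraction
P n : s.Lim → A n (completion, cf. `liftPreL`, `liftFun` in CStarLim/Limit.lean for the same
construction for homomorphisms; `IndSys.lim_induction` for density arguments) with
P n (s.ι k a) = E_{n,k} a for k ≥ n, in particular P n (s.ι n a) = a.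
P n is completely positive: for x_i = s.ι k a_i (all i at a common stage k ≥ n,
`exists_ι_norm_sub_lt_family`) ∑ b_i^* P n (x_i^* x_j) b_j = ∑ b_i^* E_{n,k}(a_i^* a_j) b_j is
of the form c^* c; in general by approximation: the set of positive elements (those of the form
c^* c, `CStarAlgebra.nonneg_iff_eq_star_mul_self`, `CStarAlgebra.isClosed_nonneg` or
`isClosed_nonneg`, `OrderClosedTopology`) of a C*-algebra is closed.
Now let F ⊆ s.Lim, ε > 0: choose n and a_x ∈ A n with ‖x - s.ι n a_x‖ < ε/3 for x ∈ F, (φ, ψ) for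
{a_x} and ε/3 from `hN n`, and φ' = φ ∘ P n (completely positive by `IsCP.comp`),
ψ' = s.ι n ∘ ψ: completely positive because for b_i ∈ s.Lim approximate them by s.ι k b_i' (k ≥ n) and use
star b' * s.gen n (ψ ..) k * b' computations, or: `IsCP.comp` with s.ι n, which is completely positive
as a homomorphism (∑ b_i^* ι(a_i^* a_j) b_j = (∑ ι(a_i) b_i)^* (∑ ι(a_j) b_j)).
‖ψ' φ' x - x‖ ≤ ‖ψ φ (P n x - a_x)‖ + ‖ψ φ a_x - a_x‖ + ‖ι a_x - x‖ < ε, where P n x - a_x =
P n (x - ι a_x).
-/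

open CStarLim

namespace Pool.Agent.Lib.Eln

open Filter Topology UniformSpace CStarLim.IndSys

lemma isCP_hom {A B : Type} [NonUnitalCStarAlgebra A] [NonUnitalCStarAlgebra B] (φ : A →ₗ[ℂ] B)
    (hm : ∀ a b, φ (a * b) = φ a * φ b) (hs : ∀ a, φ (star a) = star (φ a)) : IsCP φ := by
  intro n a b
  refine ⟨∑ i, φ (a i) * b i, ?_⟩
  rw [star_sum, Finset.sum_mul_sum]
  apply Finset.sum_congr rfl
  intro i _
  apply Finset.sum_congr rfl
  intro j _
  rw [hm, hs, star_mul]
  simp only [mul_assoc]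

lemma isClosed_sq (A : Type) [NonUnitalCStarAlgebra A] : IsClosed {y : A | ∃ c, y = star c * c} := by
  letI := CStarAlgebra.spectralOrder A
  haveI := CStarAlgebra.spectralOrderedRing A
  have h : {y : A | ∃ c, y = star c * c} = {y : A | 0 ≤ y} := by
    ext y
    exact (CStarAlgebra.nonneg_iff_eq_star_mul_self).symm
  rw [h]
  exact CStarAlgebra.isClosed_nonneg

section

variable {A : ℕ → Type} [∀ n, CStarAlgebra (A n)]

/-- Iterated retractions. -/
noncomputable def EE (E : ∀ n, A (n + 1) →ₗ[ℂ] A n) (n : ℕ) : ∀ j, A (n + j) →ₗ[ℂ] A n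
  | 0 => LinearMap.id
  | j + 1 => EE E n j ∘ₗ E (n + j)

lemma EE_succ (E : ∀ n, A (n + 1) →ₗ[ℂ] A n) (n j : ℕ) (a : A (n + j + 1)) :
    EE E n (j + 1) a = EE E n j (E (n + j) a) := rfl

lemma EE_cp {E : ∀ n, A (n + 1) →ₗ[ℂ] A n} (hcp : ∀ n, IsCP (E n)) (n j : ℕ) :
    IsCP (EE E n j) := by
  induction j with
  | zero => exact isCP_hom _ (fun _ _ => rfl) (fun _ => rfl)
  | succ j ih => exact IsCP.comp ih (hcp (n + j))

lemma EE_norm {E : ∀ n, A (n + 1) →ₗ[ℂ] A n} (hE : ∀ n a, ‖E n a‖ ≤ ‖a‖) (n j : ℕ)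
    (a : A (n + j)) : ‖EE E n j a‖ ≤ ‖a‖ := by
  induction j with
  | zero => exact le_rfl
  | succ j ih => exact (ih _).trans (hE _ _)

variable {s : IndSys A} {E : ∀ n, A (n + 1) →ₗ[ℂ] A n}

lemma exists_pre (hEm : ∀ n a, E n (s.map n a) = a) (n : ℕ) (a : s.Pre) :
    ∃ x, ∀ᶠ j in atTop, EE E n j (a.seq (n + j)) = x := by
  refine exists_evtl_of_step ?_
  have h1 := a.eventually_map
  have h2 : ∀ᶠ j in atTop, a.seq (n + j + 1) = s.map (n + j) (a.seq (n + j)) := by
    rw [eventually_atTop] at h1 ⊢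
    obtain ⟨N, hN⟩ := h1
    exact ⟨N, fun j hj => hN (n + j) (by omega)⟩
  filter_upwards [h2] with j hj
  show EE E n (j + 1) (a.seq (n + j + 1)) = _
  rw [EE_succ, hj, hEm]

/-- The retraction on the pre-limit. -/
noncomputable def preR (hEm : ∀ n a, E n (s.map n a) = a) (n : ℕ) (a : s.Pre) : A n :=
  evtl _ (exists_pre hEm n a)

lemma eventually_preR (hEm : ∀ n a, E n (s.map n a) = a) (n : ℕ) (a : s.Pre) :
    ∀ᶠ j in atTop, EE E n j (a.seq (n + j)) = preR hEm n a := evtl_spec _ (exists_pre hEm n a)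

lemma eventually_norm_shift (a : s.Pre) (n : ℕ) : ∀ᶠ j in atTop, ‖a.seq (n + j)‖ = ‖a‖ := by
  have h1 := a.eventually_norm
  rw [eventually_atTop] at h1 ⊢
  obtain ⟨N, hN⟩ := h1
  exact ⟨N, fun j hj => hN (n + j) (by omega)⟩

/-- The retraction on the pre-limit as a continuous linear map. -/
noncomputable def preRL (hE : ∀ n a, ‖E n a‖ ≤ ‖a‖) (hEm : ∀ n a, E n (s.map n a) = a) (n : ℕ) :
    s.Pre →L[ℂ] A n :=
  LinearMap.mkContinuous
    { toFun := preR hEm n
      map_add' := fun a b => by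
        obtain ⟨j, h1, h2, h3⟩ := ((eventually_preR hEm n a).and
          ((eventually_preR hEm n b).and (eventually_preR hEm n (a + b)))).exists
        rw [← h1, ← h2, ← h3, Pre.seq_add, map_add]
      map_smul' := fun c a => by
        obtain ⟨j, h1, h2⟩ := ((eventually_preR hEm n a).and
          (eventually_preR hEm n (c • a))).exists
        rw [← h1, ← h2, Pre.seq_smul, map_smul, RingHom.id_apply] } 1
    (fun a => by
      obtain ⟨j, h1, h2⟩ := ((eventually_preR hEm n a).and (eventually_norm_shift a n)).exists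
      change ‖preR hEm n a‖ ≤ 1 * ‖a‖
      rw [← h1, ← h2, one_mul]
      exact EE_norm hE n j _)

/-- The retraction on the limit as a function. -/
noncomputable def RF (hE : ∀ n a, ‖E n a‖ ≤ ‖a‖) (hEm : ∀ n a, E n (s.map n a) = a) (n : ℕ) :
    s.Lim → A n := Completion.extension (preRL hE hEm n)

lemma continuous_RF (hE : ∀ n a, ‖E n a‖ ≤ ‖a‖) (hEm : ∀ n a, E n (s.map n a) = a) (n : ℕ) :
    Continuous (RF (s := s) hE hEm n) := Completion.continuous_extension

lemma RF_ofPre (hE : ∀ n a, ‖E n a‖ ≤ ‖a‖) (hEm : ∀ n a, E n (s.map n a) = a) (n : ℕ)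
    (a : s.Pre) : RF hE hEm n (s.ofPre a) = preR hEm n a :=
  Completion.extension_coe (preRL (s := s) hE hEm n).uniformContinuous a

lemma RF_ι (hE : ∀ n a, ‖E n a‖ ≤ ‖a‖) (hEm : ∀ n a, E n (s.map n a) = a) (n j : ℕ)
    (a : A (n + j)) : RF hE hEm n (s.ι (n + j) a) = EE E n j a := by
  rw [ι_apply, RF_ofPre]
  obtain ⟨k, h1, h2⟩ := ((eventually_preR hEm n (s.toPre (n + j) a)).and
    (eventually_ge_atTop j)).exists
  rw [← h1, toPre_seq]
  clear h1
  induction k, h2 using Nat.le_induction with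
  | base => rw [gen_self]
  | succ k hk ih =>
    show EE E n (k + 1) (s.gen (n + j) a (n + k + 1)) = _
    rw [gen_succ (by omega : n + j ≤ n + k), EE_succ, hEm, ih]

/-- Induction with large stages. -/
lemma lim_induction_ge (n : ℕ) {P : s.Lim → Prop} (hc : IsClosed {x | P x})
    (hι : ∀ j a, P (s.ι (n + j) a)) (x : s.Lim) : P x := by
  refine lim_induction hc (fun k a => ?_) x
  rw [← ι_gen (s := s) k a (show k ≤ n + k by omega)]
  exact hι k _

/-- A family induction. -/
lemma lim_induction_family (n : ℕ) {κ : Type} [Finite κ] {P : (κ → s.Lim) → Prop}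
    (hc : IsClosed {x | P x}) (hι : ∀ j (a : κ → A (n + j)), P (fun i => s.ι (n + j) (a i)))
    (x : κ → s.Lim) : P x := by
  cases nonempty_fintype κ
  have h1 : x ∈ closure {x | P x} := by
    rw [Metric.mem_closure_iff]
    intro ε hε
    obtain ⟨k, hk, a, ha⟩ := exists_ι_norm_sub_lt_family x hε n
    obtain ⟨j, rfl⟩ := Nat.exists_eq_add_of_le hk
    refine ⟨_, hι j a, ?_⟩
    rw [dist_pi_lt_iff hε]
    intro i
    rw [dist_eq_norm]
    exact ha i
  rw [hc.closure_eq] at h1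
  exact h1

/-- The retraction on the limit. -/
noncomputable def RL (hE : ∀ n a, ‖E n a‖ ≤ ‖a‖) (hEm : ∀ n a, E n (s.map n a) = a) (n : ℕ) :
    s.Lim →ₗ[ℂ] A n where
  toFun := RF hE hEm n
  map_add' x y := by
    have hcont := continuous_RF (s := s) hE hEm n
    have key := lim_induction_family (s := s) n (κ := Bool)
      (P := fun z => RF hE hEm n (z true + z false) = RF hE hEm n (z true) + RF hE hEm n (z false))
      (isClosed_eq (by fun_prop) (by fun_prop)) (fun j a => by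
        rw [← map_add, RF_ι, RF_ι, RF_ι, map_add]) (fun b => if b then x else y)
    simpa using key
  map_smul' c x := by
    have hcont := continuous_RF (s := s) hE hEm n
    refine lim_induction_ge (s := s) n (P := fun x => RF hE hEm n (c • x) =
      (RingHom.id ℂ) c • RF hE hEm n x) (isClosed_eq (by fun_prop) (by fun_prop)) (fun j a => ?_) x
    rw [← map_smul, RF_ι, RF_ι, map_smul, RingHom.id_apply]

lemma RL_ι (hE : ∀ n a, ‖E n a‖ ≤ ‖a‖) (hEm : ∀ n a, E n (s.map n a) = a) (n j : ℕ)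
    (a : A (n + j)) : RL hE hEm n (s.ι (n + j) a) = EE E n j a := RF_ι hE hEm n j a

lemma RL_norm (hE : ∀ n a, ‖E n a‖ ≤ ‖a‖) (hEm : ∀ n a, E n (s.map n a) = a) (n : ℕ)
    (x : s.Lim) : ‖RL hE hEm n x‖ ≤ ‖x‖ := by
  have hcont := continuous_RF (s := s) hE hEm n
  refine lim_induction_ge (s := s) n (P := fun x => ‖RF hE hEm n x‖ ≤ ‖x‖)
    (isClosed_le (by fun_prop) (by fun_prop)) (fun j a => ?_) x
  rw [RF_ι, norm_ι]
  exact EE_norm hE n j a

lemma RL_cp (hcp : ∀ n, IsCP (E n)) (hE : ∀ n a, ‖E n a‖ ≤ ‖a‖)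
    (hEm : ∀ n a, E n (s.map n a) = a) (n : ℕ) : IsCP (RL (s := s) hE hEm n) := by
  intro m a b
  have hcont := continuous_RF (s := s) hE hEm n
  refine lim_induction_family (s := s) n (κ := Fin m)
    (P := fun a => ∃ c, ∑ i, ∑ j, star (b i) * RF hE hEm n (star (a i) * a j) * b j = star c * c)
    ?_ (fun k a => ?_) a
  · have h2 : Continuous fun a : Fin m → s.Lim =>
        ∑ i, ∑ j, star (b i) * RF hE hEm n (star (a i) * a j) * b j := by
      refine continuous_finset_sum _ fun i _ => continuous_finset_sum _ fun j _ => ?_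
      have h3 : Continuous fun a : Fin m → s.Lim => star (a i) * a j :=
        ((continuous_apply i).star).mul (continuous_apply j)
      exact (continuous_const.mul (hcont.comp h3)).mul continuous_const
    exact (isClosed_sq (A n)).preimage h2
  · obtain ⟨c, hc⟩ := EE_cp hcp n k m a b
    refine ⟨c, ?_⟩
    rw [← hc]
    apply Finset.sum_congr rfl
    intro i _
    apply Finset.sum_congr rfl
    intro j _
    rw [← map_star, ← map_mul, RF_ι]

/-- The canonical map as a linear map. -/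
noncomputable def ιL (s : IndSys A) (n : ℕ) : A n →ₗ[ℂ] s.Lim where
  toFun := s.ι n
  map_add' := map_add _
  map_smul' c x := map_smul _ c x

lemma ιL_cp (n : ℕ) : IsCP (ιL s n) :=
  isCP_hom _ (fun a b => map_mul (s.ι n) a b) (fun a => map_star (s.ι n) a)

end

theorem nuclear_lim {A : ℕ → Type} [∀ n, CStarAlgebra (A n)] (s : IndSys A)
    (hN : ∀ n, Nuclear (A n)) (E : ∀ n, A (n + 1) →ₗ[ℂ] A n) (hcp : ∀ n, IsCP (E n))
    (hE : ∀ n a, ‖E n a‖ ≤ ‖a‖) (hEm : ∀ n a, E n (s.map n a) = a) : Nuclear s.Lim := by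
  classical
  intro F ε hε
  obtain ⟨n, -, a, ha⟩ := exists_ι_norm_sub_lt_family (s := s) (κ := F) (fun x => (x : s.Lim))
    (show 0 < ε / 3 by positivity) 0
  obtain ⟨d, φ, ψ, hφ, hψ, hφn, hψn, happ⟩ := hN n (Finset.univ.image a) (ε / 3) (by positivity)
  refine ⟨d, φ ∘ₗ RL hE hEm n, ιL s n ∘ₗ ψ, IsCP.comp hφ (RL_cp hcp hE hEm n),
    IsCP.comp (ιL_cp n) hψ, ?_, ?_, ?_⟩
  · intro x
    exact (hφn _).trans (RL_norm hE hEm n x)
  · intro m
    show ‖s.ι n (ψ m)‖ ≤ ‖m‖
    rw [norm_ι]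
    exact hψn m
  · intro x hx
    set ax : A n := a ⟨x, hx⟩ with hax
    have h1 : ‖x - s.ι n ax‖ < ε / 3 := ha ⟨x, hx⟩
    have h2 : ‖ψ (φ ax) - ax‖ < ε / 3 :=
      happ ax (Finset.mem_image_of_mem a (Finset.mem_univ _))
    have h3 : RL hE hEm n (s.ι n ax) = ax := RL_ι hE hEm n 0 ax
    show ‖s.ι n (ψ (φ (RL hE hEm n x))) - x‖ < ε
    have h4 : s.ι n (ψ (φ (RL hE hEm n x))) - x =
        s.ι n (ψ (φ (RL hE hEm n (x - s.ι n ax)))) + s.ι n (ψ (φ ax) - ax) -
          (x - s.ι n ax) := by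
      simp only [map_sub, h3]
      abel
    have h5 : ‖s.ι n (ψ (φ (RL hE hEm n (x - s.ι n ax))))‖ < ε / 3 := by
      rw [norm_ι]
      exact (((hψn _).trans (hφn _)).trans (RL_norm hE hEm n _)).trans_lt h1
    have h6 : ‖s.ι n (ψ (φ ax) - ax)‖ < ε / 3 := by
      rw [norm_ι]
      exact h2
    rw [h4]
    calc _ ≤ ‖s.ι n (ψ (φ (RL hE hEm n (x - s.ι n ax)))) + s.ι n (ψ (φ ax) - ax)‖ +
          ‖x - s.ι n ax‖ := norm_sub_le _ _
      _ ≤ (‖s.ι n (ψ (φ (RL hE hEm n (x - s.ι n ax))))‖ + ‖s.ι n (ψ (φ ax) - ax)‖) +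
          ‖x - s.ι n ax‖ := by
          have := norm_add_le (s.ι n (ψ (φ (RL hE hEm n (x - s.ι n ax)))))
            (s.ι n (ψ (φ ax) - ax))
          linarith
      _ < ε := by linarith

end Pool.Agent.Lib.Eln
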