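import Pool.Agent.Lib.Eln.StN

set_option autoImplicit false

/-!
The unit projection of the first building block: a path of isometries from `s 0` to a field of
isometries `D` with `D * star D = V * star V`.
-/

open scoped InnerProductSpace BoundedContinuousFunction unitInterval

namespace Pool.Agent.Lib.Eln

open Pool.Agent.Lib.P81d4f5 (S3)

namespace Q0

/-! ### the complementary isometry -/

/-- the isometry with range complementary to that of `V ζ` -/
noncomputable def Vp (ζ : S3) : Op :=
  (-(starRingEnd ℂ) (S3.co 1 ζ)) • s 0 + (starRingEnd ℂ) (S3.co 0 ζ) • s 1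

theorem star_Vp (ζ : S3) : star (Vp ζ) =
    (-(S3.co 1 ζ)) • star (s 0) + (S3.co 0 ζ) • star (s 1) := by
  rw [Vp, star_add, star_smul, star_smul, star_neg]
  simp

theorem co_sum (ζ : S3) : S3.co 0 ζ * (starRingEnd ℂ) (S3.co 0 ζ) +
    S3.co 1 ζ * (starRingEnd ℂ) (S3.co 1 ζ) = 1 := by
  have h := S3.sum_conj ζ
  rwa [Fin.sum_univ_two] at h

theorem s01 : star (s 0) * s 1 = 0 := star_s_mul_of_ne (by decide)
theorem s10 : star (s 1) * s 0 = 0 := star_s_mul_of_ne (by decide)

theorem star_Vp_mul_Vp (ζ : S3) : star (Vp ζ) * Vp ζ = 1 := by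
  rw [star_Vp, Vp]
  simp only [add_mul, mul_add, smul_mul_smul_comm, star_s_mul_self, s01, s10, smul_zero,
    add_zero, zero_add]
  rw [← add_smul]
  have h := co_sum ζ
  rw [show -S3.co 1 ζ * -(starRingEnd ℂ) (S3.co 1 ζ) + S3.co 0 ζ * (starRingEnd ℂ) (S3.co 0 ζ) =
    1 by linear_combination h, one_smul]

theorem star_V_mul_Vp (ζ : S3) : star (V ζ) * Vp ζ = 0 := by
  rw [star_V, Vp]
  simp only [add_mul, mul_add, smul_mul_smul_comm, star_s_mul_self, s01, s10, smul_zero,
    add_zero, zero_add]
  rw [← add_smul]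
  rw [show (starRingEnd ℂ) (S3.co 0 ζ) * -(starRingEnd ℂ) (S3.co 1 ζ) +
    (starRingEnd ℂ) (S3.co 1 ζ) * (starRingEnd ℂ) (S3.co 0 ζ) = 0 by ring, zero_smul]

theorem star_Vp_mul_V (ζ : S3) : star (Vp ζ) * V ζ = 0 := by
  have := congrArg star (star_V_mul_Vp ζ)
  simpa using this

theorem VV_add (ζ : S3) : V ζ * star (V ζ) + Vp ζ * star (Vp ζ) = 1 := by
  have h := co_sum ζ
  rw [star_Vp, Vp, star_V, V]
  simp only [add_mul, mul_add, smul_mul_smul_comm]
  have h2 : ∀ (a b c d a' b' c' d' : ℂ) (A B C D : Op), a + a' = 1 → b + b' = 0 → c + c' = 0 →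
      d + d' = 1 → a • A + c • C + (b • B + d • D) + (a' • A + c' • C + (b' • B + d' • D)) =
      A + D := by
    intro a b c d a' b' c' d' A B C D h1 h2 h3 h4
    have : a • A + c • C + (b • B + d • D) + (a' • A + c' • C + (b' • B + d' • D)) =
        (a + a') • A + (b + b') • B + (c + c') • C + (d + d') • D := by
      simp only [add_smul]; abel
    rw [this, h1, h2, h3, h4]; simp
  rw [h2, sum_s_mul_star]
  · linear_combination h
  · ring
  · ring
  · linear_combination h

theorem Vp_rot (z : Circle) (ζ : S3) : Vp (S3.rot z ζ) = (starRingEnd ℂ) (z : ℂ) • Vp ζ := by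
  simp [Vp, smul_smul]

theorem continuous_Vp : Continuous Vp := by
  unfold Vp
  exact ((Complex.continuous_conj.comp (S3.continuous_co 1)).neg.smul continuous_const).add
    ((Complex.continuous_conj.comp (S3.continuous_co 0)).smul continuous_const)

theorem norm_Vp_le (ζ : S3) : ‖Vp ζ‖ ≤ 1 := Par.norm_le_one_of (star_Vp_mul_Vp ζ)

theorem scont_Vp {Y : Type*} [TopologicalSpace Y] {f : Y → S3} (hf : Continuous f) :
    SCont fun y => Vp (f y) :=
  SCont.of_norm (continuous_Vp.comp hf) ⟨1, fun _ => norm_Vp_le _⟩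

theorem fp_Vp (ζ : S3) : FP 1 (Vp ζ) := ((FP.s 0).smul _).add ((FP.s 1).smul _)

theorem star_s1_mul_Vp (ζ : S3) : star (s 1) * Vp ζ = (starRingEnd ℂ) (S3.co 0 ζ) • (1 : Op) := by
  rw [Vp]
  simp only [mul_add, mul_smul_comm, star_s_mul_self, s10, smul_zero, zero_add]

theorem star_s0_mul_V (ζ : S3) : star (s 0) * V ζ = S3.co 0 ζ • (1 : Op) := by
  rw [V]
  simp only [mul_add, mul_smul_comm, star_s_mul_self, s01, smul_zero, add_zero]

/-! ### the algebra -/

section alg

variable {A : Type*} [Ring A] [StarRing A]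

/-- the end point of the path -/
def Dop (s₀ s₁ V P : A) : A :=
  (V * V * star V + V * P * s₀ * star P) * (star s₀ * star V) +
    V * P * s₁ * (V * star s₁ * star V + P * star P)

theorem Dop_eq (s₀ s₁ V P : A) : Dop s₀ s₁ V P =
    V * ((V * star V + P * s₀ * star P) * (star s₀ * star V) +
      P * s₁ * (V * star s₁ * star V + P * star P)) := by
  unfold Dop; noncomm_ring

omit [StarRing A] in
theorem cancel_one {x y : A} (h : x * y = 1) (w : A) : x * (y * w) = w := by
  rw [← mul_assoc, h, one_mul]

omit [StarRing A] in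
theorem cancel_zero {x y : A} (h : x * y = 0) (w : A) : x * (y * w) = 0 := by
  rw [← mul_assoc, h, zero_mul]

theorem exp_one (a b c d : A) : star (a * c + b * d) * (a * c + b * d) =
    star c * (star a * a) * c + star c * (star a * b) * d + star d * (star b * a) * c +
      star d * (star b * b) * d := by
  rw [star_add, star_mul, star_mul]; noncomm_ring

theorem exp_two (a b c d : A) : (a * c + b * d) * star (a * c + b * d) =
    a * (c * star c) * star a + a * (c * star d) * star b + b * (d * star c) * star a +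
      b * (d * star d) * star b := by
  rw [star_add, star_mul, star_mul]; noncomm_ring

variable {s₀ s₁ V P : A} (h00 : star s₀ * s₀ = 1) (h11 : star s₁ * s₁ = 1)
  (h01 : star s₀ * s₁ = 0) (hs : s₀ * star s₀ + s₁ * star s₁ = 1)
  (hV : star V * V = 1) (hP : star P * P = 1) (hVP : star V * P = 0) (hPV : star P * V = 0)
  (hs' : V * star V + P * star P = 1)

include h00 h11 h01 hs hV hP hVP hPV hs'

theorem star_Dop_mul : star (Dop s₀ s₁ V P) * Dop s₀ s₁ V P = 1 := by
  have ea : star (V * V * star V + V * P * s₀ * star P) * (V * V * star V + V * P * s₀ * star P) =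
      1 := by
    simp only [star_add, star_mul, star_star, add_mul, mul_add, mul_assoc,
      cancel_one h00, cancel_one hV, cancel_one hP, cancel_zero hVP, cancel_zero hPV, mul_zero,
      add_zero, zero_add]
    exact hs'
  have eb : star (V * P * s₁) * (V * P * s₁) = 1 := by
    simp only [star_mul, mul_assoc, cancel_one hV, cancel_one hP, h11]
  have eab : star (V * V * star V + V * P * s₀ * star P) * (V * P * s₁) = 0 := by
    simp only [star_add, star_mul, star_star, add_mul, mul_assoc, cancel_one hV, cancel_one hP,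
      cancel_zero hVP, h01, mul_zero, add_zero]
  have eba : star (V * P * s₁) * (V * V * star V + V * P * s₀ * star P) = 0 := by
    have := congrArg star eab
    rwa [star_mul, star_star, star_zero] at this
  have ec : star (star s₀ * star V) * (star s₀ * star V) = V * (s₀ * star s₀) * star V := by
    simp only [star_mul, star_star, mul_assoc]
  have ed : star (V * star s₁ * star V + P * star P) * (V * star s₁ * star V + P * star P) =
      V * (s₁ * star s₁) * star V + P * star P := by
    simp only [star_add, star_mul, star_star, add_mul, mul_add, mul_assoc,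
      cancel_one hV, cancel_one hP, cancel_zero hVP, cancel_zero hPV, mul_zero,
      add_zero, zero_add]
  unfold Dop
  rw [exp_one, ea, eb, eab, eba, mul_one, mul_one, mul_zero, zero_mul, mul_zero, zero_mul, add_zero,
    add_zero, ec, ed]
  calc V * (s₀ * star s₀) * star V + (V * (s₁ * star s₁) * star V + P * star P) =
      V * (s₀ * star s₀ + s₁ * star s₁) * star V + P * star P := by noncomm_ring
    _ = 1 := by rw [hs, mul_one, hs']

theorem Dop_mul_star : Dop s₀ s₁ V P * star (Dop s₀ s₁ V P) = V * star V := by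
  have ea : (V * V * star V + V * P * s₀ * star P) * star (V * V * star V + V * P * s₀ * star P) =
      V * V * star V * star V + V * P * (s₀ * star s₀) * star P * star V := by
    simp only [star_add, star_mul, star_star, add_mul, mul_add, mul_assoc,
      cancel_one hV, cancel_one hP, cancel_zero hVP, cancel_zero hPV, mul_zero,
      add_zero, zero_add]
  have eb : (V * P * s₁) * star (V * P * s₁) = V * P * (s₁ * star s₁) * star P * star V := by
    simp only [star_mul, mul_assoc]
  have ec : (star s₀ * star V) * star (star s₀ * star V) = 1 := by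
    simp only [star_mul, star_star, mul_assoc, cancel_one hV, h00]
  have ed : (V * star s₁ * star V + P * star P) * star (V * star s₁ * star V + P * star P) =
      1 := by
    simp only [star_add, star_mul, star_star, add_mul, mul_add, mul_assoc,
      cancel_one hV, cancel_one hP, cancel_zero hVP, cancel_zero hPV, mul_zero,
      add_zero, zero_add, cancel_one h11]
    exact hs'
  have ecd : (star s₀ * star V) * star (V * star s₁ * star V + P * star P) = 0 := by
    simp only [star_add, star_mul, star_star, mul_add, mul_assoc, cancel_one hV,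
      cancel_zero hVP, cancel_zero h01, mul_zero, add_zero]
  have edc : (V * star s₁ * star V + P * star P) * star (star s₀ * star V) = 0 := by
    have := congrArg star ecd
    rwa [star_mul, star_star, star_zero] at this
  unfold Dop
  rw [exp_two, ec, ed, ecd, edc, mul_one, mul_one, mul_zero, zero_mul, mul_zero, zero_mul, add_zero,
    add_zero, ea, eb]
  calc V * V * star V * star V + V * P * (s₀ * star s₀) * star P * star V +
      V * P * (s₁ * star s₁) * star P * star V =
      V * (V * star V + P * (s₀ * star s₀ + s₁ * star s₁) * star P) * star V := by noncomm_ring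
    _ = V * star V := by rw [hs, mul_one, hs', mul_one]

end alg

/-! ### the fields -/

theorem Dop_smul {z : ℂ} (hz : z * (starRingEnd ℂ) z = 1) (W Q : Op) :
    Dop (s 0) (s 1) (z • W) ((starRingEnd ℂ) z • Q) = Dop (s 0) (s 1) W Q := by
  unfold Dop
  have h1 : star (z • W) = (starRingEnd ℂ) z • star W := by rw [star_smul]; rfl
  have h2 : star ((starRingEnd ℂ) z • Q) = z • star Q := by rw [star_smul]; simp
  have hz' : (starRingEnd ℂ) z * z = 1 := by rw [mul_comm]; exact hz
  rw [h1, h2]
  have e1 : z • W * z • W * (starRingEnd ℂ) z • star W = z • (W * W * star W) := by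
    simp only [smul_mul_smul_comm]
    rw [mul_assoc, hz, mul_one]
  have e2 : z • W * (starRingEnd ℂ) z • Q * s 0 * z • star Q = z • (W * Q * s 0 * star Q) := by
    simp only [smul_mul_assoc, mul_smul_comm]
    rw [smul_smul, hz, one_smul]
  have e3 : star (s 0) * (starRingEnd ℂ) z • star W = (starRingEnd ℂ) z • (star (s 0) * star W) :=
    mul_smul_comm _ _ _
  have e4 : z • W * (starRingEnd ℂ) z • Q * s 1 = W * Q * s 1 := by
    rw [smul_mul_smul_comm, hz, one_smul]
  have e5 : z • W * star (s 1) * (starRingEnd ℂ) z • star W = W * star (s 1) * star W := by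
    rw [smul_mul_assoc, smul_mul_smul_comm, hz, one_smul]
  have e6 : (starRingEnd ℂ) z • Q * z • star Q = Q * star Q := by
    rw [smul_mul_smul_comm, hz', one_smul]
  rw [e1, e2, e3, e4, e5, e6, ← smul_add, smul_mul_smul_comm, hz, one_smul]

theorem circle_mul_conj (z : Circle) : (z : ℂ) * (starRingEnd ℂ) (z : ℂ) = 1 := by
  rw [Complex.mul_conj, Circle.normSq_coe]; simp


/-- fields depending on the special coordinate only -/
theorem isF_of {F : S3 → Op} (h1 : SCont fun x : XX => F (x none))
    (h2 : ∀ (z : Circle) (ζ : S3), F (S3.rot z ζ) = F ζ) : IsF fun x : XX => F (x none) := by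
  refine ⟨h1, fun c z x => ?_⟩
  by_cases hc : c = none
  · subst hc
    rw [rotAt_self, h2]
  · rw [rotAt_of_ne (Ne.symm hc)]

theorem cont_none : Continuous fun x : XX => x none := continuous_apply none

theorem isF_G : IsF fun x : XX => Vp (x none) * V (x none) * s 1 := by
  refine isF_of (F := fun ζ => Vp ζ * V ζ * s 1)
    (((scont_Vp cont_none).mul (SCont.V cont_none)).mul (SCont.const _)) fun z ζ => ?_
  rw [Vp_rot, V_rot, smul_mul_smul_comm, mul_comm ((starRingEnd ℂ) (z : ℂ)), circle_mul_conj,
    one_smul]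

theorem isF_D : IsF fun x : XX => Dop (s 0) (s 1) (V (x none)) (Vp (x none)) := by
  refine isF_of (F := fun ζ => Dop (s 0) (s 1) (V ζ) (Vp ζ)) ?_ fun z ζ => ?_
  · have hv : SCont fun x : XX => V (x none) := SCont.V cont_none
    have hp : SCont fun x : XX => Vp (x none) := scont_Vp cont_none
    have h0 : SCont fun _ : XX => s 0 := SCont.const _
    have h1 : SCont fun _ : XX => s 1 := SCont.const _
    exact ((((hv.mul hv).mul hv.star).add (((hv.mul hp).mul h0).mul hp.star)).mul
      (h0.star.mul hv.star)).add (((hv.mul hp).mul h1).mul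
        (((hv.mul h1.star).mul hv.star).add (hp.mul hp.star)))
  · rw [Vp_rot, V_rot, Dop_smul (circle_mul_conj z)]

/-- the third isometry -/
noncomputable def fG : BB := BB.mk _ isF_G

/-- the last isometry -/
noncomputable def fD : BB := BB.mk _ isF_D

theorem fn_fG (x : XX) : fG.fn x = Vp (x none) * V (x none) * s 1 := rfl

theorem fn_fD (x : XX) : fD.fn x = Dop (s 0) (s 1) (V (x none)) (Vp (x none)) := rfl

theorem inN_fG : InN fG :=
  InN.of_FP (R := 1 + 1 + 1) fun _ => ((fp_Vp _).mul (FP.V _)).mul (FP.s 1)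

theorem inN_fD : InN fD := by
  refine InN.of_FP (R := 10) fun x => ?_
  rw [fn_fD]
  have hv : FP 1 (V (x none)) := FP.V _
  have hp : FP 1 (Vp (x none)) := fp_Vp _
  have h0 := FP.s 0
  have h1 := FP.s 1
  have a1 : FP 4 (V (x none) * V (x none) * star (V (x none)) +
      V (x none) * Vp (x none) * s 0 * star (Vp (x none))) :=
    (((hv.mul hv).mul hv.star).mono (by omega)).add
      ((((hv.mul hp).mul h0).mul hp.star).mono (by omega))
  have a2 : FP 3 (V (x none) * star (s 1) * star (V (x none)) + Vp (x none) * star (Vp (x none))) :=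
    (((hv.mul h1.star).mul hv.star).mono (by omega)).add ((hp.mul hp.star).mono (by omega))
  exact ((a1.mul (h0.star.mul hv.star)).mono (by omega)).add
    ((((hv.mul hp).mul h1).mul a2).mono (by omega))

/-! ### paths of isometries -/

/-- the set of isometries which are limits of fields of finite propagation -/
def Iso : Set BB := {f | star f * f = 1 ∧ InN f}

theorem joined {α β : BB} (hα : α ∈ Iso) (hβ : β ∈ Iso) (h : star α * β = 0) :
    JoinedIn Iso α β := by
  have h' : star β * α = 0 := by
    have := congrArg star h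
    rwa [star_mul, star_star, star_zero] at this
  let f : ℝ → BB := fun t => ((Real.cos (Real.pi / 2 * t) : ℝ) : ℂ) • α +
    ((Real.sin (Real.pi / 2 * t) : ℝ) : ℂ) • β
  have hf : Continuous f := by
    have c1 : Continuous fun t : ℝ => ((Real.cos (Real.pi / 2 * t) : ℝ) : ℂ) :=
      Complex.continuous_ofReal.comp (by fun_prop)
    have c2 : Continuous fun t : ℝ => ((Real.sin (Real.pi / 2 * t) : ℝ) : ℂ) :=
      Complex.continuous_ofReal.comp (by fun_prop)
    exact (c1.smul continuous_const).add (c2.smul continuous_const)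
  refine JoinedIn.ofLine (f := f) hf.continuousOn ?_ ?_ ?_
  · simp [f]
  · simp [f]
  · rintro _ ⟨t, -, rfl⟩
    refine ⟨?_, (hα.2.smul _).add (hβ.2.smul _)⟩
    have e1 : star (f t) * f t =
        (((Real.cos (Real.pi / 2 * t) : ℝ) : ℂ) * ((Real.cos (Real.pi / 2 * t) : ℝ) : ℂ)) •
          (star α * α) +
        (((Real.cos (Real.pi / 2 * t) : ℝ) : ℂ) * ((Real.sin (Real.pi / 2 * t) : ℝ) : ℂ)) •
          (star α * β) +
        (((Real.sin (Real.pi / 2 * t) : ℝ) : ℂ) * ((Real.cos (Real.pi / 2 * t) : ℝ) : ℂ)) •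
          (star β * α) +
        (((Real.sin (Real.pi / 2 * t) : ℝ) : ℂ) * ((Real.sin (Real.pi / 2 * t) : ℝ) : ℂ)) •
          (star β * β) := by
      have hc : ∀ r : ℝ, star (r : ℂ) = (r : ℂ) := fun r => Complex.conj_ofReal r
      simp only [f, star_add, star_smul, hc, add_mul, mul_add, smul_mul_smul_comm]
      abel
    rw [e1, h, h', hα.1, hβ.1, smul_zero, smul_zero, add_zero, add_zero, ← add_smul,
      ← Complex.ofReal_mul, ← Complex.ofReal_mul, ← Complex.ofReal_add]
    have : Real.cos (Real.pi / 2 * t) * Real.cos (Real.pi / 2 * t) +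
        Real.sin (Real.pi / 2 * t) * Real.sin (Real.pi / 2 * t) = 1 := by
      nlinarith [Real.sin_sq_add_cos_sq (Real.pi / 2 * t)]
    rw [this, Complex.ofReal_one, one_smul]

theorem mem_s0 : BB.cst (s 0) ∈ Iso := ⟨by ext1 x; simp, InN.cst (FP.s 0)⟩

theorem mem_s1 : BB.cst (s 1 * s 0 * s 0) ∈ Iso := by
  refine ⟨?_, InN.cst (((FP.s 1).mul (FP.s 0)).mul (FP.s 0))⟩
  ext1 x
  simp only [BB.fn_mul, BB.fn_star, BB.fn_cst, BB.fn_one, star_mul, mul_assoc,
    cancel_one (star_s_mul_self 1), cancel_one (star_s_mul_self 0), star_s_mul_self]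

theorem mem_G : fG ∈ Iso := by
  refine ⟨?_, inN_fG⟩
  ext1 x
  simp only [BB.fn_mul, BB.fn_star, fn_fG, BB.fn_one, star_mul, mul_assoc,
    cancel_one (star_V_mul_V _), cancel_one (star_Vp_mul_Vp _),
    star_s_mul_self]

theorem mem_D : fD ∈ Iso := by
  refine ⟨?_, inN_fD⟩
  ext1 x
  rw [BB.fn_mul, BB.fn_star, fn_fD, BB.fn_one]
  exact star_Dop_mul (star_s_mul_self 0) (star_s_mul_self 1) s01 sum_s_mul_star
    (star_V_mul_V _) (star_Vp_mul_Vp _) (star_V_mul_Vp _) (star_Vp_mul_V _) (VV_add _)

theorem fD_mul_star (x : XX) : fD.fn x * star (fD.fn x) = V (x none) * star (V (x none)) := by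
  rw [fn_fD]
  exact Dop_mul_star (star_s_mul_self 0) (star_s_mul_self 1) s01 sum_s_mul_star
    (star_V_mul_V _) (star_Vp_mul_Vp _) (star_V_mul_Vp _) (star_Vp_mul_V _) (VV_add _)

theorem joined_all : JoinedIn Iso (BB.cst (s 0)) fD := by
  refine ((joined mem_s0 mem_s1 ?_).trans (joined mem_s1 mem_G ?_)).trans (joined mem_G mem_D ?_)
  · ext1 x
    simp only [BB.fn_mul, BB.fn_star, BB.fn_cst, BB.fn_zero, mul_assoc, cancel_zero s01]
  · ext1 x
    simp only [BB.fn_mul, BB.fn_star, BB.fn_cst, BB.fn_zero, fn_fG, star_mul, mul_assoc]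
    rw [← mul_assoc (star (s 1)), star_s1_mul_Vp, smul_mul_assoc, one_mul, mul_smul_comm,
      mul_smul_comm, ← mul_assoc (star (s 0)) (V (x none)), star_s0_mul_V, smul_mul_assoc, one_mul,
      mul_smul_comm, s01, smul_zero, smul_zero]
  · ext1 x
    rw [BB.fn_mul, BB.fn_star, BB.fn_zero, fn_fG, fn_fD, Dop_eq]
    simp only [star_mul, mul_assoc, cancel_zero (star_Vp_mul_V _), mul_zero]

end Q0

open Q0 in
theorem exists_q : ∃ q : KM, IsStarProjection q ∧
    ∀ x, (q.val.at' 0).fn x = V ee * star (V ee) := by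
  obtain ⟨γ, hγ⟩ := joined_all
  let δ : I → BB := fun t => γ t * star (γ t)
  have hδ : Continuous δ := γ.continuous.mul γ.continuous.star
  have h0 : ∀ x, (δ 0).fn x = V ee * star (V ee) := by
    intro x
    simp only [δ, γ.source, BB.fn_mul, BB.fn_star, BB.fn_cst, V_ee]
  have h1 : ∀ x, (δ 1).fn x = V (x none) * star (V (x none)) := by
    intro x
    simp only [δ, γ.target, BB.fn_mul, BB.fn_star, fD_mul_star]
  let g : II := II.mk δ hδ ⟨fun _ => 1, fun x => by rw [h0, mul_one]⟩
    ⟨fun _ => 1, fun x => by rw [h1, mul_one]⟩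
  have hg : InM g := fun t => (hγ t).2.mul (hγ t).2.star
  refine ⟨KM.mk g hg, ⟨?_, ?_⟩, fun x => ?_⟩
  · change KM.mk g hg * KM.mk g hg = KM.mk g hg
    apply KM.ext
    rw [KM.val_mul, KM.val_mk]
    ext1 t
    rw [II.at'_mul]
    change γ t * star (γ t) * (γ t * star (γ t)) = γ t * star (γ t)
    rw [mul_assoc, cancel_one (hγ t).1]
  · change star (KM.mk g hg) = KM.mk g hg
    apply KM.ext
    rw [KM.val_star, KM.val_mk]
    ext1 t
    rw [II.at'_star]
    change star (γ t * star (γ t)) = γ t * star (γ t)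
    rw [star_mul, star_star]
  · rw [KM.val_mk]
    exact h0 x

end Pool.Agent.Lib.Eln
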