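import Mathlib

set_option autoImplicit false

/-!
Definitions: completely positive maps, the completely positive approximation property.
-/

namespace Pool.Agent.Lib.Eln

/-- the algebra of linear operators of `ℂ^ι` (with the operator norm) -/
abbrev MatC (ι : Type) [Fintype ι] : Type := EuclideanSpace ℂ ι →L[ℂ] EuclideanSpace ℂ ι

noncomputable instance (ι : Type) [Fintype ι] : CStarAlgebra (MatC ι) where

/-- completely positive maps: `∑ i, ∑ j, b_i^* φ(a_i^* a_j) b_j` is always of the form `c^* c` -/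
def IsCP {A B : Type} [NonUnitalCStarAlgebra A] [NonUnitalCStarAlgebra B] (φ : A →ₗ[ℂ] B) : Prop :=
  ∀ (n : ℕ) (a : Fin n → A) (b : Fin n → B), ∃ c : B,
    ∑ i, ∑ j, star (b i) * φ (star (a i) * a j) * b j = star c * c

/-- nuclear C*-algebras: the identity is approximated, on finite sets, by compositions of
completely positive contractions through matrix algebras -/
def Nuclear (A : Type) [NonUnitalCStarAlgebra A] : Prop :=
  ∀ (F : Finset A) (ε : ℝ), 0 < ε → ∃ (d : ℕ) (φ : A →ₗ[ℂ] MatC (Fin d)) (ψ : MatC (Fin d) →ₗ[ℂ] A),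
    IsCP φ ∧ IsCP ψ ∧ (∀ a, ‖φ a‖ ≤ ‖a‖) ∧ (∀ m, ‖ψ m‖ ≤ ‖m‖) ∧ ∀ a ∈ F, ‖ψ (φ a) - a‖ < ε

end Pool.Agent.Lib.Eln
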