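import Pool.Agent.Lib.Eln.StN

set_option autoImplicit false

/-!
MODULE Eln.Pos (uses StN.lean and what it imports).

A pointwise positive element of the nuclear block KM is of the form c* c with c ∈ KM.

PROOF.  KM is a NonUnitalCStarAlgebra.  g is self adjoint: pointwise ⟪f, g(t)(x) f⟫ is real for all f, so
g(t)(x) is self adjoint (`ContinuousLinearMap.isSelfAdjoint_iff...`, complex Hilbert space), and KM.ext /
II.ext / BB.ext.  Use the order `CStarAlgebra.spectralOrder KM`.  Write g = g⁺ - g⁻ with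
g⁺ * g⁻ = 0 = g⁻ * g⁺, 0 ≤ g⁻ (`CFC.posPart_sub_negPart`, `CFC.posPart_mul_negPart`), g⁻ = star e * e.
Then n := g⁻ satisfies n * g * n = -(n * n * n) = - star (e * n) * (e * n).  Pointwise (at t, x, f)
⟪f, (n g n)(t)(x) f⟫ = ⟪n f, g(t)(x) (n f)⟫ ≥ 0 and = - ‖(e n)(t)(x) f‖² ≤ 0, so (e * n)(t)(x) f = 0 for
all t, x, f, i.e. e * n = 0, so n * n = star e * (e * n) = 0, and n = 0 (n self adjoint,
CStarRing).  So g = g⁺ ≥ 0 and `CStarAlgebra.nonneg_iff_eq_star_mul_self` gives c.
-/

open scoped InnerProductSpace unitInterval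

namespace Pool.Agent.Lib.Eln

namespace PosAux

/-- decomposition of a self adjoint element -/
theorem sa_dec {D : Type} [NonUnitalCStarAlgebra D] (M : D) (hM : star M = M) :
    ∃ E F : D, M = star F * F - star E * E ∧ star E * E * (star F * F) = 0 := by
  let _ : PartialOrder D := CStarAlgebra.spectralOrder D
  have _ : StarOrderedRing D := CStarAlgebra.spectralOrderedRing D
  obtain ⟨E, hE⟩ := CStarAlgebra.nonneg_iff_eq_star_mul_self.mp (CFC.negPart_nonneg M)
  obtain ⟨F, hF⟩ := CStarAlgebra.nonneg_iff_eq_star_mul_self.mp (CFC.posPart_nonneg M)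
  refine ⟨E, F, ?_, ?_⟩
  · rw [← hE, ← hF]
    exact (CFC.posPart_sub_negPart M hM).symm
  · rw [← hE, ← hF]
    exact CFC.negPart_mul_posPart M

theorem star_of_pos {T : Op} (h : ∀ f : Hb, ∃ r : ℝ, 0 ≤ r ∧ ⟪f, T f⟫_ℂ = (r : ℂ)) :
    star T = T := by
  have h1 : T.IsPositive := by
    rw [ContinuousLinearMap.isPositive_iff_complex]
    intro x
    obtain ⟨r, hr, hr'⟩ := h x
    have h2 : ⟪T x, x⟫_ℂ = (r : ℂ) := by
      rw [← inner_conj_symm, hr', Complex.conj_ofReal]
    rw [h2]
    exact ⟨by simp, by simpa using hr⟩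
  exact h1.isSelfAdjoint

end PosAux

open PosAux in
theorem KM.exists_sq {g : KM} (h : ∀ (t : I) (x : XX) (f : Hb), ∃ r : ℝ, 0 ≤ r ∧
    ⟪f, (g.val.at' t).fn x f⟫_ℂ = (r : ℂ)) : ∃ c : KM, g = star c * c := by
  have hsa : star g = g := by
    apply KM.ext
    apply II.ext
    intro t
    apply BB.ext
    intro x
    rw [KM.val_star, II.at'_star, BB.fn_star]
    exact star_of_pos (h t x)
  obtain ⟨E, F, hdec, horth⟩ := sa_dec g hsa
  obtain ⟨n, hE⟩ : ∃ n, n = star E * E := ⟨_, rfl⟩
  obtain ⟨P, hP⟩ : ∃ P, P = star F * F := ⟨_, rfl⟩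
  rw [← hE, ← hP] at hdec horth
  have hns : star n = n := by rw [hE, star_mul, star_star]
  have h1 : n * g * n = - (star (E * n) * (E * n)) := by
    calc n * g * n = (n * P - n * n) * n := by rw [← mul_sub, ← hdec]
      _ = - (n * n * n) := by rw [horth, zero_sub, neg_mul]
      _ = - (star (E * n) * (E * n)) := by
          rw [star_mul, hns]
          congr 1
          calc n * n * n = n * (star E * E) * n := by rw [← hE]
            _ = n * star E * (E * n) := by simp only [mul_assoc]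
  have h2 : E * n = 0 := by
    apply KM.ext
    apply II.ext
    intro t
    apply BB.ext
    intro x
    ext1 f
    obtain ⟨r, hr, hr'⟩ := h t x ((n.val.at' t).fn x f)
    have h3 : ((n * g * n).val.at' t).fn x = (((- (star (E * n) * (E * n)) : KM)).val.at' t).fn x :=
      by rw [h1]
    simp only [KM.val_mul, II.at'_mul, BB.fn_mul, KM.val_neg, II.at'_neg, BB.fn_neg, KM.val_star,
      II.at'_star, BB.fn_star] at h3
    set N : Op := (n.val.at' t).fn x with hN
    set T : Op := (g.val.at' t).fn x with hT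
    set EE : Op := (E.val.at' t).fn x with hEE
    have hNs : star N = N := by
      have h4 := congrArg (fun k : KM => (k.val.at' t).fn x) hns
      simp only [KM.val_star, II.at'_star, BB.fn_star] at h4
      exact h4
    have h5 : ⟪f, (N * T * N) f⟫_ℂ = (r : ℂ) := by
      rw [← hr']
      change ⟪f, N (T (N f))⟫_ℂ = _
      rw [← inner_star_left, hNs]
    have h6 : ⟪f, (-(star (EE * N) * (EE * N))) f⟫_ℂ = ((-(‖(EE * N) f‖ ^ 2) : ℝ) : ℂ) := by
      change ⟪f, -(star (EE * N) ((EE * N) f))⟫_ℂ = _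
      rw [inner_neg_right, inner_star_right, inner_self_eq_norm_sq_to_K]
      push_cast
      rfl
    rw [h3, h6] at h5
    have h7 : -(‖(EE * N) f‖ ^ 2) = r := by exact_mod_cast h5
    have h8 : ‖(EE * N) f‖ = 0 := by
      have := sq_nonneg ‖(EE * N) f‖
      nlinarith
    have h9 : (EE * N) f = 0 := norm_eq_zero.1 h8
    exact h9
  have h3 : n = 0 := by
    apply (CStarRing.star_mul_self_eq_zero_iff n).1
    rw [hns]
    calc n * n = star E * E * n := by rw [← hE]
      _ = star E * (E * n) := by rw [mul_assoc]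
      _ = 0 := by rw [h2, mul_zero]
  exact ⟨F, by rw [hdec, h3, sub_zero, hP]⟩

end Pool.Agent.Lib.Eln
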