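import Pool.Agent.Lib.Eln.Phi
import Pool.Agent.Lib.Eln.Pos
import Pool.Agent.Lib.Eln.NucDefs

set_option autoImplicit false

/-!
MODULE Eln.Ret (uses Phi, Pos (black box), NucDefs).

A completely positive contraction which is a left inverse of all the connecting homomorphisms.

PROOF.  src1 : Ix → Option Ix, none ↦ some none, some (b, i) ↦ if i % 3 = 0 then some (some (b, i / 3)) else
none; InjSrc src1 (on multiples of 3, i ↦ i / 3 is injective), and pull src1 (fun _ => ee) = lift0
(Phi.lean) pointwise.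
(E g)(t) = star (BB.cst (C 0)) * pullHom src1 _ _ (g.at' t) * BB.cst (C 0), i.e.
(E g)(t)(x) = star (C 0) * (g(t)).fn (lift0 x) * C 0.
* (E g)(t) is norm continuous in t (as `continuous_pb0` in Phi.lean).
* InB0: g(0)(x) = V ee * c (pa x) * star (V ee); (E g)(0)(x) = star (C 0) * V ee * c (pa (lift0 x)) * star (V ee) * C 0 =
  V ee * (star (T' 0) * c (pa (lift0 x)) * T' 0) * star (V ee) by `star_C_mul_V`, `star_V_mul_C`, and pa (lift0 x)
  depends on pa x only (pa (lift0 x) i = if i % 3 = 0 then pa x (i / 3) else ee).  InB1 similarly with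
  V (x none), lift0 x none = x none.
* InN: InN.pull, InN.mul, InN.cst (FP_C 0), star.
* contractive: norm of C 0 is ≤ 1, BB.norm_fn_le, II.norm_at'_le, KM.norm_val.
* E (PhiM k g) = g: `fn_Phi_mul_C0` at lift0 x, `sg0_lift0`, `star_C_mul_self`.
* IsCP: y = ∑_ij b_i^* E(a_i^* a_j) b_j satisfies pointwise
  ⟪f, y(t)(x) f⟫ = ‖∑_j a_j(t)(lift0 x) (C 0 (b_j(t)(x) f))‖²; apply `KM.exists_sq`.
-/

open scoped InnerProductSpace unitInterval

namespace Pool.Agent.Lib.Eln

namespace RetAux

/-- the selection of coordinates behind `lift0` -/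
def src1 : Ix → Option Ix
  | none => some none
  | some κ => if κ.2 % 3 = 0 then some (some (κ.1, κ.2 / 3)) else none

theorem injSrc_src1 : InjSrc src1 := by
  rintro (_ | κ) (_ | κ') c h h'
  · rfl
  · rw [← h] at h'
    simp only [src1] at h'
    split_ifs at h' with h1
    · simp at h'
  · rw [← h'] at h
    simp only [src1] at h
    split_ifs at h with h1
    · simp at h
  · rw [← h'] at h
    simp only [src1] at h
    by_cases h1 : κ.2 % 3 = 0
    · by_cases h2 : κ'.2 % 3 = 0
      · rw [if_pos h1, if_pos h2] at h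
        simp only [Option.some.injEq, Prod.mk.injEq] at h
        rw [Prod.ext h.1 (by have := h.2; omega)]
      · rw [if_pos h1, if_neg h2] at h
        simp at h
    · by_cases h2 : κ'.2 % 3 = 0
      · rw [if_neg h1, if_pos h2] at h
        simp at h
      · exfalso
        simp only [src1] at h'
        rw [if_neg h2] at h'
        simp at h'

theorem pull_src1 (x : XX) : pull src1 (fun _ => ee) x = lift0 x := by
  funext d
  rcases d with _ | κ
  · rfl
  · rw [pull]
    simp only [src1, lift0]
    split_ifs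
    · rfl
    · rfl

/-- the pull back along `lift0` -/
noncomputable def pb1 : BB →⋆ₐ[ℂ] BB := pullHom src1 injSrc_src1 fun _ => ee

theorem fn_pb1 (f : BB) (x : XX) : (pb1 f).fn x = f.fn (lift0 x) := by
  rw [pb1, fn_pullHom, pull_src1]

theorem continuous_pb1 : Continuous pb1 := by
  have h : LipschitzWith 1 pb1 := LipschitzWith.of_dist_le_mul fun f g => by
    rw [NNReal.coe_one, one_mul, dist_eq_norm, dist_eq_norm, ← map_sub]
    exact BB.norm_le (norm_nonneg _) fun x => by
      rw [fn_pb1]; exact BB.norm_fn_le (f - g) (lift0 x)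
  exact h.continuous

/-- the retraction at a time -/
noncomputable def retF (f : BB) : BB := star (BB.cst (C 0)) * pb1 f * BB.cst (C 0)

theorem fn_retF (f : BB) (x : XX) : (retF f).fn x = star (C 0) * f.fn (lift0 x) * C 0 := by
  rw [retF, BB.fn_mul, BB.fn_mul, BB.fn_star, BB.fn_cst, fn_pb1]

theorem continuous_retF : Continuous retF :=
  (continuous_const.mul continuous_pb1).mul continuous_const

theorem pa_lift0 (x : XX) : pa (lift0 x) = fun i => if i % 3 = 0 then pa x (i / 3) else ee := by
  funext i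
  rfl

theorem pb_lift0 (x : XX) : pb (lift0 x) = fun i => if i % 3 = 0 then pb x (i / 3) else ee := by
  funext i
  rfl

theorem inB0_retF {f : BB} (h : InB0 f) : InB0 (retF f) := by
  obtain ⟨c, hc⟩ := h
  refine ⟨fun a => star (T' 0) * c (fun i => if i % 3 = 0 then a (i / 3) else ee) * T' 0,
    fun x => ?_⟩
  rw [fn_retF, hc, pa_lift0]
  calc star (C 0) * (V ee * c (fun i => if i % 3 = 0 then pa x (i / 3) else ee) *
        star (V ee)) * C 0
      = (star (C 0) * V ee) * c (fun i => if i % 3 = 0 then pa x (i / 3) else ee) *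
        (star (V ee) * C 0) := by simp only [mul_assoc]
    _ = _ := by rw [star_C_mul_V, star_V_mul_C]; simp only [mul_assoc]

theorem inB1_retF {f : BB} (h : InB1 f) : InB1 (retF f) := by
  obtain ⟨c, hc⟩ := h
  refine ⟨fun a => star (T' 0) * c (fun i => if i % 3 = 0 then a (i / 3) else ee) * T' 0,
    fun x => ?_⟩
  have h1 : lift0 x none = x none := rfl
  rw [fn_retF, hc, pb_lift0, h1]
  calc star (C 0) * (V (x none) * c (fun i => if i % 3 = 0 then pb x (i / 3) else ee) *
        star (V (x none))) * C 0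
      = (star (C 0) * V (x none)) * c (fun i => if i % 3 = 0 then pb x (i / 3) else ee) *
        (star (V (x none)) * C 0) := by simp only [mul_assoc]
    _ = _ := by rw [star_C_mul_V, star_V_mul_C]; simp only [mul_assoc]

theorem inN_retF {f : BB} (h : InN f) : InN (retF f) :=
  ((InN.cst (FP_C 0)).star.mul (h.pull injSrc_src1 _)).mul (InN.cst (FP_C 0))

theorem retF_add (f g : BB) : retF (f + g) = retF f + retF g := by
  unfold retF; rw [map_add, mul_add, add_mul]

theorem retF_smul (c : ℂ) (f : BB) : retF (c • f) = c • retF f := by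
  unfold retF; rw [map_smul, mul_smul_comm, smul_mul_assoc]

theorem norm_C_le : ‖C 0‖ ≤ 1 :=
  ContinuousLinearMap.opNorm_le_bound _ zero_le_one fun f => by rw [norm_C, one_mul]

theorem norm_retF_le (f : BB) : ‖retF f‖ ≤ ‖f‖ := by
  apply BB.norm_le (norm_nonneg _)
  intro x
  rw [fn_retF]
  have h0 := norm_C_le
  have h1 : ‖star (C 0)‖ ≤ 1 := by rw [norm_star]; exact h0
  calc ‖star (C 0) * f.fn (lift0 x) * C 0‖ ≤ ‖star (C 0) * f.fn (lift0 x)‖ * ‖C 0‖ :=
        norm_mul_le _ _
    _ ≤ (‖star (C 0)‖ * ‖f.fn (lift0 x)‖) * ‖C 0‖ :=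
        mul_le_mul_of_nonneg_right (norm_mul_le _ _) (norm_nonneg _)
    _ ≤ (1 * ‖f‖) * 1 := by
        apply mul_le_mul _ h0 (norm_nonneg _) (by positivity)
        exact mul_le_mul h1 (BB.norm_fn_le _ _) (norm_nonneg _) zero_le_one
    _ = ‖f‖ := by ring

/-- the retraction on the block -/
noncomputable def retI (g : II) : II :=
  II.mk (fun t => retF (g.at' t)) (continuous_retF.comp g.continuous_at')
    (inB0_retF g.mem0) (inB1_retF g.mem1)

theorem at'_retI (g : II) (t : I) : (retI g).at' t = retF (g.at' t) := rfl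

theorem inM_retI (g : KM) : InM (retI g.val) := fun t => inN_retF (g.inM t)

/-- the retraction -/
noncomputable def E : KM →ₗ[ℂ] KM where
  toFun g := KM.mk (retI g.val) (inM_retI g)
  map_add' f g := by
    apply KM.ext
    apply II.ext
    intro t
    exact retF_add (f.val.at' t) (g.val.at' t)
  map_smul' c g := by
    apply KM.ext
    apply II.ext
    intro t
    exact retF_smul c (g.val.at' t)

theorem val_E (g : KM) (t : I) : (E g).val.at' t = retF (g.val.at' t) := rfl

/-- evaluation -/
noncomputable def ev (t : I) (x : XX) : KM →ₗ[ℂ] Op where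
  toFun g := (g.val.at' t).fn x
  map_add' _ _ := rfl
  map_smul' _ _ := rfl

theorem ev_apply (t : I) (x : XX) (g : KM) : ev t x g = (g.val.at' t).fn x := rfl

theorem isCP_E : IsCP E := by
  intro n a b
  apply KM.exists_sq
  intro t x f
  set U : Fin n → Op := fun i => ((a i).val.at' t).fn (lift0 x) * C 0 * ((b i).val.at' t).fn x
    with hU
  have h1 : ((∑ i, ∑ j, star (b i) * E (star (a i) * a j) * b j : KM).val.at' t).fn x =
      star (∑ i, U i) * ∑ j, U j := by
    rw [← ev_apply, map_sum, star_sum, Finset.sum_mul]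
    refine Finset.sum_congr rfl fun i _ => ?_
    rw [map_sum, Finset.mul_sum]
    refine Finset.sum_congr rfl fun j _ => ?_
    rw [ev_apply, KM.val_mul, II.at'_mul, BB.fn_mul, KM.val_mul, II.at'_mul, BB.fn_mul,
      KM.val_star, II.at'_star, BB.fn_star, val_E, fn_retF, KM.val_mul, II.at'_mul, BB.fn_mul,
      KM.val_star, II.at'_star, BB.fn_star]
    simp only [hU, star_mul, mul_assoc]
  refine ⟨‖(∑ i, U i) f‖ ^ 2, sq_nonneg _, ?_⟩
  rw [h1]
  change ⟪f, star (∑ i, U i) ((∑ i, U i) f)⟫_ℂ = _
  rw [inner_star_right, inner_self_eq_norm_sq_to_K]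
  push_cast
  rfl

end RetAux

open RetAux in
theorem exists_ret : ∃ E : KM →ₗ[ℂ] KM, IsCP E ∧ (∀ g, ‖E g‖ ≤ ‖g‖) ∧
    ∀ k g, E (PhiM k g) = g := by
  refine ⟨E, isCP_E, ?_, ?_⟩
  · intro g
    rw [← KM.norm_val]
    apply II.norm_le (norm_nonneg _)
    intro t
    rw [val_E, ← KM.norm_val g]
    exact (norm_retF_le _).trans (II.norm_at'_le _ _)
  · intro k g
    apply KM.ext
    apply II.ext
    intro t
    apply BB.ext
    intro x
    rw [val_E, fn_retF, val_PhiM, mul_assoc, fn_Phi_mul_C0, sg0_lift0, ← mul_assoc,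
      star_C_mul_self, one_mul]

end Pool.Agent.Lib.Eln
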