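import Pool.Agent.Lib.Eln.NucDefs
import Pool.Agent.Lib.Eln.SqInj
import Pool.Agent.Lib.Ell.Sep

set_option autoImplicit false

/-!
MODULE Eln.SepN (pure C*-algebra theory; uses NucDefs, SqInj (black box), Ell/Sep.lean).

The Loewenheim-Skolem theorem `exists_separable` of Ell/Sep.lean, with nuclearity added.

PROOF.  Copy the proof of `Pool.Agent.Lib.Ell.exists_separable` (Ell/Sep.lean, about 250 lines; the
auxiliary lemmas of that file can be used from there) and add witnesses for nuclearity: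
* a version of `exists_countable_closed` with operations on lists: given countable sets G l for
  every l : List A, there is a countable S ⊇ S0 with G l ⊆ S whenever all members of l are in S
  (iterate T S = S ∪ ⋃_{l : List A, ∀ x ∈ l, x ∈ S} G l; the set of lists with members in a countable
  set is countable: e.g. it is the range of List.map of Subtype.val on List S, S countable type);
  the binary operations of the old proof are included via two element lists.
* for l : List A and n : ℕ choose (d, φ, ψ) from `Nuclear A` for the finite set l.toFinset and 1/(n+1)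
  and add to G l the finite set of the ψ(E_ij), i, j : Fin d, where E_ij are the matrix units (any
  finite spanning set of MatC (Fin d) will do: it is finite dimensional,
  `Module.Finite`, `Submodule.fg_top`; e.g. the elements of `Module.finBasis ℂ (MatC (Fin d))`).
* Let A0 = closure S as a C*-subalgebra.  Given F ⊆ A0 finite and ε > 0 choose members of S close to the
  members of F (ε/3) and n with 1/(n+1) < ε/3, (d, φ, ψ) from the construction.  φ' = φ restricted to
  A0, ψ' = ψ with values in A0 (A0 is a subspace containing ψ of a basis).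
  IsCP φ' is clear.  IsCP ψ': the sum in question is star c * c in A; by `exists_sq_of_injective` for
  the inclusion A0 → A it is star d * d with d ∈ A0.
-/

open Filter Topology
open Pool.Agent.Lib.Ell

namespace Pool.Agent.Lib.Eln

namespace SepNAux

/-- Closing off a countable set under countably many operations on lists. -/
lemma exists_countable_closed_list {A : Type*} (S0 : Set A) (h0 : S0.Countable)
    (G : List A → Set A) (hG : ∀ l, (G l).Countable) :
    ∃ S : Set A, S0 ⊆ S ∧ S.Countable ∧ ∀ l : List A, (∀ x ∈ l, x ∈ S) → G l ⊆ S := by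
  let T : Set A → Set A := fun S => S ∪ ⋃ l ∈ {l : List A | ∀ x ∈ l, x ∈ S}, G l
  let F : ℕ → Set A := fun n => T^[n] S0
  have hF0 : F 0 = S0 := rfl
  have hFs : ∀ n, F (n+1) = F n ∪ ⋃ l ∈ {l : List A | ∀ x ∈ l, x ∈ F n}, G l := by
    intro n
    simp only [F, Function.iterate_succ_apply']
    rfl
  have hlist : ∀ S : Set A, S.Countable → {l : List A | ∀ x ∈ l, x ∈ S}.Countable := by
    intro S hS
    have := hS.to_subtype
    rw [← Set.range_list_map_coe]
    exact Set.countable_range _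
  have hF : ∀ n, (F n).Countable := by
    intro n
    induction n with
    | zero => exact h0
    | succ n ih =>
      rw [hFs]
      exact ih.union ((hlist _ ih).biUnion fun l _ => hG l)
  have hmono : Monotone F := monotone_nat_of_le_succ fun n => by
    rw [hFs]
    exact Set.subset_union_left
  refine ⟨⋃ n, F n, Set.subset_iUnion F 0, Set.countable_iUnion hF, ?_⟩
  intro l hl
  have hN : ∃ N, ∀ x ∈ l, x ∈ F N := by
    induction l with
    | nil => exact ⟨0, fun x hx => absurd hx List.not_mem_nil⟩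
    | cons a l ih =>
      obtain ⟨N, hN⟩ := ih (fun x hx => hl x (List.mem_cons_of_mem _ hx))
      obtain ⟨M, hM⟩ := Set.mem_iUnion.1 (hl a List.mem_cons_self)
      refine ⟨max N M, fun x hx => ?_⟩
      rcases List.mem_cons.1 hx with rfl | hx
      · exact hmono (le_max_right _ _) hM
      · exact hmono (le_max_left _ _) (hN x hx)
  obtain ⟨N, hN⟩ := hN
  refine Set.Subset.trans ?_ (Set.subset_iUnion F (N + 1))
  rw [hFs]
  refine Set.Subset.trans ?_ Set.subset_union_right
  intro z hz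
  rw [Set.mem_iUnion₂]
  exact ⟨l, hN, hz⟩

/-- the inclusion of a closed star subalgebra -/
noncomputable def inc {A : Type} [CStarAlgebra A] (B : StarSubalgebra ℂ A)
    [IsClosed (B : Set A)] : B →⋆ₙₐ[ℂ] A where
  toFun := Subtype.val
  map_smul' _ _ := rfl
  map_zero' := rfl
  map_add' _ _ := rfl
  map_mul' _ _ := rfl
  map_star' _ := rfl

lemma inc_apply {A : Type} [CStarAlgebra A] (B : StarSubalgebra ℂ A)
    [IsClosed (B : Set A)] (x : B) : inc B x = (x : A) := rfl

lemma nuclear_sub {A : Type} [CStarAlgebra A] (B : StarSubalgebra ℂ A) [IsClosed (B : Set A)]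
    (S : Set A) (hBS : ∀ x ∈ B, x ∈ closure S)
    (hw : ∀ l : List A, (∀ x ∈ l, x ∈ S) → ∀ n : ℕ,
      ∃ (d : ℕ) (φ : A →ₗ[ℂ] MatC (Fin d)) (ψ : MatC (Fin d) →ₗ[ℂ] A),
      IsCP φ ∧ IsCP ψ ∧ (∀ a, ‖φ a‖ ≤ ‖a‖) ∧ (∀ m, ‖ψ m‖ ≤ ‖m‖) ∧
      (∀ a ∈ l, ‖ψ (φ a) - a‖ < 1 / ((n : ℝ) + 1)) ∧ ∀ m, ψ m ∈ B) : Nuclear B := by
  intro F ε hε
  have h1 : ∀ a : B, ∃ t ∈ S, ‖(a : A) - t‖ < ε / 3 := by
    intro a
    obtain ⟨t, ht, htd⟩ := Metric.mem_closure_iff.1 (hBS a a.2) (ε / 3) (by positivity)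
    exact ⟨t, ht, by rwa [dist_eq_norm] at htd⟩
  choose t htS ht using h1
  obtain ⟨n, hn⟩ := exists_nat_one_div_lt (by positivity : (0 : ℝ) < ε / 3)
  obtain ⟨d, φ, ψ, hφ, hψ, hφn, hψn, happ, hψB⟩ := hw (F.toList.map t) (by
    intro x hx
    obtain ⟨a, _, rfl⟩ := List.mem_map.1 hx
    exact htS a) n
  let φ' : B →ₗ[ℂ] MatC (Fin d) :=
    { toFun := fun x => φ (x : A)
      map_add' := fun x y => map_add φ (x : A) (y : A)
      map_smul' := fun c x => map_smul φ c (x : A) }
  let ψ' : MatC (Fin d) →ₗ[ℂ] B :=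
    { toFun := fun m => ⟨ψ m, hψB m⟩
      map_add' := fun x y => Subtype.ext (map_add ψ x y)
      map_smul' := fun c x => Subtype.ext (map_smul ψ c x) }
  refine ⟨d, φ', ψ', ?_, ?_, ?_, ?_, ?_⟩
  · intro k a b
    exact hφ k (fun i => (a i : A)) b
  · intro k a b
    obtain ⟨c, hc⟩ := hψ k a (fun i => (b i : A))
    refine exists_sq_of_injective (inc B) Subtype.val_injective _ c ?_
    rw [← hc, map_sum]
    refine Finset.sum_congr rfl fun i _ => ?_
    rw [map_sum]
    refine Finset.sum_congr rfl fun j _ => ?_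
    rfl
  · intro a
    exact hφn (a : A)
  · intro m
    exact hψn m
  · intro a ha
    change ‖ψ (φ (a : A)) - (a : A)‖ < ε
    have h2 : ‖ψ (φ (t a)) - t a‖ < 1 / ((n : ℝ) + 1) :=
      happ (t a) (List.mem_map.2 ⟨a, Finset.mem_toList.2 ha, rfl⟩)
    have h3 : ψ (φ (a : A)) - (a : A) =
        ψ (φ ((a : A) - t a)) + (ψ (φ (t a)) - t a) - ((a : A) - t a) := by
      rw [map_sub, map_sub]; abel
    have h4 : ‖ψ (φ ((a : A) - t a))‖ ≤ ‖(a : A) - t a‖ := (hψn _).trans (hφn _)
    have h5 := ht a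
    rw [h3]
    calc ‖ψ (φ ((a : A) - t a)) + (ψ (φ (t a)) - t a) - ((a : A) - t a)‖
        ≤ ‖ψ (φ ((a : A) - t a)) + (ψ (φ (t a)) - t a)‖ + ‖(a : A) - t a‖ := norm_sub_le _ _
      _ ≤ (‖ψ (φ ((a : A) - t a))‖ + ‖ψ (φ (t a)) - t a‖) + ‖(a : A) - t a‖ := by
          gcongr
          exact norm_add_le _ _
      _ < ε := by linarith

/-- witnesses for nuclearity -/
lemma nuc_wit {A : Type} [CStarAlgebra A] (hN : Nuclear A) (l : List A) :
    ∃ W : Set A, W.Countable ∧ ∀ B : Submodule ℂ A, W ⊆ B → ∀ n : ℕ,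
      ∃ (d : ℕ) (φ : A →ₗ[ℂ] MatC (Fin d)) (ψ : MatC (Fin d) →ₗ[ℂ] A),
      IsCP φ ∧ IsCP ψ ∧ (∀ a, ‖φ a‖ ≤ ‖a‖) ∧ (∀ m, ‖ψ m‖ ≤ ‖m‖) ∧
      (∀ a ∈ l, ‖ψ (φ a) - a‖ < 1 / ((n : ℝ) + 1)) ∧ ∀ m, ψ m ∈ B := by
  classical
  have h1 : ∀ n : ℕ, ∃ (d : ℕ) (φ : A →ₗ[ℂ] MatC (Fin d)) (ψ : MatC (Fin d) →ₗ[ℂ] A),
      IsCP φ ∧ IsCP ψ ∧ (∀ a, ‖φ a‖ ≤ ‖a‖) ∧ (∀ m, ‖ψ m‖ ≤ ‖m‖) ∧
      ∀ a ∈ l.toFinset, ‖ψ (φ a) - a‖ < 1 / ((n : ℝ) + 1) :=
    fun n => hN l.toFinset (1 / ((n : ℝ) + 1)) (by positivity)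
  choose d φ ψ hφ hψ hφn hψn happ using h1
  have h2 : ∀ n, ∃ T : Finset A, Submodule.span ℂ (T : Set A) = LinearMap.range (ψ n) := by
    intro n
    have hfin : Module.Finite ℂ (MatC (Fin (d n))) :=
      Module.Finite.equiv (LinearMap.toContinuousLinearMap
        (𝕜 := ℂ) (E := EuclideanSpace ℂ (Fin (d n))) (F' := EuclideanSpace ℂ (Fin (d n))))
    have h3 : (LinearMap.range (ψ n)).FG := Module.Finite.iff_fg.1 (Module.Finite.range (ψ n))
    exact h3
  choose T hT using h2
  refine ⟨⋃ n, (T n : Set A), Set.countable_iUnion fun n => (T n).countable_toSet, ?_⟩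
  intro B hWB n
  refine ⟨d n, φ n, ψ n, hφ n, hψ n, hφn n, hψn n, fun a ha => happ n a (List.mem_toFinset.2 ha),
    ?_⟩
  intro m
  have h3 : ψ n m ∈ Submodule.span ℂ (T n : Set A) := by
    rw [hT]; exact LinearMap.mem_range_self _ _
  exact (Submodule.span_le.2 ((Set.subset_iUnion (fun n => (T n : Set A)) n).trans hWB)) h3

end SepNAux

open SepNAux

theorem exists_separable_nuclear {A : Type} [CStarAlgebra A] (hs : IsSimpleRing A)
    (hN : Nuclear A)
    (hp : ∀ p : A, IsStarProjection p → p ≠ 0 → ∃ r : A, star r * p * r = 1)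
    (v : A) (hv : star v * v = 1) (hv' : v * star v ≠ 1)
    (b : A) (hb : b ≠ 0) (hnd : ∀ r : A, 1 / 2 ≤ ‖star r * (star b * b) * r - 1‖) :
    ∃ (A0 : Type) (_ : CStarAlgebra A0), TopologicalSpace.SeparableSpace A0 ∧ IsSimpleRing A0 ∧
      Nuclear A0 ∧
      (∀ p : A0, IsStarProjection p → p ≠ 0 → ∃ r : A0, star r * p * r = 1) ∧
      (∃ v : A0, star v * v = 1 ∧ v * star v ≠ 1) ∧
      ∃ b : A0, b ≠ 0 ∧ ∀ r : A0, 1 / 2 ≤ ‖star r * (star b * b) * r - 1‖ := by
  let _ : PartialOrder A := CStarAlgebra.spectralOrder A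
  have := CStarAlgebra.spectralOrderedRing A
  have hnt : Nontrivial A := ⟨b, 0, hb⟩
  -- witnesses
  have hW1 : ∀ d : A, ∃ W : Set A, W.Countable ∧ ∃ g ∈ W, IsSelfAdjoint g ∧
      star d * d ≤ g + algebraMap ℝ A (1 / 2) ∧
      algebraMap ℝ A (3 / 8) * (g * g) ≤ g * (star d * d - algebraMap ℝ A (1 / 8)) * g ∧
      (g ≠ 0 → ∃ (ι : Type) (_ : Fintype ι) (z : ι → A), (∀ i, z i ∈ W) ∧
        ∑ i, star (z i) * (g * g) * z i = 1) := by
    intro d
    obtain ⟨g, hg1, hg2, hg3⟩ := cutoff_facts (star d * d) (IsSelfAdjoint.star_mul_self d)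
    by_cases hg : g = 0
    · exact ⟨{g}, Set.countable_singleton g, g, rfl, hg1, hg2, hg3, fun h => absurd hg h⟩
    · obtain ⟨ι, hι, z, hz⟩ := exists_sum_eq_one hs hg
      refine ⟨insert g (Set.range z), (Set.countable_range z).insert g, g,
        Set.mem_insert _ _, hg1, hg2, hg3, fun _ => ⟨ι, hι, z, fun i =>
          Set.mem_insert_of_mem _ (Set.mem_range_self i), ?_⟩⟩
      rw [hg1.star_eq] at hz
      exact hz
  have hW2 : ∀ d : A, ∃ W : Set A, W.Countable ∧
      ((∃ r : A, ‖r‖ ≤ 1 ∧ ‖star r * d * r - 1‖ < 1 / 2) →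
        ∃ r ∈ W, ‖r‖ ≤ 1 ∧ ‖star r * d * r - 1‖ < 1 / 2) := by
    intro d
    by_cases h : ∃ r : A, ‖r‖ ≤ 1 ∧ ‖star r * d * r - 1‖ < 1 / 2
    · obtain ⟨r, hr⟩ := h
      exact ⟨{r}, Set.countable_singleton r, fun _ => ⟨r, rfl, hr⟩⟩
    · exact ⟨∅, Set.countable_empty, fun h' => absurd h' h⟩
  choose W1 hW1c hW1 using hW1
  choose W2 hW2c hW2 using hW2
  obtain ⟨D, hDc, hDd⟩ := TopologicalSpace.exists_countable_dense ℂ
  choose W3 hW3c hW3 using fun l : List A => nuc_wit hN l
  obtain ⟨S, hS0, hSc, hSGl⟩ := exists_countable_closed_list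
    ({b, v} ∪ (algebraMap ℂ A) '' D)
    (((Set.countable_singleton v).insert b).union (hDc.image _))
    (fun l => (⋃ x ∈ {x | x ∈ l}, ⋃ y ∈ {y | y ∈ l}, ({x + y, x * y, star x} ∪ (W1 x ∪ W2 x))) ∪
      W3 l)
    (fun l => ((List.finite_toSet l).countable.biUnion fun x _ =>
      (List.finite_toSet l).countable.biUnion fun y _ =>
      (((Set.toFinite _).countable).union ((hW1c x).union (hW2c x)))).union (hW3c l))
  have hSG : ∀ x ∈ S, ∀ y ∈ S, ({x + y, x * y, star x} ∪ (W1 x ∪ W2 x)) ⊆ S := by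
    intro x hx y hy z hz
    apply hSGl [x, y] (by
      intro w hw
      rcases List.mem_cons.1 hw with rfl | hw
      · exact hx
      · rw [List.mem_singleton.1 hw]; exact hy)
    refine Or.inl ?_
    rw [Set.mem_iUnion₂]
    refine ⟨x, by simp, ?_⟩
    rw [Set.mem_iUnion₂]
    exact ⟨y, by simp, hz⟩
  have hadd : ∀ x ∈ S, ∀ y ∈ S, x + y ∈ S := fun x hx y hy =>
    hSG x hx y hy (Or.inl (by simp))
  have hmul : ∀ x ∈ S, ∀ y ∈ S, x * y ∈ S := fun x hx y hy =>
    hSG x hx y hy (Or.inl (by simp))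
  have hstar : ∀ x ∈ S, star x ∈ S := fun x hx =>
    hSG x hx x hx (Or.inl (by simp))
  have hSW1 : ∀ x ∈ S, W1 x ⊆ S := fun x hx y hy => hSG x hx x hx (Or.inr (Or.inl hy))
  have hSW2 : ∀ x ∈ S, W2 x ⊆ S := fun x hx y hy => hSG x hx x hx (Or.inr (Or.inr hy))
  let B : StarSubalgebra ℂ A := closureSub S hadd hmul hstar D hDd
    (fun c hc => hS0 (Or.inr ⟨c, hc, rfl⟩))
  have hBcl : IsClosed (B : Set A) := isClosed_closure
  have hBmem : ∀ x, x ∈ B ↔ x ∈ closure S := fun x => Iff.rfl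
  have hSB : ∀ x ∈ S, x ∈ B := fun x hx => subset_closure hx
  refine ⟨B, StarSubalgebra.cstarAlgebra B, ?_, ?_, ?_, ?_, ?_, ?_⟩
  · -- separable
    have h1 : TopologicalSpace.IsSeparable (B : Set A) := (hSc.isSeparable).closure
    exact h1.separableSpace
  · -- simple
    have hntB : Nontrivial B := ⟨⟨⟨b, hSB b (hS0 (Or.inl (by simp)))⟩, 0, fun h =>
      hb (congrArg Subtype.val h)⟩⟩
    refine ⟨{ toNontrivial := inferInstance, eq_bot_or_eq_top := fun I => ?_ }⟩
    by_cases hI : I = ⊥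
    · exact Or.inl hI
    right
    obtain ⟨y, hyI, hy0⟩ : ∃ y ∈ I, y ≠ 0 := by
      by_contra hcon
      push Not at hcon
      apply hI
      refine le_antisymm (fun x hx => ?_) bot_le
      rw [TwoSidedIdeal.mem_bot]
      exact hcon x hx
    have hny : 0 < ‖(y : A)‖ := norm_pos_iff.2 (fun h => hy0 (Subtype.ext h))
    -- normalise
    set y' : B := ((‖(y : A)‖⁻¹ : ℝ) : ℂ) • y with hy'
    have hy'I : y' ∈ I := by
      have : y' = (((‖(y : A)‖⁻¹ : ℝ) : ℂ) • (1 : B)) * y := by rw [hy', smul_one_mul]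
      rw [this]
      exact I.mul_mem_left _ _ hyI
    have hy'n : ‖(y' : A)‖ = 1 := by
      have : (y' : A) = ((‖(y : A)‖⁻¹ : ℝ) : ℂ) • (y : A) := rfl
      rw [this, norm_smul, Complex.norm_real, Real.norm_of_nonneg (by positivity)]
      field_simp
    set c : A := star (y' : A) * (y' : A) with hc
    have hc0 : 0 ≤ c := star_mul_self_nonneg _
    have hcn : ‖c‖ = 1 := by rw [hc, CStarRing.norm_star_mul_self, hy'n, one_mul]
    have hcs : IsSelfAdjoint c := IsSelfAdjoint.of_nonneg hc0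
    obtain ⟨d, hd, hdS⟩ : ∃ d, ‖c - star d * d‖ < 1 / 8 ∧ d ∈ S := by
      have hmem : (y' : A) ∈ closure S := (hBmem _).1 y'.2
      have hopen : IsOpen {x : A | ‖c - star x * x‖ < 1 / 8} :=
        isOpen_lt (by fun_prop) continuous_const
      obtain ⟨d, hd1, hd2⟩ := mem_closure_iff.1 hmem _ hopen (by simp [hc])
      exact ⟨d, hd1, hd2⟩
    obtain ⟨g, hgW, hgs, hg1, hg2, hg3⟩ := hW1 d
    have hgS : g ∈ S := hSW1 d hdS hgW
    have hsa : IsSelfAdjoint (c - star d * d) := hcs.sub (IsSelfAdjoint.star_mul_self d)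
    have h8 : c ≤ star d * d + algebraMap ℝ A (1 / 8) := by
      have h1 := hsa.le_algebraMap_norm_self
      have h2 : algebraMap ℝ A ‖c - star d * d‖ ≤ algebraMap ℝ A (1 / 8) :=
        algebraMap_mono A hd.le
      have h3 := h1.trans h2
      rwa [sub_le_iff_le_add'] at h3
    have h8' : star d * d - algebraMap ℝ A (1 / 8) ≤ c := by
      have h1 := hsa.neg_algebraMap_norm_le_self
      have h2 : algebraMap ℝ A ‖c - star d * d‖ ≤ algebraMap ℝ A (1 / 8) :=
        algebraMap_mono A hd.le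
      have h3 := (neg_le_neg h2).trans h1
      rw [neg_le_sub_iff_le_add] at h3
      rw [sub_le_iff_le_add]
      exact h3
    have hg0 : g ≠ 0 := by
      rintro rfl
      rw [zero_add] at hg1
      have h2 : c ≤ algebraMap ℝ A (5 / 8) := by
        refine h8.trans ?_
        have h3 : algebraMap ℝ A (5 / 8) = algebraMap ℝ A (1 / 2) +
            algebraMap ℝ A (1 / 8) := by
          rw [← map_add]; norm_num
        rw [h3]
        gcongr
      have h4 := (CStarAlgebra.norm_le_iff_le_algebraMap c (by norm_num : (0 : ℝ) ≤ 5 / 8) hc0).2 h2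
      rw [hcn] at h4
      norm_num at h4
    obtain ⟨ι, _, z, hzW, hz⟩ := hg3 hg0
    have hzS : ∀ i, z i ∈ B := fun i => hSB _ (hSW1 d hdS (hzW i))
    -- the invertible element of the ideal
    let g' : B := ⟨g, hSB g hgS⟩
    let z' : ι → B := fun i => ⟨z i, hzS i⟩
    set u : B := ∑ i, star (z' i) * (g' * (star y' * y') * g') * z' i with hu
    have huI : u ∈ I := by
      refine sum_mem fun i _ => ?_
      refine I.mul_mem_right _ _ (I.mul_mem_left _ _ ?_)
      exact I.mul_mem_right _ _ (I.mul_mem_left _ _ (I.mul_mem_left _ _ hy'I))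
    have huA : (u : A) = ∑ i, star (z i) * (g * c * g) * z i := by
      rw [hu]
      push_cast
      rfl
    have h9 : algebraMap ℝ A (3 / 8) * (g * g) ≤ g * c * g := by
      have h2 := star_left_conjugate_le_conjugate h8' g
      rw [hgs.star_eq] at h2
      exact hg2.trans h2
    have h10 : algebraMap ℝ A (3 / 8) ≤ (u : A) := by
      have h1 : algebraMap ℝ A (3 / 8) = ∑ i, star (z i) * (algebraMap ℝ A (3 / 8) * (g * g)) *
          z i := by
        have h11 : algebraMap ℝ A (3 / 8) =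
            algebraMap ℝ A (3 / 8) * ∑ i, star (z i) * (g * g) * z i := by
          rw [hz, mul_one]
        rw [Finset.mul_sum] at h11
        refine h11.trans (Finset.sum_congr rfl fun i _ => ?_)
        rw [← mul_assoc, ← mul_assoc, Algebra.commutes (3 / 8 : ℝ) (star (z i)), mul_assoc (star (z i))]
      rw [huA, h1]
      refine Finset.sum_le_sum fun i _ => ?_
      exact star_left_conjugate_le_conjugate h9 (z i)
    have hunitA : IsUnit (u : A) := isUnit_of_algebraMap_le (by norm_num) h10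
    have hunit : IsUnit u := (StarSubalgebra.coe_isUnit B (hS := hBcl)).1 hunitA
    obtain ⟨w, hw⟩ := hunit
    rw [← TwoSidedIdeal.one_mem_iff]
    have : (1 : B) = ↑w⁻¹ * u := by rw [← hw, Units.inv_mul]
    rw [this]
    exact I.mul_mem_left _ _ huI
  · -- nuclear
    refine nuclear_sub B S (fun x hx => hx) ?_
    intro l hl n
    exact hW3 l (Subalgebra.toSubmodule B.toSubalgebra)
      (fun x hx => subset_closure (hSGl l hl (Or.inr hx))) n
  · -- projections
    intro p hpp hp0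
    have hpA : IsStarProjection (p : A) :=
      ⟨congrArg Subtype.val hpp.isIdempotentElem, congrArg Subtype.val hpp.isSelfAdjoint⟩
    have hpA0 : (p : A) ≠ 0 := fun h => hp0 (Subtype.ext h)
    obtain ⟨r, hr⟩ := hp p hpA hpA0
    have hps : star (p : A) = p := hpA.isSelfAdjoint.star_eq
    have hpI : (p : A) * p = p := hpA.isIdempotentElem
    have hr1 : star ((p : A) * r) * ((p : A) * r) = 1 := by
      rw [star_mul, hps, mul_assoc, ← mul_assoc (p : A), hpI, ← mul_assoc, hr]
    have hrn : ‖(p : A) * r‖ = 1 := by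
      have h1 := CStarRing.norm_star_mul_self (x := (p : A) * r)
      rw [hr1, CStarRing.norm_one] at h1
      nlinarith [norm_nonneg ((p : A) * r)]
    have hr2 : star ((p : A) * r) * (p : A) * ((p : A) * r) = 1 := by
      rw [mul_assoc, ← mul_assoc (p : A), hpI, hr1]
    obtain ⟨d, hd, hdS⟩ : ∃ d, ‖d - (p : A)‖ < 1 / 4 ∧ d ∈ S := by
      have hmem : (p : A) ∈ closure S := (hBmem _).1 p.2
      obtain ⟨d, hd1, hd2⟩ := Metric.mem_closure_iff.1 hmem (1 / 4) (by norm_num)
      refine ⟨d, ?_, hd1⟩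
      rw [dist_comm, dist_eq_norm] at hd2
      exact hd2
    have hb1 : ‖star ((p : A) * r) * d * ((p : A) * r) - 1‖ < 1 / 2 := by
      have h1 : star ((p : A) * r) * d * ((p : A) * r) - 1 =
          star ((p : A) * r) * (d - (p : A)) * ((p : A) * r) := by
        rw [mul_sub, sub_mul, hr2]
      rw [h1]
      calc ‖star ((p : A) * r) * (d - (p : A)) * ((p : A) * r)‖
          ≤ ‖star ((p : A) * r) * (d - (p : A))‖ * ‖(p : A) * r‖ := norm_mul_le _ _
        _ ≤ ‖star ((p : A) * r)‖ * ‖d - (p : A)‖ * ‖(p : A) * r‖ := by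
            gcongr
            exact norm_mul_le _ _
        _ = ‖d - (p : A)‖ := by rw [norm_star, hrn]; ring
        _ < 1 / 2 := by linarith
    obtain ⟨r', hr'W, hr'n, hr'd⟩ := hW2 d ⟨_, hrn.le, hb1⟩
    have hr'B : r' ∈ B := hSB _ (hSW2 d hdS hr'W)
    let x : B := ⟨r', hr'B⟩
    have hb2 : ‖star x * p * x - 1‖ < 1 := by
      have h1 : ((star x * p * x - 1 : B) : A) = (star r' * d * r' - 1) +
          star r' * ((p : A) - d) * r' := by
        have h0 : ((star x * p * x - 1 : B) : A) = star r' * (p : A) * r' - 1 := rfl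
        rw [h0]
        noncomm_ring
      have h2 : ‖((star x * p * x - 1 : B) : A)‖ < 1 := by
        rw [h1]
        refine (norm_add_le _ _).trans_lt ?_
        have h3 : ‖star r' * ((p : A) - d) * r'‖ ≤ 1 / 4 := by
          calc ‖star r' * ((p : A) - d) * r'‖ ≤ ‖star r' * ((p : A) - d)‖ * ‖r'‖ :=
                norm_mul_le _ _
            _ ≤ ‖star r'‖ * ‖(p : A) - d‖ * ‖r'‖ := by
                gcongr
                exact norm_mul_le _ _
            _ ≤ 1 * (1 / 4) * 1 := by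
                rw [norm_star, norm_sub_rev]
                gcongr
            _ = 1 / 4 := by ring
        linarith
      exact h2
    have hunit : IsUnit (star x * p * x) := by
      have h1 : ‖1 - star x * p * x‖ < 1 := by rw [norm_sub_rev]; exact hb2
      have h2 := isUnit_one_sub_of_norm_lt_one h1
      rwa [sub_sub_cancel] at h2
    have hpos : ∃ s : B, star s = s ∧ s * (star x * p * x) * s = 1 := by
      let _ : PartialOrder B := CStarAlgebra.spectralOrder B
      have := CStarAlgebra.spectralOrderedRing B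
      apply exists_normalize _ hunit
      have h1 : star x * p * x = star (p * x) * (p * x) := by
        rw [star_mul, hpp.isSelfAdjoint.star_eq, mul_assoc, mul_assoc, ← mul_assoc p,
          hpp.isIdempotentElem]
      rw [h1]
      exact star_mul_self_nonneg _
    obtain ⟨s, hs1, hs2⟩ := hpos
    refine ⟨x * s, ?_⟩
    rw [← hs2, star_mul, hs1]
    noncomm_ring
  · -- the isometry
    refine ⟨⟨v, hSB v (hS0 (Or.inl (by simp)))⟩, Subtype.ext hv, fun h => hv' ?_⟩
    exact congrArg Subtype.val h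
  · refine ⟨⟨b, hSB b (hS0 (Or.inl (by simp)))⟩, fun h => hb (congrArg Subtype.val h), ?_⟩
    intro r
    exact hnd (r : A)

end Pool.Agent.Lib.Eln
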