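import Pool.Agent.Lib.Eln.Full
import Pool.Agent.Lib.Eln.Base
import Pool.Agent.Lib.Eln.Inf
import Pool.Agent.Lib.Eln.Q0
import Pool.Agent.Lib.Eln.Ret
import Pool.Agent.Lib.Eln.NucKM
import Pool.Agent.Lib.Eln.NucCorner
import Pool.Agent.Lib.Eln.NucLim
import Pool.Agent.Lib.Eln.SepN
import Pool.Agent.Lib.Ell.Near

set_option autoImplicit false

/-!
The inductive limit and its properties.
-/

open scoped InnerProductSpace BoundedContinuousFunction unitInterval
open CStarLim

namespace Pool.Agent.Lib.Eln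

open Pool.Agent.Lib.P81d4f5 (S3)
open Pool.Agent.Lib.Ell (Corner exists_proj_lim exists_normalize)

/-- the smallest projection -/
noncomputable def q0 : KM := exists_q.choose

theorem q0_proj : IsStarProjection q0 := exists_q.choose_spec.1

theorem q0_zero (x : XX) : (q0.val.at' 0).fn x = V ee * star (V ee) := exists_q.choose_spec.2 x

theorem q0_ne : q0 ≠ 0 := by
  intro h
  have h1 := q0_zero (fun _ => ee)
  rw [h] at h1
  have h2 : star (V ee) * (V ee * star (V ee)) * V ee = 1 := by
    have : star (V ee) * (V ee * star (V ee)) * V ee = (star (V ee) * V ee) * (star (V ee) * V ee) := by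
      simp only [mul_assoc]
    rw [this, star_V_mul_V, one_mul]
  rw [← h1] at h2
  simp only [KM.val_zero, II.at'_zero, BB.fn_zero, mul_zero, zero_mul] at h2
  exact zero_ne_one h2

/-- the units of the building blocks -/
noncomputable def qs : ℕ → KM
  | 0 => q0
  | k + 1 => PhiM k (qs k)

theorem qs_proj : ∀ k, IsStarProjection (qs k)
  | 0 => q0_proj
  | k + 1 => (qs_proj k).map (PhiM k)

theorem qs_ne : ∀ k, qs k ≠ 0
  | 0 => q0_ne
  | k + 1 => by
    intro h
    apply qs_ne k
    apply PhiM_injective k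
    rw [map_zero]
    exact h

/-- the building blocks -/
abbrev E (k : ℕ) : Type := Corner (qs k) (qs_proj k)

/-- the inductive system -/
noncomputable def sys : IndSys E where
  map k := Corner.map (PhiM k) (qs k) (qs_proj k) (qs_proj (k + 1))
  inj k := Corner.map_injective (PhiM k) (PhiM_injective k) (qs k) (qs_proj k) (qs_proj (k + 1))

theorem val_sys_map (k : ℕ) (x : E k) : (sys.map k x).val = PhiM k x.val := rfl

theorem nontrivial_E (k : ℕ) : Nontrivial (E k) :=
  ⟨⟨1, 0, fun h => qs_ne k (congrArg Corner.val h)⟩⟩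

/-- the limit -/
abbrev Lm : Type := sys.Lim

theorem nontrivial_Lm : Nontrivial Lm := by
  have := nontrivial_E 0
  exact ⟨⟨sys.ι 0 1, sys.ι 0 0, fun h => one_ne_zero (sys.ι_injective 0 h)⟩⟩

/-! ### the limit is simple -/

theorem wit_gen {n : ℕ} (c : E n) {N : ℕ} (hc : Wit N c.val.val) {k : ℕ} (hk : n ≤ k) :
    Wit N (sys.gen n c k).val.val := by
  induction k, hk using Nat.le_induction with
  | base => rw [sys.gen_self]; exact hc
  | succ k hk ih =>
    rw [sys.gen_succ hk, val_sys_map]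
    exact ih.step k

theorem isSimple_Lm : IsSimpleRing Lm := by
  have := nontrivial_Lm
  let _ : PartialOrder Lm := CStarAlgebra.spectralOrder Lm
  have : StarOrderedRing Lm := CStarAlgebra.spectralOrderedRing Lm
  apply isSimpleRing_lim
  intro n c hc
  have hc' : c.val.val ≠ 0 := fun h => hc (Corner.val_injective (KM.ext h))
  obtain ⟨N, hN⟩ := exists_wit hc'
  set k := max n N with hk
  have h1 : Wit k (sys.gen n c k).val.val := (wit_gen c hN (le_max_left _ _)).mono (le_max_right _ _)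
  obtain ⟨κ, hκ, Y, hY1, hY2⟩ := full_of_wit h1 (qs_proj (k + 1))
  set g : E k := sys.gen n c k with hg
  -- elements of the corner
  have hqq := (qs_proj (k + 1)).isIdempotentElem.eq
  have hqsa := (qs_proj (k + 1)).isSelfAdjoint.star_eq
  let Z : κ → E (k + 1) := fun i => Corner.mk (qs (k + 1) * Y i) (by rw [← mul_assoc, hqq])
    (by rw [mul_assoc, hY1])
  have hZ : ∀ i, (star (Z i) * sys.map k (star g * g) * Z i).val =
      star (Y i) * star (PhiM k g.val) * PhiM k g.val * Y i := by
    intro i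
    rw [Corner.val_mul, Corner.val_mul, Corner.val_star, map_mul, Corner.val_mul, map_star,
      Corner.val_star, val_sys_map]
    change star (qs (k + 1) * Y i) * (star (PhiM k g.val) * PhiM k g.val) * (qs (k + 1) * Y i) = _
    have h2 : PhiM k g.val * qs (k + 1) = PhiM k g.val := (sys.map k g).val_mul_q
    have h3 : qs (k + 1) * star (PhiM k g.val) = star (PhiM k g.val) := by
      rw [← hqsa, ← star_mul, h2]
    rw [star_mul, hqsa]
    have h4 : star (Y i) * qs (k + 1) * (star (PhiM k g.val) * PhiM k g.val) * (qs (k + 1) * Y i) =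
        star (Y i) * (qs (k + 1) * star (PhiM k g.val)) * (PhiM k g.val * qs (k + 1)) * Y i := by
      simp only [mul_assoc]
    rw [h4, h2, h3]
  refine ⟨κ, hκ, fun i => sys.ι (k + 1) (star (Z i)), 1 / 2, by norm_num, ?_⟩
  have hsum : ∑ i, sys.ι (k + 1) (star (Z i)) * sys.ι n (star c * c) *
      star (sys.ι (k + 1) (star (Z i))) =
      sys.ι (k + 1) (∑ i, star (Z i) * sys.map k (star g * g) * Z i) := by
    rw [map_sum]
    refine Finset.sum_congr rfl fun i _ => ?_
    have h5 : sys.ι n (star c * c) = sys.ι (k + 1) (sys.map k (star g * g)) := by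
      rw [sys.ι_map, map_mul, map_mul, map_star, map_star, hg, sys.ι_gen n c (le_max_left _ _)]
    rw [h5, ← map_star, star_star, ← map_mul, ← map_mul]
  rw [hsum]
  set T := sys.ι (k + 1) (∑ i, star (Z i) * sys.map k (star g * g) * Z i) with hT
  have hTsa : IsSelfAdjoint T := by
    rw [hT]
    apply IsSelfAdjoint.map
    rw [IsSelfAdjoint, star_sum]
    refine Finset.sum_congr rfl fun i _ => ?_
    rw [star_mul, star_mul, star_star, ← map_star, star_mul, star_star]
    simp only [mul_assoc]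
  have hTn : ‖T - 1‖ ≤ 1 / 2 := by
    rw [hT, ← map_one (sys.ι (k + 1)), ← map_sub, IndSys.norm_ι, ← Corner.norm_val,
      Corner.val_sub, Corner.val_one]
    have hvs : ∀ F : κ → E (k + 1), (∑ i, F i).val = ∑ i, (F i).val := by
      intro F
      let ev : E (k + 1) →+ KM := ⟨⟨Corner.val, Corner.val_zero⟩, Corner.val_add⟩
      exact map_sum ev F Finset.univ
    rw [hvs]
    simp only [hZ]
    exact hY2
  have hTsa1 : IsSelfAdjoint (1 - T) := (IsSelfAdjoint.one _).sub hTsa
  have h6 := hTsa1.le_algebraMap_norm_self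
  have h7 : algebraMap ℝ Lm ‖1 - T‖ ≤ algebraMap ℝ Lm (1 / 2) := by
    apply algebraMap_mono
    rw [← norm_neg, neg_sub]
    exact hTn
  have h8 := h6.trans h7
  have h9 : (1 : Lm) - algebraMap ℝ Lm (1 / 2) ≤ T := by
    rw [sub_le_comm]; exact h8
  have h10 : (1 : Lm) - algebraMap ℝ Lm (1 / 2) = algebraMap ℝ Lm (1 / 2) := by
    rw [← map_one (algebraMap ℝ Lm), ← map_sub]
    norm_num
  rwa [h10] at h9

/-! ### projections of the limit -/

theorem exists_isometries {A : Type} [CStarAlgebra A] {f : A} (hf : IsStarProjection f)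
    (w : Fin 2 → A) (hw : ∀ i j, ‖star (w i) * f * w j - (if i = j then 1 else 0)‖ ≤ 1 / 4) :
    ∃ r : Fin 2 → A, (∀ i j, star (r i) * r j = if i = j then 1 else 0) ∧ ∀ i, f * r i = r i := by
  let _ : PartialOrder A := CStarAlgebra.spectralOrder A
  have : StarOrderedRing A := CStarAlgebra.spectralOrderedRing A
  have hff : f * f = f := hf.isIdempotentElem
  have hfs : star f = f := hf.isSelfAdjoint
  -- a self adjoint element near 1 is bounded below
  have hlow : ∀ (T : A) (c : ℝ), IsSelfAdjoint T → ‖T - 1‖ ≤ c → algebraMap ℝ A (1 - c) ≤ T := by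
    intro T c hT hTn
    have hTsa1 : IsSelfAdjoint (1 - T) := (IsSelfAdjoint.one _).sub hT
    have h6 := hTsa1.le_algebraMap_norm_self
    have h7 : algebraMap ℝ A ‖1 - T‖ ≤ algebraMap ℝ A c := by
      apply algebraMap_mono
      rw [← norm_neg, neg_sub]
      exact hTn
    have h8 := h6.trans h7
    rw [map_sub, map_one]
    rw [sub_le_comm]; exact h8
  have hnorm : ∀ T : A, 0 ≤ T → ‖T - 1‖ < 1 → ∃ s : A, star s = s ∧ s * T * s = 1 := by
    intro T hT0 hT
    apply exists_normalize hT0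
    have h1 : IsUnit (1 - (1 - T)) := (Units.oneSub (1 - T) (by
      rw [← norm_neg, neg_sub]; exact hT)).isUnit
    rwa [sub_sub_cancel] at h1
  set a : Fin 2 → A := fun i => f * w i with ha
  have haa : ∀ i j, star (a i) * a j = star (w i) * f * w j := by
    intro i j
    simp only [ha, star_mul, hfs]
    calc star (w i) * f * (f * w j) = star (w i) * (f * f) * w j := by simp only [mul_assoc]
      _ = _ := by rw [hff]
  have hfa : ∀ i, f * a i = a i := by
    intro i
    simp only [ha]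
    rw [← mul_assoc, hff]
  clear_value a
  have h00 : ‖star (a 0) * a 0 - 1‖ ≤ 1 / 4 := by
    have := hw 0 0
    rwa [if_pos rfl, ← haa] at this
  have h11 : ‖star (a 1) * a 1 - 1‖ ≤ 1 / 4 := by
    have := hw 1 1
    rwa [if_pos rfl, ← haa] at this
  have h01 : ‖star (a 0) * a 1‖ ≤ 1 / 4 := by
    have := hw 0 1
    rwa [if_neg (by decide), ← haa, sub_zero] at this
  obtain ⟨s, hs, hs1⟩ := hnorm _ (star_mul_self_nonneg (a 0)) (h00.trans_lt (by norm_num))
  -- the norm of `s`
  have hsn : ‖s‖ * ‖s‖ ≤ 4 / 3 := by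
    have h2 := hlow _ _ (IsSelfAdjoint.star_mul_self (a 0)) h00
    have h3 : star s * algebraMap ℝ A (1 - 1 / 4) * s ≤ star s * (star (a 0) * a 0) * s :=
      star_left_conjugate_le_conjugate h2 s
    rw [hs, hs1] at h3
    have h4 : s * algebraMap ℝ A (1 - 1 / 4) * s = (3 / 4 : ℝ) • (star s * s) := by
      rw [← Algebra.commutes, mul_assoc, ← Algebra.smul_def, hs]
      norm_num
    rw [h4] at h3
    have h5 : 0 ≤ (3 / 4 : ℝ) • (star s * s) := smul_nonneg (by norm_num) (star_mul_self_nonneg s)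
    have h6 := CStarAlgebra.norm_le_norm_of_nonneg_of_le h5 h3
    rw [norm_smul, CStarRing.norm_star_mul_self, Real.norm_of_nonneg (by norm_num)] at h6
    have h7 : ‖(1 : A)‖ ≤ 1 := by
      have h8 := CStarRing.norm_star_mul_self (x := (1 : A))
      rw [star_one, one_mul] at h8
      by_contra hcon
      push Not at hcon
      nlinarith [norm_nonneg (1 : A)]
    linarith
  set r0 : A := a 0 * s with hr0
  have hr00 : star r0 * r0 = 1 := by
    rw [hr0, star_mul, hs]
    calc s * star (a 0) * (a 0 * s) = s * (star (a 0) * a 0) * s := by simp only [mul_assoc]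
      _ = 1 := hs1
  have hfr0 : f * r0 = r0 := by rw [hr0, ← mul_assoc, hfa]
  set b : A := a 1 - r0 * (star r0 * a 1) with hb
  have hr0b : star r0 * b = 0 := by
    rw [hb, mul_sub, ← mul_assoc (star r0) r0, hr00, one_mul, sub_self]
  have hfb : f * b = b := by
    rw [hb, mul_sub, hfa, ← mul_assoc f r0, hfr0]
  have hbb : star b * b = star (a 1) * a 1 - star (star r0 * a 1) * (star r0 * a 1) := by
    have h1 : star b * b = star (a 1) * b - star (star r0 * a 1) * (star r0 * b) := by
      rw [hb]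
      simp only [star_sub, star_mul, star_star, sub_mul, mul_sub, mul_assoc]
    rw [h1, hr0b, mul_zero, sub_zero, hb, mul_sub, star_mul (star r0) (a 1), star_star]
    simp only [mul_assoc]
  have hc : ‖star r0 * a 1‖ * ‖star r0 * a 1‖ ≤ 1 / 12 := by
    have h1 : star r0 * a 1 = s * (star (a 0) * a 1) := by
      rw [hr0, star_mul, hs, mul_assoc]
    have h2 : ‖star r0 * a 1‖ ≤ ‖s‖ * (1 / 4) := by
      rw [h1]
      exact (norm_mul_le _ _).trans (by gcongr)
    have h3 := norm_nonneg (star r0 * a 1)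
    calc ‖star r0 * a 1‖ * ‖star r0 * a 1‖ ≤ (‖s‖ * (1 / 4)) * (‖s‖ * (1 / 4)) := by gcongr
      _ = ‖s‖ * ‖s‖ * (1 / 16) := by ring
      _ ≤ 4 / 3 * (1 / 16) := by gcongr
      _ = 1 / 12 := by norm_num
  have hb1 : ‖star b * b - 1‖ < 1 := by
    have h1 : star b * b - 1 = (star (a 1) * a 1 - 1) -
        star (star r0 * a 1) * (star r0 * a 1) := by rw [hbb]; abel
    rw [h1]
    refine (norm_sub_le _ _).trans_lt ?_
    rw [CStarRing.norm_star_mul_self]
    linarith
  obtain ⟨s', hs', hs1'⟩ := hnorm _ (star_mul_self_nonneg b) hb1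
  set r1 : A := b * s' with hr1
  have hr11 : star r1 * r1 = 1 := by
    rw [hr1, star_mul, hs']
    calc s' * star b * (b * s') = s' * (star b * b) * s' := by simp only [mul_assoc]
      _ = 1 := hs1'
  have hr01 : star r0 * r1 = 0 := by rw [hr1, ← mul_assoc, hr0b, zero_mul]
  have hr10 : star r1 * r0 = 0 := by
    have := congrArg star hr01
    rwa [star_mul, star_star, star_zero] at this
  have hfr1 : f * r1 = r1 := by rw [hr1, ← mul_assoc, hfb]
  refine ⟨![r0, r1], ?_, ?_⟩
  · intro i j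
    fin_cases i <;> fin_cases j <;> simp [hr00, hr11, hr01, hr10]
  · intro i
    fin_cases i <;> simp [hfr0, hfr1]

/-- two isometries under the image of a projection -/
theorem exists_isom {n : ℕ} {e : E n} (he : IsStarProjection e) (he0 : e ≠ 0) :
    ∃ r : Fin 2 → Lm, (∀ i j, star (r i) * r j = if i = j then 1 else 0) ∧
      ∀ i, sys.ι n e * r i = r i := by
  have hev : IsStarProjection e.val :=
    ⟨congrArg Corner.val he.isIdempotentElem.eq, congrArg Corner.val he.isSelfAdjoint.star_eq⟩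
  have hev0 : e.val ≠ 0 := fun h => he0 (Corner.val_injective h)
  obtain ⟨Y, hY1, hY2⟩ := exists_Y n hev hev0 (qs_proj (n + 1)) (show (0 : ℝ) < 1 / 4 by norm_num)
  have hqq := (qs_proj (n + 1)).isIdempotentElem.eq
  have hqsa := (qs_proj (n + 1)).isSelfAdjoint.star_eq
  let Z : Fin 2 → E (n + 1) := fun i => Corner.mk (qs (n + 1) * Y i)
    (by rw [← mul_assoc, hqq]) (by rw [mul_assoc, hY1])
  have hZ : ∀ i j, (star (Z i) * sys.map n e * Z j).val = star (Y i) * PhiM n e.val * Y j := by
    intro i j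
    rw [Corner.val_mul, Corner.val_mul, Corner.val_star, val_sys_map]
    change star (qs (n + 1) * Y i) * PhiM n e.val * (qs (n + 1) * Y j) = _
    have h2 : PhiM n e.val * qs (n + 1) = PhiM n e.val := (sys.map n e).val_mul_q
    have h3 : qs (n + 1) * PhiM n e.val = PhiM n e.val := (sys.map n e).q_mul_val
    rw [star_mul, hqsa]
    calc star (Y i) * qs (n + 1) * PhiM n e.val * (qs (n + 1) * Y j)
        = star (Y i) * (qs (n + 1) * PhiM n e.val) * qs (n + 1) * Y j := by
          simp only [mul_assoc]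
      _ = star (Y i) * (PhiM n e.val * qs (n + 1)) * Y j := by rw [h3]; simp only [mul_assoc]
      _ = _ := by rw [h2]
  refine exists_isometries (A := Lm) (he.map _) (fun i => sys.ι (n + 1) (Z i)) fun i j => ?_
  have h1 : star (sys.ι (n + 1) (Z i)) * sys.ι n e * sys.ι (n + 1) (Z j) -
      (if i = j then 1 else 0) = sys.ι (n + 1) (star (Z i) * sys.map n e * Z j -
        (if i = j then 1 else 0)) := by
    rw [map_sub, map_mul, map_mul, map_star, sys.ι_map]
    congr 1
    split_ifs
    · rw [map_one]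
    · rw [map_zero]
  rw [h1, IndSys.norm_ι, ← Corner.norm_val, Corner.val_sub, hZ]
  refine le_trans (le_of_eq ?_) (hY2 i j)
  congr 2
  split_ifs <;> rfl

theorem proj_Lm {p : Lm} (hp : IsStarProjection p) (hp0 : p ≠ 0) : ∃ r : Lm, star r * p * r = 1 := by
  obtain ⟨n, e, u, he, he0, hu, huu⟩ := exists_proj_lim hp hp0
  obtain ⟨r, hr, hr'⟩ := exists_isom he he0
  refine ⟨star u * r 0, ?_⟩
  calc star (star u * r 0) * p * (star u * r 0)
      = star (r 0) * (u * p * star u) * r 0 := by
        simp only [star_mul, star_star, mul_assoc]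
    _ = star (r 0) * (sys.ι n e * r 0) := by rw [huu, mul_assoc]
    _ = 1 := by rw [hr', hr, if_pos rfl]

theorem one_inf_Lm : ∃ v : Lm, star v * v = 1 ∧ v * star v ≠ 1 := by
  have := nontrivial_E 0
  have hnt := nontrivial_Lm
  obtain ⟨r, hr, hr'⟩ := exists_isom (n := 0) (e := 1) (IsStarProjection.one _) one_ne_zero
  refine ⟨r 0, by rw [hr, if_pos rfl], fun h => ?_⟩
  have h1 : r 1 = 0 := by
    calc r 1 = (r 0 * star (r 0)) * r 1 := by rw [h, one_mul]
      _ = r 0 * (star (r 0) * r 1) := by rw [mul_assoc]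
      _ = 0 := by rw [hr, if_neg (by decide), mul_zero]
  have h2 := hr 1 1
  rw [h1, if_pos rfl, mul_zero] at h2
  exact zero_ne_one h2

/-! ### the small element -/

theorem GoodIn.of_le {D : Set (Bool × ℕ)} {h h' : XX → Op} (hg : GoodIn D h)
    (hle : ∀ x f, (⟪f, h' x f⟫_ℂ).re ≤ (⟪f, h x f⟫_ℂ).re) : GoodIn D h' := by
  obtain ⟨ι, ℓ, ω, r, h1, h2, h3, h4, h5, h6⟩ := hg
  refine ⟨ι, ℓ, ω, r, h1, h2, h3, h4, h5, fun x f ε hε => ?_⟩
  obtain ⟨J, hJ⟩ := h6 x f ε hε
  exact ⟨J, (hle x f).trans hJ⟩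

theorem inner_star_mul_self (T : Op) (f : Hb) : (⟪f, (star T * T) f⟫_ℂ).re = ‖T f‖ ^ 2 := by
  rw [mul_apply', inner_star_right, inner_self_eq_norm_sq_to_K]
  norm_cast

theorem exists_small : ∃ b : E 0, b ≠ 0 ∧
    ∀ t, GoodIn Set.univ (((star b * b).val.val).at' t).fn := by
  obtain ⟨y, hy1, hy2⟩ := exists_base
  have hq := q0_proj.isIdempotentElem.eq
  have hqs' := q0_proj.isSelfAdjoint.star_eq
  let b : E 0 := Corner.mk (q0 * y * q0) (by
    change q0 * (q0 * y * q0) = q0 * y * q0
    rw [← mul_assoc, ← mul_assoc, hq]) (by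
    change q0 * y * q0 * q0 = q0 * y * q0
    rw [mul_assoc, hq])
  refine ⟨b, fun h => ?_, fun t => ?_⟩
  · have h1 : q0 * y * q0 = 0 := congrArg Corner.val h
    have h2 := congrArg (fun g : KM => (g.val.at' 0).fn fun _ => ee) h1
    simp only [KM.val_mul, KM.val_zero, II.at'_mul, BB.fn_mul, II.at'_zero, BB.fn_zero,
      q0_zero] at h2
    rw [mul_assoc, (hy2 _).2] at h2
    obtain ⟨c, hc⟩ := y.val.mem0
    have h3 := hc fun _ => ee
    have h4 : V ee * star (V ee) * (y.val.at' 0).fn (fun _ => ee) = (y.val.at' 0).fn fun _ => ee := by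
      rw [h3]
      have : V ee * star (V ee) * (V ee * c (pa fun _ => ee) * star (V ee)) =
          V ee * (star (V ee) * V ee) * c (pa fun _ => ee) * star (V ee) := by
        simp only [mul_assoc]
      rw [this, star_V_mul_V, mul_one]
    rw [h4] at h2
    exact (hy2 _).1 h2
  · have hqt : star (q0.val.at' t) = q0.val.at' t := congrArg (fun g : KM => g.val.at' t) hqs'
    have hqq : q0.val.at' t * q0.val.at' t = q0.val.at' t :=
      congrArg (fun g : KM => g.val.at' t) hq
    have h1 := (hy1 t).conj (q0.val.at' t).isF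
    refine h1.of_le fun x f => ?_
    have hb : (((star b * b).val.val).at' t).fn x =
        star ((q0.val.at' t).fn x * (y.val.at' t).fn x * (q0.val.at' t).fn x) *
          ((q0.val.at' t).fn x * (y.val.at' t).fn x * (q0.val.at' t).fn x) := rfl
    have hx : star ((q0.val.at' t).fn x) = (q0.val.at' t).fn x := congrArg (fun g : BB => g.fn x) hqt
    have h2 : (q0.val.at' t).fn x * ((star y * y).val.at' t).fn x * star ((q0.val.at' t).fn x) =
        star ((y.val.at' t).fn x * (q0.val.at' t).fn x) * ((y.val.at' t).fn x * (q0.val.at' t).fn x) := by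
      rw [star_mul, hx]
      simp only [KM.val_mul, KM.val_star, II.at'_mul, II.at'_star, BB.fn_mul, BB.fn_star, mul_assoc]
    rw [hb, h2, inner_star_mul_self, inner_star_mul_self]
    have h3 : ‖(q0.val.at' t).fn x‖ ≤ 1 :=
      (BB.norm_fn_le _ _).trans (norm_proj_le ⟨hqq, hqt⟩)
    have h4 : ‖((q0.val.at' t).fn x * (y.val.at' t).fn x * (q0.val.at' t).fn x) f‖ ≤
        ‖((y.val.at' t).fn x * (q0.val.at' t).fn x) f‖ := by
      have h5 : ((q0.val.at' t).fn x * (y.val.at' t).fn x * (q0.val.at' t).fn x) f =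
          (q0.val.at' t).fn x (((y.val.at' t).fn x * (q0.val.at' t).fn x) f) := rfl
      rw [h5]
      have := ((q0.val.at' t).fn x).le_of_opNorm_le h3 (((y.val.at' t).fn x * (q0.val.at' t).fn x) f)
      rwa [one_mul] at this
    exact pow_le_pow_left₀ (norm_nonneg _) h4 2

theorem good_gen {c : E 0} (hc : ∀ t, GoodIn Set.univ ((c.val.val).at' t).fn) (k : ℕ) (t : I) :
    GoodIn Set.univ (((sys.gen 0 c k).val.val).at' t).fn := by
  induction k generalizing t with
  | zero => rw [sys.gen_self]; exact hc t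
  | succ k ih =>
    rw [sys.gen_succ (Nat.zero_le k), val_sys_map]
    exact Phi_good k ih t

/-- the unit is not Cuntz below the small element, at a finite stage -/
theorem not_below {G : II} (hG : ∀ t, GoodIn Set.univ (G.at' t).fn) {p : II}
    (hp : IsStarProjection p) (hp0 : p ≠ 0) (a : II) : 1 / 2 ≤ ‖star a * G * a - p‖ := by
  by_contra hcon
  push Not at hcon
  obtain ⟨F, hF1, hF2, hF3, hF4⟩ := exists_frame hp hp0 1
  set f : XX → Hb := fun x => F 0 (0, x) with hf
  have hfc : Continuous f := (hF1 0).comp (by fun_prop)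
  have hfi : ∀ c (z : Circle) x, f (rotAt c z x) = f x := fun c z x => hF2 0 0 c z x
  have hfp : ∀ x, (p.at' 0).fn x (f x) = f x := fun x => hF3 0 0 x
  have hfn : ∀ x, ⟪f x, f x⟫_ℂ = 1 := fun x => by
    have := hF4 0 0 0 x
    rwa [if_pos rfl] at this
  have hfn1 : ∀ x, ‖f x‖ = 1 := fun x => by
    have h2 : ‖f x‖ ^ 2 = 1 := by
      rw [← inner_self_eq_norm_sq (𝕜 := ℂ), hfn]
      simp
    nlinarith [norm_nonneg (f x)]
  set h := star a * G * a with hh
  have hgood : GoodIn Set.univ (h.at' 0).fn := by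
    have h3 := (hG 0).conj (star (a.at' 0)).isF
    refine h3.of_le fun x f => le_of_eq ?_
    rw [BB.fn_star, star_star]
    rfl
  obtain ⟨x, hx⟩ := hgood.exists_small (f := f) hfc hfi (show (0 : ℝ) < 1 / 4 by norm_num)
  have h4 : ⟪f x, (h.at' 0).fn x (f x)⟫_ℂ = 1 + ⟪f x, ((h - p).at' 0).fn x (f x)⟫_ℂ := by
    have : (h.at' 0).fn x (f x) = f x + ((h - p).at' 0).fn x (f x) := by
      rw [II.at'_sub, BB.fn_sub, sub_apply, hfp]; abel
    rw [this, inner_add_right, hfn]
  have h5 : ‖⟪f x, ((h - p).at' 0).fn x (f x)⟫_ℂ‖ < 1 / 2 := by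
    calc ‖⟪f x, ((h - p).at' 0).fn x (f x)⟫_ℂ‖ ≤ ‖f x‖ * ‖((h - p).at' 0).fn x (f x)‖ :=
          norm_inner_le_norm _ _
      _ ≤ 1 * (‖h - p‖ * 1) := by
          rw [hfn1]
          gcongr
          have h6 : ‖((h - p).at' 0).fn x‖ ≤ ‖h - p‖ :=
            (BB.norm_fn_le _ _).trans (II.norm_at'_le _ _)
          have := (((h - p).at' 0).fn x).le_of_opNorm_le h6 (f x)
          rwa [hfn1] at this
      _ < 1 / 2 := by linarith
  have h6 : (⟪f x, (h.at' 0).fn x (f x)⟫_ℂ).re = 1 + (⟪f x, ((h - p).at' 0).fn x (f x)⟫_ℂ).re := by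
    rw [h4]; simp
  have h7 := (abs_le.1 (Complex.abs_re_le_norm (⟪f x, ((h - p).at' 0).fn x (f x)⟫_ℂ))).1
  have hx' : (⟪f x, (h.at' 0).fn x (f x)⟫_ℂ).re ≤ 1 / 4 := hx
  linarith

theorem not_below_Lm {b : E 0} (hb : ∀ t, GoodIn Set.univ (((star b * b).val.val).at' t).fn)
    (r : Lm) :
    1 / 2 ≤ ‖star r * (star (sys.ι 0 b) * sys.ι 0 b) * r - 1‖ := by
  have hcl : IsClosed {r : Lm | 1 / 2 ≤ ‖star r * (star (sys.ι 0 b) * sys.ι 0 b) * r - 1‖} := by
    apply isClosed_le continuous_const
    exact (((continuous_star.mul continuous_const).mul continuous_id).sub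
      continuous_const).norm
  refine IndSys.lim_induction (P := fun r => 1 / 2 ≤
    ‖star r * (star (sys.ι 0 b) * sys.ι 0 b) * r - 1‖) hcl (fun n a => ?_) r
  have h1 : star (sys.ι n a) * (star (sys.ι 0 b) * sys.ι 0 b) * sys.ι n a - 1 =
      sys.ι n (star a * sys.gen 0 (star b * b) n * a - 1) := by
    rw [map_sub, map_mul, map_mul, map_star, sys.ι_gen 0 (star b * b) (Nat.zero_le n), map_mul,
      map_star, map_one]
  rw [h1, IndSys.norm_ι, ← Corner.norm_val, ← KM.norm_val]
  have hq' : IsStarProjection (qs n).val :=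
    ⟨congrArg KM.val (qs_proj n).isIdempotentElem, congrArg KM.val (qs_proj n).isSelfAdjoint⟩
  exact not_below (good_gen hb n) hq' (fun h => qs_ne n (KM.ext h)) a.val.val

/-! ### nuclearity -/

/-- the retraction of the nuclear block -/
noncomputable def ret : KM →ₗ[ℂ] KM := exists_ret.choose

theorem ret_cp : IsCP ret := exists_ret.choose_spec.1

theorem norm_ret_le (g : KM) : ‖ret g‖ ≤ ‖g‖ := exists_ret.choose_spec.2.1 g

theorem ret_PhiM (k : ℕ) (g : KM) : ret (PhiM k g) = g := exists_ret.choose_spec.2.2 k g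

theorem nuclear_Lm : Nuclear Lm := by
  refine nuclear_lim sys (fun n => nuclear_KM.corner (qs n) (qs_proj n))
    (fun n => cmpL ret (qs (n + 1)) (qs_proj (n + 1)) (qs n) (qs_proj n))
    (fun n => ret_cp.corner _ _ _ _) (fun n a => ?_) (fun n a => ?_)
  · rw [← Corner.norm_val, ← Corner.norm_val, val_cmpL]
    have hq : ‖qs n‖ ≤ 1 := norm_proj_le (qs_proj n)
    calc ‖qs n * ret a.val * qs n‖ ≤ ‖qs n‖ * ‖ret a.val‖ * ‖qs n‖ :=
          (norm_mul_le _ _).trans (by gcongr; exact norm_mul_le _ _)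
      _ ≤ 1 * ‖a.val‖ * 1 := by
          gcongr
          exact norm_ret_le _
      _ = ‖a.val‖ := by ring
  · apply Corner.val_injective
    rw [val_cmpL, val_sys_map, ret_PhiM, a.q_mul_val, a.val_mul_q]

/-- the main result about the limit -/
theorem exists_algebra :
    ∃ (A0 : Type) (_ : CStarAlgebra A0), TopologicalSpace.SeparableSpace A0 ∧ IsSimpleRing A0 ∧
      Nuclear A0 ∧
      (∀ p : A0, IsStarProjection p → p ≠ 0 → ∃ r : A0, star r * p * r = 1) ∧
      (∃ v : A0, star v * v = 1 ∧ v * star v ≠ 1) ∧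
      ∃ b : A0, b ≠ 0 ∧ ∀ r : A0, 1 / 2 ≤ ‖star r * (star b * b) * r - 1‖ := by
  obtain ⟨b, hb0, hb⟩ := exists_small
  obtain ⟨v, hv1, hv2⟩ := one_inf_Lm
  exact exists_separable_nuclear (A := Lm) isSimple_Lm nuclear_Lm
    (fun p hp hp0 => proj_Lm hp hp0) v hv1 hv2
    (sys.ι 0 b) (fun h => hb0 (sys.ι_injective 0 (by rw [h, map_zero]))) (not_below_Lm hb)

end Pool.Agent.Lib.Eln
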