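import Pool.Agent.Lib.Eln.States
import Pool.Agent.Lib.Eln.FP

set_option autoImplicit false

/-!
The homomorphisms `st`, `st'` preserve the limits of fields of finite propagation; the nuclear
block `KM`.
-/

open scoped InnerProductSpace BoundedContinuousFunction unitInterval

namespace Pool.Agent.Lib.Eln

open Pool.Agent.Lib.P81d4f5 (S3)

/-- direct sums along the family preserve finite propagation -/
def Fam.Lip (G : Fam) : Prop :=
  ∀ (R : ℕ) (T : ℕ → Op), UB T → (∀ n, FP R (T n)) → FP (2 * R + 6) (G.dsum T)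

theorem lip_famA : famA.Lip := fun _ _ hu h => (FP.dsum' hu h).mono (by omega)

theorem lip_famB : famB.Lip := fun _ _ hu h => FP.dsum hu h

namespace Par

variable (P : Par)

theorem FP_Wd (n : ℕ) (L : List Ent) (x : XX) : FP L.length (P.Wd n L x) := by
  induction L with
  | nil => exact FP.one 0
  | cons e L ih =>
    rw [Wd_cons, List.length_cons]
    exact ((FP.V _).mul ih).mono (by omega)

/-- a component of a family of fields -/
noncomputable def cmpB (th : Bool → Bool) (η : Ent) (L : List Ent) (U : Op) (n : ℕ)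
    (f : BB) (x : XX) : Op :=
  U * P.Wd n L x * f.fn (P.xi th η n x) * star (U * P.Wd n L x)

theorem isF_cmpB (th : Bool → Bool) (η : Ent) (L : List Ent) (U : Op) (n : ℕ) (f : BB) :
    IsF (P.cmpB th η L U n f) := by
  have h1 : IsF fun x => f.fn (P.xi th η n x) := f.isF.pull (P.injSrc_xsrc th η n) _
  have h2 : SCont fun x => U * P.Wd n L x := (SCont.const U).mul (P.scont_Wd n L)
  refine ⟨(h2.mul h1.sc).mul h2.star, fun c z x => ?_⟩
  unfold cmpB
  have h3 := h1.inv c z x
  beta_reduce at h3
  rw [h3, Wd_rot, mul_smul_comm, smul_mul_assoc, star_smul, smul_mul_smul_comm]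
  rw [circle_pow_mul_star, one_smul]

theorem norm_cmpB_le (th : Bool → Bool) (η : Ent) (L : List Ent) {U : Op} (hU : ‖U‖ ≤ 1)
    (n : ℕ) (f : BB) (x : XX) : ‖P.cmpB th η L U n f x‖ ≤ ‖f‖ :=
  (norm_conj_le (P.norm_UW_le hU n L x)).trans (BB.norm_fn_le _ _)

theorem inN_stG {G : Fam} (hG : G.Lip) (th : Bool → Bool) (η : Ent) (L : List Ent) {U : Op}
    (hU : star U * U = 1) {r : ℕ} (hr : FP r U) (τ : ℕ → I) {g : II} (hg : ∀ t, InN (g.at' t)) :
    InN (P.stG G th η L U hU τ g) := by
  have hU1 := norm_le_one_of hU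
  intro ε hε
  obtain ⟨R, hR⟩ := InN.path g.continuous_at' hg hε
  choose f hf1 hf2 using hR
  have hfb : ∀ t, ‖f t‖ ≤ ‖g‖ + ε := fun t => by
    have h1 : ‖f t‖ ≤ ‖g.at' t‖ + ‖g.at' t - f t‖ := by
      have := norm_sub_norm_le (f t) (g.at' t)
      rw [norm_sub_rev (f t)] at this
      linarith
    linarith [g.norm_at'_le t, hf2 t]
  have hub : ∀ x, UB fun n => P.cmpB th η L U n (f (τ n)) x := fun x =>
    ⟨_, fun n => (P.norm_cmpB_le th η L hU1 n _ x).trans (hfb _)⟩
  have hF : IsF fun x => G.dsum fun n => P.cmpB th η L U n (f (τ n)) x :=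
    ⟨SCont.dsumG G (fun n => (P.isF_cmpB th η L U n _).sc) ⟨‖g‖ + ε, fun n x =>
      (P.norm_cmpB_le th η L hU1 n _ x).trans (hfb _)⟩, fun c z x => by
      congr 1; funext n; exact (P.isF_cmpB th η L U n _).inv c z x⟩
  refine ⟨2 * (r + L.length + R + (r + L.length)) + 6, BB.mk _ hF, fun x => ?_, ?_⟩
  · rw [BB.fn_mk]
    refine hG _ _ (hub x) fun n => ?_
    have h1 : FP (r + L.length) (U * P.Wd n L x) := hr.mul (P.FP_Wd n L x)
    exact (h1.mul (hf1 _ _)).mul h1.star
  · apply BB.norm_le hε.le
    intro x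
    rw [BB.fn_sub, fn_stG, BB.fn_mk, G.dsum_sub (P.ub_cmp th η L hU1 τ g x) (hub x)]
    apply G.norm_dsum_le hε.le
    intro n
    have h1 : P.cmp th η L U (τ n) n g x - P.cmpB th η L U n (f (τ n)) x =
        (U * P.Wd n L x) * (g.at' (τ n) - f (τ n)).fn (P.xi th η n x) *
          star (U * P.Wd n L x) := by
      simp only [cmp, cmpB, BB.fn_sub]; noncomm_ring
    rw [h1]
    exact (norm_conj_le (P.norm_UW_le hU1 n L x)).trans ((BB.norm_fn_le _ _).trans (hf2 _))

end Par

/-! ### the nuclear block -/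

/-- elements of the block with values in the limits of fields of finite propagation -/
def InM (g : II) : Prop := ∀ t, InN (g.at' t)

theorem InN.pull {f : BB} (hf : InN f) {src : Ix → Option Ix} (hs : InjSrc src) (cs : Ix → S3) :
    InN (pullHom src hs cs f) := by
  intro ε hε
  obtain ⟨R, g, h1, h2⟩ := hf ε hε
  refine ⟨R, pullHom src hs cs g, fun x => h1 _, ?_⟩
  rw [← map_sub]
  exact BB.norm_le hε.le fun x => (BB.norm_fn_le (f - g) _).trans h2

/-- the nuclear block as a subalgebra -/
noncomputable def Msub : NonUnitalStarSubalgebra ℂ II where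
  carrier := {g | InM g}
  add_mem' hf hg t := (hf t).add (hg t)
  zero_mem' _ := InN.zero
  mul_mem' hf hg t := (hf t).mul (hg t)
  smul_mem' c _ hg t := (hg t).smul c
  star_mem' hg t := (hg t).star

theorem mem_Msub {g : II} : g ∈ Msub ↔ InM g := Iff.rfl

theorem isClosed_Msub : IsClosed (Msub : Set II) := by
  rw [← isSeqClosed_iff_isClosed]
  intro F F0 hmem hlim t
  apply InN.of_lim
  intro ε hε
  have h1 := tendsto_iff_norm_sub_tendsto_zero.1 hlim
  obtain ⟨n, hn⟩ := (h1.eventually_lt_const hε).exists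
  refine ⟨(F n).at' t, hmem n t, ?_⟩
  rw [← II.at'_sub, ← norm_neg, ← II.at'_neg, neg_sub]
  exact (II.norm_at'_le _ _).trans hn.le

/-- the nuclear block -/
def KM : Type := Msub

noncomputable instance : NonUnitalCStarAlgebra KM :=
  haveI : IsClosed (Msub : Set II) := isClosed_Msub
  inferInstanceAs (NonUnitalCStarAlgebra Msub)

namespace KM

/-- the inclusion -/
def val (g : KM) : II := g.1

theorem inM (g : KM) : InM g.val := g.2

/-- constructor -/
def mk (g : II) (h : InM g) : KM := ⟨g, h⟩

@[simp] theorem val_mk (g : II) (h : InM g) : (mk g h).val = g := rfl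

theorem val_injective : Function.Injective val := Subtype.val_injective

@[ext] theorem ext {f g : KM} (h : f.val = g.val) : f = g := val_injective h

@[simp] theorem val_add (f g : KM) : (f + g).val = f.val + g.val := rfl
@[simp] theorem val_sub (f g : KM) : (f - g).val = f.val - g.val := rfl
@[simp] theorem val_neg (f : KM) : (-f).val = -f.val := rfl
@[simp] theorem val_mul (f g : KM) : (f * g).val = f.val * g.val := rfl
@[simp] theorem val_star (f : KM) : (star f).val = star f.val := rfl
@[simp] theorem val_smul (c : ℂ) (f : KM) : (c • f).val = c • f.val := rfl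
@[simp] theorem val_zero : (0 : KM).val = 0 := rfl
theorem norm_val (f : KM) : ‖f.val‖ = ‖f‖ := rfl

/-- the inclusion as a homomorphism -/
noncomputable def incl : KM →⋆ₙₐ[ℂ] II where
  toFun := val
  map_smul' _ _ := rfl
  map_zero' := rfl
  map_add' _ _ := rfl
  map_mul' _ _ := rfl
  map_star' _ := rfl

theorem incl_apply (f : KM) : incl f = f.val := rfl

/-- the restriction of a homomorphism -/
noncomputable def restr (φ : II →⋆ₙₐ[ℂ] II) (h : ∀ g, InM g → InM (φ g)) : KM →⋆ₙₐ[ℂ] KM where
  toFun f := mk (φ f.val) (h _ f.inM)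
  map_smul' c f := ext (map_smul φ c f.val)
  map_zero' := ext (map_zero φ)
  map_add' f g := ext (map_add φ f.val g.val)
  map_mul' f g := ext (map_mul φ f.val g.val)
  map_star' f := ext (map_star φ f.val)

@[simp] theorem val_restr (φ : II →⋆ₙₐ[ℂ] II) (h : ∀ g, InM g → InM (φ g)) (f : KM) :
    (restr φ h f).val = φ f.val := rfl

end KM

end Pool.Agent.Lib.Eln
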