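import Pool.Agent.Lib.Eln.Flip
import Pool.Agent.Lib.Eln.GoodSt
import Pool.Agent.Lib.Eln.StN

set_option autoImplicit false

/-!
Paths of good homomorphisms from the initial form to the final form.
-/

open scoped InnerProductSpace BoundedContinuousFunction unitInterval

namespace Pool.Agent.Lib.Eln

open Pool.Agent.Lib.P81d4f5 (S3)

namespace Par

variable (P : Par)

/-- good homomorphisms preserving the limits of fields of finite propagation -/
def HH : Set (II → BB) :=
  {ψ | ∃ φ : II →⋆ₙₐ[ℂ] BB, ⇑φ = ψ ∧ (∀ h : II, (∀ t, GoodIn Set.univ (h.at' t).fn) →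
    GoodIn {d | d.2 ∈ Set.range P.J} (φ h).fn) ∧ ∀ h : II, InM h → InN (φ h)}

/-- the states of the homotopy -/
noncomputable def sta (th : Bool → Bool) (η : Ent) (L : List Ent) (τ : ℕ → I) : II → BB :=
  P.st th η L 1 (by simp) τ

/-- abbreviation: connected by a path of good homomorphisms -/
def Cn (f g : II → BB) : Prop := JoinedIn P.HH f g

variable {P}

theorem Cn.symm {f g : II → BB} (h : P.Cn f g) : P.Cn g f := JoinedIn.symm h

theorem Cn.trans {f g h : II → BB} (h1 : P.Cn f g) (h2 : P.Cn g h) : P.Cn f h :=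
  JoinedIn.trans h1 h2

theorem Cn.of_path {f g : II → BB} (γ : I → II → BB) (hc : Continuous γ) (h0 : γ 0 = f)
    (h1 : γ 1 = g) (hm : ∀ t, γ t ∈ P.HH) : P.Cn f g :=
  ⟨⟨⟨γ, hc⟩, h0, h1⟩, hm⟩

variable (P)

theorem st_mem_HH {L : List Ent} (hL : P.Enough L) (th : Bool → Bool) (η : Ent) (U : Op)
    (hU : star U * U = 1) (hr : ∃ r, FP r U) (τ : ℕ → I) :
    (P.st th η L U hU τ : II → BB) ∈ P.HH := by
  obtain ⟨r, hr⟩ := hr
  exact ⟨_, rfl, fun _ hh => P.good_st hU τ hL hh, fun _ hh => P.inN_stG lip_famB th η L hU hr τ hh⟩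

theorem FP_Fl : FP 4 Fl := by
  unfold Fl
  refine FP.sum _ fun i _ => FP.sum _ fun j _ => ?_
  exact (((FP.s j).mul (FP.s i)).mul (FP.s j).star).mul (FP.s i).star

theorem FP_Fz (z : ℂ) : FP 4 (Fz z) := ((FP.one 4).smul _).add (FP_Fl.smul _)

theorem FP_Th {r : ℕ} {x : Op} (hx : FP r x) (d : ℕ) : FP (2 * d + r) (Th d x) := by
  induction d with
  | zero => simpa [Th] using hx
  | succ d ih =>
    have h : ∀ j, FP (2 * (d + 1) + r) (s j * Th d x * star (s j)) := fun j =>
      (((FP.s j).mul ih).mul (FP.s j).star).mono (by omega)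
    exact (h 0).add (h 1)

/-- the convex combination -/
noncomputable def mix (s u w : I) : I :=
  ⟨(1 - (s : ℝ)) * u + s * w, by
    have hs := s.2; have hu := u.2; have hw := w.2
    constructor
    · have := mul_nonneg (sub_nonneg.2 hs.2) hu.1
      have := mul_nonneg hs.1 hw.1
      linarith
    · have := mul_le_mul_of_nonneg_left hu.2 (sub_nonneg.2 hs.2)
      have := mul_le_mul_of_nonneg_left hw.2 hs.1
      linarith⟩

theorem mix_zero (u w : I) : mix 0 u w = u := by
  ext; simp [mix]

theorem mix_one (u w : I) : mix 1 u w = w := by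
  ext; simp [mix]

theorem dist_mix_le (s s' u w : I) : dist (mix s u w) (mix s' u w) ≤ dist s s' := by
  rw [Subtype.dist_eq, Subtype.dist_eq, Real.dist_eq, Real.dist_eq]
  change |((1 - (s : ℝ)) * u + s * w) - ((1 - (s' : ℝ)) * u + s' * w)| ≤ _
  have h1 : ((1 - (s : ℝ)) * u + s * w) - ((1 - (s' : ℝ)) * u + s' * w) =
      (s - s') * (w - u) := by ring
  rw [h1, abs_mul]
  have h2 : |(w : ℝ) - u| ≤ 1 := by
    have hu := u.2; have hw := w.2
    rw [abs_le]
    constructor <;> linarith [hu.1, hu.2, hw.1, hw.2]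
  calc |(s : ℝ) - s'| * |(w : ℝ) - u| ≤ |(s : ℝ) - s'| * 1 := by gcongr
    _ = _ := mul_one _

/-- change of the times -/
theorem cn_time {L : List Ent} (hL : P.Enough L) (th : Bool → Bool) (η : Ent) (τ τ' : ℕ → I) :
    P.Cn (P.sta th η L τ) (P.sta th η L τ') := by
  refine Cn.of_path (fun s => P.sta th η L fun n => mix s (τ n) (τ' n)) ?_ ?_ ?_ ?_
  · apply continuous_pi
    intro g
    have huc : UniformContinuous g.at' :=
      CompactSpace.uniformContinuous_of_continuous g.continuous_at'
    rw [Metric.continuous_iff]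
    intro s ε hε
    obtain ⟨δ, hδ, hd⟩ := Metric.uniformContinuous_iff.1 huc (ε / 2) (by positivity)
    refine ⟨δ, hδ, fun s' hs' => ?_⟩
    rw [dist_eq_norm]
    refine lt_of_le_of_lt (P.norm_st_sub_le th η L 1 _ _ _ g (ε := ε / 2) (by positivity)
      fun n => ?_) (by linarith)
    rw [← dist_eq_norm]
    exact (hd ((dist_mix_le _ _ _ _).trans_lt hs')).le
  · simp only [mix_zero]
  · simp only [mix_one]
  · intro t
    exact P.st_mem_HH hL _ _ _ _ ⟨0, FP.one 0⟩ _

theorem st_congr {th th' : Bool → Bool} {η η' : Ent} {L L' : List Ent} {U U' : Op}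
    (hU : star U * U = 1) (hU' : star U' * U' = 1) {τ τ' : ℕ → I}
    (h : ∀ n g x, P.cmp th η L U (τ n) n g x = P.cmp th' η' L' U' (τ' n) n g x) :
    (P.st th η L U hU τ : II → BB) = P.st th' η' L' U' hU' τ' := by
  funext g
  ext x : 1
  rw [fn_st, fn_st]
  congr 1
  funext n
  exact h n g x

theorem sta_zero_congr {th th' : Bool → Bool} (h : th false = th' false) (η η' : Ent)
    (L : List Ent) : P.sta th η L (fun _ => 0) = P.sta th' η' L fun _ => 0 :=
  P.st_congr _ _ fun n g x => P.cmp_zero_congr h η η' L 1 n g x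

theorem sta_one_congr {th th' : Bool → Bool} (h : th true = th' true) (η : Ent)
    (L : List Ent) : P.sta th η L (fun _ => 1) = P.sta th' η L fun _ => 1 :=
  P.st_congr _ _ fun n g x => P.cmp_one_congr h η L 1 n g x

/-- the path on the circle from `1` to `-1` -/
noncomputable def zp (t : I) : ℂ := Complex.exp (Real.pi * (t : ℝ) * Complex.I)

theorem continuous_zp : Continuous zp := by
  unfold zp
  fun_prop

theorem zp_zero : zp 0 = 1 := by simp [zp]

theorem zp_one : zp 1 = -1 := by
  simp [zp, Complex.exp_pi_mul_I]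

theorem star_zp_mul (t : I) : star (zp t) * zp t = 1 := by
  have h : ‖zp t‖ = 1 := by
    rw [zp, show ((Real.pi : ℂ) * ((t : ℝ) : ℂ) * Complex.I) =
      (((Real.pi * (t : ℝ)) : ℝ) : ℂ) * Complex.I by push_cast; ring]
    exact Complex.norm_exp_ofReal_mul_I _
  have h2 := Complex.normSq_eq_conj_mul_self (z := zp t)
  rw [Complex.normSq_eq_norm_sq, h] at h2
  simpa using h2.symm

/-- the path of unitaries at depth `d` -/
noncomputable def Up (d : ℕ) (t : I) : Op := Th d (Fz (zp t))

theorem star_Up_mul (d : ℕ) (t : I) : star (Up d t) * Up d t = 1 :=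
  star_Th_mul (star_Fz_mul (star_zp_mul t)) d

theorem continuous_Up (d : ℕ) : Continuous (Up d) :=
  (continuous_Th d).comp (continuous_Fz.comp continuous_zp)

theorem Up_zero (d : ℕ) : Up d 0 = 1 := by rw [Up, zp_zero, Fz_one, Th_one]

theorem Up_one (d : ℕ) : Up d 1 = Th d Fl := by rw [Up, zp_one, Fz_neg_one]

/-- conjugation by a path of unitaries -/
theorem cn_unitary {L : List Ent} (hL : P.Enough L) (th : Bool → Bool) (η : Ent) (τ : ℕ → I)
    (d : ℕ) : P.Cn (P.sta th η L τ) (P.st th η L (Up d 1) (star_Up_mul d 1) τ) := by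
  refine Cn.of_path (fun t => P.st th η L (Up d t) (star_Up_mul d t) τ) ?_ ?_ rfl ?_
  · apply continuous_pi
    intro g
    rw [continuous_iff_continuousAt]
    intro t
    have h1 : Filter.Tendsto (fun t' => ‖P.st th η L (Up d t') (star_Up_mul d t') τ g -
        P.st th η L (Up d t) (star_Up_mul d t) τ g‖) (nhds t) (nhds 0) := by
      have h2 : Filter.Tendsto (fun t' => 2 * ‖Up d t' - Up d t‖ * ‖g‖) (nhds t) (nhds 0) := by
        have h3 := tendsto_iff_norm_sub_tendsto_zero.1 ((continuous_Up d).tendsto t)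
        have h4 := (h3.const_mul 2).mul_const ‖g‖
        simpa using h4
      exact squeeze_zero (fun _ => norm_nonneg _)
        (fun t' => P.norm_st_sub_le' th η L _ _ _ _ τ g) h2
    exact tendsto_iff_norm_sub_tendsto_zero.2 h1
  · apply P.st_congr
    intro n g x
    rw [Up_zero]
  · intro t
    exact P.st_mem_HH hL _ _ _ _ ⟨_, FP_Th (FP_Fz _) d⟩ _

/-- flipping two neighbours -/
theorem cn_flip {L L' : List Ent} {u w : Ent} (hL : P.Enough (L ++ u :: w :: L'))
    (th : Bool → Bool) (η : Ent) (τ : ℕ → I) :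
    P.Cn (P.sta th η (L ++ u :: w :: L') τ) (P.sta th η (L ++ w :: u :: L') τ) := by
  have h1 := P.cn_unitary hL th η τ L.length
  have h2 : (P.st th η (L ++ u :: w :: L') (Up L.length 1) (star_Up_mul L.length 1) τ : II → BB) =
      P.sta th η (L ++ w :: u :: L') τ := by
    apply P.st_congr
    intro n g x
    rw [Up_one]
    exact P.cmp_flip th η L L' u w (τ n) n g x
  rw [h2] at h1
  exact h1

/-- exchange of the last letter and the special coordinate at the final time -/
theorem cn_flip_last {L : List Ent} {w η : Ent} (hL : P.Enough (L ++ [w])) (th : Bool → Bool) :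
    P.Cn (P.sta th η (L ++ [w]) fun _ => 1) (P.sta th w (L ++ [η]) fun _ => 1) := by
  have h1 := P.cn_unitary hL th η (fun _ => 1) L.length
  have h2 : (P.st th η (L ++ [w]) (Up L.length 1) (star_Up_mul L.length 1) (fun _ => 1) :
      II → BB) = P.sta th w (L ++ [η]) fun _ => 1 := by
    apply P.st_congr
    intro n g x
    rw [Up_one]
    exact P.cmp_flip_last th η w L n g x
  rw [h2] at h1
  exact h1

/-- permuting the word -/
theorem cn_perm {L L' : List Ent} (hp : L.Perm L') (th : Bool → Bool) (η : Ent) (τ : ℕ → I) :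
    ∀ M : List Ent, P.Enough (M ++ L) → P.Cn (P.sta th η (M ++ L) τ) (P.sta th η (M ++ L') τ) := by
  induction hp with
  | nil => intro M hM; exact P.cn_time hM _ _ _ _
  | cons a h ih =>
    intro M hM
    have := ih (M ++ [a]) (by simpa using hM)
    simpa using this
  | swap a b l =>
    intro M hM
    exact P.cn_flip hM th η τ
  | trans h1 h2 ih1 ih2 =>
    intro M hM
    refine (ih1 M hM).trans (ih2 M (hM.mono fun e he => ?_))
    rw [List.mem_append] at he ⊢
    exact he.imp id fun h => h1.mem_iff.1 h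

/-- replacing the last letter -/
theorem cn_replace_last {L : List Ent} (hL : P.Enough L) (w w' : Ent) (th : Bool → Bool)
    (η : Ent) (τ : ℕ → I) :
    P.Cn (P.sta th η (L ++ [w]) τ) (P.sta th η (L ++ [w']) τ) := by
  have h0 : ∀ u, P.Enough (L ++ [u]) := fun u => hL.mono fun e he => by
    rw [List.mem_append]; exact Or.inl he
  have a1 := P.cn_time (h0 w) th η τ fun _ => 1
  have a2 := P.cn_flip_last (η := η) (h0 w) th
  have a3 := P.cn_time (h0 η) th w (fun _ => 1) fun _ => 0
  have a4 := P.sta_zero_congr (th := th) rfl w w' (L ++ [η])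
  have a5 := P.cn_time (h0 η) th w' (fun _ => 0) fun _ => 1
  have a6 := P.cn_flip_last (η := w') (h0 η) th
  have a7 := P.cn_time (h0 w') th η (fun _ => 1) τ
  rw [a4] at a3
  exact a1.trans (a2.trans (a3.trans (a5.trans (a6.trans a7))))

/-- replacing any letter -/
theorem cn_replace {L L' : List Ent} (hL : P.Enough (L ++ L')) (w w' : Ent) (th : Bool → Bool)
    (η : Ent) (τ : ℕ → I) :
    P.Cn (P.sta th η (L ++ w :: L') τ) (P.sta th η (L ++ w' :: L') τ) := by
  have hp : ∀ u, (L ++ u :: L').Perm ((L ++ L') ++ [u]) := fun u =>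
    (List.perm_middle).trans (List.perm_append_singleton u (L ++ L')).symm
  have h0 : ∀ u, P.Enough (L ++ u :: L') := fun u => hL.mono fun e he => by
    rw [List.mem_append] at he ⊢
    exact he.imp id fun h => List.mem_cons_of_mem _ h
  have a1 := P.cn_perm (hp w) th η τ [] (h0 w)
  have a2 := P.cn_replace_last hL w w' th η τ
  have a3 := P.cn_perm (hp w') th η τ [] (h0 w')
  exact a1.trans (a2.trans a3.symm)

/-- changing the selection of coordinates -/
theorem cn_th {L : List Ent} (hL : P.Enough L) (th th' : Bool → Bool) (η : Ent) (τ : ℕ → I) :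
    P.Cn (P.sta th η L τ) (P.sta th' η L τ) := by
  let th1 : Bool → Bool := fun b => if b = false then th false else th' true
  have a1 := P.cn_time hL th η τ fun _ => 0
  have a2 : P.sta th η L (fun _ => 0) = P.sta th1 η L fun _ => 0 :=
    P.sta_zero_congr (by simp [th1]) η η L
  have a3 := P.cn_time hL th1 η (fun _ => 0) fun _ => 1
  have a4 : P.sta th1 η L (fun _ => 1) = P.sta th' η L fun _ => 1 :=
    P.sta_one_congr (by simp [th1]) η L
  have a5 := P.cn_time hL th' η (fun _ => 1) τ
  rw [a2] at a1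
  rw [a4] at a3
  exact a1.trans (a3.trans a5)

/-- the protective letters -/
def frs (θ : Bool) (K : ℕ) : List Ent := (List.range K).map fun j => Ent.fr j θ

theorem mem_frs {θ : Bool} {K j : ℕ} (h : j < K) : Ent.fr j θ ∈ frs θ K := by
  simp only [frs, List.mem_map, List.mem_range]
  exact ⟨j, h, rfl⟩

theorem frs_succ (θ : Bool) (K : ℕ) : frs θ (K + 1) = frs θ K ++ [Ent.fr K θ] := by
  simp [frs, List.range_succ]

/-- replacing all protective letters -/
theorem cn_frs {k : ℕ} (hk : ∀ n, (P.F n).card ≤ k) (th : Bool → Bool) (η : Ent) (τ : ℕ → I)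
    (m : Ent) (θ θ' : Bool) : ∀ i r : ℕ, i + r = k + 1 →
    P.Cn (P.sta th η (m :: (frs θ (k + 1))) τ)
      (P.sta th η (m :: (frs θ' i ++ ((List.range r).map fun j => Ent.fr (i + j) θ))) τ) := by
  have hE : ∀ (L : List Ent) (j0 : ℕ), (∀ j, j < k + 1 → j ≠ j0 → ∃ θ, Ent.fr j θ ∈ L) →
      P.Enough L := by
    intro L j0 h
    refine ⟨(Finset.range (k + 1)).erase j0, fun n => ?_, fun j hj => ?_⟩
    · have := Finset.pred_card_le_card_erase (s := Finset.range (k + 1)) (a := j0)
      rw [Finset.card_range] at this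
      exact (hk n).trans (by omega)
    · rw [Finset.mem_erase, Finset.mem_range] at hj
      exact h j hj.2 hj.1
  intro i
  induction i with
  | zero =>
    intro r hr
    have hr' : r = k + 1 := by omega
    subst hr'
    have : (List.range (k + 1)).map (fun j => Ent.fr (0 + j) θ) = frs θ (k + 1) := by
      simp [frs]
    rw [this]
    simp only [frs, List.range_zero, List.map_nil, List.nil_append]
    refine P.cn_time (hE _ (k + 1) fun j hj _ => ⟨θ, ?_⟩) _ _ _ _
    exact List.mem_cons_of_mem _ (mem_frs hj)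
  | succ i ih =>
    intro r hr
    refine (ih (r + 1) (by omega)).trans ?_
    have h1 : (List.range (r + 1)).map (fun j => Ent.fr (i + j) θ) =
        Ent.fr i θ :: (List.range r).map (fun j => Ent.fr (i + 1 + j) θ) := by
      rw [List.range_succ_eq_map, List.map_cons, List.map_map, add_zero]
      congr 1
      apply List.map_congr_left
      intro j _
      simp only [Function.comp]
      congr 1
      omega
    rw [h1, frs_succ]
    have h2 := P.cn_replace (L := m :: frs θ' i)
      (L' := (List.range r).map (fun j => Ent.fr (i + 1 + j) θ)) (hE _ i fun j hj hne => ?_)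
      (Ent.fr i θ) (Ent.fr i θ') th η τ
    · simpa using h2
    · rcases lt_or_gt_of_ne hne with h | h
      · exact ⟨θ', List.mem_append_left _ (List.mem_cons_of_mem _ (mem_frs h))⟩
      · refine ⟨θ, List.mem_append_right _ ?_⟩
        rw [List.mem_map]
        exact ⟨j - (i + 1), List.mem_range.2 (by omega), by congr 1; omega⟩

/-- the initial form and the final form are connected -/
theorem cn_main {k : ℕ} (hk : ∀ n, (P.F n).card ≤ k) :
    P.Cn (P.sta (fun _ => false) Ent.yy (Ent.e0 :: frs false (k + 1)) P.tau)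
      (P.sta (fun _ => true) Ent.yy (Ent.zeta :: frs true (k + 1)) P.tau) := by
  have hE : ∀ θ, P.Enough (frs θ (k + 1)) := fun θ =>
    ⟨Finset.range (k + 1), fun n => by rw [Finset.card_range]; exact (hk n).trans (Nat.le_succ k),
      fun j hj => ⟨θ, mem_frs (Finset.mem_range.1 hj)⟩⟩
  have a1 := P.cn_frs hk (fun _ => false) Ent.yy P.tau Ent.e0 false true (k + 1) 0 (by omega)
  simp only [List.range_zero, List.map_nil, List.append_nil] at a1
  have a2 := P.cn_replace (L := []) (L' := frs true (k + 1)) (hE true) Ent.e0 Ent.zeta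
    (fun _ => false) Ent.yy P.tau
  have a3 := P.cn_th (L := Ent.zeta :: frs true (k + 1))
    ((hE true).mono fun e he => List.mem_cons_of_mem _ he) (fun _ => false) (fun _ => true)
    Ent.yy P.tau
  exact a1.trans (a2.trans a3)

end Par

end Pool.Agent.Lib.Eln
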