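import Pool.Agent.Lib.Eln.SynEx

set_option autoImplicit false

/-!
MODULE Eln.Syn (uses SynEx (black box), SynDefs, Fld, FP).

The operator syn k m = ∑_a R_a m_a R_a^† of a bounded family (m_a) of operators of the blocks.

PROOFS (everything follows from `hasSum_syn`; write N a f := R_a^† f = adjoint (RB k a) f).
* syn_add, syn_smul, star_syn: compare the matrix coefficients ⟪f, · g⟫ (`ext_inner_left`), HasSum.unique.
* FP_syn: ⟪eb v, syn k m (eb w)⟫ = ∑_a ⟪N a (eb v), m_a N a (eb w)⟫; if a term is nonzero then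
  N a (eb v) ≠ 0 and N a (eb w) ≠ 0, so v = α ++ bse a, w = β ++ bse a with |α|, |β| < k, i.e. Nr k v w.
* scont_syn: bounded by C.  It suffices to have continuity of y ↦ syn k (M y) h for h = eb w
  (density: `isClosed_cont`-type argument as in `cont_of_S` of Fld.lean, for the basis eb instead of the
  family S: {h | Continuous fun y => F y h} is closed (`isClosed_cont`) and a subspace, `hasSum_eb`).
  syn k (M y) (eb w) = ∑_{a ∈ T} R_a (M y a (R_a^† eb w)) where T is the finite set of the a with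
  R_a^† eb w ≠ 0 (a = none or a = some u, u a suffix of w; the others have w ≠ α ++ u for all α): prove this
  equality by comparing inner products with all f.  The star version follows from star_syn.
* syn_pos: by (finite sums of) HasSum the left side is ∑_a ∑_ij ⟪N a ξ_i, ∑_l κ a l m_il^* m_jl N a ξ_j⟫ =
  ∑_a ∑_l κ a l ‖∑_j m_jl N a ξ_j‖², a sum of nonnegative reals.
-/

open scoped InnerProductSpace

namespace Pool.Agent.Lib.Eln

open Classical in
/-- the operator of a bounded family of operators of the blocks -/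
noncomputable def syn (k : ℕ) (m : Option Tr → MatC (Wk k)) : Op :=
  if h : 0 < k ∧ ∃ C, 0 ≤ C ∧ ∀ a, ‖m a‖ ≤ C then
    (exists_synOp h.1 m h.2.choose_spec.1 h.2.choose_spec.2).choose else 0

theorem hasSum_syn {k : ℕ} (hk : 0 < k) {m : Option Tr → MatC (Wk k)} (hm : BM m) (f g : Hb) :
    HasSum (fun a => ⟪ContinuousLinearMap.adjoint (RB k a) f,
      m a (ContinuousLinearMap.adjoint (RB k a) g)⟫_ℂ) ⟪f, syn k m g⟫_ℂ := by
  have h : 0 < k ∧ ∃ C, 0 ≤ C ∧ ∀ a, ‖m a‖ ≤ C := by
    obtain ⟨C, hC⟩ := hm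
    exact ⟨hk, C, (norm_nonneg _).trans (hC none), hC⟩
  rw [syn, dif_pos h]
  exact (exists_synOp h.1 m h.2.choose_spec.1 h.2.choose_spec.2).choose_spec.2 f g

theorem eq_syn {k : ℕ} (hk : 0 < k) {m : Option Tr → MatC (Wk k)} (hm : BM m) {T : Op}
    (h : ∀ f g : Hb, HasSum (fun a => ⟪ContinuousLinearMap.adjoint (RB k a) f,
      m a (ContinuousLinearMap.adjoint (RB k a) g)⟫_ℂ) ⟪f, T g⟫_ℂ) : syn k m = T := by
  ext1 g
  refine ext_inner_left ℂ fun f => ?_
  exact (hasSum_syn hk hm f g).unique (h f g)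

theorem norm_syn_le {k : ℕ} (hk : 0 < k) {m : Option Tr → MatC (Wk k)} {C : ℝ} (hC : 0 ≤ C)
    (hm : ∀ a, ‖m a‖ ≤ C) : ‖syn k m‖ ≤ C := by
  obtain ⟨T, hT, h⟩ := exists_synOp hk m hC hm
  rw [eq_syn hk ⟨C, hm⟩ h]
  exact hT

theorem BM.add {k : ℕ} {m m' : Option Tr → MatC (Wk k)} (hm : BM m) (hm' : BM m') :
    BM fun a => m a + m' a := by
  obtain ⟨C, hC⟩ := hm
  obtain ⟨D, hD⟩ := hm'
  exact ⟨C + D, fun a => (norm_add_le _ _).trans (add_le_add (hC a) (hD a))⟩

theorem BM.sub {k : ℕ} {m m' : Option Tr → MatC (Wk k)} (hm : BM m) (hm' : BM m') :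
    BM fun a => m a - m' a := by
  obtain ⟨C, hC⟩ := hm
  obtain ⟨D, hD⟩ := hm'
  exact ⟨C + D, fun a => (norm_sub_le _ _).trans (add_le_add (hC a) (hD a))⟩

theorem BM.smul {k : ℕ} {m : Option Tr → MatC (Wk k)} (hm : BM m) (c : ℂ) :
    BM fun a => c • m a := by
  obtain ⟨C, hC⟩ := hm
  exact ⟨‖c‖ * C, fun a => by
    rw [norm_smul]
    exact mul_le_mul_of_nonneg_left (hC a) (norm_nonneg c)⟩

theorem BM.star {k : ℕ} {m : Option Tr → MatC (Wk k)} (hm : BM m) :
    BM fun a => star (m a) := by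
  obtain ⟨C, hC⟩ := hm
  exact ⟨C, fun a => by rw [norm_star]; exact hC a⟩

theorem syn_add {k : ℕ} (hk : 0 < k) {m m' : Option Tr → MatC (Wk k)} (hm : BM m) (hm' : BM m') :
    syn k (fun a => m a + m' a) = syn k m + syn k m' := by
  refine eq_syn hk (hm.add hm') fun f g => ?_
  have h := (hasSum_syn hk hm f g).add (hasSum_syn hk hm' f g)
  rw [← inner_add_right] at h
  refine h.congr_fun fun a => ?_
  rw [← inner_add_right]
  rfl

theorem syn_sub {k : ℕ} (hk : 0 < k) {m m' : Option Tr → MatC (Wk k)} (hm : BM m) (hm' : BM m') :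
    syn k (fun a => m a - m' a) = syn k m - syn k m' := by
  refine eq_syn hk (hm.sub hm') fun f g => ?_
  have h := (hasSum_syn hk hm f g).sub (hasSum_syn hk hm' f g)
  rw [← inner_sub_right] at h
  refine h.congr_fun fun a => ?_
  rw [← inner_sub_right]
  rfl

theorem syn_smul {k : ℕ} (hk : 0 < k) {m : Option Tr → MatC (Wk k)} (hm : BM m) (c : ℂ) :
    syn k (fun a => c • m a) = c • syn k m := by
  refine eq_syn hk (hm.smul c) fun f g => ?_
  have h := (hasSum_syn hk hm f g).mul_left c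
  rw [← inner_smul_right] at h
  refine h.congr_fun fun a => ?_
  rw [← inner_smul_right]
  rfl

theorem star_syn {k : ℕ} (hk : 0 < k) {m : Option Tr → MatC (Wk k)} (hm : BM m) :
    star (syn k m) = syn k fun a => star (m a) := by
  symm
  refine eq_syn hk hm.star fun f g => ?_
  have h := (hasSum_syn hk hm g f).star
  rw [inner_star_right]
  have h1 : star ⟪g, syn k m f⟫_ℂ = ⟪syn k m f, g⟫_ℂ := inner_conj_symm _ _
  rw [h1] at h
  refine h.congr_fun fun a => ?_
  have h2 : ⟪ContinuousLinearMap.adjoint (RB k a) f,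
      star (m a) (ContinuousLinearMap.adjoint (RB k a) g)⟫_ℂ =
      ⟪m a (ContinuousLinearMap.adjoint (RB k a) f), ContinuousLinearMap.adjoint (RB k a) g⟫_ℂ :=
    ContinuousLinearMap.adjoint_inner_right (m a) _ _
  rw [h2]
  exact (inner_conj_symm _ _).symm

theorem adjoint_RB_eb {k : ℕ} {a : Option Tr} {w : Tr}
    (h : ∀ α : Wk k, α.1 ++ bse a ≠ w) : ContinuousLinearMap.adjoint (RB k a) (eb w) = 0 := by
  ext α
  rw [adjoint_RB_apply, inner_eb_eb, if_neg (h α), mul_zero]
  rfl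

theorem FP_syn {k : ℕ} (hk : 0 < k) {m : Option Tr → MatC (Wk k)} (hm : BM m) :
    FP k (syn k m) := by
  intro v w hn
  refine (hasSum_syn hk hm (eb v) (eb w)).unique (hasSum_zero.congr_fun fun a => ?_)
  by_cases h1 : ∃ α : Wk k, α.1 ++ bse a = v
  · by_cases h2 : ∃ α : Wk k, α.1 ++ bse a = w
    · obtain ⟨α, hα⟩ := h1
      obtain ⟨β, hβ⟩ := h2
      exact absurd ⟨α.1, β.1, bse a, α.2.le, β.2.le, hα.symm, hβ.symm⟩ hn
    · rw [adjoint_RB_eb (w := w) fun α hα => h2 ⟨α, hα⟩, map_zero, inner_zero_right]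
  · rw [adjoint_RB_eb (w := v) fun α hα => h1 ⟨α, hα⟩, inner_zero_left]

theorem syn_eb {k : ℕ} (hk : 0 < k) {m : Option Tr → MatC (Wk k)} (hm : BM m) (w : Tr) :
    syn k m (eb w) = ∑ a ∈ insert none ((List.tails w).toFinset.image some),
      RB k a (m a (ContinuousLinearMap.adjoint (RB k a) (eb w))) := by
  refine ext_inner_left ℂ fun f => ?_
  have h1 := hasSum_syn hk hm f (eb w)
  have h2 := hasSum_sum_of_ne_finset_zero (L := SummationFilter.unconditional _) (f := fun a => ⟪ContinuousLinearMap.adjoint (RB k a) f,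
      m a (ContinuousLinearMap.adjoint (RB k a) (eb w))⟫_ℂ)
      (s := insert none ((List.tails w).toFinset.image some)) (fun a ha => by
    rw [adjoint_RB_eb (w := w), map_zero, inner_zero_right]
    intro α hα
    apply ha
    rcases a with _ | u
    · exact Finset.mem_insert_self _ _
    · apply Finset.mem_insert_of_mem
      apply Finset.mem_image_of_mem
      rw [List.mem_toFinset, List.mem_tails]
      exact ⟨α.1, hα⟩)
  rw [h1.unique h2, inner_sum]
  refine Finset.sum_congr rfl fun a _ => ?_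
  exact ContinuousLinearMap.adjoint_inner_left (RB k a) _ _

theorem cont_syn {k : ℕ} (hk : 0 < k) {Y : Type*} [TopologicalSpace Y]
    {M : Y → Option Tr → MatC (Wk k)} (hM : ∀ a, Continuous fun y => M y a) {C : ℝ} (hC : 0 ≤ C)
    (hb : ∀ y a, ‖M y a‖ ≤ C) (h0 : Hb) : Continuous fun y => syn k (M y) h0 := by
  have hs := hasSum_eb h0
  have hcl := isClosed_cont (F := fun y => syn k (M y)) ⟨C, fun y => norm_syn_le hk hC (hb y)⟩
  refine hcl.mem_of_tendsto hs (Filter.Eventually.of_forall fun t => ?_)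
  have : (fun y => syn k (M y) (∑ i ∈ t, ⟪eb i, h0⟫_ℂ • eb i)) =
      fun y => ∑ i ∈ t, ⟪eb i, h0⟫_ℂ • syn k (M y) (eb i) := by
    funext y
    rw [map_sum]
    exact Finset.sum_congr rfl fun i _ => map_smul _ _ _
  rw [Set.mem_ofPred_eq, this]
  refine continuous_finsetSum _ fun i _ => ?_
  have h2 : (fun y => syn k (M y) (eb i)) =
      fun y => ∑ a ∈ insert none ((List.tails i).toFinset.image some),
      RB k a (M y a (ContinuousLinearMap.adjoint (RB k a) (eb i))) := by
    funext y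
    exact syn_eb hk ⟨C, hb y⟩ i
  have h3 : Continuous fun y => syn k (M y) (eb i) := by
    rw [h2]
    refine continuous_finsetSum _ fun a _ => (RB k a).continuous.comp ?_
    exact (hM a).clm_apply continuous_const
  exact h3.const_smul ⟪eb i, h0⟫_ℂ

theorem scont_syn {k : ℕ} (hk : 0 < k) {Y : Type*} [TopologicalSpace Y]
    {M : Y → Option Tr → MatC (Wk k)} (hM : ∀ a, Continuous fun y => M y a) {C : ℝ} (hC : 0 ≤ C)
    (hb : ∀ y a, ‖M y a‖ ≤ C) : SCont fun y => syn k (M y) := by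
  refine ⟨⟨C, fun y => norm_syn_le hk hC (hb y)⟩, cont_syn hk hM hC hb, fun h => ?_⟩
  have h1 : (fun y => star (syn k (M y)) h) = fun y => syn k (fun a => star (M y a)) h := by
    funext y
    rw [star_syn hk ⟨C, hb y⟩]
  rw [h1]
  exact cont_syn hk (M := fun y a => star (M y a)) (fun a => continuous_star.comp (hM a)) hC
    (fun y a => by rw [norm_star]; exact hb y a) h

theorem syn_pos {k : ℕ} (hk : 0 < k) {n : ℕ} {L : Type} [Fintype L] (m : Fin n → L → MatC (Wk k))
    (κ : Option Tr → L → ℝ) (hκ : ∀ a l, 0 ≤ κ a l) (hκ1 : ∀ a, ∑ l, κ a l = 1)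
    (ξ : Fin n → Hb) : ∃ r : ℝ, 0 ≤ r ∧
      ∑ i, ∑ j, ⟪ξ i, syn k (fun a => ∑ l, (κ a l : ℂ) • (star (m i l) * m j l)) (ξ j)⟫_ℂ = r := by
  have hB : ∀ i j, BM fun a => ∑ l, (κ a l : ℂ) • (star (m i l) * m j l) := by
    intro i j
    refine ⟨∑ l, ‖star (m i l) * m j l‖, fun a => ?_⟩
    refine norm_sum_le_of_le _ fun l _ => ?_
    rw [norm_smul, Complex.norm_real, Real.norm_of_nonneg (hκ a l)]
    have h1 : κ a l ≤ 1 := by
      rw [← hκ1 a]
      exact Finset.single_le_sum (fun l _ => hκ a l) (Finset.mem_univ l)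
    exact mul_le_of_le_one_left (norm_nonneg _) h1
  have hS := hasSum_sum (f := fun i a => ∑ j, ⟪ContinuousLinearMap.adjoint (RB k a) (ξ i),
      (∑ l, (κ a l : ℂ) • (star (m i l) * m j l))
        (ContinuousLinearMap.adjoint (RB k a) (ξ j))⟫_ℂ) (s := (Finset.univ : Finset (Fin n)))
    fun i _ => hasSum_sum (s := (Finset.univ : Finset (Fin n))) fun j _ =>
      hasSum_syn hk (hB i j) (ξ i) (ξ j)
  set z : ℂ := ∑ i, ∑ j, ⟪ξ i, syn k (fun a => ∑ l, (κ a l : ℂ) • (star (m i l) * m j l)) (ξ j)⟫_ℂ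
    with hz
  have hT : ∀ a, ∑ i, ∑ j, ⟪ContinuousLinearMap.adjoint (RB k a) (ξ i),
      (∑ l, (κ a l : ℂ) • (star (m i l) * m j l))
        (ContinuousLinearMap.adjoint (RB k a) (ξ j))⟫_ℂ =
      ((∑ l, κ a l * ‖∑ i, m i l (ContinuousLinearMap.adjoint (RB k a) (ξ i))‖ ^ 2 : ℝ) : ℂ) := by
    intro a
    have h1 : ∀ i j, ⟪ContinuousLinearMap.adjoint (RB k a) (ξ i),
      (∑ l, (κ a l : ℂ) • (star (m i l) * m j l))
        (ContinuousLinearMap.adjoint (RB k a) (ξ j))⟫_ℂ =
        ∑ l, (κ a l : ℂ) * ⟪m i l (ContinuousLinearMap.adjoint (RB k a) (ξ i)),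
          m j l (ContinuousLinearMap.adjoint (RB k a) (ξ j))⟫_ℂ := by
      intro i j
      rw [sum_apply, inner_sum]
      refine Finset.sum_congr rfl fun l _ => ?_
      change ⟪_, (κ a l : ℂ) • (star (m i l) (m j l _))⟫_ℂ = _
      rw [inner_smul_right]
      congr 1
      exact ContinuousLinearMap.adjoint_inner_right (m i l) _ _
    simp only [h1]
    push_cast
    have h2 : ∀ l, (‖∑ i, m i l (ContinuousLinearMap.adjoint (RB k a) (ξ i))‖ : ℂ) ^ 2 =
        ∑ i, ∑ j, ⟪m i l (ContinuousLinearMap.adjoint (RB k a) (ξ i)),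
          m j l (ContinuousLinearMap.adjoint (RB k a) (ξ j))⟫_ℂ := by
      intro l
      refine (inner_self_eq_norm_sq_to_K (𝕜 := ℂ)
        (∑ i, m i l (ContinuousLinearMap.adjoint (RB k a) (ξ i)))).symm.trans ?_
      rw [sum_inner]
      exact Finset.sum_congr rfl fun i _ => inner_sum _ _ _
    simp only [h2, Finset.mul_sum]
    refine (Finset.sum_congr rfl fun i _ => Finset.sum_comm).trans ?_
    exact Finset.sum_comm
  simp only [hT] at hS
  have hre := Complex.hasSum_re hS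
  have him := Complex.hasSum_im hS
  simp only [Complex.ofReal_re] at hre
  simp only [Complex.ofReal_im] at him
  refine ⟨z.re, hre.nonneg fun a => Finset.sum_nonneg fun l _ =>
    mul_nonneg (hκ a l) (sq_nonneg _), ?_⟩
  apply Complex.ext
  · simp
  · rw [Complex.ofReal_im]
    exact him.unique hasSum_zero

end Pool.Agent.Lib.Eln
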