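import Pool.Agent.Lib.Eln.StN
import Pool.Agent.Lib.Eln.Syn
import Pool.Agent.Lib.Eln.Pos

set_option autoImplicit false

/-!
MODULE Eln.NucPsi (uses Syn, Pos (black boxes), StN and what it imports).

The completely positive contraction ψ from a finite direct sum of matrix algebras to the nuclear
block KM.

PROOF.  Define for m : (Σ i, L i) → MatC (Wk k), i and x
  M_i(x) a = ∑_l (κ i l a x : ℂ) • m ⟨i, l⟩  (bounded by C if all ‖m l‖ ≤ C, since the κ are ≥ 0 with sum 1),
  f_i(x) = vv n i x * syn k (M_i x) * star (vv n i x).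
* f_i is a field in BB: SCont by `scont_syn` (continuity of κ i l a) and SCont.V, SCont.mul, star; invariance:
  M_i(rotAt c z x) = M_i x by hinv, and for i = n conjugation with V (x none) is invariant
  (V_rot, the phases cancel: cf. `isF_cmp` in States.lean or Vc in Full.lean of Ell).
* (ψ m)(t) = ∑_i (hat n i t : ℂ) • f_i, norm continuous in t (finite sum, hat continuous).
* InB0 at t = 0: hat n i 0 = 1 if i = 0, = 0 for i ≥ 1.  So (ψ m)(0) = f_0 = V ee * syn k (M_0 x) * star (V ee)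
  and M_0 x = M_0 (mkx (pa x) (fun _ => ee) ee) by hA.  InB1 at t = 1: hat n i 1 = 1 for i = n and 0 else
  (i ≤ n), f_n = V (x none) * syn.. * star (V (x none)) by hB (note n ≠ 0, so vv n n x = V (x none)).
* InN: FP_syn, FP.V: every f_i has FP (k + 2); InN.of_FP, InN.sum, InN.smul.
* linear in m: syn_add, syn_smul.
* norm: pointwise ‖(ψ m)(t)(x)‖ ≤ ∑_i hat n i t * C = C (∑_i hat n i t = 1 for t ∈ [0,1]: with j = ⌊n t⌋ only i = j, j+1
  contribute, 1 - (n t - j) and n t - j; a clean way: prove ∑_{i ≤ n} max 0 (1 - |s - i|) = 1 for 0 ≤ s ≤ n by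
  induction on n), norm_syn_le, ‖vv‖ ≤ 1; then BB.norm_le, II.norm_le, KM.norm_val.
* complete positivity: by `KM.exists_sq` it suffices to see that
  ⟪f, (∑_ij star (b i) * ψ(..) * b j)(t)(x) f⟫ = ∑_s hat n s t * ∑_ij ⟪ξ_i, syn k (..) ξ_j⟫ with
  ξ_i = star (vv n s x) (b_i(t)(x) f), which is ≥ 0 by `syn_pos` with κ a l := κ s l a x.
-/

open scoped InnerProductSpace unitInterval

namespace Pool.Agent.Lib.Eln

/-- hat functions -/
noncomputable def hat (n : ℕ) (i : ℕ) (t : I) : ℝ := max 0 (1 - |(n : ℝ) * t - i|)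

/-- the twisting isometries at the nodes -/
noncomputable def vv (n : ℕ) (i : ℕ) (x : XX) : Op :=
  if i = 0 then V ee else if i = n then V (x none) else 1

namespace NucPsiAux

open Pool.Agent.Lib.P81d4f5 (S3)

theorem sum_hat_aux : ∀ (n : ℕ) (s : ℝ), 0 ≤ s → s ≤ n →
    ∑ i ∈ Finset.range (n + 1), max 0 (1 - |s - (i : ℝ)|) = 1 := by
  intro n
  induction n with
  | zero =>
    intro s h0 h1
    have : s = 0 := le_antisymm (by simpa using h1) h0
    subst this
    simp
  | succ n ih =>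
    intro s h0 h1
    rw [Finset.sum_range_succ]
    rcases le_or_gt s n with h | h
    · rw [ih s h0 h]
      have h2 : |s - ((n + 1 : ℕ) : ℝ)| = (n : ℝ) + 1 - s := by
        push_cast
        rw [abs_of_nonpos (by linarith)]
        ring
      rw [h2, max_eq_left (by linarith), add_zero]
    · rw [Finset.sum_range_succ]
      have h2 : ∑ i ∈ Finset.range n, max 0 (1 - |s - (i : ℝ)|) = 0 := by
        apply Finset.sum_eq_zero
        intro i hi
        have h3 : (i : ℝ) + 1 ≤ n := by exact_mod_cast Finset.mem_range.1 hi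
        rw [abs_of_nonneg (by linarith), max_eq_left (by linarith)]
      push_cast at h1 ⊢
      rw [h2, abs_of_nonneg (by linarith : 0 ≤ s - (n : ℝ)),
        abs_of_nonpos (by linarith : s - ((n : ℝ) + 1) ≤ 0), max_eq_right (by linarith),
        max_eq_right (by linarith)]
      ring

theorem hat_nonneg (n i : ℕ) (t : I) : 0 ≤ hat n i t := le_max_left _ _

theorem hat_zero_zero (n : ℕ) : hat n 0 0 = 1 := by simp [hat]

theorem hat_zero_of {n i : ℕ} (hi : i ≠ 0) : hat n i 0 = 0 := by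
  have : (1 : ℝ) ≤ i := by exact_mod_cast Nat.one_le_iff_ne_zero.2 hi
  simp [hat, this]

theorem hat_one_last (n : ℕ) : hat n n 1 = 1 := by simp [hat]

theorem hat_one_of {n i : ℕ} (hi : i < n) : hat n i 1 = 0 := by
  have : (i : ℝ) + 1 ≤ n := by exact_mod_cast hi
  unfold hat
  rw [max_eq_left]
  rw [Set.Icc.coe_one, mul_one, abs_of_nonneg (by linarith)]
  linarith

theorem continuous_hat (n i : ℕ) : Continuous (hat n i) := by
  unfold hat
  fun_prop

theorem vv_zero (n : ℕ) (x : XX) : vv n 0 x = V ee := by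
  simp [vv]

theorem vv_last {n : ℕ} (hn : 0 < n) (x : XX) : vv n n x = V (x none) := by
  simp [vv, hn.ne']

theorem star_vv_mul (n i : ℕ) (x : XX) : star (vv n i x) * vv n i x = 1 := by
  unfold vv
  split_ifs
  · exact star_V_mul_V _
  · exact star_V_mul_V _
  · simp

theorem norm_vv_le (n i : ℕ) (x : XX) : ‖vv n i x‖ ≤ 1 := Par.norm_le_one_of (star_vv_mul n i x)

theorem scont_vv (n i : ℕ) : SCont fun x => vv n i x := by
  unfold vv
  split_ifs
  · exact SCont.const _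
  · exact SCont.V (continuous_apply none)
  · exact SCont.const _

theorem FP_vv (n i : ℕ) (x : XX) : FP 1 (vv n i x) := by
  unfold vv
  split_ifs
  · exact FP.V _
  · exact FP.V _
  · exact FP.one 1

theorem circle_mul_star' (z : Circle) : (z : ℂ) * star (z : ℂ) = 1 := by
  have := circle_pow_mul_star z 1
  rwa [pow_one] at this

theorem conj_rot (n i : ℕ) (c : Ix) (z : Circle) (x : XX) (A : Op) :
    vv n i (rotAt c z x) * A * star (vv n i (rotAt c z x)) = vv n i x * A * star (vv n i x) := by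
  unfold vv
  split_ifs
  · rfl
  · by_cases hc : c = none
    · subst hc
      rw [rotAt_self, V_rot, star_smul, smul_mul_assoc, smul_mul_assoc, mul_smul_comm, smul_smul,
        circle_mul_star', one_smul]
    · rw [rotAt_of_ne (Ne.symm hc)]
  · rfl

/-- evaluation at a time and a point -/
noncomputable def evl (t : I) (x : XX) : KM →+ Op where
  toFun g := (g.val.at' t).fn x
  map_zero' := rfl
  map_add' _ _ := rfl

theorem evl_apply (t : I) (x : XX) (g : KM) : evl t x g = (g.val.at' t).fn x := rfl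

theorem fn_sum {ι : Type*} (s : Finset ι) (f : ι → BB) (x : XX) :
    (∑ i ∈ s, f i).fn x = ∑ i ∈ s, (f i).fn x :=
  map_sum (BB.evh x) f s

/-- the data of `exists_psi` -/
structure Dat (n k : ℕ) (L : Fin (n + 1) → Type) [∀ i, Fintype (L i)] where
  κ : (i : Fin (n + 1)) → L i → Option Tr → XX → ℝ
  hn : 0 < n
  hk : 0 < k
  hc : ∀ i l a, Continuous (κ i l a)
  h0 : ∀ i l a x, 0 ≤ κ i l a x
  h1 : ∀ i a x, ∑ l, κ i l a x = 1
  hinv : ∀ i l a c (z : Circle) x, κ i l a (rotAt c z x) = κ i l a x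
  hA : ∀ l a x, κ 0 l a x = κ 0 l a (mkx (pa x) (fun _ => ee) ee)
  hB : ∀ l a x, κ (Fin.last n) l a x = κ (Fin.last n) l a (mkx (fun _ => ee) (pb x) ee)

namespace Dat

variable {n k : ℕ} {L : Fin (n + 1) → Type} [∀ i, Fintype (L i)] (D : Dat n k L)

/-- the family of matrices at `x` -/
noncomputable def MX (m : (Σ i, L i) → MatC (Wk k)) (i : Fin (n + 1)) (x : XX) (a : Option Tr) :
    MatC (Wk k) := ∑ l, (D.κ i l a x : ℂ) • m ⟨i, l⟩

theorem norm_MX_le {m : (Σ i, L i) → MatC (Wk k)} {C : ℝ} (hm : ∀ l, ‖m l‖ ≤ C)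
    (i : Fin (n + 1)) (x : XX) (a : Option Tr) : ‖D.MX m i x a‖ ≤ C := by
  unfold MX
  calc ‖∑ l, (D.κ i l a x : ℂ) • m ⟨i, l⟩‖ ≤ ∑ l, ‖(D.κ i l a x : ℂ) • m ⟨i, l⟩‖ := norm_sum_le _ _
    _ ≤ ∑ l, D.κ i l a x * C := by
        refine Finset.sum_le_sum fun l _ => ?_
        rw [norm_smul, Complex.norm_real, Real.norm_eq_abs, abs_of_nonneg (D.h0 i l a x)]
        exact mul_le_mul_of_nonneg_left (hm _) (D.h0 i l a x)
    _ = C := by rw [← Finset.sum_mul, D.h1 i a x, one_mul]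

theorem exists_bound (m : (Σ i, L i) → MatC (Wk k)) : ∃ C : ℝ, 0 ≤ C ∧ ∀ l, ‖m l‖ ≤ C :=
  ⟨∑ l, ‖m l‖, Finset.sum_nonneg fun _ _ => norm_nonneg _, fun l =>
    Finset.single_le_sum (f := fun l => ‖m l‖) (fun _ _ => norm_nonneg _) (Finset.mem_univ l)⟩

theorem bm_MX (m : (Σ i, L i) → MatC (Wk k)) (i : Fin (n + 1)) (x : XX) : BM (D.MX m i x) := by
  obtain ⟨C, _, hC⟩ := exists_bound m
  exact ⟨C, D.norm_MX_le hC i x⟩

theorem MX_add (m m' : (Σ i, L i) → MatC (Wk k)) (i : Fin (n + 1)) (x : XX) :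
    D.MX (m + m') i x = fun a => D.MX m i x a + D.MX m' i x a := by
  funext a
  unfold MX
  simp only [Pi.add_apply, smul_add, Finset.sum_add_distrib]

theorem MX_smul (c : ℂ) (m : (Σ i, L i) → MatC (Wk k)) (i : Fin (n + 1)) (x : XX) :
    D.MX (c • m) i x = fun a => c • D.MX m i x a := by
  funext a
  unfold MX
  rw [Finset.smul_sum]
  refine Finset.sum_congr rfl fun l _ => ?_
  rw [Pi.smul_apply, smul_comm]

theorem scont_MX (m : (Σ i, L i) → MatC (Wk k)) (i : Fin (n + 1)) :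
    SCont fun x => syn k (D.MX m i x) := by
  obtain ⟨C, hC0, hC⟩ := exists_bound m
  refine scont_syn D.hk (fun a => ?_) hC0 (fun x a => D.norm_MX_le hC i x a)
  unfold MX
  refine continuous_finsetSum _ fun l _ => ?_
  exact (Complex.continuous_ofReal.comp (D.hc i l a)).smul continuous_const

theorem MX_inv (m : (Σ i, L i) → MatC (Wk k)) (i : Fin (n + 1)) (c : Ix) (z : Circle) (x : XX) :
    D.MX m i (rotAt c z x) = D.MX m i x := by
  funext a
  unfold MX
  simp only [D.hinv]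

/-- the field at a node -/
noncomputable def fd (m : (Σ i, L i) → MatC (Wk k)) (i : Fin (n + 1)) : BB :=
  BB.mk (fun x => vv n i x * syn k (D.MX m i x) * star (vv n i x))
    ⟨((scont_vv n i).mul (D.scont_MX m i)).mul (scont_vv n i).star, fun c z x => by
      rw [MX_inv, conj_rot]⟩

theorem fn_fd (m : (Σ i, L i) → MatC (Wk k)) (i : Fin (n + 1)) (x : XX) :
    (D.fd m i).fn x = vv n i x * syn k (D.MX m i x) * star (vv n i x) := rfl

theorem fd_add (m m' : (Σ i, L i) → MatC (Wk k)) (i : Fin (n + 1)) :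
    D.fd (m + m') i = D.fd m i + D.fd m' i := by
  apply BB.ext
  intro x
  rw [BB.fn_add, fn_fd, fn_fd, fn_fd, MX_add, syn_add D.hk (D.bm_MX m i x) (D.bm_MX m' i x)]
  noncomm_ring

theorem fd_smul (c : ℂ) (m : (Σ i, L i) → MatC (Wk k)) (i : Fin (n + 1)) :
    D.fd (c • m) i = c • D.fd m i := by
  apply BB.ext
  intro x
  rw [BB.fn_smul, fn_fd, fn_fd, MX_smul, syn_smul D.hk (D.bm_MX m i x), mul_smul_comm,
    smul_mul_assoc]

theorem inN_fd (m : (Σ i, L i) → MatC (Wk k)) (i : Fin (n + 1)) : InN (D.fd m i) := by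
  refine InN.of_FP (R := 1 + k + 1) fun x => ?_
  rw [fn_fd]
  exact ((FP_vv n i x).mul (FP_syn D.hk (D.bm_MX m i x))).mul (FP_vv n i x).star

theorem norm_fd_le {m : (Σ i, L i) → MatC (Wk k)} {C : ℝ} (hC : 0 ≤ C) (hm : ∀ l, ‖m l‖ ≤ C)
    (i : Fin (n + 1)) (x : XX) : ‖(D.fd m i).fn x‖ ≤ C := by
  rw [fn_fd]
  exact (Par.norm_conj_le (norm_vv_le n i x)).trans
    (norm_syn_le D.hk hC (D.norm_MX_le hm i x))

/-- the path -/
noncomputable def pth (m : (Σ i, L i) → MatC (Wk k)) (t : I) : BB :=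
  ∑ i : Fin (n + 1), (hat n i t : ℂ) • D.fd m i

theorem pth_zero (m : (Σ i, L i) → MatC (Wk k)) : D.pth m 0 = D.fd m 0 := by
  unfold pth
  rw [Finset.sum_eq_single 0]
  · rw [Fin.val_zero, hat_zero_zero, Complex.ofReal_one, one_smul]
  · intro i _ hi
    rw [hat_zero_of (fun h => hi (Fin.ext h)), Complex.ofReal_zero, zero_smul]
  · intro h
    exact absurd (Finset.mem_univ _) h

theorem pth_one (m : (Σ i, L i) → MatC (Wk k)) : D.pth m 1 = D.fd m (Fin.last n) := by
  unfold pth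
  rw [Finset.sum_eq_single (Fin.last n)]
  · rw [Fin.val_last, hat_one_last, Complex.ofReal_one, one_smul]
  · intro i _ hi
    have h : (i : ℕ) < n := by
      have h1 := Nat.lt_succ_iff.1 i.2
      have h2 : (i : ℕ) ≠ n := fun h => hi (Fin.ext h)
      omega
    rw [hat_one_of h, Complex.ofReal_zero, zero_smul]
  · intro h
    exact absurd (Finset.mem_univ _) h

theorem continuous_pth (m : (Σ i, L i) → MatC (Wk k)) : Continuous (D.pth m) := by
  unfold pth
  refine continuous_finsetSum _ fun i _ => ?_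
  exact (Complex.continuous_ofReal.comp (continuous_hat n i)).smul continuous_const

theorem inB0_pth (m : (Σ i, L i) → MatC (Wk k)) : InB0 (D.pth m 0) := by
  rw [pth_zero]
  refine ⟨fun a => syn k (D.MX m 0 (mkx a (fun _ => ee) ee)), fun x => ?_⟩
  rw [fn_fd, Fin.val_zero, vv_zero]
  have : D.MX m 0 x = D.MX m 0 (mkx (pa x) (fun _ => ee) ee) := by
    funext a
    unfold MX
    refine Finset.sum_congr rfl fun l _ => ?_
    rw [D.hA l a x]
  rw [this]

theorem inB1_pth (m : (Σ i, L i) → MatC (Wk k)) : InB1 (D.pth m 1) := by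
  rw [pth_one]
  refine ⟨fun b => syn k (D.MX m (Fin.last n) (mkx (fun _ => ee) b ee)), fun x => ?_⟩
  rw [fn_fd, Fin.val_last, vv_last D.hn]
  have : D.MX m (Fin.last n) x = D.MX m (Fin.last n) (mkx (fun _ => ee) (pb x) ee) := by
    funext a
    unfold MX
    refine Finset.sum_congr rfl fun l _ => ?_
    rw [D.hB l a x]
  rw [this]

theorem inN_pth (m : (Σ i, L i) → MatC (Wk k)) (t : I) : InN (D.pth m t) :=
  InN.sum _ fun i _ => (D.inN_fd m i).smul _

theorem pth_add (m m' : (Σ i, L i) → MatC (Wk k)) (t : I) :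
    D.pth (m + m') t = D.pth m t + D.pth m' t := by
  unfold pth
  rw [← Finset.sum_add_distrib]
  refine Finset.sum_congr rfl fun i _ => ?_
  rw [fd_add, smul_add]

theorem pth_smul (c : ℂ) (m : (Σ i, L i) → MatC (Wk k)) (t : I) :
    D.pth (c • m) t = c • D.pth m t := by
  unfold pth
  rw [Finset.smul_sum]
  refine Finset.sum_congr rfl fun i _ => ?_
  rw [fd_smul, smul_comm]

/-- the map -/
noncomputable def ps : ((Σ i, L i) → MatC (Wk k)) →ₗ[ℂ] KM where
  toFun m := KM.mk (II.mk (D.pth m) (D.continuous_pth m) (D.inB0_pth m) (D.inB1_pth m))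
    (fun t => D.inN_pth m t)
  map_add' m m' := by
    apply KM.ext
    apply II.ext
    intro t
    exact D.pth_add m m' t
  map_smul' c m := by
    apply KM.ext
    apply II.ext
    intro t
    exact D.pth_smul c m t

theorem at_ps (m : (Σ i, L i) → MatC (Wk k)) (t : I) : (D.ps m).val.at' t = D.pth m t := rfl

theorem fn_ps (m : (Σ i, L i) → MatC (Wk k)) (t : I) (x : XX) :
    ((D.ps m).val.at' t).fn x = ∑ i : Fin (n + 1), (hat n i t : ℂ) •
      (vv n i x * syn k (D.MX m i x) * star (vv n i x)) := by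
  rw [at_ps, pth, fn_sum]
  rfl

end Dat

end NucPsiAux

open NucPsiAux

theorem sum_hat {n : ℕ} (t : I) : ∑ i : Fin (n + 1), hat n i t = 1 := by
  have hn0 : (0 : ℝ) ≤ n := Nat.cast_nonneg n
  have h1 : 0 ≤ (n : ℝ) * t := mul_nonneg hn0 t.2.1
  have h2 : (n : ℝ) * t ≤ n := mul_le_of_le_one_right hn0 t.2.2
  have h3 := sum_hat_aux n _ h1 h2
  rw [← h3, Finset.sum_range]
  rfl

theorem exists_psi {n : ℕ} (hn : 0 < n) {k : ℕ} (hk : 0 < k) {L : Fin (n + 1) → Type}
    [∀ i, Fintype (L i)] (κ : (i : Fin (n + 1)) → L i → Option Tr → XX → ℝ)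
    (hc : ∀ i l a, Continuous (κ i l a)) (h0 : ∀ i l a x, 0 ≤ κ i l a x)
    (h1 : ∀ i a x, ∑ l, κ i l a x = 1)
    (hinv : ∀ i l a c (z : Circle) x, κ i l a (rotAt c z x) = κ i l a x)
    (hA : ∀ l a x, κ 0 l a x = κ 0 l a (mkx (pa x) (fun _ => ee) ee))
    (hB : ∀ l a x, κ (Fin.last n) l a x = κ (Fin.last n) l a (mkx (fun _ => ee) (pb x) ee)) :
    ∃ ψ : ((Σ i, L i) → MatC (Wk k)) →ₗ[ℂ] KM,
      (∀ m t x, ((ψ m).val.at' t).fn x = ∑ i : Fin (n + 1), (hat n i t : ℂ) •
        (vv n i x * syn k (fun a => ∑ l, (κ i l a x : ℂ) • m ⟨i, l⟩) * star (vv n i x))) ∧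
      (∀ (m : (Σ i, L i) → MatC (Wk k)) (C : ℝ), 0 ≤ C → (∀ l, ‖m l‖ ≤ C) → ‖ψ m‖ ≤ C) ∧
      (∀ (N : ℕ) (m : Fin N → (Σ i, L i) → MatC (Wk k)) (b : Fin N → KM), ∃ c : KM,
        ∑ i, ∑ j, star (b i) * ψ (fun l => star (m i l) * m j l) * b j = star c * c) := by
  let D : Dat n k L := ⟨κ, hn, hk, hc, h0, h1, hinv, hA, hB⟩
  refine ⟨D.ps, fun m t x => D.fn_ps m t x, ?_, ?_⟩
  · intro m C hC hm
    rw [← KM.norm_val]
    apply II.norm_le hC
    intro t
    apply BB.norm_le hC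
    intro x
    rw [D.at_ps, Dat.pth, fn_sum]
    calc ‖∑ i : Fin (n + 1), ((hat n i t : ℂ) • D.fd m i).fn x‖
        ≤ ∑ i : Fin (n + 1), ‖((hat n i t : ℂ) • D.fd m i).fn x‖ := norm_sum_le _ _
      _ ≤ ∑ i : Fin (n + 1), hat n i t * C := by
          refine Finset.sum_le_sum fun i _ => ?_
          rw [BB.fn_smul, norm_smul, Complex.norm_real, Real.norm_eq_abs,
            abs_of_nonneg (hat_nonneg n i t)]
          exact mul_le_mul_of_nonneg_left (D.norm_fd_le hC hm i x) (hat_nonneg n i t)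
      _ = C := by rw [← Finset.sum_mul, sum_hat, one_mul]
  · intro N m b
    apply KM.exists_sq
    intro t x f
    -- the vectors
    let ξ : Fin (n + 1) → Fin N → Hb := fun i p => star (vv n i x) (((b p).val.at' t).fn x f)
    have hr : ∀ i : Fin (n + 1), ∃ r : ℝ, 0 ≤ r ∧ ∑ p, ∑ q,
        ⟪ξ i p, syn k (fun a => ∑ l, (κ i l a x : ℂ) • (star (m p ⟨i, l⟩) * m q ⟨i, l⟩))
          (ξ i q)⟫_ℂ = r := fun i =>
      syn_pos hk (fun p l => m p ⟨i, l⟩) (fun a l => κ i l a x) (fun a l => h0 i l a x)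
        (fun a => h1 i a x) (ξ i)
    choose r hr0 hr1 using hr
    refine ⟨∑ i : Fin (n + 1), hat n i t * r i,
      Finset.sum_nonneg fun i _ => mul_nonneg (hat_nonneg n i t) (hr0 i), ?_⟩
    have hterm : ∀ p q, ⟪f, evl t x (star (b p) * D.ps (fun l => star (m p l) * m q l) * b q) f⟫_ℂ =
        ∑ i : Fin (n + 1), (hat n i t : ℂ) * ⟪ξ i p,
          syn k (fun a => ∑ l, (κ i l a x : ℂ) • (star (m p ⟨i, l⟩) * m q ⟨i, l⟩)) (ξ i q)⟫_ℂ := by
      intro p q
      rw [evl_apply]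
      simp only [KM.val_mul, KM.val_star, II.at'_mul, II.at'_star, BB.fn_mul, BB.fn_star]
      rw [D.fn_ps, mul_apply', mul_apply', inner_star_right, sum_apply, inner_sum]
      refine Finset.sum_congr rfl fun i _ => ?_
      change ⟪_, (hat n i t : ℂ) • (vv n i x * syn k _ * star (vv n i x)) _⟫_ℂ = _
      rw [inner_smul_right, mul_apply', mul_apply', ← inner_star_left]
      rfl
    rw [← evl_apply, map_sum]
    simp only [map_sum]
    rw [sum_apply, inner_sum]
    have hsum : ∀ p, ⟪f, (∑ q, evl t x (star (b p) * D.ps (fun l => star (m p l) * m q l) * b q))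
        f⟫_ℂ = ∑ q, ∑ i : Fin (n + 1), (hat n i t : ℂ) * ⟪ξ i p,
          syn k (fun a => ∑ l, (κ i l a x : ℂ) • (star (m p ⟨i, l⟩) * m q ⟨i, l⟩)) (ξ i q)⟫_ℂ := by
      intro p
      rw [sum_apply, inner_sum]
      exact Finset.sum_congr rfl fun q _ => hterm p q
    simp only [hsum]
    push_cast
    have hswap : ∀ p, ∑ q, ∑ i : Fin (n + 1), (hat n i t : ℂ) * ⟪ξ i p,
          syn k (fun a => ∑ l, (κ i l a x : ℂ) • (star (m p ⟨i, l⟩) * m q ⟨i, l⟩)) (ξ i q)⟫_ℂ =
        ∑ i : Fin (n + 1), (hat n i t : ℂ) * ∑ q, ⟪ξ i p,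
          syn k (fun a => ∑ l, (κ i l a x : ℂ) • (star (m p ⟨i, l⟩) * m q ⟨i, l⟩)) (ξ i q)⟫_ℂ := by
      intro p
      rw [Finset.sum_comm]
      exact Finset.sum_congr rfl fun i _ => by rw [Finset.mul_sum]
    simp only [hswap]
    rw [Finset.sum_comm]
    refine Finset.sum_congr rfl fun i _ => ?_
    rw [← Finset.mul_sum, hr1 i]

end Pool.Agent.Lib.Eln
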