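import Pool.Agent.Lib.Eln.Forms
import Pool.Agent.Lib.Eln.Cst

set_option autoImplicit false

/-!
The connecting homomorphisms of the block algebra.
-/

open scoped InnerProductSpace BoundedContinuousFunction unitInterval

namespace Pool.Agent.Lib.Eln

open Pool.Agent.Lib.P81d4f5 (S3)

/-- patterns: index of a base point and the coordinates which are made constant -/
abbrev Cix : Type := ℕ × Finset (Bool × ℕ)

/-- enumeration of the patterns -/
noncomputable def enc : ℕ ≃ Cix := (nonempty_equiv_of_countable (α := ℕ) (β := Cix)).some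

/-- the number of leading letters `false` -/
def lf : Tr → ℕ
  | false :: w => lf w + 1
  | _ => 0

theorem lf_replicate (m : ℕ) (v : Tr) : lf (List.replicate m false ++ true :: v) = m := by
  induction m with
  | zero => rfl
  | succ m ih => rw [List.replicate_succ, List.cons_append, lf, ih]

/-- the pattern of a remainder -/
noncomputable def patj : Tr → Cix
  | true :: w => enc (lf w)
  | _ => enc 0

/-- the pattern of a component -/
noncomputable def pat (n : ℕ) : Cix := patj (jx n)

/-- the prefix belonging to a pattern -/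
noncomputable def gam (a : Cix) : Tr := true :: (List.replicate (enc.symm a) false ++ [true])

theorem patj_gam (a : Cix) (v : Tr) : patj (gam a ++ v) = a := by
  have h : gam a ++ v = true :: (List.replicate (enc.symm a) false ++ true :: v) := by
    simp [gam]
  rw [h, patj, lf_replicate, Equiv.apply_symm_apply]

/-- the components with a given pattern are enumerated by the vertices -/
theorem exists_pat (a : Cix) : ∃ N : Tr → ℕ, ∀ v, jx (N v) = gam a ++ v ∧ pat (N v) = a := by
  have h : ∀ v, ∃ n, jx n = gam a ++ v := fun v => exists_jx (by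
    have : gam a ++ v = true :: (List.replicate (enc.symm a) false ++ [true] ++ v) := rfl
    rw [this]
    exact isJ_true _)
  choose N hN using h
  exact ⟨N, fun v => ⟨hN v, by rw [pat, hN, patj_gam]⟩⟩

/-- dense sequence of base points -/
noncomputable def dpt (i : ℕ) : I × XX := TopologicalSpace.denseSeq (I × XX) i

theorem denseRange_dpt : DenseRange dpt := TopologicalSpace.denseRange_denseSeq _

/-- the selection of new coordinates, `r` being the residue class mod 3 -/
def Jr (r : Bool) (m : ℕ × ((Bool × ℕ) ⊕ ℕ)) : ℕ := 3 * Encodable.encode m + 1 + r.toNat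

theorem Jr_injective (r : Bool) : Function.Injective (Jr r) := by
  intro m m' h
  apply Encodable.encode_injective (α := ℕ × ((Bool × ℕ) ⊕ ℕ))
  simp only [Jr] at h
  omega

/-- the parameters at stage `k` -/
noncomputable def par (k : ℕ) (r : Bool) : Par where
  tau n := (dpt (pat n).1).1
  F n := if (pat n).2.card ≤ k then (pat n).2 else ∅
  c n κ := (dpt (pat n).1).2 (some κ)
  y n := (dpt (pat n).1).2 none
  J := Jr r
  hJ := Jr_injective r

theorem par_card (k : ℕ) (r : Bool) (n : ℕ) : ((par k r).F n).card ≤ k := by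
  change (if (pat n).2.card ≤ k then (pat n).2 else ∅ : Finset (Bool × ℕ)).card ≤ k
  split_ifs with h
  · exact h
  · simp

/-- the path of homomorphisms -/
noncomputable def psi (k : ℕ) (r : Bool) :
    Path ((par k r).sta (fun _ => false) Ent.yy (Ent.e0 :: Par.frs false (k + 1)) (par k r).tau)
      ((par k r).sta (fun _ => true) Ent.yy (Ent.zeta :: Par.frs true (k + 1)) (par k r).tau) :=
  ((par k r).cn_main (par_card k r)).choose

theorem psi_mem (k : ℕ) (r : Bool) (t : I) : (psi k r t : II → BB) ∈ (par k r).HH :=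
  ((par k r).cn_main (par_card k r)).choose_spec t

/-- the homomorphism at a time of the path -/
noncomputable def psiH (k : ℕ) (r : Bool) (t : I) : II →⋆ₙₐ[ℂ] BB := (psi_mem k r t).choose

theorem psiH_eq (k : ℕ) (r : Bool) (t : I) : (psiH k r t : II → BB) = psi k r t :=
  (psi_mem k r t).choose_spec.1

theorem psiH_good (k : ℕ) (r : Bool) (t : I) {h : II}
    (hh : ∀ t, GoodIn Set.univ (h.at' t).fn) :
    GoodIn {d | d.2 ∈ Set.range (Jr r)} (psiH k r t h).fn :=
  (psi_mem k r t).choose_spec.2.1 h hh

theorem psiH_inN (k : ℕ) (r : Bool) (t : I) {h : II} (hh : InM h) : InN (psiH k r t h) :=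
  (psi_mem k r t).choose_spec.2.2 h hh

theorem continuous_psiH (k : ℕ) (r : Bool) (g : II) : Continuous fun t => psiH k r t g := by
  have h1 : (fun t => psiH k r t g) = fun t => (psi k r t : II → BB) g := by
    funext t
    rw [psiH_eq]
  rw [h1]
  exact (continuous_apply g).comp (psi k r).continuous

theorem psiH_zero (k : ℕ) (r : Bool) (g : II) (x : XX) :
    (psiH k r 0 g).fn x = V ee * ((par k r).rho false (k + 1) g).fn x * star (V ee) := by
  have h1 : psiH k r 0 g = (psi k r 0 : II → BB) g := by rw [← psiH_eq]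
  rw [h1, (psi k r).source]
  exact (par k r).sta_cons (e := Ent.e0) (fun n => rfl) _ _ _ _ _

theorem psiH_one (k : ℕ) (r : Bool) (g : II) (x : XX) :
    (psiH k r 1 g).fn x =
      V (x none) * ((par k r).rho true (k + 1) g).fn x * star (V (x none)) := by
  have h1 : psiH k r 1 g = (psi k r 1 : II → BB) g := by rw [← psiH_eq]
  rw [h1, (psi k r).target]
  exact (par k r).sta_cons (e := Ent.zeta) (fun n => rfl) _ _ _ _ _

/-- the selection of the old coordinates -/
def src0 : Ix → Option Ix
  | none => some none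
  | some κ => some (some (κ.1, 3 * κ.2))

theorem injSrc_src0 : InjSrc src0 := by
  rintro (_ | κ) (_ | κ') c h h'
  · rfl
  · rw [← h'] at h; simp [src0] at h
  · rw [← h'] at h; simp [src0] at h
  · rw [← h'] at h
    simp only [src0, Option.some.injEq, Prod.mk.injEq] at h
    rw [Prod.ext h.1 (by have := h.2; omega)]

/-- forgetting the new coordinates -/
noncomputable def sg0 : XX → XX := pull src0 fun _ => ee

theorem sg0_none (x : XX) : sg0 x none = x none := rfl

theorem sg0_some (x : XX) (κ : Bool × ℕ) : sg0 x (some κ) = x (some (κ.1, 3 * κ.2)) := rfl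

/-- the pull back along `sg0` -/
noncomputable def pb0 : BB →⋆ₐ[ℂ] BB := pullHom src0 injSrc_src0 fun _ => ee

theorem fn_pb0 (f : BB) (x : XX) : (pb0 f).fn x = f.fn (sg0 x) := rfl

theorem continuous_pb0 : Continuous pb0 := by
  have h : LipschitzWith 1 pb0 := LipschitzWith.of_dist_le_mul fun f g => by
    rw [NNReal.coe_one, one_mul, dist_eq_norm, dist_eq_norm, ← map_sub]
    exact BB.norm_le (norm_nonneg _) fun x => BB.norm_fn_le (f - g) (sg0 x)
  exact h.continuous

/-- a section of `sg0` -/
noncomputable def lift0 (y : XX) : XX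
  | none => y none
  | some κ => if κ.2 % 3 = 0 then y (some (κ.1, κ.2 / 3)) else ee

theorem sg0_lift0 (y : XX) : sg0 (lift0 y) = y := by
  funext d
  rcases d with _ | ⟨b, i⟩
  · rfl
  · rw [sg0_some]
    simp [lift0]

/-- conjugation by the isometry `C i` -/
noncomputable def cj (i : ℕ) (x : BB) : BB := BB.cst (C i) * x * star (BB.cst (C i))

theorem fn_cj (i : ℕ) (x : BB) (y : XX) : (cj i x).fn y = C i * x.fn y * star (C i) := rfl

theorem cj_mul (i : ℕ) (x y : BB) : cj i x * cj i y = cj i (x * y) := by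
  ext z : 1
  simp only [BB.fn_mul, fn_cj]
  have : C i * x.fn z * star (C i) * (C i * y.fn z * star (C i)) =
      C i * x.fn z * (star (C i) * C i) * y.fn z * star (C i) := by noncomm_ring
  rw [this, star_C_mul_self]; noncomm_ring

theorem cj_mul_of_ne {i j : ℕ} (h : i ≠ j) (x y : BB) : cj i x * cj j y = 0 := by
  ext z : 1
  simp only [BB.fn_mul, fn_cj]
  have : C i * x.fn z * star (C i) * (C j * y.fn z * star (C j)) =
      C i * x.fn z * (star (C i) * C j) * y.fn z * star (C j) := by noncomm_ring
  rw [this, star_C_mul_of_ne h]; simp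

theorem cj_add (i : ℕ) (x y : BB) : cj i (x + y) = cj i x + cj i y := by
  unfold cj; noncomm_ring

theorem cj_smul (i : ℕ) (c : ℂ) (x : BB) : cj i (c • x) = c • cj i x := by
  unfold cj; simp

theorem cj_star (i : ℕ) (x : BB) : cj i (star x) = star (cj i x) := by
  unfold cj; simp [mul_assoc]

theorem cj_zero (i : ℕ) : cj i 0 = 0 := by
  unfold cj; simp

theorem continuous_cj (i : ℕ) : Continuous (cj i) :=
  (continuous_const.mul continuous_id).mul continuous_const

theorem inN_cj {f : BB} (h : InN f) (i : ℕ) : InN (cj i f) :=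
  ((InN.cst (FP_C i)).mul h).mul (InN.cst (FP_C i)).star

/-- clamping to the unit interval -/
noncomputable def clamp (t : ℝ) : I := Set.projIcc 0 1 zero_le_one t

theorem continuous_clamp : Continuous clamp := continuous_projIcc (h := zero_le_one)

theorem clamp_of_le {t : ℝ} (h : t ≤ 0) : clamp t = 0 := Set.projIcc_of_le_left _ h

theorem clamp_of_ge {t : ℝ} (h : 1 ≤ t) : clamp t = 1 := Set.projIcc_of_right_le _ h

/-- the first time change -/
noncomputable def la1 (t : I) : I := clamp (3 * t)

/-- the second time change -/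
noncomputable def la2 (t : I) : I := clamp (3 * t - 2)

theorem continuous_la1 : Continuous la1 := continuous_clamp.comp (by fun_prop)
theorem continuous_la2 : Continuous la2 := continuous_clamp.comp (by fun_prop)

theorem la1_zero : la1 0 = 0 := clamp_of_le (by simp)
theorem la2_zero : la2 0 = 0 := clamp_of_le (by simp)
theorem la1_one : la1 1 = 1 := clamp_of_ge (by norm_num)
theorem la2_one : la2 1 = 1 := clamp_of_ge (by norm_num)

/-- the connecting map at a time -/
noncomputable def phiF (k : ℕ) (g : II) (t : I) : BB :=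
  cj 0 (pb0 (g.at' t)) + cj 1 (psiH k false (la1 t) g) + cj 2 (psiH k true (la2 t) g)

theorem continuous_phiF (k : ℕ) (g : II) : Continuous (phiF k g) := by
  exact (((continuous_cj 0).comp (continuous_pb0.comp g.continuous_at')).add
    ((continuous_cj 1).comp ((continuous_psiH k false g).comp continuous_la1))).add
    ((continuous_cj 2).comp ((continuous_psiH k true g).comp continuous_la2))

theorem inB0_cj {f : BB} (h : InB0 f) (i : ℕ) : InB0 (cj i f) := by
  obtain ⟨c, hc⟩ := h
  refine ⟨fun a => T' i * c a * star (T' i), fun x => ?_⟩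
  rw [fn_cj, hc]
  calc C i * (V ee * c (pa x) * star (V ee)) * star (C i)
      = (C i * V ee) * c (pa x) * (star (V ee) * star (C i)) := by simp only [mul_assoc]
    _ = _ := by rw [C_mul_V, star_V_mul_star_C]; simp only [mul_assoc]

theorem inB1_cj {f : BB} (h : InB1 f) (i : ℕ) : InB1 (cj i f) := by
  obtain ⟨c, hc⟩ := h
  refine ⟨fun a => T' i * c a * star (T' i), fun x => ?_⟩
  rw [fn_cj, hc]
  calc C i * (V (x none) * c (pb x) * star (V (x none))) * star (C i)
      = (C i * V (x none)) * c (pb x) * (star (V (x none)) * star (C i)) := by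
        simp only [mul_assoc]
    _ = _ := by rw [C_mul_V, star_V_mul_star_C]; simp only [mul_assoc]

theorem inB0_pb0 {f : BB} (h : InB0 f) : InB0 (pb0 f) := by
  obtain ⟨c, hc⟩ := h
  exact ⟨fun a => c fun i => a (3 * i), fun x => by rw [fn_pb0, hc]; rfl⟩

theorem inB1_pb0 {f : BB} (h : InB1 f) : InB1 (pb0 f) := by
  obtain ⟨c, hc⟩ := h
  exact ⟨fun a => c fun i => a (3 * i), fun x => by rw [fn_pb0, hc]; rfl⟩

theorem inB0_psiH (k : ℕ) (r : Bool) (g : II) : InB0 (psiH k r 0 g) :=
  ⟨fun a => ((par k r).rho false (k + 1) g).fn (mkx a (fun _ => ee) ee), fun x => by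
    rw [psiH_zero]
    congr 2
    exact (par k r).rho_congr (θ := false) (x := x) (x' := mkx (pa x) (fun _ => ee) ee)
      (fun i => rfl) _ g⟩

theorem inB1_psiH (k : ℕ) (r : Bool) (g : II) : InB1 (psiH k r 1 g) :=
  ⟨fun b => ((par k r).rho true (k + 1) g).fn (mkx (fun _ => ee) b ee), fun x => by
    rw [psiH_one]
    congr 2
    exact (par k r).rho_congr (θ := true) (x := x) (x' := mkx (fun _ => ee) (pb x) ee)
      (fun i => rfl) _ g⟩

theorem inB0_phiF (k : ℕ) (g : II) : InB0 (phiF k g 0) := by
  unfold phiF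
  rw [la1_zero, la2_zero]
  exact ((inB0_cj (inB0_pb0 g.mem0) 0).add (inB0_cj (inB0_psiH k _ g) 1)).add
    (inB0_cj (inB0_psiH k _ g) 2)

theorem inB1_phiF (k : ℕ) (g : II) : InB1 (phiF k g 1) := by
  unfold phiF
  rw [la1_one, la2_one]
  exact ((inB1_cj (inB1_pb0 g.mem1) 0).add (inB1_cj (inB1_psiH k _ g) 1)).add
    (inB1_cj (inB1_psiH k _ g) 2)

/-- the connecting homomorphism -/
noncomputable def Phi (k : ℕ) : II →⋆ₙₐ[ℂ] II where
  toFun g := II.mk (phiF k g) (continuous_phiF k g) (inB0_phiF k g) (inB1_phiF k g)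
  map_smul' c g := by
    ext t : 1
    simp only [MonoidHom.id_apply, II.at'_smul, II.at'_mk, phiF, map_smul, cj_smul, smul_add]
  map_zero' := by
    ext t : 1
    simp only [II.at'_zero, II.at'_mk, phiF, map_zero, cj_zero, add_zero]
  map_add' f g := by
    ext t : 1
    simp only [II.at'_add, II.at'_mk, phiF, map_add, cj_add]
    abel
  map_mul' f g := by
    ext t : 1
    simp only [II.at'_mul, II.at'_mk, phiF, map_mul, mul_add, add_mul, cj_mul,
      cj_mul_of_ne (show (0 : ℕ) ≠ 1 by decide), cj_mul_of_ne (show (0 : ℕ) ≠ 2 by decide),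
      cj_mul_of_ne (show (1 : ℕ) ≠ 0 by decide), cj_mul_of_ne (show (1 : ℕ) ≠ 2 by decide),
      cj_mul_of_ne (show (2 : ℕ) ≠ 0 by decide), cj_mul_of_ne (show (2 : ℕ) ≠ 1 by decide),
      add_zero, zero_add]
  map_star' g := by
    ext t : 1
    simp only [II.at'_star, II.at'_mk, phiF, map_star, cj_star, star_add]

theorem at'_Phi (k : ℕ) (g : II) (t : I) : (Phi k g).at' t =
    cj 0 (pb0 (g.at' t)) + cj 1 (psiH k false (la1 t) g) + cj 2 (psiH k true (la2 t) g) := rfl

theorem fn_Phi_mul_C0 (k : ℕ) (g : II) (t : I) (x : XX) :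
    ((Phi k g).at' t).fn x * C 0 = C 0 * (g.at' t).fn (sg0 x) := by
  rw [at'_Phi]
  simp only [BB.fn_add, fn_cj, fn_pb0, add_mul, mul_assoc, star_C_mul_self,
    star_C_mul_of_ne (show (1 : ℕ) ≠ 0 by decide), star_C_mul_of_ne (show (2 : ℕ) ≠ 0 by decide),
    mul_zero, add_zero, mul_one]

theorem fn_Phi_mul_C1 (k : ℕ) (g : II) (t : I) (x : XX) :
    ((Phi k g).at' t).fn x * C 1 = C 1 * (psiH k false (la1 t) g).fn x := by
  rw [at'_Phi]
  simp only [BB.fn_add, fn_cj, fn_pb0, add_mul, mul_assoc, star_C_mul_self,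
    star_C_mul_of_ne (show (0 : ℕ) ≠ 1 by decide), star_C_mul_of_ne (show (2 : ℕ) ≠ 1 by decide),
    mul_zero, add_zero, zero_add, mul_one]

theorem fn_Phi_mul_C2 (k : ℕ) (g : II) (t : I) (x : XX) :
    ((Phi k g).at' t).fn x * C 2 = C 2 * (psiH k true (la2 t) g).fn x := by
  rw [at'_Phi]
  simp only [BB.fn_add, fn_cj, fn_pb0, add_mul, mul_assoc, star_C_mul_self,
    star_C_mul_of_ne (show (0 : ℕ) ≠ 2 by decide), star_C_mul_of_ne (show (1 : ℕ) ≠ 2 by decide),
    mul_zero, zero_add, mul_one]

theorem Phi_injective (k : ℕ) : Function.Injective (Phi k) := by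
  rw [injective_iff_map_eq_zero]
  intro g hg
  ext t x : 2
  have h1 := fn_Phi_mul_C0 k g t (lift0 x)
  rw [hg, sg0_lift0] at h1
  have h2 : (0 : Op) = C 0 * (g.at' t).fn x := by
    rw [← h1]; simp
  have h3 := congrArg (fun T => star (C 0) * T) h2
  simp only [mul_zero, ← mul_assoc, star_C_mul_self, one_mul] at h3
  exact h3.symm

/-- good elements are mapped to good elements -/
theorem Phi_good (k : ℕ) {h : II} (hh : ∀ t, GoodIn Set.univ (h.at' t).fn) (t : I) :
    GoodIn Set.univ ((Phi k h).at' t).fn := by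
  have h0 : GoodIn {d : Bool × ℕ | d.2 % 3 = 0} (pb0 (h.at' t)).fn := by
    have := (hh t).pull injSrc_src0 (fun _ => ee) (fun κ => (κ.1, 3 * κ.2)) (fun κ => rfl)
      (D' := {d : Bool × ℕ | d.2 % 3 = 0}) (fun κ _ => by simp)
    exact this
  have h1 : GoodIn {d : Bool × ℕ | d.2 % 3 = 1} (psiH k false (la1 t) h).fn :=
    (psiH_good k false (la1 t) hh).mono (by
      rintro d ⟨m, hm⟩
      simp only [Set.mem_ofPred_eq, ← hm, Jr, Bool.toNat_false]
      omega)
  have h2 : GoodIn {d : Bool × ℕ | d.2 % 3 = 2} (psiH k true (la2 t) h).fn :=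
    (psiH_good k true (la2 t) hh).mono (by
      rintro d ⟨m, hm⟩
      simp only [Set.mem_ofPred_eq, ← hm, Jr, Bool.toNat_true]
      omega)
  have h0' := h0.conj (IsF.const (C 0))
  have h1' := h1.conj (IsF.const (C 1))
  have h2' := h2.conj (IsF.const (C 2))
  have h3 := (h0'.add h1' (by
    rw [Set.disjoint_left]; intro d h h'; simp only [Set.mem_ofPred_eq] at h h'; omega)).add h2' (by
    rw [Set.disjoint_left]; intro d h h'
    simp only [Set.mem_ofPred_eq, Set.mem_union] at h h'; omega)
  exact h3.mono (Set.subset_univ _)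

theorem inM_Phi (k : ℕ) {g : II} (hg : InM g) : InM (Phi k g) := by
  intro t
  rw [at'_Phi]
  exact ((inN_cj ((hg t).pull injSrc_src0 _) 0).add (inN_cj (psiH_inN k false _ hg) 1)).add
    (inN_cj (psiH_inN k true _ hg) 2)

/-- the connecting homomorphism of the nuclear block -/
noncomputable def PhiM (k : ℕ) : KM →⋆ₙₐ[ℂ] KM := KM.restr (Phi k) fun _ hg => inM_Phi k hg

@[simp] theorem val_PhiM (k : ℕ) (g : KM) : (PhiM k g).val = Phi k g.val := rfl

theorem PhiM_injective (k : ℕ) : Function.Injective (PhiM k) := by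
  intro f g h
  exact KM.val_injective (Phi_injective k (congrArg KM.val h))

end Pool.Agent.Lib.Eln
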