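import Pool.Agent.Lib.Eln.Pull

set_option autoImplicit false

/-!
The homomorphisms `st` from the block algebra to `BB`, direct sums over countably many evaluations.
-/

open scoped InnerProductSpace BoundedContinuousFunction unitInterval

namespace Pool.Agent.Lib.Eln

open Pool.Agent.Lib.P81d4f5 (S3)

theorem circle_pow_mul_star (z : Circle) (n : ℕ) : (z : ℂ) ^ n * star ((z : ℂ) ^ n) = 1 := by
  rw [star_pow, ← mul_pow]
  have : (z : ℂ) * star (z : ℂ) = 1 := by
    have := Complex.mul_conj (z : ℂ)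
    rw [Circle.normSq_coe] at this
    simpa using this
  rw [this, one_pow]

/-- entries of the words -/
inductive Ent
  | e0 : Ent
  | yy : Ent
  | zeta : Ent
  | fr : ℕ → Bool → Ent

/-- parameters -/
structure Par where
  /-- times -/
  tau : ℕ → I
  /-- the coordinates which are made constant -/
  F : ℕ → Finset (Bool × ℕ)
  /-- their values -/
  c : ℕ → Bool × ℕ → S3
  /-- the value of the special coordinate -/
  y : ℕ → S3
  /-- the choice of new coordinates -/
  J : ℕ × ((Bool × ℕ) ⊕ ℕ) → ℕ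
  hJ : Function.Injective J

namespace Par

variable (P : Par)

/-- the coordinate selected by an entry -/
def esrc (n : ℕ) : Ent → Option Ix
  | .e0 => none
  | .yy => none
  | .zeta => some none
  | .fr j θ => some (some (θ, P.J (n, Sum.inr j)))

/-- the constant of an entry -/
noncomputable def ecst (n : ℕ) : Ent → S3
  | .e0 => ee
  | .yy => P.y n
  | .zeta => ee
  | .fr _ _ => ee

/-- the value of an entry -/
noncomputable def ev (n : ℕ) (e : Ent) (x : XX) : S3 := pick (P.esrc n e) (P.ecst n e) x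

theorem continuous_ev (n : ℕ) (e : Ent) : Continuous (P.ev n e) := continuous_pick _ _

/-- the isometry of a word -/
noncomputable def Wd (n : ℕ) : List Ent → XX → Op
  | [], _ => 1
  | e :: L, x => V (P.ev n e x) * Wd n L x

@[simp] theorem Wd_nil (n : ℕ) (x : XX) : P.Wd n [] x = 1 := rfl

@[simp] theorem Wd_cons (n : ℕ) (e : Ent) (L : List Ent) (x : XX) :
    P.Wd n (e :: L) x = V (P.ev n e x) * P.Wd n L x := rfl

theorem Wd_append (n : ℕ) (L L' : List Ent) (x : XX) :
    P.Wd n (L ++ L') x = P.Wd n L x * P.Wd n L' x := by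
  induction L with
  | nil => simp
  | cons e L ih => simp [ih, mul_assoc]

theorem star_Wd_mul (n : ℕ) (L : List Ent) (x : XX) : star (P.Wd n L x) * P.Wd n L x = 1 := by
  induction L with
  | nil => simp
  | cons e L ih =>
    rw [Wd_cons, star_mul, mul_assoc, ← mul_assoc (star (V _)), star_V_mul_V, one_mul, ih]

theorem scont_Wd (n : ℕ) (L : List Ent) : SCont (P.Wd n L) := by
  induction L with
  | nil => exact SCont.const 1
  | cons e L ih => exact (SCont.V (P.continuous_ev n e)).mul ih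

/-- the weights of a word -/
def lw (n : ℕ) : List Ent → Ix → ℕ
  | [], _ => 0
  | e :: L, c => sw (P.esrc n e) c + lw n L c

theorem Wd_rot (n : ℕ) (L : List Ent) (c : Ix) (z : Circle) (x : XX) :
    P.Wd n L (rotAt c z x) = ((z : ℂ) ^ P.lw n L c) • P.Wd n L x := by
  induction L with
  | nil => simp [lw]
  | cons e L ih =>
    rw [Wd_cons, Wd_cons, ih, ev, ev, V_pick_rot, smul_mul_smul_comm, lw, pow_add]

theorem lw_pos (n : ℕ) {L : List Ent} {j : ℕ} {θ : Bool} (h : Ent.fr j θ ∈ L) :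
    1 ≤ P.lw n L (some (θ, P.J (n, Sum.inr j))) := by
  induction L with
  | nil => simp at h
  | cons e L ih =>
    rw [lw]
    rcases List.mem_cons.1 h with h | h
    · subst h
      simp [sw, esrc]
    · have := ih h
      omega

/-- the selection of coordinates of a component -/
def xsrc (th : Bool → Bool) (η : Ent) (n : ℕ) : Ix → Option Ix
  | none => P.esrc n η
  | some κ => if κ ∈ P.F n then none else some (some (th κ.1, P.J (n, Sum.inl κ)))

/-- the constants of a component -/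
noncomputable def xcst (η : Ent) (n : ℕ) : Ix → S3
  | none => P.ecst n η
  | some κ => P.c n κ

theorem injSrc_xsrc (th : Bool → Bool) (η : Ent) (n : ℕ) : InjSrc (P.xsrc th η n) := by
  have key : ∀ κ c, P.xsrc th η n (some κ) = some c → c = some (th κ.1, P.J (n, Sum.inl κ)) := by
    intro κ c h
    simp only [xsrc] at h
    split_ifs at h
    exact (Option.some_injective _ h).symm
  have key2 : ∀ κ c, P.xsrc th η n (some κ) = some c → P.xsrc th η n none = some c → False := by
    intro κ c h h'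
    have h1 := key κ c h
    subst h1
    simp only [xsrc] at h'
    rcases η with _ | _ | _ | ⟨j, θ⟩
    · simp [esrc] at h'
    · simp [esrc] at h'
    · simp [esrc] at h'
    · simp only [esrc, Option.some.injEq, Prod.mk.injEq] at h'
      have := P.hJ h'.2
      simp at this
  intro d d' c h h'
  rcases d with _ | κ <;> rcases d' with _ | κ'
  · rfl
  · exact (key2 _ _ h' h).elim
  · exact (key2 _ _ h h').elim
  · have h1 := key _ _ h
    have h2 := key _ _ h'
    rw [h1] at h2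
    have h3 := congrArg Prod.snd (Option.some_injective _ h2)
    have := P.hJ h3
    simp at this
    rw [this]

/-- the base point map of a component -/
noncomputable def xi (th : Bool → Bool) (η : Ent) (n : ℕ) : XX → XX :=
  pull (P.xsrc th η n) (P.xcst η n)

/-- a component -/
noncomputable def cmp (th : Bool → Bool) (η : Ent) (L : List Ent) (U : Op) (τ : I) (n : ℕ)
    (g : II) (x : XX) : Op :=
  U * P.Wd n L x * (g.at' τ).fn (P.xi th η n x) * star (U * P.Wd n L x)

theorem norm_le_one_of {U : Op} (h : star U * U = 1) : ‖U‖ ≤ 1 := by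
  have h1 := CStarRing.norm_star_mul_self (x := U)
  have h2 : ‖(1 : Op)‖ ≤ 1 := ContinuousLinearMap.opNorm_le_bound _ zero_le_one fun f => by simp
  rw [h] at h1
  nlinarith [norm_nonneg U]

theorem norm_Wd_le (n : ℕ) (L : List Ent) (x : XX) : ‖P.Wd n L x‖ ≤ 1 :=
  norm_le_one_of (P.star_Wd_mul n L x)

theorem norm_conj_le {A B : Op} (hA : ‖A‖ ≤ 1) : ‖A * B * star A‖ ≤ ‖B‖ := by
  calc ‖A * B * star A‖ ≤ ‖A * B‖ * ‖star A‖ := norm_mul_le _ _
    _ ≤ (‖A‖ * ‖B‖) * ‖star A‖ := by gcongr; exact norm_mul_le _ _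
    _ ≤ (1 * ‖B‖) * 1 := by gcongr; rw [norm_star]; exact hA
    _ = ‖B‖ := by ring

theorem norm_UW_le {U : Op} (hU : ‖U‖ ≤ 1) (n : ℕ) (L : List Ent) (x : XX) :
    ‖U * P.Wd n L x‖ ≤ 1 :=
  (norm_mul_le _ _).trans (mul_le_one₀ hU (norm_nonneg _) (P.norm_Wd_le n L x))

theorem norm_cmp_le (th : Bool → Bool) (η : Ent) (L : List Ent) {U : Op} (hU : ‖U‖ ≤ 1) (τ : I)
    (n : ℕ) (g : II) (x : XX) : ‖P.cmp th η L U τ n g x‖ ≤ ‖g.at' τ‖ :=
  (norm_conj_le (P.norm_UW_le hU n L x)).trans (BB.norm_fn_le _ _)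

theorem isF_cmp (th : Bool → Bool) (η : Ent) (L : List Ent) (U : Op) (τ : I)
    (n : ℕ) (g : II) : IsF (P.cmp th η L U τ n g) := by
  have h1 : IsF fun x => (g.at' τ).fn (P.xi th η n x) :=
    (g.at' τ).isF.pull (P.injSrc_xsrc th η n) _
  have h2 : SCont fun x => U * P.Wd n L x := (SCont.const U).mul (P.scont_Wd n L)
  refine ⟨(h2.mul h1.sc).mul h2.star, fun c z x => ?_⟩
  unfold cmp
  have h3 := h1.inv c z x
  beta_reduce at h3
  rw [h3, Wd_rot, mul_smul_comm, smul_mul_assoc, star_smul, smul_mul_smul_comm]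
  rw [circle_pow_mul_star, one_smul]

theorem scont_stG (G : Fam) (th : Bool → Bool) (η : Ent) (L : List Ent) {U : Op} (hU : ‖U‖ ≤ 1)
    (τ : ℕ → I) (g : II) : SCont fun x => G.dsum fun n => P.cmp th η L U (τ n) n g x :=
  SCont.dsumG G (fun n => (P.isF_cmp th η L U (τ n) n g).sc) ⟨‖g‖, fun n x =>
    (P.norm_cmp_le th η L hU _ n g x).trans (g.norm_at'_le _)⟩

theorem isF_stG (G : Fam) (th : Bool → Bool) (η : Ent) (L : List Ent) {U : Op} (hU : ‖U‖ ≤ 1)
    (τ : ℕ → I) (g : II) : IsF fun x => G.dsum fun n => P.cmp th η L U (τ n) n g x :=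
  ⟨P.scont_stG G th η L hU τ g, fun c z x => by
    congr 1; funext n; exact (P.isF_cmp th η L U (τ n) n g).inv c z x⟩

theorem ub_cmp (th : Bool → Bool) (η : Ent) (L : List Ent) {U : Op} (hU : ‖U‖ ≤ 1)
    (τ : ℕ → I) (g : II) (x : XX) : UB fun n => P.cmp th η L U (τ n) n g x :=
  ⟨‖g‖, fun n => (P.norm_cmp_le th η L hU _ n g x).trans (g.norm_at'_le _)⟩

/-- the direct sum of the components, as a homomorphism -/
noncomputable def stG (G : Fam) (th : Bool → Bool) (η : Ent) (L : List Ent) (U : Op) (hU : star U * U = 1)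
    (τ : ℕ → I) : II →⋆ₙₐ[ℂ] BB where
  toFun g := BB.mk (fun x => G.dsum fun n => P.cmp th η L U (τ n) n g x)
    (P.isF_stG G th η L (norm_le_one_of hU) τ g)
  map_smul' c g := by
    ext x : 1
    rw [MonoidHom.id_apply, BB.fn_smul, BB.fn_mk, BB.fn_mk,
      G.dsum_smul (P.ub_cmp th η L (norm_le_one_of hU) τ g x)]
    congr 1; funext n
    simp [cmp]
  map_zero' := by
    ext x : 1
    rw [BB.fn_mk, BB.fn_zero]
    rw [← G.dsum_zero]
    congr 1; funext n
    simp [cmp]
  map_add' f g := by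
    ext x : 1
    rw [BB.fn_add, BB.fn_mk, BB.fn_mk, BB.fn_mk,
      G.dsum_add (P.ub_cmp th η L (norm_le_one_of hU) τ f x)
        (P.ub_cmp th η L (norm_le_one_of hU) τ g x)]
    congr 1; funext n
    simp only [cmp, II.at'_add, BB.fn_add]
    noncomm_ring
  map_mul' f g := by
    ext x : 1
    rw [BB.fn_mul, BB.fn_mk, BB.fn_mk, BB.fn_mk,
      G.dsum_mul (P.ub_cmp th η L (norm_le_one_of hU) τ f x)
        (P.ub_cmp th η L (norm_le_one_of hU) τ g x)]
    congr 1; funext n
    simp only [cmp, II.at'_mul, BB.fn_mul]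
    have h : star (U * P.Wd n L x) * (U * P.Wd n L x) = 1 := by
      rw [star_mul, mul_assoc, ← mul_assoc (star U), hU, one_mul, star_Wd_mul]
    calc _ = U * P.Wd n L x * (f.at' (τ n)).fn (P.xi th η n x) * 1 *
          (g.at' (τ n)).fn (P.xi th η n x) * star (U * P.Wd n L x) := by noncomm_ring
      _ = _ := by rw [← h]; noncomm_ring
  map_star' g := by
    ext x : 1
    rw [BB.fn_star, BB.fn_mk, BB.fn_mk,
      G.dsum_star (P.ub_cmp th η L (norm_le_one_of hU) τ g x)]
    congr 1; funext n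
    simp [cmp, mul_assoc]

theorem fn_stG (G : Fam) (th : Bool → Bool) (η : Ent) (L : List Ent) (U : Op) (hU : star U * U = 1)
    (τ : ℕ → I) (g : II) (x : XX) :
    (P.stG G th η L U hU τ g).fn x = G.dsum fun n => P.cmp th η L U (τ n) n g x := rfl

/-! ### norm estimates -/

theorem norm_stG_sub_le (G : Fam) (th : Bool → Bool) (η : Ent) (L : List Ent) (U : Op) (hU : star U * U = 1)
    (τ τ' : ℕ → I) (g : II) {ε : ℝ} (hε : 0 ≤ ε) (h : ∀ n, ‖g.at' (τ n) - g.at' (τ' n)‖ ≤ ε) :
    ‖P.stG G th η L U hU τ g - P.stG G th η L U hU τ' g‖ ≤ ε := by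
  apply BB.norm_le hε
  intro x
  rw [BB.fn_sub, fn_stG, fn_stG, G.dsum_sub (P.ub_cmp th η L (norm_le_one_of hU) τ g x)
    (P.ub_cmp th η L (norm_le_one_of hU) τ' g x)]
  apply G.norm_dsum_le hε
  intro n
  have h1 : P.cmp th η L U (τ n) n g x - P.cmp th η L U (τ' n) n g x =
      (U * P.Wd n L x) * (g.at' (τ n) - g.at' (τ' n)).fn (P.xi th η n x) *
        star (U * P.Wd n L x) := by
    simp only [cmp, BB.fn_sub]; noncomm_ring
  rw [h1]
  exact (norm_conj_le (P.norm_UW_le (norm_le_one_of hU) n L x)).trans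
    ((BB.norm_fn_le _ _).trans (h n))

theorem norm_stG_sub_le' (G : Fam) (th : Bool → Bool) (η : Ent) (L : List Ent) (U U' : Op)
    (hU : star U * U = 1) (hU' : star U' * U' = 1) (τ : ℕ → I) (g : II) :
    ‖P.stG G th η L U hU τ g - P.stG G th η L U' hU' τ g‖ ≤ 2 * ‖U - U'‖ * ‖g‖ := by
  have hε : 0 ≤ 2 * ‖U - U'‖ * ‖g‖ := by positivity
  apply BB.norm_le hε
  intro x
  rw [BB.fn_sub, fn_stG, fn_stG, G.dsum_sub (P.ub_cmp th η L (norm_le_one_of hU) τ g x)
    (P.ub_cmp th η L (norm_le_one_of hU') τ g x)]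
  apply G.norm_dsum_le hε
  intro n
  set W := P.Wd n L x with hW
  set G := (g.at' (τ n)).fn (P.xi th η n x) with hG
  have hG1 : ‖G‖ ≤ ‖g‖ := (BB.norm_fn_le _ _).trans (g.norm_at'_le _)
  have hW1 : ‖W‖ ≤ 1 := P.norm_Wd_le n L x
  have h1 : P.cmp th η L U (τ n) n g x - P.cmp th η L U' (τ n) n g x =
      ((U - U') * W) * G * star (U * W) + (U' * W) * G * star ((U - U') * W) := by
    simp only [cmp, ← hW, ← hG, sub_mul, star_sub, mul_sub, star_mul]; noncomm_ring
  have h2 : ‖(U - U') * W‖ ≤ ‖U - U'‖ := by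
    calc ‖(U - U') * W‖ ≤ ‖U - U'‖ * ‖W‖ := norm_mul_le _ _
      _ ≤ ‖U - U'‖ * 1 := by gcongr
      _ = ‖U - U'‖ := mul_one _
  have h3 : ‖star (U * W)‖ ≤ 1 := by
    rw [norm_star]; exact P.norm_UW_le (norm_le_one_of hU) n L x
  have h4 : ‖U' * W‖ ≤ 1 := P.norm_UW_le (norm_le_one_of hU') n L x
  rw [h1]
  calc _ ≤ ‖((U - U') * W) * G * star (U * W)‖ + ‖(U' * W) * G * star ((U - U') * W)‖ :=
        norm_add_le _ _
    _ ≤ ‖(U - U') * W‖ * ‖G‖ * ‖star (U * W)‖ + ‖U' * W‖ * ‖G‖ * ‖star ((U - U') * W)‖ := by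
        gcongr
        · exact (norm_mul_le _ _).trans (by gcongr; exact norm_mul_le _ _)
        · exact (norm_mul_le _ _).trans (by gcongr; exact norm_mul_le _ _)
    _ ≤ ‖U - U'‖ * ‖g‖ * 1 + 1 * ‖g‖ * ‖U - U'‖ := by
        gcongr
        rw [norm_star]; exact h2
    _ = _ := by ring

/-- the direct sum along the family `S` -/
noncomputable def st (th : Bool → Bool) (η : Ent) (L : List Ent) (U : Op) (hU : star U * U = 1)
    (τ : ℕ → I) : II →⋆ₙₐ[ℂ] BB := P.stG famB th η L U hU τ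

theorem fn_st (th : Bool → Bool) (η : Ent) (L : List Ent) (U : Op) (hU : star U * U = 1)
    (τ : ℕ → I) (g : II) (x : XX) :
    (P.st th η L U hU τ g).fn x = dsum fun n => P.cmp th η L U (τ n) n g x := rfl

theorem norm_st_sub_le (th : Bool → Bool) (η : Ent) (L : List Ent) (U : Op) (hU : star U * U = 1)
    (τ τ' : ℕ → I) (g : II) {ε : ℝ} (hε : 0 ≤ ε) (h : ∀ n, ‖g.at' (τ n) - g.at' (τ' n)‖ ≤ ε) :
    ‖P.st th η L U hU τ g - P.st th η L U hU τ' g‖ ≤ ε :=
  P.norm_stG_sub_le famB th η L U hU τ τ' g hε h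

theorem norm_st_sub_le' (th : Bool → Bool) (η : Ent) (L : List Ent) (U U' : Op)
    (hU : star U * U = 1) (hU' : star U' * U' = 1) (τ : ℕ → I) (g : II) :
    ‖P.st th η L U hU τ g - P.st th η L U' hU' τ g‖ ≤ 2 * ‖U - U'‖ * ‖g‖ :=
  P.norm_stG_sub_le' famB th η L U U' hU hU' τ g

/-- the direct sum along the family `S'` -/
noncomputable def st' (th : Bool → Bool) (η : Ent) (L : List Ent) (U : Op) (hU : star U * U = 1)
    (τ : ℕ → I) : II →⋆ₙₐ[ℂ] BB := P.stG famA th η L U hU τ

theorem fn_st' (th : Bool → Bool) (η : Ent) (L : List Ent) (U : Op) (hU : star U * U = 1)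
    (τ : ℕ → I) (g : II) (x : XX) :
    (P.st' th η L U hU τ g).fn x = dsum' fun n => P.cmp th η L U (τ n) n g x := rfl

end Par

end Pool.Agent.Lib.Eln
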