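import Pool.Agent.Lib.Eln.FP
import Pool.Agent.Lib.Eln.NucDefs

set_option autoImplicit false

/-!
The blocks of the binary tree: definitions and first properties.

The block with base vertex u (`some u`) consists of the vertices α ++ u, |α| < k, with the constant
weight 1/√k; the special block `none` consists of the vertices α, |α| < k, with the weight
√((k-1-|α|)/k).  Every vertex v satisfies ∑_{(a, α) : α ++ bse a = v} (wt k a α)² = 1.
-/

open scoped InnerProductSpace

namespace Pool.Agent.Lib.Eln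

/-- words of length less than `k` -/
abbrev Wk (k : ℕ) : Type := {v : Tr // v.length < k}

noncomputable instance (k : ℕ) : Fintype (Wk k) := (List.finite_length_lt Bool k).fintype

/-- the Hilbert space of a block -/
abbrev EW (k : ℕ) : Type := EuclideanSpace ℂ (Wk k)

/-- the base vertex of a block -/
def bse (a : Option Tr) : Tr := a.getD []

@[simp] theorem bse_none : bse none = [] := rfl
@[simp] theorem bse_some (u : Tr) : bse (some u) = u := rfl

/-- the weights -/
noncomputable def wt (k : ℕ) (a : Option Tr) (α : Wk k) : ℝ :=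
  match a with
  | none => √(((k : ℝ) - 1 - α.1.length) / k)
  | some _ => √(1 / k)

/-- the inclusion of a block -/
noncomputable def rhoB (k : ℕ) (a : Option Tr) : EW k →L[ℂ] Hb :=
  ∑ α, (EuclideanSpace.proj α : EW k →L[ℂ] ℂ).smulRight (eb (α.1 ++ bse a))

/-- the weighted inclusion of a block -/
noncomputable def RB (k : ℕ) (a : Option Tr) : EW k →L[ℂ] Hb :=
  ∑ α, (wt k a α : ℂ) • (EuclideanSpace.proj α : EW k →L[ℂ] ℂ).smulRight (eb (α.1 ++ bse a))

theorem rhoB_apply (k : ℕ) (a : Option Tr) (ξ : EW k) :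
    rhoB k a ξ = ∑ α, ξ α • eb (α.1 ++ bse a) := by
  rw [rhoB, sum_apply]
  rfl

theorem RB_apply (k : ℕ) (a : Option Tr) (ξ : EW k) :
    RB k a ξ = ∑ α, ((wt k a α : ℂ) * ξ α) • eb (α.1 ++ bse a) := by
  rw [RB, sum_apply]
  refine Finset.sum_congr rfl fun α _ => ?_
  change (wt k a α : ℂ) • (ξ α • eb (α.1 ++ bse a)) = _
  rw [smul_smul]

theorem adjoint_rhoB_apply (k : ℕ) (a : Option Tr) (f : Hb) (α : Wk k) :
    ContinuousLinearMap.adjoint (rhoB k a) f α = ⟪eb (α.1 ++ bse a), f⟫_ℂ := by
  classical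
  have h1 : ContinuousLinearMap.adjoint (rhoB k a) f α =
      ⟪EuclideanSpace.single α (1 : ℂ), ContinuousLinearMap.adjoint (rhoB k a) f⟫_ℂ := by
    rw [EuclideanSpace.inner_single_left]; simp
  rw [h1, ContinuousLinearMap.adjoint_inner_right, rhoB_apply]
  congr 1
  rw [Finset.sum_eq_single α]
  · simp
  · intro β _ h; simp [h]
  · intro h; exact absurd (Finset.mem_univ _) h

theorem adjoint_RB_apply (k : ℕ) (a : Option Tr) (f : Hb) (α : Wk k) :
    ContinuousLinearMap.adjoint (RB k a) f α = (wt k a α : ℂ) * ⟪eb (α.1 ++ bse a), f⟫_ℂ := by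
  classical
  have h1 : ContinuousLinearMap.adjoint (RB k a) f α =
      ⟪EuclideanSpace.single α (1 : ℂ), ContinuousLinearMap.adjoint (RB k a) f⟫_ℂ := by
    rw [EuclideanSpace.inner_single_left]; simp
  rw [h1, ContinuousLinearMap.adjoint_inner_right, RB_apply]
  have h2 : ∑ β, ((wt k a β : ℂ) * EuclideanSpace.single α (1 : ℂ) β) • eb (β.1 ++ bse a) =
      (wt k a α : ℂ) • eb (α.1 ++ bse a) := by
    rw [Finset.sum_eq_single α]
    · simp
    · intro β _ h; simp [h]
    · intro h; exact absurd (Finset.mem_univ _) h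
  rw [h2, inner_smul_left, Complex.conj_ofReal]

/-- the compression of an operator to a block -/
noncomputable def cpr (k : ℕ) (a : Option Tr) (A : Op) : MatC (Wk k) :=
  (ContinuousLinearMap.adjoint (rhoB k a)).comp (A.comp (rhoB k a))

theorem cpr_add (k : ℕ) (a : Option Tr) (A B : Op) : cpr k a (A + B) = cpr k a A + cpr k a B := by
  ext1 ξ
  change ContinuousLinearMap.adjoint (rhoB k a) (A (rhoB k a ξ) + B (rhoB k a ξ)) = _
  rw [map_add]; rfl

theorem cpr_smul (k : ℕ) (a : Option Tr) (c : ℂ) (A : Op) : cpr k a (c • A) = c • cpr k a A := by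
  ext1 ξ
  change ContinuousLinearMap.adjoint (rhoB k a) (c • A (rhoB k a ξ)) = _
  rw [map_smul]; rfl

/-- bounded families -/
def BM {k : ℕ} (m : Option Tr → MatC (Wk k)) : Prop := ∃ C, ∀ a, ‖m a‖ ≤ C

end Pool.Agent.Lib.Eln
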