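import Pool.Agent.Lib.Eln.SynDefs

set_option autoImplicit false

/-!
MODULE Eln.SynEx (uses SynDefs, Hilb).

`exists_synOp`: for a bounded family m_a of operators of the blocks (a : Option Tr) there is an operator
T = ∑_a R_a m_a R_a^† of Hb (R_a = RB k a), of norm ≤ sup ‖m_a‖.

PROOF.
(1) `hasSum_RB`: ∑_a ‖R_a^† f‖² = ‖f‖².  By `adjoint_RB_apply`, ‖R_a^† f‖² = ∑_α (wt k a α)² |f_(α ++ bse a)|²
  with f_v = ⟪eb v, f⟫; ‖f‖² = ∑_v |f_v|² (Parseval: `bas`, HilbertBasis.hasSum_..., or norm of lp).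
  The map (a, α) ↦ α ++ bse a has finite fibres over v: the pairs (some u, α) with v = α ++ u, |α| < k
  (one for each suffix u of v with |v| - |u| < k: there are min k (|v|+1) of them), each of squared
  weight 1/k, and (none, v) of squared weight (k-1-|v|)/k if |v| < k.  In total 1.
  For the interchange of sums work with ENNReal / NNReal sums or `HasSum.sigma`, `Summable.prod`
  (nonnegative terms); e.g. ∑'_(a,α) wt² |f_(α++bse a)|² = ∑'_v ∑'_{fibre} wt² |f_v|² via
  `tsum_fiberwise` / `HasSum.tsum_fiberwise`, `Equiv.sigmaFiberEquiv`.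
  (Convenient: the fibre sum as a finite sum: for v the pairs (some (v.drop j), v.take j),
  j < k, j ≤ |v|.)
(2) For bounded m: |⟪R_a^† f, m_a R_a^† g⟫| ≤ C ‖R_a^† f‖ ‖R_a^† g‖, so the series ∑_a converges absolutely and
  is bounded by C ‖f‖ ‖g‖ (Cauchy-Schwarz: `Real.inner_le_Lp_mul_Lq_tsum_of_nonneg'` or
  2xy ≤ x² + y² and homogeneity).  The sesquilinear form f, g ↦ ∑'_a ⟪R_a^† f, m_a R_a^† g⟫ is thus given by a
  bounded operator T (Riesz: e.g. `InnerProductSpace.toDual`, `LinearMap.mkContinuous₂` and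
  `InnerProductSpace.continuousLinearMapOfBilin`, which turns a bounded sesquilinear
  form B into an operator with ⟪B♯ v, w⟫ = B v w).
Alternative to (2): the isometry J : Hb → lp (fun _ : Option Tr => EW k) 2, J f = (R_a^† f)_a, the
diagonal operator D_m on this lp space and T = J^† D_m J.
-/

open scoped InnerProductSpace

namespace Pool.Agent.Lib.Eln

namespace SynExAux

open scoped ENNReal

theorem hasSum_iff_enn {ι : Type*} {g : ι → ℝ} (hg : ∀ i, 0 ≤ g i) {c : ℝ} (hc : 0 ≤ c) :
    HasSum g c ↔ ∑' i, ENNReal.ofReal (g i) = ENNReal.ofReal c := by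
  constructor
  · intro h
    rw [← ENNReal.ofReal_tsum_of_nonneg hg h.summable, h.tsum_eq]
  · intro h
    have h1 : ∑' i, ENNReal.ofReal (g i) ≠ ∞ := by rw [h]; exact ENNReal.ofReal_ne_top
    have h2 := ENNReal.hasSum_toReal h1
    rw [← ENNReal.tsum_toReal_eq fun i => ENNReal.ofReal_ne_top, h, ENNReal.toReal_ofReal hc] at h2
    have h3 : (fun i => (ENNReal.ofReal (g i)).toReal) = g := by
      funext i; exact ENNReal.toReal_ofReal (hg i)
    rwa [h3] at h2

open Classical in
/-- the squared weight of a vertex in a block -/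
noncomputable def w2 (k : ℕ) (a : Option Tr) (v : Tr) : ℝ :=
  ∑ α : Wk k, if α.1 ++ bse a = v then (wt k a α) ^ 2 else 0

theorem w2_nonneg (k : ℕ) (a : Option Tr) (v : Tr) : 0 ≤ w2 k a v := by
  classical
  refine Finset.sum_nonneg fun α _ => ?_
  split_ifs
  · positivity
  · exact le_rfl

theorem w2_eq (k : ℕ) (a : Option Tr) (α : Wk k) : w2 k a (α.1 ++ bse a) = wt k a α ^ 2 := by
  classical
  rw [w2, Finset.sum_eq_single α]
  · rw [if_pos rfl]
  · intro β _ h
    rw [if_neg]
    intro h'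
    exact h (Subtype.ext (List.append_cancel_right h'))
  · intro h; exact absurd (Finset.mem_univ _) h

theorem w2_eq_zero {k : ℕ} {a : Option Tr} {v : Tr} (h : ∀ α : Wk k, α.1 ++ bse a ≠ v) :
    w2 k a v = 0 := by
  classical
  exact Finset.sum_eq_zero fun α _ => if_neg (h α)

/-- for a block the sum over the vertices of the block -/
theorem tsum_w2 (k : ℕ) (a : Option Tr) (F : Tr → ℝ≥0∞) :
    ∑' v, ENNReal.ofReal (w2 k a v) * F v =
      ∑ α : Wk k, ENNReal.ofReal (wt k a α ^ 2) * F (α.1 ++ bse a) := by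
  classical
  have hinj : Function.Injective fun α : Wk k => α.1 ++ bse a := fun α β h =>
    Subtype.ext (List.append_cancel_right h)
  have h1 := hinj.tsum_eq (f := fun v => ENNReal.ofReal (w2 k a v) * F v) (by
    intro v hv
    by_contra hn
    apply hv
    change ENNReal.ofReal (w2 k a v) * F v = 0
    rw [w2_eq_zero fun α h => hn ⟨α, h⟩, ENNReal.ofReal_zero, zero_mul])
  rw [← h1, tsum_fintype]
  exact Finset.sum_congr rfl fun α _ => by rw [w2_eq]

theorem hasSum_w2 {k : ℕ} (hk : 0 < k) (v : Tr) : HasSum (fun a => w2 k a v) 1 := by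
  classical
  have hk' : (0 : ℝ) < k := by exact_mod_cast hk
  set N := min (v.length + 1) k with hN
  let S : Finset (Option Tr) := (Finset.range N).image fun j => some (v.drop j)
  have hinj : Set.InjOn (fun j => some (v.drop j)) (Finset.range N : Set ℕ) := by
    intro i hi j hj hij
    have hi' : i < N := Finset.mem_range.1 (Finset.mem_coe.1 hi)
    have hj' : j < N := Finset.mem_range.1 (Finset.mem_coe.1 hj)
    have := congrArg List.length (Option.some.inj hij)
    rw [List.length_drop, List.length_drop] at this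
    omega
  have hterm : ∀ j ∈ Finset.range N, w2 k (some (v.drop j)) v = 1 / k := by
    intro j hj
    have hj' : j < N := Finset.mem_range.1 hj
    have l1 : (v.take j).length < k := by
      rw [List.length_take]; omega
    have h := w2_eq k (some (v.drop j)) ⟨v.take j, l1⟩
    change w2 k (some (v.drop j)) (v.take j ++ v.drop j) = _ at h
    rw [List.take_append_drop] at h
    rw [h]
    change √(1 / (k : ℝ)) ^ 2 = _
    rw [Real.sq_sqrt (by positivity)]
  have hsum : ∑ a ∈ S, w2 k a v = N / k := by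
    rw [Finset.sum_image hinj, Finset.sum_congr rfl hterm, Finset.sum_const, Finset.card_range,
      nsmul_eq_mul]
    ring
  have hnone : none ∉ S := by simp [S]
  have hval : ∑ a ∈ insert none S, w2 k a v = 1 := by
    rw [Finset.sum_insert hnone, hsum]
    by_cases hv : v.length < k
    · have h := w2_eq k none ⟨v, hv⟩
      change w2 k none (v ++ []) = _ at h
      rw [List.append_nil] at h
      rw [h]
      change √(((k : ℝ) - 1 - v.length) / k) ^ 2 + _ = _
      have h3 : (0 : ℝ) ≤ (k : ℝ) - 1 - v.length := by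
        have : ((v.length + 1 : ℕ) : ℝ) ≤ k := by exact_mod_cast hv
        push_cast at this
        linarith
      rw [Real.sq_sqrt (by positivity)]
      have hN' : N = v.length + 1 := by omega
      rw [hN', ← add_div]
      push_cast
      rw [div_eq_one_iff_eq hk'.ne']
      ring
    · have hN' : N = k := by omega
      rw [w2_eq_zero, hN', zero_add, div_self hk'.ne']
      intro α h
      change α.1 ++ [] = v at h
      rw [List.append_nil] at h
      exact hv (h ▸ α.2)
  rw [← hval]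
  apply hasSum_sum_of_ne_finset_zero
  intro a ha
  apply w2_eq_zero
  intro α h
  apply ha
  rcases a with _ | u
  · exact Finset.mem_insert_self _ _
  · refine Finset.mem_insert_of_mem (Finset.mem_image.2 ⟨α.1.length, ?_, ?_⟩)
    · rw [Finset.mem_range]
      have h1 := α.2
      have h2 := congrArg List.length h
      rw [List.length_append] at h2
      omega
    · rw [← h]
      simp

theorem hasSum_coef (f : Hb) : HasSum (fun v => ‖⟪eb v, f⟫_ℂ‖ ^ 2) (‖f‖ ^ 2) := by
  have h := lp.hasSum_norm (p := 2) (by norm_num) f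
  have h2 : (fun v => ‖⟪eb v, f⟫_ℂ‖ ^ 2) = fun v => ‖f v‖ ^ (2 : ℝ≥0∞).toReal := by
    funext v
    have h3 : ⟪eb v, f⟫_ℂ = f v := (bas.repr_apply_apply f v).symm
    rw [h3]
    simp
  rw [h2]
  simpa using h

end SynExAux

open SynExAux

theorem hasSum_RB {k : ℕ} (hk : 0 < k) (f : Hb) :
    HasSum (fun a => ‖ContinuousLinearMap.adjoint (RB k a) f‖ ^ 2) (‖f‖ ^ 2) := by
  rw [hasSum_iff_enn (fun a => by positivity) (by positivity)]
  have h1 : ∀ a, ENNReal.ofReal (‖ContinuousLinearMap.adjoint (RB k a) f‖ ^ 2) =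
      ∑' v, ENNReal.ofReal (w2 k a v) * ENNReal.ofReal (‖⟪eb v, f⟫_ℂ‖ ^ 2) := by
    intro a
    rw [tsum_w2, EuclideanSpace.norm_sq_eq,
      ENNReal.ofReal_sum_of_nonneg fun α _ => by positivity]
    refine Finset.sum_congr rfl fun α _ => ?_
    rw [← ENNReal.ofReal_mul (by positivity), adjoint_RB_apply, norm_mul, mul_pow,
      Complex.norm_real, Real.norm_eq_abs, sq_abs]
  simp only [h1]
  rw [ENNReal.tsum_comm]
  have h2 : ∀ v, ∑' a, ENNReal.ofReal (w2 k a v) * ENNReal.ofReal (‖⟪eb v, f⟫_ℂ‖ ^ 2) =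
      ENNReal.ofReal (‖⟪eb v, f⟫_ℂ‖ ^ 2) := by
    intro v
    rw [ENNReal.tsum_mul_right,
      (hasSum_iff_enn (fun a => w2_nonneg k a v) zero_le_one).1 (hasSum_w2 hk v),
      ENNReal.ofReal_one, one_mul]
  simp only [h2]
  exact (hasSum_iff_enn (fun v => by positivity) (by positivity)).1 (hasSum_coef f)

namespace SynExAux

variable {k : ℕ}

theorem term_bound {m : Option Tr → MatC (Wk k)} {C : ℝ} (hC : 0 ≤ C) (hm : ∀ a, ‖m a‖ ≤ C)
    (f g : Hb) (a : Option Tr) :
    ‖⟪ContinuousLinearMap.adjoint (RB k a) f, m a (ContinuousLinearMap.adjoint (RB k a) g)⟫_ℂ‖ ≤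
      C * (‖ContinuousLinearMap.adjoint (RB k a) f‖ *
        ‖ContinuousLinearMap.adjoint (RB k a) g‖) := by
  calc _ ≤ ‖ContinuousLinearMap.adjoint (RB k a) f‖ *
        ‖m a (ContinuousLinearMap.adjoint (RB k a) g)‖ := norm_inner_le_norm _ _
    _ ≤ ‖ContinuousLinearMap.adjoint (RB k a) f‖ *
        (C * ‖ContinuousLinearMap.adjoint (RB k a) g‖) := by
        gcongr
        exact (m a).le_of_opNorm_le (hm a) _
    _ = _ := by ring

theorem exists_cs (hk : 0 < k) (f g : Hb) : ∃ c : ℝ, 0 ≤ c ∧ c ≤ ‖f‖ * ‖g‖ ∧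
    HasSum (fun a => ‖ContinuousLinearMap.adjoint (RB k a) f‖ *
        ‖ContinuousLinearMap.adjoint (RB k a) g‖) c := by
  refine Real.inner_le_Lp_mul_Lq_hasSum_of_nonneg (p := 2) (q := 2) Real.HolderConjugate.two_two
    (norm_nonneg _) (norm_nonneg _) (fun _ => norm_nonneg _) (fun _ => norm_nonneg _) ?_ ?_
  · simpa using hasSum_RB hk f
  · simpa using hasSum_RB hk g

theorem summable_form (hk : 0 < k) {m : Option Tr → MatC (Wk k)} {C : ℝ} (hC : 0 ≤ C)
    (hm : ∀ a, ‖m a‖ ≤ C) (f g : Hb) :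
    Summable fun a => ⟪ContinuousLinearMap.adjoint (RB k a) f,
      m a (ContinuousLinearMap.adjoint (RB k a) g)⟫_ℂ := by
  obtain ⟨c, _, _, hc⟩ := exists_cs hk f g
  exact Summable.of_norm_bounded (hc.summable.mul_left C) (term_bound hC hm f g)

theorem norm_form_le (hk : 0 < k) {m : Option Tr → MatC (Wk k)} {C : ℝ} (hC : 0 ≤ C)
    (hm : ∀ a, ‖m a‖ ≤ C) (f g : Hb) :
    ‖∑' a, ⟪ContinuousLinearMap.adjoint (RB k a) f,
      m a (ContinuousLinearMap.adjoint (RB k a) g)⟫_ℂ‖ ≤ C * ‖f‖ * ‖g‖ := by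
  obtain ⟨c, _, hc', hc⟩ := exists_cs hk f g
  refine (tsum_of_norm_bounded (hc.mul_left C) (term_bound hC hm f g)).trans ?_
  rw [mul_assoc]
  exact mul_le_mul_of_nonneg_left hc' hC

end SynExAux

theorem exists_synOp {k : ℕ} (hk : 0 < k) (m : Option Tr → MatC (Wk k)) {C : ℝ} (hC : 0 ≤ C)
    (hm : ∀ a, ‖m a‖ ≤ C) : ∃ T : Op, ‖T‖ ≤ C ∧ ∀ f g : Hb,
      HasSum (fun a => ⟪ContinuousLinearMap.adjoint (RB k a) f,
        m a (ContinuousLinearMap.adjoint (RB k a) g)⟫_ℂ) ⟪f, T g⟫_ℂ := by
  let B0 : Hb →ₗ⋆[ℂ] Hb →ₗ[ℂ] ℂ := LinearMap.mk₂'ₛₗ (starRingEnd ℂ) (RingHom.id ℂ)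
    (fun f g => ∑' a, ⟪ContinuousLinearMap.adjoint (RB k a) f,
      m a (ContinuousLinearMap.adjoint (RB k a) g)⟫_ℂ)
    (fun f f' g => by
      rw [← (summable_form hk hC hm f g).tsum_add (summable_form hk hC hm f' g)]
      exact tsum_congr fun a => by rw [map_add, inner_add_left])
    (fun c f g => by
      rw [smul_eq_mul, ← tsum_mul_left]
      exact tsum_congr fun a => by rw [map_smul, inner_smul_left])
    (fun f g g' => by
      rw [← (summable_form hk hC hm f g).tsum_add (summable_form hk hC hm f g')]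
      exact tsum_congr fun a => by rw [map_add, map_add, inner_add_right])
    (fun c f g => by
      rw [RingHom.id_apply, smul_eq_mul, ← tsum_mul_left]
      exact tsum_congr fun a => by rw [map_smul, map_smul, inner_smul_right])
  let B : Hb →L⋆[ℂ] Hb →L[ℂ] ℂ := LinearMap.mkContinuous₂ B0 C (norm_form_le hk hC hm)
  refine ⟨ContinuousLinearMap.adjoint (InnerProductSpace.continuousLinearMapOfBilin B), ?_, ?_⟩
  · rw [LinearIsometryEquiv.norm_map]
    refine ContinuousLinearMap.opNorm_le_bound _ hC fun f => ?_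
    set x := InnerProductSpace.continuousLinearMapOfBilin B f with hx
    have h1 : ⟪x, x⟫_ℂ = B f x := InnerProductSpace.continuousLinearMapOfBilin_apply B f x
    have h2 : ‖B f x‖ ≤ C * ‖f‖ * ‖x‖ := norm_form_le hk hC hm f x
    have h3 : ‖⟪x, x⟫_ℂ‖ = ‖x‖ ^ 2 := by
      rw [inner_self_eq_norm_sq_to_K]
      simp
    rw [← h1, h3] at h2
    rcases eq_or_lt_of_le (norm_nonneg x) with h0 | h0
    · rw [← h0]; positivity
    · nlinarith
  · intro f g
    rw [ContinuousLinearMap.adjoint_inner_right,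
      InnerProductSpace.continuousLinearMapOfBilin_apply]
    exact (summable_form hk hC hm f g).hasSum

end Pool.Agent.Lib.Eln
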