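import Pool.Agent.Lib.Eln.Phi

set_option autoImplicit false

/-!
`Wit N g`: there is an open set of points, depending on at most `N` of the ordinary coordinates
(and on the time and the special coordinate), on which `‖g(t)(x) e_v‖` is bounded below.
(Adapted from Ell/Wit.lean.)
-/

open scoped InnerProductSpace BoundedContinuousFunction unitInterval

namespace Pool.Agent.Lib.Eln

open Pool.Agent.Lib.P81d4f5 (S3)

/-- a witness that `g` is not zero, depending on few coordinates -/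
def Wit (N : ℕ) (g : II) : Prop :=
  ∃ (F : Finset (Bool × ℕ)) (v : Tr) (δ : ℝ) (O : Set (I × XX)), F.card ≤ N ∧ 0 < δ ∧ IsOpen O ∧
    O.Nonempty ∧
    (∀ p p' : I × XX, p ∈ O → p'.1 = p.1 → (∀ κ ∈ F, p'.2 (some κ) = p.2 (some κ)) →
      p'.2 none = p.2 none → p' ∈ O) ∧
    ∀ p ∈ O, δ ≤ ‖(g.at' p.1).fn p.2 (eb v)‖

theorem continuous_joint (g : II) (v : Hb) :
    Continuous fun p : I × XX => (g.at' p.1).fn p.2 v := by
  rw [continuous_iff_continuousAt]
  rintro ⟨t₀, x₀⟩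
  have h1 : Filter.Tendsto (fun p : I × XX => (g.at' t₀).fn p.2 v) (nhds (t₀, x₀))
      (nhds ((g.at' t₀).fn x₀ v)) :=
    (((g.at' t₀).scont.cont v).comp continuous_snd).continuousAt (x := (t₀, x₀))
  have h2 : Filter.Tendsto (fun p : I × XX => (g.at' p.1).fn p.2 v - (g.at' t₀).fn p.2 v)
      (nhds (t₀, x₀)) (nhds 0) := by
    rw [tendsto_zero_iff_norm_tendsto_zero]
    have h3 : Filter.Tendsto (fun p : I × XX => ‖g.at' p.1 - g.at' t₀‖ * ‖v‖)
        (nhds (t₀, x₀)) (nhds 0) := by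
      have h4 : Filter.Tendsto (fun p : I × XX => ‖g.at' p.1 - g.at' t₀‖)
          (nhds (t₀, x₀)) (nhds 0) :=
        tendsto_iff_norm_sub_tendsto_zero.1
          ((g.continuous_at'.comp continuous_fst).continuousAt (x := (t₀, x₀)))
      simpa using h4.mul_const ‖v‖
    refine squeeze_zero (fun _ => norm_nonneg _) (fun p => ?_) h3
    have h5 : (g.at' p.1).fn p.2 v - (g.at' t₀).fn p.2 v = (g.at' p.1 - g.at' t₀).fn p.2 v := rfl
    rw [h5]
    exact ((g.at' p.1 - g.at' t₀).fn p.2).le_of_opNorm_le (BB.norm_fn_le _ _) _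
  have h5 := h2.add h1
  simp only [sub_add_cancel, zero_add] at h5
  exact h5

theorem exists_C0_eb (i : Tr) : ∃ i', C 0 (eb i) = eb i' := by
  obtain ⟨j, w, rfl⟩ := exists_sf i
  refine ⟨sf j (sf 0 w), ?_⟩
  rw [← s_eb, ← s_eb, ← s_eb, ← mul_apply', C_mul_s]
  rfl

theorem exists_wit {g : II} (hg : g ≠ 0) : ∃ N, Wit N g := by
  classical
  obtain ⟨t₀, x₀, i₀, h0'⟩ : ∃ (t₀ : I) (x₀ : XX) (v : Tr), (g.at' t₀).fn x₀ (eb v) ≠ 0 := by
    by_contra hcon
    push Not at hcon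
    apply hg
    ext t x : 2
    apply op_ext
    intro v
    rw [hcon t x v]
    rfl
  set v : Hb := eb i₀ with hv
  have h0 : (g.at' t₀).fn x₀ v ≠ 0 := h0'
  have hδ : 0 < ‖(g.at' t₀).fn x₀ v‖ / 2 := by
    have := norm_pos_iff.2 h0
    linarith
  have hO : IsOpen {p : I × XX | ‖(g.at' t₀).fn x₀ v‖ / 2 < ‖(g.at' p.1).fn p.2 v‖} :=
    isOpen_lt continuous_const (continuous_joint g v).norm
  obtain ⟨U, W, hU, hW, htU, hxW, hsub⟩ := isOpen_prod_iff.1 hO t₀ x₀ (by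
    have := norm_pos_iff.2 h0
    simp only [Set.mem_ofPred_eq]
    linarith)
  obtain ⟨F', u, hu, hpi⟩ := isOpen_pi_iff.1 hW x₀ hxW
  refine ⟨(Finset.eraseNone F').card, Finset.eraseNone F', i₀, ‖(g.at' t₀).fn x₀ v‖ / 2,
    U ×ˢ ((F' : Set Ix).pi u), le_rfl, hδ,
    hU.prod (isOpen_set_pi F'.finite_toSet fun a ha => (hu a ha).1),
    ⟨(t₀, x₀), htU, fun a ha => (hu a ha).2⟩, ?_, ?_⟩
  · rintro p p' ⟨hp1, hp2⟩ h1 h2 h3
    refine ⟨by rw [h1]; exact hp1, fun a ha => ?_⟩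
    rcases a with _ | κ
    · rw [h3]; exact hp2 none ha
    · rw [h2 κ (Finset.mem_eraseNone.2 ha)]; exact hp2 (some κ) ha
  · rintro p ⟨hp1, hp2⟩
    exact (hsub ⟨hp1, hpi hp2⟩ : _ < _).le

theorem Wit.mono {N M : ℕ} {g : II} (h : Wit N g) (hNM : N ≤ M) : Wit M g := by
  obtain ⟨F, v, δ, O, hF, h⟩ := h
  exact ⟨F, v, δ, O, hF.trans hNM, h⟩

theorem Wit.step {N : ℕ} {g : II} (h : Wit N g) (k : ℕ) : Wit N (Phi k g) := by
  classical
  obtain ⟨F, v, δ, O, hF, hδ, hO, hne, hsat, hlow⟩ := h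
  obtain ⟨v', hv'⟩ := exists_C0_eb v
  have hc : Continuous fun p : I × XX => (p.1, sg0 p.2) :=
    continuous_fst.prodMk ((continuous_pull src0 fun _ => ee).comp continuous_snd)
  refine ⟨F.image fun κ => (κ.1, 3 * κ.2), v', δ, (fun p : I × XX => (p.1, sg0 p.2)) ⁻¹' O,
    Finset.card_image_le.trans hF, hδ, hO.preimage hc, ?_, ?_, ?_⟩
  · obtain ⟨⟨t, x⟩, hp⟩ := hne
    refine ⟨(t, lift0 x), ?_⟩
    simp only [Set.mem_preimage, sg0_lift0]
    exact hp
  · intro p p' hp h1 h2 h3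
    refine hsat _ _ hp h1 (fun κ hκ => ?_) ?_
    · simp only [sg0_some]
      exact h2 _ (Finset.mem_image_of_mem _ hκ)
    · simp only [sg0_none]
      exact h3
  · intro p hp
    have h1 := congrArg (fun T : Op => T (eb v)) (fn_Phi_mul_C0 k g p.1 p.2)
    have h2 : ((Phi k g).at' p.1).fn p.2 (C 0 (eb v)) = C 0 ((g.at' p.1).fn (sg0 p.2) (eb v)) := h1
    rw [← hv', h2, norm_C]
    exact hlow (p.1, sg0 p.2) hp

theorem Wit.param {k : ℕ} {g : II} (h : Wit k g) :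
    ∃ (v : Tr) (δ : ℝ) (a : Cix), 0 < δ ∧
      ∀ (r θ : Bool) (n : ℕ) (x : XX), pat n = a →
        δ ≤ ‖(g.at' ((par k r).tau n)).fn
          ((par k r).xi (fun _ => θ) Ent.yy n x) (eb v)‖ := by
  classical
  obtain ⟨F, v, δ, O, hF, hδ, hO, hne, hsat, hlow⟩ := h
  obtain ⟨i, hi⟩ := denseRange_dpt.exists_mem_open hO hne
  refine ⟨v, δ, (i, F), hδ, fun r θ n x hn => ?_⟩
  have hFn : (par k r).F n = F := by
    change (if (pat n).2.card ≤ k then (pat n).2 else ∅ : Finset (Bool × ℕ)) = F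
    rw [hn, if_pos hF]
  refine hlow ((par k r).tau n, (par k r).xi (fun _ => θ) Ent.yy n x)
    (hsat _ _ hi ?_ (fun κ hκ => ?_) ?_)
  · change (dpt (pat n).1).1 = (dpt i).1
    rw [hn]
  · change pick (if κ ∈ (par k r).F n then none else _) ((dpt (pat n).1).2 (some κ)) x =
      (dpt i).2 (some κ)
    rw [hFn, if_pos hκ, hn]
    rfl
  · change (dpt (pat n).1).2 none = (dpt i).2 none
    rw [hn]

end Pool.Agent.Lib.Eln
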